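import Pool.Agent.CMZ.Count

/-!
# Module IS: sums over ideals

PROOFS. All from `ic` (module IC): dyadic decomposition, and for `sum_inv` partial summation: `N(u) = #{N I ≤ u} = ρ u + E(u)`,
`|E(u)| ≤ C u^(1-δ)`, `δ = 1/(2n)`; for `I ∈ rg u`, `(N I)^(-1) = u^(-1) + ∫_{N I}^{u} t^(-2) dt`, so
`∑_{rg u} (N I)^(-1) = N(u)/u + ∫_1^u N(t)/t² dt = ρ + ρ log u + ∫_1^∞ E(t)/t² dt + O(u^(-δ))`.
`ker_sum`: split at `N I ≤ 1/y`. Summability of `(N I)^(-a)`, `a > 1`: `Pool.ZD.summable_nm`.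
-/

open scoped NumberField nonZeroDivisors
open NumberField NumberField.InfinitePlace NumberField.mixedEmbedding NumberField.Units
  NumberField.Units.dirichletUnitTheorem Pool.ZD MeasureTheory

namespace Pool.Agent.CMZ

set_option linter.unusedSectionVars false

variable (K : Type) [Field K] [NumberField K]

theorem card_le (hn : 2 ≤ nn K) : ∃ C : ℝ, 0 < C ∧ ∀ u : ℝ, 0 < u →
    ((rg K u).card : ℝ) ≤ C * u := by
  obtain ⟨ρ, C, hρ, hC, h⟩ := ic K hn
  refine ⟨ρ + C, by positivity, ?_⟩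
  intro u hu
  rcases lt_or_ge u 1 with h1 | h1
  · rw [rg_empty K h1, Finset.card_empty, Nat.cast_zero]
    positivity
  · have h2 := (abs_le.1 (h u hu)).2
    have h3 : u ^ (1 - 1 / (2 * (nn K : ℝ))) ≤ u := by
      conv_rhs => rw [← Real.rpow_one u]
      refine Real.rpow_le_rpow_of_exponent_le h1 ?_
      have : (0 : ℝ) ≤ 1 / (2 * (nn K : ℝ)) := by positivity
      linarith
    nlinarith

namespace SumsAux

/-- The sum over the ideals with norm in `(u,2u]`. -/
theorem block {C : ℝ} (hcard : ∀ u : ℝ, 0 < u → ((rg K u).card : ℝ) ≤ C * u)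
    {a : ℝ} (ha : 0 ≤ a) {u : ℝ} (hu : 0 < u) :
    ∑ I ∈ (rg K (2 * u)).filter (fun I => u < nm K I), nm K I ^ (-a) ≤ 2 * C * u ^ (1 - a) := by
  have h1 : ∀ I ∈ (rg K (2 * u)).filter (fun I => u < nm K I), nm K I ^ (-a) ≤ u ^ (-a) := by
    intro I hI
    rw [Finset.mem_filter] at hI
    exact Real.rpow_le_rpow_of_nonpos hu hI.2.le (by linarith)
  refine (Finset.sum_le_sum h1).trans ?_
  rw [Finset.sum_const, nsmul_eq_mul]
  have h2 : (((rg K (2 * u)).filter (fun I => u < nm K I)).card : ℝ) ≤ C * (2 * u) := by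
    refine le_trans ?_ (hcard (2 * u) (by positivity))
    exact_mod_cast Finset.card_filter_le _ _
  calc (((rg K (2 * u)).filter (fun I => u < nm K I)).card : ℝ) * u ^ (-a) ≤
      C * (2 * u) * u ^ (-a) := mul_le_mul_of_nonneg_right h2 (by positivity)
    _ = 2 * C * (u * u ^ (-a)) := by ring
    _ = 2 * C * u ^ (1 - a) := by
        rw [sub_eq_add_neg, Real.rpow_add hu, Real.rpow_one]

theorem tail_fin {C : ℝ} (hC : 0 < C) (hcard : ∀ u : ℝ, 0 < u → ((rg K u).card : ℝ) ≤ C * u)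
    {a : ℝ} (ha : 1 < a) : ∀ (j : ℕ) (u v : ℝ), 0 < u → v < 2 ^ j * u →
    ∑ I ∈ (rg K v).filter (fun I => u < nm K I), nm K I ^ (-a) ≤
      2 * C / (1 - (1 / 2) ^ (a - 1)) * u ^ (1 - a) := by
  have hr : ((1 : ℝ) / 2) ^ (a - 1) < 1 :=
    Real.rpow_lt_one (by norm_num) (by norm_num) (by linarith)
  have hr0 : 0 < 1 - ((1 : ℝ) / 2) ^ (a - 1) := by linarith
  intro j
  induction j with
  | zero =>
    intro u v hu hv
    have h1 : (rg K v).filter (fun I => u < nm K I) = ∅ := by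
      rw [Finset.filter_eq_empty_iff]
      intro I hI
      rw [mem_rg] at hI
      rw [pow_zero, one_mul] at hv
      linarith
    rw [h1, Finset.sum_empty]
    positivity
  | succ j ih =>
    intro u v hu hv
    have h1 := ih (2 * u) v (by positivity) (by rw [pow_succ] at hv; linarith)
    have h2 := block K hcard (a := a) (by linarith) hu
    have h3 : ∑ I ∈ (rg K v).filter (fun I => u < nm K I), nm K I ^ (-a) ≤
        ∑ I ∈ (rg K (2 * u)).filter (fun I => u < nm K I), nm K I ^ (-a) +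
        ∑ I ∈ (rg K v).filter (fun I => 2 * u < nm K I), nm K I ^ (-a) := by
      classical
      rw [← Finset.sum_union]
      · refine Finset.sum_le_sum_of_subset_of_nonneg ?_ fun I _ _ => ?_
        · intro I hI
          rw [Finset.mem_filter, mem_rg] at hI
          rw [Finset.mem_union, Finset.mem_filter, Finset.mem_filter, mem_rg, mem_rg]
          rcases le_or_gt (nm K I) (2 * u) with h | h
          · exact Or.inl ⟨h, hI.2⟩
          · exact Or.inr ⟨hI.1, h⟩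
        · exact Real.rpow_nonneg (nm_pos I).le _
      · rw [Finset.disjoint_left]
        intro I h4 h5
        rw [Finset.mem_filter, mem_rg] at h4 h5
        linarith [h4.1, h5.2]
    refine h3.trans ((add_le_add h2 h1).trans ?_)
    have h4 : (2 * u) ^ (1 - a) = (1 / 2) ^ (a - 1) * u ^ (1 - a) := by
      rw [Real.mul_rpow (by norm_num) hu.le]
      congr 1
      rw [one_div, Real.inv_rpow (by norm_num), ← Real.rpow_neg (by norm_num)]
      congr 1
      ring
    rw [h4]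
    refine le_of_eq ?_
    field_simp
    ring

open Classical in
theorem tail_all {C : ℝ} (hC : 0 < C) (hcard : ∀ u : ℝ, 0 < u → ((rg K u).card : ℝ) ≤ C * u)
    {a : ℝ} (ha : 1 < a) (u : ℝ) (hu : 0 < u) :
    ∑' I : II K, (if nm K I ≤ u then 0 else nm K I ^ (-a)) ≤
      2 * C / (1 - (1 / 2) ^ (a - 1)) * u ^ (1 - a) := by
  refine Real.tsum_le_of_sum_le (fun I => ?_) fun s => ?_
  · split_ifs
    · exact le_rfl
    · exact Real.rpow_nonneg (nm_pos I).le _
  · set v : ℝ := ∑ I ∈ s, nm K I with hv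
    obtain ⟨j, hj⟩ := pow_unbounded_of_one_lt (v / u) (by norm_num : (1 : ℝ) < 2)
    rw [div_lt_iff₀ hu] at hj
    refine le_trans ?_ (tail_fin K hC hcard ha j u v hu hj)
    have h1 : ∑ I ∈ s, (if nm K I ≤ u then 0 else nm K I ^ (-a)) =
        ∑ I ∈ s.filter (fun I => ¬ nm K I ≤ u), nm K I ^ (-a) := by
      rw [Finset.sum_filter]
      refine Finset.sum_congr rfl fun I _ => ?_
      split_ifs <;> rfl
    rw [h1]
    refine Finset.sum_le_sum_of_subset_of_nonneg ?_ fun I _ _ =>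
      Real.rpow_nonneg (nm_pos I).le _
    intro I hI
    rw [Finset.mem_filter, not_le] at hI
    rw [Finset.mem_filter, mem_rg]
    exact ⟨Finset.single_le_sum (f := fun I => nm K I) (fun I _ => (nm_pos I).le) hI.1, hI.2⟩

theorem int_step {ν u : ℝ} (h1 : 1 ≤ ν) (h2 : ν ≤ u) :
    IntervalIntegrable (fun t : ℝ => if ν ≤ t then (t ^ 2)⁻¹ else 0) volume 1 u ∧
    ∫ t in (1 : ℝ)..u, (if ν ≤ t then (t ^ 2)⁻¹ else 0) = ν⁻¹ - u⁻¹ := by
  have hν : 0 < ν := by linarith
  have hu : 0 < u := by linarith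
  have hae : ∀ᵐ x : ℝ ∂volume, x ≠ ν := by
    have : (volume : Measure ℝ) {ν} = 0 := by simp
    rw [← compl_mem_ae_iff] at this
    filter_upwards [this] with x hx
    simpa using hx
  have e1 : ∀ᵐ x : ℝ ∂volume, x ∈ Set.uIoc 1 ν → (if ν ≤ x then (x ^ 2)⁻¹ else 0) = (0 : ℝ) := by
    filter_upwards [hae] with x hx hx2
    rw [Set.uIoc_of_le h1, Set.mem_Ioc] at hx2
    rw [if_neg]
    exact not_le.2 (lt_of_le_of_ne hx2.2 hx)
  have i1 : IntervalIntegrable (fun t : ℝ => if ν ≤ t then (t ^ 2)⁻¹ else 0) volume 1 ν := by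
    refine (intervalIntegrable_const (c := (0 : ℝ))).congr_ae ?_
    rw [Filter.EventuallyEq, ae_restrict_iff' measurableSet_uIoc]
    filter_upwards [e1] with x hx hx2
    exact (hx hx2).symm
  have e2 : ∀ x ∈ Set.uIcc ν u, (if ν ≤ x then (x ^ 2)⁻¹ else 0) = (x ^ 2)⁻¹ := by
    intro x hx
    rw [Set.uIcc_of_le h2, Set.mem_Icc] at hx
    rw [if_pos hx.1]
  have hcont : ContinuousOn (fun x : ℝ => (x ^ 2)⁻¹) (Set.uIcc ν u) := by
    refine ContinuousOn.inv₀ (by fun_prop) ?_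
    intro x hx
    rw [Set.uIcc_of_le h2, Set.mem_Icc] at hx
    have : 0 < x := by linarith [hx.1]
    positivity
  have i2 : IntervalIntegrable (fun t : ℝ => if ν ≤ t then (t ^ 2)⁻¹ else 0) volume ν u := by
    refine (hcont.intervalIntegrable).congr ?_
    intro x hx
    exact (e2 x (Set.uIoc_subset_uIcc hx)).symm
  refine ⟨i1.trans i2, ?_⟩
  rw [← intervalIntegral.integral_add_adjacent_intervals i1 i2,
    intervalIntegral.integral_zero_ae e1, zero_add, intervalIntegral.integral_congr e2]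
  have h3 : ∀ x ∈ Set.uIcc ν u, HasDerivAt (fun x : ℝ => -x⁻¹) ((x ^ 2)⁻¹) x := by
    intro x hx
    rw [Set.uIcc_of_le h2, Set.mem_Icc] at hx
    have hx0 : x ≠ 0 := by linarith [hx.1]
    have := (hasDerivAt_inv hx0).neg
    rwa [neg_neg] at this
  rw [intervalIntegral.integral_eq_sub_of_hasDerivAt h3 hcont.intervalIntegrable]
  ring

/-- Partial summation for the sum of the inverse norms. -/
theorem abel {u : ℝ} (hu : 1 ≤ u) :
    ∑ I ∈ rg K u, (nm K I)⁻¹ = ((rg K u).card : ℝ) * u⁻¹ +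
      ∫ t in (1 : ℝ)..u, ((rg K t).card : ℝ) * (t ^ 2)⁻¹ := by
  have h1 : ∀ I ∈ rg K u, (nm K I)⁻¹ = u⁻¹ +
      ∫ t in (1 : ℝ)..u, (if nm K I ≤ t then (t ^ 2)⁻¹ else 0) := by
    intro I hI
    rw [mem_rg] at hI
    rw [(int_step (nm_one_le I) hI).2]
    ring
  rw [Finset.sum_congr rfl h1, Finset.sum_add_distrib, Finset.sum_const, nsmul_eq_mul,
    ← intervalIntegral.integral_finsetSum]
  · congr 1
    refine intervalIntegral.integral_congr fun t ht => ?_
    rw [Set.uIcc_of_le hu, Set.mem_Icc] at ht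
    rw [← Finset.sum_filter, Finset.sum_const, nsmul_eq_mul]
    congr 3
    ext I
    rw [Finset.mem_filter, mem_rg, mem_rg]
    constructor
    · rintro ⟨_, h⟩
      exact h
    · intro h
      exact ⟨h.trans ht.2, h⟩
  · intro I hI
    rw [mem_rg] at hI
    exact (int_step (nm_one_le I) hI).1

theorem mono_card : Monotone (fun t : ℝ => ((rg K t).card : ℝ)) := by
  intro s t h
  have h1 : (rg K s).card ≤ (rg K t).card := Finset.card_le_card (rg_mono h)
  exact Nat.cast_le.2 h1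

end SumsAux

open SumsAux

theorem sum_inv (hn : 2 ≤ nn K) : ∃ ρ c₀ C : ℝ, 0 < ρ ∧ 0 < C ∧
    (∀ u : ℝ, 0 < u → |((rg K u).card : ℝ) - ρ * u| ≤ C * u ^ (1 - 1 / (2 * (nn K : ℝ)))) ∧
    ∀ u : ℝ, 1 ≤ u → |∑ I ∈ rg K u, (nm K I)⁻¹ - ρ * Real.log u - c₀| ≤
      C * u ^ (-(1 / (2 * (nn K : ℝ)))) := by
  obtain ⟨ρ, C, hρ, hC, h⟩ := ic K hn
  have hn0 : (0 : ℝ) < nn K := by
    have : 0 < nn K := by omega
    exact_mod_cast this
  set δ : ℝ := 1 / (2 * (nn K : ℝ)) with hδ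
  have hδ0 : 0 < δ := by positivity
  set E : ℝ → ℝ := fun t => ((rg K t).card : ℝ) - ρ * t with hE
  have hEm : Measurable E := (mono_card K).measurable.sub (measurable_const.mul measurable_id)
  have hbd : ∀ t : ℝ, 0 < t → |E t * (t ^ 2)⁻¹| ≤ C * t ^ (-1 - δ) := by
    intro t ht
    rw [abs_mul, abs_of_pos (by positivity : (0 : ℝ) < (t ^ 2)⁻¹)]
    have h1 := h t ht
    have h2 : t ^ (-1 - δ) = t ^ (1 - δ) * (t ^ 2)⁻¹ := by
      rw [← Real.rpow_natCast t 2, ← Real.rpow_neg ht.le, ← Real.rpow_add ht]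
      congr 1
      push_cast
      ring
    rw [h2, ← mul_assoc]
    exact mul_le_mul_of_nonneg_right h1 (by positivity)
  have hint : ∀ c : ℝ, 0 < c → IntegrableOn (fun t => E t * (t ^ 2)⁻¹) (Set.Ioi c) := by
    intro c hc
    have h1 : IntegrableOn (fun t : ℝ => C * t ^ (-1 - δ)) (Set.Ioi c) :=
      (integrableOn_Ioi_rpow_of_lt (by linarith) hc).const_mul C
    refine h1.mono' ?_ ?_
    · exact (hEm.mul (measurable_id.pow_const 2).inv).aestronglyMeasurable
    · rw [ae_restrict_iff' measurableSet_Ioi]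
      refine Filter.Eventually.of_forall fun t ht => ?_
      exact hbd t (lt_trans hc ht)
  have htail : ∀ u : ℝ, 1 ≤ u → |∫ t in Set.Ioi u, E t * (t ^ 2)⁻¹| ≤ C / δ * u ^ (-δ) := by
    intro u hu
    have hu0 : 0 < u := by linarith
    have h1 : IntegrableOn (fun t : ℝ => C * t ^ (-1 - δ)) (Set.Ioi u) :=
      (integrableOn_Ioi_rpow_of_lt (by linarith) hu0).const_mul C
    have h2 := norm_integral_le_of_norm_le (μ := volume.restrict (Set.Ioi u)) h1
      (f := fun t => E t * (t ^ 2)⁻¹) (by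
        rw [ae_restrict_iff' measurableSet_Ioi]
        refine Filter.Eventually.of_forall fun t ht => ?_
        exact hbd t (lt_trans hu0 ht))
    rw [Real.norm_eq_abs] at h2
    refine h2.trans (le_of_eq ?_)
    rw [integral_const_mul, integral_Ioi_rpow_of_lt (by linarith) hu0]
    rw [show -1 - δ + 1 = -δ by ring]
    field_simp
  refine ⟨ρ, ρ + ∫ t in Set.Ioi (1 : ℝ), E t * (t ^ 2)⁻¹, C + C / δ, hρ, by positivity, ?_, ?_⟩
  · intro u hu
    refine (h u hu).trans ?_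
    refine mul_le_mul_of_nonneg_right ?_ (by positivity)
    have : 0 < C / δ := by positivity
    linarith
  · intro u hu
    have hu0 : 0 < u := by linarith
    have hii : IntervalIntegrable (fun t => E t * (t ^ 2)⁻¹) volume 1 u := by
      rw [intervalIntegrable_iff_integrableOn_Ioc_of_le hu]
      exact (hint 1 one_pos).mono_set Set.Ioc_subset_Ioi_self
    have hne : ∀ x ∈ Set.uIcc 1 u, x ≠ 0 := by
      intro x hx
      rw [Set.uIcc_of_le hu, Set.mem_Icc] at hx
      linarith [hx.1]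
    have hinv : IntervalIntegrable (fun t : ℝ => ρ * t⁻¹) volume 1 u := by
      refine (intervalIntegral.intervalIntegrable_inv (f := fun t : ℝ => t) hne ?_).const_mul ρ
      exact continuousOn_id
    have h1 : ∫ t in (1 : ℝ)..u, ((rg K t).card : ℝ) * (t ^ 2)⁻¹ =
        ρ * Real.log u + ∫ t in (1 : ℝ)..u, E t * (t ^ 2)⁻¹ := by
      have h2 : ∫ t in (1 : ℝ)..u, ((rg K t).card : ℝ) * (t ^ 2)⁻¹ =
          ∫ t in (1 : ℝ)..u, (ρ * t⁻¹ + E t * (t ^ 2)⁻¹) := by
        refine intervalIntegral.integral_congr fun t ht => ?_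
        have ht0 := hne t ht
        rw [hE]
        simp only
        field_simp
        ring
      rw [h2, intervalIntegral.integral_add hinv hii, intervalIntegral.integral_const_mul,
        integral_inv_of_pos one_pos hu0, div_one]
    have h3 : ∫ t in (1 : ℝ)..u, E t * (t ^ 2)⁻¹ =
        (∫ t in Set.Ioi (1 : ℝ), E t * (t ^ 2)⁻¹) - ∫ t in Set.Ioi u, E t * (t ^ 2)⁻¹ :=
      (intervalIntegral.integral_Ioi_sub_Ioi (hint 1 one_pos) hu).symm
    have h4 : ((rg K u).card : ℝ) * u⁻¹ = ρ + E u * u⁻¹ := by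
      rw [hE]
      simp only
      field_simp
      ring
    have h5 : |E u * u⁻¹| ≤ C * u ^ (-δ) := by
      rw [abs_mul, abs_of_pos (by positivity : (0 : ℝ) < u⁻¹)]
      have h6 : u ^ (-δ) = u ^ (1 - δ) * u⁻¹ := by
        rw [← Real.rpow_neg_one u, ← Real.rpow_add hu0]
        congr 1
        ring
      rw [h6, ← mul_assoc]
      exact mul_le_mul_of_nonneg_right (h u hu0) (by positivity)
    rw [abel K hu, h1, h3, h4]
    have h7 : ρ + E u * u⁻¹ + (ρ * Real.log u + ((∫ t in Set.Ioi (1 : ℝ), E t * (t ^ 2)⁻¹) -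
        ∫ t in Set.Ioi u, E t * (t ^ 2)⁻¹)) - ρ * Real.log u -
        (ρ + ∫ t in Set.Ioi (1 : ℝ), E t * (t ^ 2)⁻¹) =
        E u * u⁻¹ - ∫ t in Set.Ioi u, E t * (t ^ 2)⁻¹ := by ring
    rw [h7]
    refine (abs_sub _ _).trans ((add_le_add h5 (htail u hu)).trans (le_of_eq ?_))
    ring

theorem sum_inv_le (hn : 2 ≤ nn K) : ∃ C : ℝ, 0 < C ∧ ∀ u : ℝ, 1 ≤ u →
    ∑ I ∈ rg K u, (nm K I)⁻¹ ≤ C * (1 + Real.log u) := by
  obtain ⟨ρ, c₀, C, hρ, hC, -, h⟩ := sum_inv K hn
  refine ⟨ρ + |c₀| + C, by positivity, ?_⟩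
  intro u hu
  have h1 := (abs_le.1 (h u hu)).2
  have h2 : u ^ (-(1 / (2 * (nn K : ℝ)))) ≤ 1 := by
    refine Real.rpow_le_one_of_one_le_of_nonpos hu ?_
    have : (0 : ℝ) ≤ 1 / (2 * (nn K : ℝ)) := by positivity
    linarith
  have h3 := le_abs_self c₀
  have h4 := Real.log_nonneg hu
  have h5 := abs_nonneg c₀
  nlinarith [mul_nonneg h5 h4, mul_nonneg hC.le h4, mul_nonneg hρ.le h4,
    mul_le_mul_of_nonneg_left h2 hC.le]

theorem sum_rpow_le (hn : 2 ≤ nn K) (a : ℝ) (h0 : 0 ≤ a) (h1 : a < 1) : ∃ C : ℝ, 0 < C ∧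
    ∀ u : ℝ, 0 < u → ∑ I ∈ rg K u, nm K I ^ (-a) ≤ C * u ^ (1 - a) := by
  obtain ⟨C, hC, hcard⟩ := card_le K hn
  have hr : ((1 : ℝ) / 2) ^ (1 - a) < 1 :=
    Real.rpow_lt_one (by norm_num) (by norm_num) (by linarith)
  have hr0 : 0 < 1 - ((1 : ℝ) / 2) ^ (1 - a) := by linarith
  refine ⟨2 * C / (1 - (1 / 2) ^ (1 - a)), by positivity, ?_⟩
  have hmain : ∀ j : ℕ, ∀ u : ℝ, 0 < u → u < 2 ^ j →
      ∑ I ∈ rg K u, nm K I ^ (-a) ≤ 2 * C / (1 - (1 / 2) ^ (1 - a)) * u ^ (1 - a) := by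
    intro j
    induction j with
    | zero =>
      intro u hu hu2
      rw [pow_zero] at hu2
      rw [rg_empty K hu2, Finset.sum_empty]
      positivity
    | succ j ih =>
      intro u hu hu2
      have h2 := ih (u / 2) (by positivity) (by rw [pow_succ] at hu2; linarith)
      have h3 := block K hcard (a := a) h0 (u := u / 2) (by positivity)
      rw [show 2 * (u / 2) = u by ring] at h3
      have h4 : ∑ I ∈ rg K u, nm K I ^ (-a) =
          ∑ I ∈ (rg K u).filter (fun I => u / 2 < nm K I), nm K I ^ (-a) +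
          ∑ I ∈ rg K (u / 2), nm K I ^ (-a) := by
        rw [← Finset.sum_filter_add_sum_filter_not (rg K u) (fun I => u / 2 < nm K I)]
        congr 2
        ext I
        rw [Finset.mem_filter, mem_rg, mem_rg, not_lt]
        constructor
        · rintro ⟨_, h⟩
          exact h
        · intro h
          exact ⟨by linarith, h⟩
      rw [h4]
      refine (add_le_add h3 h2).trans ?_
      have h5 : (u / 2) ^ (1 - a) = (1 / 2) ^ (1 - a) * u ^ (1 - a) := by
        rw [← Real.mul_rpow (by norm_num) hu.le]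
        congr 1
        ring
      have h6 : 0 < u ^ (1 - a) := by positivity
      rw [h5]
      set r := ((1 : ℝ) / 2) ^ (1 - a) with hrdef
      have hrpos : 0 < r := by positivity
      have h7 : 2 * C * (r * u ^ (1 - a)) + 2 * C / (1 - r) * (r * u ^ (1 - a)) ≤
          2 * C / (1 - r) * u ^ (1 - a) := by
        have h8 : 2 * C / (1 - r) * u ^ (1 - a) - (2 * C * (r * u ^ (1 - a)) +
            2 * C / (1 - r) * (r * u ^ (1 - a))) = 2 * C * u ^ (1 - a) * (1 - r) := by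
          field_simp
          ring
        have h9 : 0 ≤ 2 * C * u ^ (1 - a) * (1 - r) := by positivity
        linarith
      exact h7
  intro u hu
  obtain ⟨j, hj⟩ := pow_unbounded_of_one_lt u (by norm_num : (1 : ℝ) < 2)
  exact hmain j u hu hj

theorem summable_rpow (a : ℝ) (h1 : 1 < a) : Summable fun I : II K => nm K I ^ (-a) :=
  Pool.ZD.summable_nm K a h1

open Classical in
theorem tail_rpow (hn : 2 ≤ nn K) (a : ℝ) (h1 : 1 < a) : ∃ C : ℝ, 0 < C ∧
    ∀ u : ℝ, 0 < u → ∑' I : II K, (if nm K I ≤ u then 0 else nm K I ^ (-a)) ≤ C * u ^ (1 - a) := by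
  obtain ⟨C, hC, hcard⟩ := card_le K hn
  have hr : ((1 : ℝ) / 2) ^ (a - 1) < 1 :=
    Real.rpow_lt_one (by norm_num) (by norm_num) (by linarith)
  have hr0 : 0 < 1 - ((1 : ℝ) / 2) ^ (a - 1) := by linarith
  refine ⟨2 * C / (1 - (1 / 2) ^ (a - 1)), by positivity, ?_⟩
  intro u hu
  exact tail_all K hC hcard h1 u hu

theorem ker_sum (hn : 2 ≤ nn K) : ∃ C : ℝ, 0 < C ∧ ∀ y : ℝ, 0 < y →
    (Summable fun I : II K => min ((nm K I * y) ^ (-(1 / 2) : ℝ)) ((nm K I * y) ^ (-2 : ℝ))) ∧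
    ∑' I : II K, min ((nm K I * y) ^ (-(1 / 2) : ℝ)) ((nm K I * y) ^ (-2 : ℝ)) ≤ C / y := by
  classical
  obtain ⟨C1, hC1, h1⟩ := sum_rpow_le K hn (1 / 2) (by norm_num) (by norm_num)
  obtain ⟨C2, hC2, h2⟩ := tail_rpow K hn 2 (by norm_num)
  refine ⟨C1 + C2, by positivity, ?_⟩
  intro y hy
  have hs2 : Summable fun I : II K => y ^ (-2 : ℝ) * nm K I ^ (-2 : ℝ) :=
    (summable_rpow K 2 (by norm_num)).mul_left _
  have hnn : ∀ I : II K, 0 ≤ min ((nm K I * y) ^ (-(1 / 2) : ℝ)) ((nm K I * y) ^ (-2 : ℝ)) := by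
    intro I
    have := nm_pos I
    positivity
  have hsum : Summable fun I : II K =>
      min ((nm K I * y) ^ (-(1 / 2) : ℝ)) ((nm K I * y) ^ (-2 : ℝ)) := by
    refine Summable.of_nonneg_of_le hnn (fun I => ?_) hs2
    refine (min_le_right _ _).trans (le_of_eq ?_)
    rw [Real.mul_rpow (nm_pos I).le hy.le, mul_comm]
  refine ⟨hsum, ?_⟩
  set f1 : II K → ℝ := fun I => if nm K I ≤ 1 / y then (nm K I * y) ^ (-(1 / 2) : ℝ) else 0 with hf1
  set f2 : II K → ℝ := fun I => y ^ (-2 : ℝ) * (if nm K I ≤ 1 / y then 0 else nm K I ^ (-2 : ℝ))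
    with hf2
  have hsupp : ∀ I ∉ rg K (1 / y), f1 I = 0 := by
    intro I hI
    rw [mem_rg] at hI
    rw [hf1]
    simp only
    rw [if_neg hI]
  have hsf1 : Summable f1 := summable_of_ne_finset_zero hsupp
  have hsf2 : Summable f2 := by
    refine Summable.of_nonneg_of_le (fun I => ?_) (fun I => ?_) hs2
    · rw [hf2]
      simp only
      have := nm_pos I
      split_ifs <;> positivity
    · rw [hf2]
      simp only
      have := nm_pos I
      refine mul_le_mul_of_nonneg_left ?_ (by positivity)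
      split_ifs
      · positivity
      · exact le_rfl
  have hle : ∀ I : II K, min ((nm K I * y) ^ (-(1 / 2) : ℝ)) ((nm K I * y) ^ (-2 : ℝ)) ≤
      f1 I + f2 I := by
    intro I
    rw [hf1, hf2]
    simp only
    split_ifs with h
    · rw [mul_zero, add_zero]
      exact min_le_left _ _
    · rw [zero_add]
      refine (min_le_right _ _).trans (le_of_eq ?_)
      rw [Real.mul_rpow (nm_pos I).le hy.le, mul_comm]
  have h3 : ∑' I : II K, f1 I ≤ C1 / y := by
    rw [tsum_eq_sum hsupp]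
    have h4 : ∑ I ∈ rg K (1 / y), f1 I = y ^ (-(1 / 2) : ℝ) *
        ∑ I ∈ rg K (1 / y), nm K I ^ (-(1 / 2) : ℝ) := by
      rw [Finset.mul_sum]
      refine Finset.sum_congr rfl fun I hI => ?_
      rw [mem_rg] at hI
      rw [hf1]
      simp only
      rw [if_pos hI, Real.mul_rpow (nm_pos I).le hy.le, mul_comm]
    rw [h4]
    have h5 := h1 (1 / y) (by positivity)
    calc y ^ (-(1 / 2) : ℝ) * ∑ I ∈ rg K (1 / y), nm K I ^ (-(1 / 2) : ℝ)
        ≤ y ^ (-(1 / 2) : ℝ) * (C1 * (1 / y) ^ (1 - 1 / 2 : ℝ)) :=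
          mul_le_mul_of_nonneg_left h5 (by positivity)
      _ = C1 * (y ^ (-(1 / 2) : ℝ) * (1 / y) ^ (1 - 1 / 2 : ℝ)) := by ring
      _ = C1 / y := by
        rw [one_div y, Real.inv_rpow hy.le, ← Real.rpow_neg hy.le, ← Real.rpow_add hy,
          show -(1 / 2 : ℝ) + -(1 - 1 / 2) = -1 by norm_num, Real.rpow_neg_one]
        rfl
  have h6 : ∑' I : II K, f2 I ≤ C2 / y := by
    rw [hf2, tsum_mul_left]
    have h5 := h2 (1 / y) (by positivity)
    calc y ^ (-2 : ℝ) * ∑' I : II K, (if nm K I ≤ 1 / y then 0 else nm K I ^ (-2 : ℝ))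
        ≤ y ^ (-2 : ℝ) * (C2 * (1 / y) ^ (1 - 2 : ℝ)) :=
          mul_le_mul_of_nonneg_left h5 (by positivity)
      _ = C2 * (y ^ (-2 : ℝ) * (1 / y) ^ (1 - 2 : ℝ)) := by ring
      _ = C2 / y := by
        rw [one_div y, Real.inv_rpow hy.le, ← Real.rpow_neg hy.le, ← Real.rpow_add hy,
          show (-2 : ℝ) + -(1 - 2) = -1 by norm_num, Real.rpow_neg_one]
        rfl
  calc ∑' I : II K, min ((nm K I * y) ^ (-(1 / 2) : ℝ)) ((nm K I * y) ^ (-2 : ℝ))
      ≤ ∑' I : II K, (f1 I + f2 I) := hsum.tsum_le_tsum hle (hsf1.add hsf2)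
    _ = ∑' I : II K, f1 I + ∑' I : II K, f2 I := hsf1.tsum_add hsf2
    _ ≤ C1 / y + C2 / y := add_le_add h3 h6
    _ = (C1 + C2) / y := by ring

open Classical in
/-- Bounds that are uniform in `θ`. -/
theorem zeta_theta (hn : 2 ≤ nn K) : ∃ C : ℝ, 0 < C ∧ ∀ θ : ℝ, 0 < θ → θ ≤ 1 →
    (∑' I : II K, nm K I ^ (-(1 + θ)) ≤ C / θ) ∧
    ∀ u : ℝ, 0 < u → ∑' I : II K, (if nm K I ≤ u then 0 else nm K I ^ (-(1 + θ))) ≤
      C * u ^ (-θ) / θ := by
  obtain ⟨C, hC, hcard⟩ := card_le K hn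
  refine ⟨8 * C, by positivity, ?_⟩
  intro θ hθ0 hθ1
  have hr : ((1 : ℝ) / 2) ^ θ ≤ 1 - θ / 2 := by
    have := rpow_one_add_le_one_add_mul_self (s := -(1 / 2)) (by norm_num) hθ0.le hθ1
    rw [show (1 : ℝ) + -(1 / 2) = 1 / 2 by norm_num] at this
    linarith
  have hc : 2 * C / (1 - (1 / 2) ^ θ) ≤ 4 * C / θ := by
    rw [div_le_div_iff₀ (by linarith) hθ0]
    nlinarith
  have htail : ∀ u : ℝ, 0 < u → ∑' I : II K, (if nm K I ≤ u then 0 else nm K I ^ (-(1 + θ))) ≤
      4 * C / θ * u ^ (-θ) := by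
    intro u hu
    have h1 := tail_all K hC hcard (a := 1 + θ) (by linarith) u hu
    rw [show 1 + θ - 1 = θ by ring, show 1 - (1 + θ) = -θ by ring] at h1
    exact h1.trans (mul_le_mul_of_nonneg_right hc (by positivity))
  constructor
  · have h1 := htail (1 / 2) (by norm_num)
    have h2 : ∑' I : II K, (if nm K I ≤ 1 / 2 then 0 else nm K I ^ (-(1 + θ))) =
        ∑' I : II K, nm K I ^ (-(1 + θ)) := by
      refine tsum_congr fun I => ?_
      rw [if_neg]
      have := nm_one_le I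
      linarith
    rw [h2] at h1
    refine h1.trans ?_
    have h3 : ((1 : ℝ) / 2) ^ (-θ) ≤ 2 := by
      rw [one_div, Real.inv_rpow (by norm_num), ← Real.rpow_neg (by norm_num), neg_neg]
      calc (2 : ℝ) ^ θ ≤ 2 ^ (1 : ℝ) := Real.rpow_le_rpow_of_exponent_le (by norm_num) hθ1
        _ = 2 := Real.rpow_one 2
    calc 4 * C / θ * (1 / 2) ^ (-θ) ≤ 4 * C / θ * 2 :=
          mul_le_mul_of_nonneg_left h3 (by positivity)
      _ = 8 * C / θ := by ring
  · intro u hu
    refine (htail u hu).trans ?_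
    have h4 : 0 < u ^ (-θ) := by positivity
    rw [div_mul_eq_mul_div]
    refine div_le_div_of_nonneg_right ?_ hθ0.le
    nlinarith [mul_pos hC h4]

end Pool.Agent.CMZ
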