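import Mathlib

set_option linter.all false

/-!
# Module PO: Poisson summation for Gaussians and lattices in Euclidean spaces

PROOF. Let `E` have the basis `B`, dual basis `B'` (`⟪B' i, B j⟫ = δ_ij`). `f(x) = exp(-π ‖∑ x_i B_i‖²)` on `ι → ℝ`; the periodization
`F(x) = ∑_k f(x + k)` is continuous on the torus `UnitAddTorus ι` (Mathlib: `Mathlib/Analysis/Fourier/AddCircleMulti.lean`); its Fourier coefficients are
`∫_{ℝ^ι} f(x) e^{-2πi l·x} dx` (unfold: `UnitAddTorus.mFourierCoeff_eq_integral`, sum of integrals over the translates of the unit cube), and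
the Fourier transform: substitute the isometry `E ≅ ℝ^n`/change of variables `x ↦ ∑ x_i B_i` (`|det| =` covolume `= volume (fundamentalDomain B)`),
`∑ l_i x_i = ⟪∑ l_i B'_i, ∑ x_i B_i⟫`, and the Fourier transform of `exp(-π‖y‖²)` on a Euclidean space is itself
(`fourier_gaussian_innerProductSpace` / `GaussianFourier.integral_cexp_neg_mul_sq_norm_add`). The coefficients are summable, so
`UnitAddTorus.hasSum_mFourier_series_apply_of_summable` gives the formula at the point `x` with `v = ∑ x_i B_i`.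
(An alternative is induction on the dimension with the one-dimensional Poisson formula.)
Summability: `‖∑ k_i B_i + v‖ ≥ c ‖k‖ - ‖v‖`.
-/

open scoped InnerProductSpace
open MeasureTheory

namespace Pool.Agent.CMZ

namespace PO

variable {ι : Type} [Fintype ι] {E : Type} [NormedAddCommGroup E] [InnerProductSpace ℝ E]

theorem exp_le_pow (c : ℝ) (hc : 0 < c) (n : ℕ) {t : ℝ} (ht : 0 < t) :
    Real.exp (-(c * t ^ 2)) ≤ (n.factorial / c ^ n) * t⁻¹ ^ (2 * n) := by
  have h1 := Real.pow_div_factorial_le_exp (c * t ^ 2) (by positivity) n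
  rw [Real.exp_neg]
  have h2 : 0 < (c * t ^ 2) ^ n / n.factorial := by positivity
  calc (Real.exp (c * t ^ 2))⁻¹ ≤ ((c * t ^ 2) ^ n / n.factorial)⁻¹ := inv_anti₀ h2 h1
    _ = (n.factorial / c ^ n) * t⁻¹ ^ (2 * n) := by
      rw [inv_div, mul_pow, ← pow_mul, inv_pow]
      field_simp

theorem gauss_summable' [FiniteDimensional ℝ E] (B : Module.Basis ι ℝ E) {c : ℝ} (hc : 0 < c)
    (v : E) : Summable fun k : ι → ℤ => Real.exp (-(c * ‖(∑ i, (k i : ℝ) • B i) + v‖ ^ 2)) := by
  classical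
  set L : Submodule ℤ E := Submodule.span ℤ (Set.range B) with hL
  let φ : (ι → ℤ) → L := fun k => ⟨∑ i, (k i : ℝ) • B i, by
    refine Submodule.sum_mem _ fun i _ => ?_
    rw [Int.cast_smul_eq_zsmul]
    exact Submodule.smul_mem _ _ (Submodule.subset_span ⟨i, rfl⟩)⟩
  have hφ : ∀ k, (φ k : E) = ∑ i, (k i : ℝ) • B i := fun k => rfl
  have hinj : Function.Injective φ := by
    intro k l h
    have h1 : ∑ i, (k i : ℝ) • B i = ∑ i, (l i : ℝ) • B i := congrArg Subtype.val h
    have h2 : (B.equivFun.symm fun i => (k i : ℝ)) = B.equivFun.symm fun i => (l i : ℝ) := by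
      rw [Module.Basis.equivFun_symm_apply, Module.Basis.equivFun_symm_apply]
      exact h1
    have h3 := B.equivFun.symm.injective h2
    funext i
    have h4 := congrFun h3 i
    exact_mod_cast h4
  set n : ℕ := Module.finrank ℤ L + 1 with hn
  have hs := ZLattice.summable_norm_sub_inv_pow L (2 * n) (by omega) (-v)
  have hs2 := (hs.comp_injective hinj).mul_left (n.factorial / c ^ n)
  refine Summable.of_norm_bounded_eventually hs2 ?_
  refine Set.Finite.subset (s := φ ⁻¹' {z : L | (z : E) = -v}) ?_ ?_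
  · refine Set.Finite.preimage hinj.injOn ?_
    refine Set.Subsingleton.finite ?_
    intro a ha b hb
    exact Subtype.ext (ha.trans hb.symm)
  · intro k hk
    simp only [Set.mem_preimage, Set.mem_setOf_eq]
    by_contra hne
    apply hk
    show ‖Real.exp (-(c * ‖(∑ i, (k i : ℝ) • B i) + v‖ ^ 2))‖ ≤ _
    rw [Real.norm_of_nonneg (Real.exp_nonneg _)]
    have ht : 0 < ‖(φ k : E) + v‖ := by
      rw [norm_pos_iff]
      intro h
      exact hne (eq_neg_of_add_eq_zero_left h)
    have h1 := exp_le_pow c hc n ht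
    refine h1.trans (le_of_eq ?_)
    simp only [Function.comp_apply, sub_neg_eq_add]

/-- The linear map `x ↦ ∑ x_i B_i`. -/
noncomputable def TT [FiniteDimensional ℝ E] (B : Module.Basis ι ℝ E) : (ι → ℝ) ≃L[ℝ] E :=
  B.equivFun.symm.toContinuousLinearEquiv

theorem TT_apply [FiniteDimensional ℝ E] (B : Module.Basis ι ℝ E) (x : ι → ℝ) :
    TT B x = ∑ i, x i • B i := by
  show B.equivFun.symm x = _
  rw [Module.Basis.equivFun_symm_apply]

/-- The periodized Gaussian. -/
noncomputable def Phi [FiniteDimensional ℝ E] (B : Module.Basis ι ℝ E) (y : E) : ℝ :=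
  ∑' k : ι → ℤ, Real.exp (-(Real.pi * ‖TT B (fun i => (k i : ℝ)) + y‖ ^ 2))

theorem sq_half (a y : E) : ‖a‖ ^ 2 / 2 - ‖y‖ ^ 2 ≤ ‖a + y‖ ^ 2 := by
  have h1 : ‖a‖ ≤ ‖a + y‖ + ‖y‖ := by
    calc ‖a‖ = ‖(a + y) - y‖ := by rw [add_sub_cancel_right]
      _ ≤ ‖a + y‖ + ‖y‖ := norm_sub_le _ _
  have h2 := norm_nonneg a
  have h3 := norm_nonneg (a + y)
  have h4 := norm_nonneg y
  nlinarith [sq_nonneg (‖a + y‖ - ‖y‖)]

theorem Phi_continuous [FiniteDimensional ℝ E] (B : Module.Basis ι ℝ E) : Continuous (Phi B) := by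
  rw [continuous_iff_continuousAt]
  intro y0
  set R : ℝ := ‖y0‖ + 1 with hR
  have hopen : IsOpen {y : E | ‖y‖ < R} := isOpen_lt continuous_norm continuous_const
  have hmem : y0 ∈ {y : E | ‖y‖ < R} := by
    show ‖y0‖ < R
    rw [hR]; linarith
  refine ContinuousOn.continuousAt (s := {y : E | ‖y‖ < R}) ?_ (hopen.mem_nhds hmem)
  unfold Phi
  have hsum : Summable fun k : ι → ℤ => Real.exp (Real.pi * R ^ 2) *
      Real.exp (-((Real.pi / 2) * ‖(∑ i, (k i : ℝ) • B i) + 0‖ ^ 2)) :=
    (gauss_summable' B (by positivity) 0).mul_left _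
  refine continuousOn_tsum (u := fun k : ι → ℤ => Real.exp (Real.pi * R ^ 2) *
      Real.exp (-((Real.pi / 2) * ‖(∑ i, (k i : ℝ) • B i) + 0‖ ^ 2))) ?_ hsum ?_
  · intro k
    exact Continuous.continuousOn (by fun_prop)
  · intro k y hy
    rw [Real.norm_of_nonneg (Real.exp_nonneg _), ← Real.exp_add, TT_apply, add_zero]
    apply Real.exp_le_exp.mpr
    have h1 := sq_half (∑ i, (k i : ℝ) • B i) y
    have h2 : ‖y‖ ^ 2 ≤ R ^ 2 := pow_le_pow_left₀ (norm_nonneg _) (le_of_lt hy) 2
    have hpi := Real.pi_pos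
    nlinarith

theorem Phi_periodic [FiniteDimensional ℝ E] (B : Module.Basis ι ℝ E) (m : ι → ℤ) (y : E) :
    Phi B (TT B (fun i => (m i : ℝ)) + y) = Phi B y := by
  unfold Phi
  rw [← (Equiv.addRight m).tsum_eq (fun k : ι → ℤ =>
    Real.exp (-(Real.pi * ‖TT B (fun i => (k i : ℝ)) + y‖ ^ 2)))]
  refine tsum_congr fun k => ?_
  have h1 : TT B (fun i => (((Equiv.addRight m) k) i : ℝ)) =
      TT B (fun i => (k i : ℝ)) + TT B (fun i => (m i : ℝ)) := by
    rw [← map_add]
    congr 1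
    funext i
    simp
  rw [h1, add_assoc]

/-- The projection to the torus. -/
def qq (x : ι → ℝ) : UnitAddTorus ι := fun i => (x i : UnitAddCircle)

theorem qq_quot : IsOpenQuotientMap (qq : (ι → ℝ) → UnitAddTorus ι) := by
  have h : ∀ i : ι, IsOpenQuotientMap (fun x : ℝ => (x : UnitAddCircle)) := fun _ =>
    QuotientAddGroup.isOpenQuotientMap_mk
  exact IsOpenQuotientMap.piMap h

theorem qq_eq {x y : ι → ℝ} (h : qq x = qq y) : ∃ m : ι → ℤ, x = fun i => (m i : ℝ) + y i := by
  have h1 : ∀ i, ∃ n : ℤ, x i = n + y i := by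
    intro i
    have h2 : (x i : UnitAddCircle) = (y i : UnitAddCircle) := congrFun h i
    have h3 : ((x i - y i : ℝ) : UnitAddCircle) = 0 := by
      rw [AddCircle.coe_sub, h2, sub_self]
    rw [AddCircle.coe_eq_zero_iff] at h3
    obtain ⟨n, hn⟩ := h3
    refine ⟨n, ?_⟩
    rw [zsmul_eq_mul, mul_one] at hn
    linarith
  choose m hm using h1
  exact ⟨m, funext hm⟩

/-- The periodized Gaussian on the torus. -/
noncomputable def FF [FiniteDimensional ℝ E] (B : Module.Basis ι ℝ E) : C(UnitAddTorus ι, ℂ) where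
  toFun z := (Phi B (TT B (Function.surjInv qq_quot.surjective z)) : ℂ)
  continuous_toFun := by
    rw [← qq_quot.continuous_comp_iff]
    have h : ((fun z : UnitAddTorus ι => (Phi B (TT B (Function.surjInv qq_quot.surjective z)) : ℂ)) ∘
        qq) = fun x : ι → ℝ => (Phi B (TT B x) : ℂ) := by
      funext x
      simp only [Function.comp_apply]
      congr 1
      obtain ⟨m, hm⟩ := qq_eq (Function.surjInv_eq qq_quot.surjective (qq x))
      rw [hm]
      have h1 : TT B (fun i => (m i : ℝ) + x i) = TT B (fun i => (m i : ℝ)) + TT B x := by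
        rw [← map_add]; rfl
      rw [h1, Phi_periodic]
    rw [h]
    exact Complex.continuous_ofReal.comp ((Phi_continuous B).comp (TT B).continuous)

theorem FF_apply [FiniteDimensional ℝ E] (B : Module.Basis ι ℝ E) (x : ι → ℝ) :
    FF B (qq x) = (Phi B (TT B x) : ℂ) := by
  show (Phi B (TT B (Function.surjInv qq_quot.surjective (qq x))) : ℂ) = _
  congr 1
  obtain ⟨m, hm⟩ := qq_eq (Function.surjInv_eq qq_quot.surjective (qq x))
  rw [hm]
  have h1 : TT B (fun i => (m i : ℝ) + x i) = TT B (fun i => (m i : ℝ)) + TT B x := by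
    rw [← map_add]; rfl
  rw [h1, Phi_periodic]

theorem mFourier_eq (n : ι → ℤ) (x : ι → ℝ) :
    UnitAddTorus.mFourier n (qq x) =
      Complex.exp (2 * Real.pi * Complex.I * ((∑ i, (n i : ℝ) * x i : ℝ) : ℂ)) := by
  unfold UnitAddTorus.mFourier qq
  simp only [ContinuousMap.coe_mk, fourier_coe_apply]
  rw [← Complex.exp_sum]
  congr 1
  push_cast
  rw [Finset.mul_sum]
  refine Finset.sum_congr rfl fun i _ => ?_
  ring

/-! ### unfolding -/

/-- The unit cubes. -/
def cube (k : ι → ℤ) : Set (ι → ℝ) := {x | ∀ i, x i ∈ Set.Ioc (k i : ℝ) (k i + 1)}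

theorem cube_meas (k : ι → ℤ) : MeasurableSet (cube k) := by
  have : cube k = Set.univ.pi fun i => Set.Ioc (k i : ℝ) (k i + 1) := by
    ext x; simp [cube, Set.mem_pi]
  rw [this]
  exact MeasurableSet.univ_pi fun _ => measurableSet_Ioc

theorem cube_disj : Pairwise (Function.onFun Disjoint (cube : (ι → ℤ) → Set (ι → ℝ))) := by
  intro k l hkl
  rw [Function.onFun, Set.disjoint_left]
  intro x hx hy
  apply hkl
  funext i
  have h1 := hx i
  have h2 := hy i
  rw [Set.mem_Ioc] at h1 h2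
  have h3 : (k i : ℝ) < l i + 1 := h1.1.trans_le h2.2
  have h4 : (l i : ℝ) < k i + 1 := h2.1.trans_le h1.2
  have h5 : k i < l i + 1 := by exact_mod_cast h3
  have h6 : l i < k i + 1 := by exact_mod_cast h4
  omega

theorem cube_union : ⋃ k : ι → ℤ, cube k = (Set.univ : Set (ι → ℝ)) := by
  rw [Set.eq_univ_iff_forall]
  intro x
  rw [Set.mem_iUnion]
  refine ⟨fun i => ⌈x i⌉ - 1, fun i => ?_⟩
  rw [Set.mem_Ioc]
  push_cast
  constructor
  · linarith [Int.ceil_lt_add_one (x i)]
  · linarith [Int.le_ceil (x i)]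

theorem cube_shift {G : Type} [NormedAddCommGroup G] [NormedSpace ℝ G] (h : (ι → ℝ) → G)
    (k : ι → ℤ) :
    ∫ x in cube k, h x = ∫ x in cube (0 : ι → ℤ), h (x + fun i => (k i : ℝ)) := by
  have hmp : MeasurePreserving (fun x : ι → ℝ => x + fun i => (k i : ℝ)) volume volume :=
    measurePreserving_add_right volume _
  have hemb : MeasurableEmbedding (fun x : ι → ℝ => x + fun i => (k i : ℝ)) :=
    (Homeomorph.addRight (fun i => (k i : ℝ))).measurableEmbedding
  rw [← hmp.setIntegral_preimage_emb hemb h (cube k)]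
  congr 2
  ext x
  simp only [Set.mem_preimage, cube, Set.mem_setOf_eq, Set.mem_Ioc, Pi.add_apply, Pi.zero_apply,
    Int.cast_zero]
  refine forall_congr' fun i => ?_
  constructor
  · rintro ⟨h1, h2⟩
    constructor <;> linarith
  · rintro ⟨h1, h2⟩
    constructor <;> linarith

theorem unfold_sum {G : Type} [NormedAddCommGroup G] [NormedSpace ℝ G] (h : (ι → ℝ) → G)
    (hint : Integrable h) :
    HasSum (fun k : ι → ℤ => ∫ x in cube (0 : ι → ℤ), h (x + fun i => (k i : ℝ))) (∫ x, h x) := by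
  have h1 := hasSum_integral_iUnion (μ := volume) (f := h) (s := (cube : (ι → ℤ) → Set (ι → ℝ)))
    cube_meas cube_disj (by rw [cube_union]; exact hint.integrableOn)
  rw [cube_union, setIntegral_univ] at h1
  simpa only [cube_shift h] using h1

theorem unfold_int {G : Type} [NormedAddCommGroup G] [NormedSpace ℝ G]
    [CompleteSpace G] (h : (ι → ℝ) → G) (hint : Integrable h) :
    ∫ x in cube (0 : ι → ℤ), ∑' k : ι → ℤ, h (x + fun i => (k i : ℝ)) = ∫ x, h x := by
  have h1 := unfold_sum (fun x => ‖h x‖) hint.norm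
  have h2 := unfold_sum h hint
  have h3 := hasSum_integral_of_summable_integral_norm (μ := volume.restrict (cube (0 : ι → ℤ)))
    (F := fun (k : ι → ℤ) x => h (x + fun i => (k i : ℝ))) (fun k => by
      exact (hint.comp_add_right (fun i => (k i : ℝ))).integrableOn) h1.summable
  exact h3.unique h2

theorem map_TT [FiniteDimensional ℝ E] [MeasurableSpace E] [BorelSpace E] {G : Type}
    [NormedAddCommGroup G] [NormedSpace ℝ G] (B : Module.Basis ι ℝ E) (H : E → G) :
    ∫ x, H (TT B x) = ((volume (ZSpan.fundamentalDomain B)).toReal)⁻¹ • ∫ y, H y := by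
  have hemb : MeasurableEmbedding (TT B) := (TT B).toHomeomorph.measurableEmbedding
  rw [← hemb.integral_map]
  have hinst : Measure.IsAddHaarMeasure ((volume : Measure (ι → ℝ)).map (TT B)) :=
    (TT B).isAddHaarMeasure_map volume
  have h1 := Measure.isAddLeftInvariant_eq_smul ((volume : Measure (ι → ℝ)).map (TT B))
    (volume : Measure E)
  set c := Measure.addHaarScalarFactor ((volume : Measure (ι → ℝ)).map (TT B))
    (volume : Measure E) with hc
  have hP : ((volume : Measure (ι → ℝ)).map (TT B)) (ZSpan.fundamentalDomain B) = 1 := by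
    rw [hemb.map_apply]
    have h2 : (TT B) ⁻¹' (ZSpan.fundamentalDomain B) =
        Set.univ.pi fun _ : ι => Set.Ico (0 : ℝ) 1 := by
      ext x
      rw [Set.mem_preimage, ZSpan.mem_fundamentalDomain, Set.mem_univ_pi]
      refine forall_congr' fun i => ?_
      have h3 : B.repr (TT B x) i = x i := by
        have h4 : B.equivFun (TT B x) = x := by
          show B.equivFun (B.equivFun.symm x) = x
          rw [LinearEquiv.apply_symm_apply]
        exact congrFun h4 i
      rw [h3]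
    rw [h2, Real.volume_pi_Ico]
    simp
  rw [h1, Measure.smul_apply] at hP
  have h5 : ((c : NNReal) : ℝ) * (volume (ZSpan.fundamentalDomain B)).toReal = 1 := by
    have h6 := congrArg ENNReal.toReal hP
    rw [ENNReal.toReal_one] at h6
    rw [← h6]
    simp [ENNReal.smul_def, ENNReal.toReal_mul]
  have h7 : ((c : NNReal) : ℝ) = ((volume (ZSpan.fundamentalDomain B)).toReal)⁻¹ :=
    eq_inv_of_mul_eq_one_left h5
  rw [h1, integral_smul_nnreal_measure, ← h7]
  rfl

/-! ### the coefficients -/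

theorem inner_sum [DecidableEq ι] [FiniteDimensional ℝ E] (B B' : Module.Basis ι ℝ E)
    (hB : ∀ i j, ⟪B' i, B j⟫_ℝ = if i = j then 1 else 0) (n x : ι → ℝ) :
    ⟪∑ i, n i • B' i, TT B x⟫_ℝ = ∑ i, n i * x i := by
  rw [TT_apply, sum_inner]
  refine Finset.sum_congr rfl fun i _ => ?_
  rw [_root_.inner_sum]
  simp_rw [real_inner_smul_left, real_inner_smul_right, hB]
  simp

/-- The integrand on `E`. -/
noncomputable def HH (w : E) (y : E) : ℂ :=
  Complex.exp (-(Real.pi : ℂ) * ‖y‖ ^ 2 + (-(2 * Real.pi * Complex.I)) * (⟪w, y⟫_ℝ : ℂ))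

theorem HH_int [FiniteDimensional ℝ E] [MeasurableSpace E] [BorelSpace E] (w : E) :
    Integrable (HH w) :=
  GaussianFourier.integrable_cexp_neg_mul_sq_norm_add (b := (Real.pi : ℂ))
    (by simpa using Real.pi_pos) _ w

theorem HH_integral [FiniteDimensional ℝ E] [MeasurableSpace E] [BorelSpace E] (w : E) :
    ∫ y, HH w y = (Real.exp (-(Real.pi * ‖w‖ ^ 2)) : ℂ) := by
  unfold HH
  rw [GaussianFourier.integral_cexp_neg_mul_sq_norm_add (b := (Real.pi : ℂ))
    (by simpa using Real.pi_pos) _ w]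
  have hpi : (Real.pi : ℂ) ≠ 0 := by exact_mod_cast Real.pi_ne_zero
  rw [div_self hpi, Complex.one_cpow, one_mul, Complex.ofReal_exp]
  congr 1
  push_cast
  field_simp
  rw [Complex.I_sq]
  ring

theorem HH_TT_int [FiniteDimensional ℝ E] [MeasurableSpace E] [BorelSpace E]
    (B : Module.Basis ι ℝ E) (w : E) : Integrable fun x : ι → ℝ => HH w (TT B x) := by
  have hemb : MeasurableEmbedding (TT B) := (TT B).toHomeomorph.measurableEmbedding
  have hinst : Measure.IsAddHaarMeasure ((volume : Measure (ι → ℝ)).map (TT B)) :=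
    (TT B).isAddHaarMeasure_map volume
  have h1 := Measure.isAddLeftInvariant_eq_smul ((volume : Measure (ι → ℝ)).map (TT B))
    (volume : Measure E)
  have h2 : Integrable (HH w) ((volume : Measure (ι → ℝ)).map (TT B)) := by
    rw [h1]
    exact (HH_int w).smul_measure_nnreal
  exact (hemb.integrable_map_iff).mp h2

theorem HH_shift [DecidableEq ι] [FiniteDimensional ℝ E] (B B' : Module.Basis ι ℝ E)
    (hB : ∀ i j, ⟪B' i, B j⟫_ℝ = if i = j then 1 else 0) (n k : ι → ℤ) (x : ι → ℝ) :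
    HH (∑ i, (n i : ℝ) • B' i) (TT B (x + fun i => (k i : ℝ))) =
      Complex.exp (2 * Real.pi * Complex.I * ((∑ i, ((-n) i : ℝ) * x i : ℝ) : ℂ)) *
        (Real.exp (-(Real.pi * ‖TT B (fun i => (k i : ℝ)) + TT B x‖ ^ 2)) : ℂ) := by
  unfold HH
  rw [inner_sum B B' hB, Complex.exp_add, mul_comm, map_add, add_comm (TT B x)]
  congr 1
  · have h1 : ∑ i, (n i : ℝ) * (x + fun i => (k i : ℝ)) i =
        (∑ i, (n i : ℝ) * x i) + ((∑ i, n i * k i : ℤ) : ℝ) := by
      push_cast
      rw [← Finset.sum_add_distrib]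
      refine Finset.sum_congr rfl fun i _ => ?_
      simp only [Pi.add_apply]
      ring
    rw [h1]
    have h2 : (-(2 * Real.pi * Complex.I)) *
        (((∑ i, (n i : ℝ) * x i) + ((∑ i, n i * k i : ℤ) : ℝ) : ℝ) : ℂ) =
        2 * Real.pi * Complex.I * ((∑ i, ((-n) i : ℝ) * x i : ℝ) : ℂ) -
          ((∑ i, n i * k i : ℤ) : ℂ) * (2 * Real.pi * Complex.I) := by
      have h3 : (∑ i, ((-n) i : ℝ) * x i : ℝ) = -∑ i, (n i : ℝ) * x i := by
        rw [← Finset.sum_neg_distrib]
        refine Finset.sum_congr rfl fun i _ => ?_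
        simp
      rw [h3]
      push_cast
      ring
    rw [h2, Complex.exp_sub, Complex.exp_int_mul_two_pi_mul_I, div_one]
  · rw [Complex.ofReal_exp]
    congr 1
    push_cast
    ring

theorem coeff [DecidableEq ι] [FiniteDimensional ℝ E] [MeasurableSpace E] [BorelSpace E]
    (B B' : Module.Basis ι ℝ E)
    (hB : ∀ i j, ⟪B' i, B j⟫_ℝ = if i = j then 1 else 0) (n : ι → ℤ) :
    UnitAddTorus.mFourierCoeff (FF B) n =
      (((volume (ZSpan.fundamentalDomain B)).toReal)⁻¹ : ℂ) *
        (Real.exp (-(Real.pi * ‖∑ i, (n i : ℝ) • B' i‖ ^ 2)) : ℂ) := by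
  rw [UnitAddTorus.mFourierCoeff_eq_integral (FF B) n (fun _ => 0)]
  have hset : {x : ι → ℝ | ∀ i, x i ∈ Set.Ioc ((fun _ => (0 : ℝ)) i) ((fun _ => (0 : ℝ)) i + 1)} =
      cube (0 : ι → ℤ) := by
    ext x
    simp [cube]
  rw [hset]
  set w : E := ∑ i, (n i : ℝ) • B' i with hw
  have h1 := unfold_int (fun x : ι → ℝ => HH w (TT B x)) (HH_TT_int B w)
  have h2 : ∀ x : ι → ℝ, ∑' k : ι → ℤ, HH w (TT B (x + fun i => (k i : ℝ))) =
      UnitAddTorus.mFourier (-n) (fun i => (x i : UnitAddCircle)) •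
        FF B (fun i => (x i : UnitAddCircle)) := by
    intro x
    have e1 : UnitAddTorus.mFourier (-n) (fun i => (x i : UnitAddCircle)) =
        Complex.exp (2 * Real.pi * Complex.I * ((∑ i, ((-n) i : ℝ) * x i : ℝ) : ℂ)) := by
      exact mFourier_eq (-n) x
    have e2 : FF B (fun i => (x i : UnitAddCircle)) = (Phi B (TT B x) : ℂ) := FF_apply B x
    rw [e1, e2, smul_eq_mul]
    simp_rw [hw, HH_shift B B' hB n]
    rw [tsum_mul_left]
    congr 1
    unfold Phi
    rw [Complex.ofReal_tsum]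
  simp_rw [h2] at h1
  rw [h1, map_TT B (HH w), HH_integral, Complex.real_smul]
  push_cast
  rfl

end PO

theorem gauss_summable {ι : Type} [Fintype ι] {E : Type} [NormedAddCommGroup E]
    [InnerProductSpace ℝ E] [FiniteDimensional ℝ E] (B : Module.Basis ι ℝ E) {c : ℝ} (hc : 0 < c)
    (v : E) : Summable fun k : ι → ℤ => Real.exp (-(c * ‖(∑ i, (k i : ℝ) • B i) + v‖ ^ 2)) :=
  PO.gauss_summable' B hc v

theorem gauss_poisson {ι : Type} [Fintype ι] [DecidableEq ι] {E : Type} [NormedAddCommGroup E]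
    [InnerProductSpace ℝ E] [FiniteDimensional ℝ E] [MeasurableSpace E] [BorelSpace E]
    (B B' : Module.Basis ι ℝ E) (hB : ∀ i j, ⟪B' i, B j⟫_ℝ = if i = j then 1 else 0) (v : E) :
    (∑' k : ι → ℤ, (Real.exp (-(Real.pi * ‖(∑ i, (k i : ℝ) • B i) + v‖ ^ 2)) : ℂ)) =
      (((volume (ZSpan.fundamentalDomain B)).toReal)⁻¹ : ℂ) *
        ∑' l : ι → ℤ, (Real.exp (-(Real.pi * ‖∑ i, (l i : ℝ) • B' i‖ ^ 2)) : ℂ) *
          Complex.exp (2 * Real.pi * Complex.I * (⟪∑ i, (l i : ℝ) • B' i, v⟫_ℝ : ℂ)) := by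
  have hsum : Summable (UnitAddTorus.mFourierCoeff (PO.FF B)) := by
    have h1 : UnitAddTorus.mFourierCoeff (PO.FF B) = fun n : ι → ℤ =>
        (((volume (ZSpan.fundamentalDomain B)).toReal)⁻¹ : ℂ) *
        (Real.exp (-(Real.pi * ‖∑ i, (n i : ℝ) • B' i‖ ^ 2)) : ℂ) :=
      funext fun n => PO.coeff B B' hB n
    rw [h1]
    refine Summable.mul_left _ ?_
    have h2 := gauss_summable B' Real.pi_pos (0 : E)
    simp only [add_zero] at h2
    exact Complex.summable_ofReal.mpr h2
  obtain ⟨x, hx⟩ : ∃ x, PO.TT B x = v := ⟨(PO.TT B).symm v, (PO.TT B).apply_symm_apply v⟩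
  have h1 := UnitAddTorus.hasSum_mFourier_series_apply_of_summable hsum (PO.qq x)
  rw [PO.FF_apply, hx] at h1
  have h2 : (PO.Phi B v : ℂ) =
      ∑' k : ι → ℤ, (Real.exp (-(Real.pi * ‖(∑ i, (k i : ℝ) • B i) + v‖ ^ 2)) : ℂ) := by
    unfold PO.Phi
    rw [Complex.ofReal_tsum]
    simp_rw [PO.TT_apply]
  rw [← h2, ← h1.tsum_eq, ← tsum_mul_left]
  refine tsum_congr fun n => ?_
  rw [PO.coeff B B' hB, PO.mFourier_eq, smul_eq_mul, mul_assoc]
  congr 3
  rw [← hx, PO.inner_sum B B' hB]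

end Pool.Agent.CMZ
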