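import Pool.Agent.CMZ.Basic
import Pool.Agent.CMZ.Poisson
import Pool.Agent.ZD.Scale
import Pool.Agent.HDZ.LatBasis
import Pool.Agent.HDZ.DualId

/-!
# Module DU: theta transformation for an ideal lattice

`K` totally complex, `n = 2m`, `J' · (J 𝔇) = (n₀)`, so `J^∨ = {η ∈ K : Tr(η J) ⊆ ℤ} = (J 𝔇)⁻¹ = n₀⁻¹ J'`.
PROOF. `E = euclidean.mixedSpace K` (only complex places; `⟪x,y⟫ = ∑_w Re(conj x_w y_w)`, `Tr(x η) = ∑_w 2 Re(x_w η_w)`), `en K x = ‖·‖` (`en_eq`).
Take a `ℤ`-basis `b_i` of `J` and the trace dual basis `b_i^∨` of `K` (a `ℤ`-basis of `J^∨`, `Algebra.traceForm ℚ K`, `BilinForm.dualBasis`,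
`FractionalIdeal.dual`, `coeIdeal_differentIdeal`). `B_i = √(2c) p · sg_t b_i`, `B'_i = (2/(√(2c) p)) sg_{-t} conj(b_i^∨)` are dual bases of `E`
(`conj` = componentwise complex conjugation of the mixed space; `sg_t` multiplies the component at `w` by `sc t w > 0`, `sc (-t) w = (sc t w)⁻¹`).
`gauss_poisson` with `v = √(2c) sg_t r`: `π ‖∑ k_i B_i + v‖² = 2π c en(sg_t (r + p x))²`, `π ‖∑ l_i B'_i‖² = (2π/(c p²)) en(sg_{-t} η)²` with
`η = ∑ l_i b_i^∨ = x'/n₀`, `⟪∑ l_i B'_i, v⟫ = Tr(η r)/p = Tr(r x')/(n₀ p)`. Covolume of `B`: `(2c)^m p^n covol(J)` (multiplication by `sg_t` has determinant `1`,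
see `Pool/Agent/HDZ/LatBasis.lean`), `covol(J) = N J √|d| / 2^m` (`mixedEmbedding.covolume_idealLattice` or
`fundamentalDomain_idealLattice` and `volume_fundamentalDomain_latticeBasis`). So the constant is `((2c)^m p^n N J √|d|/2^m)⁻¹`.
-/

open scoped NumberField nonZeroDivisors InnerProductSpace Pointwise
open NumberField NumberField.InfinitePlace NumberField.mixedEmbedding NumberField.Units
  NumberField.Units.dirichletUnitTheorem Pool.ZD

namespace Pool.Agent.CMZ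

set_option linter.unusedSectionVars false

variable (K : Type) [Field K] [NumberField K]

namespace DualAux

/-- the fractional ideal of `J`. -/
noncomputable abbrev Ju (J : II K) : (FractionalIdeal (𝓞 K)⁰ K)ˣ := FractionalIdeal.mk0 K J

/-- the index set -/
abbrev ix (J : II K) : Type := Module.Free.ChooseBasisIndex ℤ (Ju K J)

/-- the basis -/
noncomputable abbrev bs (J : II K) : Module.Basis (ix K J) ℚ K := basisOfFractionalIdeal K (Ju K J)

theorem mem_Ju (J : II K) (y : K) : y ∈ (Ju K J : FractionalIdeal (𝓞 K)⁰ K) ↔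
    ∃ x : 𝓞 K, x ∈ (J : Ideal (𝓞 K)) ∧ algebraMap (𝓞 K) K x = y := by
  rw [FractionalIdeal.coe_mk0, FractionalIdeal.mem_coeIdeal]

theorem mem_Ju_iff (J : II K) (y : K) : y ∈ (Ju K J : FractionalIdeal (𝓞 K)⁰ K) ↔
    ∃ k : ix K J → ℤ, ∑ i, (k i : ℚ) • bs K J i = y := by
  have h1 := (mem_span_basisOfFractionalIdeal (K := K) (I := Ju K J) (x := y))
  have h2 : y ∈ ((Ju K J : FractionalIdeal (𝓞 K)⁰ K) : Set K) ↔
    y ∈ (Ju K J : FractionalIdeal (𝓞 K)⁰ K) := Iff.rfl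
  rw [← h2, ← h1, Submodule.mem_span_range_iff_exists_fun]
  simp only [Int.cast_smul_eq_zsmul]

/-- the lattice points of `J` -/
theorem exists_equiv (J : II K) : ∃ e : (ix K J → ℤ) ≃ (J : Ideal (𝓞 K)),
    ∀ k, ((e k : 𝓞 K) : K) = ∑ i, (k i : ℚ) • bs K J i := by
  have h1 : ∀ k : ix K J → ℤ, ∃ x : 𝓞 K, x ∈ (J : Ideal (𝓞 K)) ∧
      algebraMap (𝓞 K) K x = ∑ i, (k i : ℚ) • bs K J i := by
    intro k
    rw [← mem_Ju, mem_Ju_iff]
    exact ⟨k, rfl⟩
  choose f hf1 hf2 using h1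
  refine ⟨Equiv.ofBijective (fun k => ⟨f k, hf1 k⟩) ⟨fun k l hkl => ?_, fun x => ?_⟩, fun k => hf2 k⟩
  · have h3 : f k = f l := congrArg Subtype.val hkl
    have h4 : ∑ i, (k i : ℚ) • bs K J i = ∑ i, (l i : ℚ) • bs K J i := by
      rw [← hf2, ← hf2, h3]
    have h5 := (Fintype.linearIndependent_iff.1 (bs K J).linearIndependent)
      (fun i => (k i : ℚ) - l i) (by
        simp only [sub_smul, Finset.sum_sub_distrib, h4, sub_self])
    funext i
    have := h5 i
    exact_mod_cast sub_eq_zero.1 this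
  · have hx : algebraMap (𝓞 K) K (x : 𝓞 K) ∈ (Ju K J : FractionalIdeal (𝓞 K)⁰ K) :=
      (mem_Ju K J _).2 ⟨x, x.2, rfl⟩
    obtain ⟨k, hk⟩ := (mem_Ju_iff K J _).1 hx
    refine ⟨k, ?_⟩
    apply Subtype.ext
    apply FaithfulSMul.algebraMap_injective (𝓞 K) K
    show algebraMap (𝓞 K) K (f _) = algebraMap (𝓞 K) K (x : 𝓞 K)
    rw [hf2, hk]

/-- the dual basis -/
noncomputable abbrev bd (J : II K) : Module.Basis (ix K J) ℚ K :=
  open scoped Classical in
  (Algebra.traceForm ℚ K).dualBasis (traceForm_nondegenerate ℚ K) (bs K J)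

open scoped Classical in
theorem trace_bd (J : II K) (i j : ix K J) :
    Algebra.trace ℚ K (bd K J i * bs K J j) = if i = j then 1 else 0 := by
  rw [← Algebra.traceForm_apply]
  simp only [LinearMap.BilinForm.apply_dualBasis_left]
  by_cases h : i = j
  · subst h; simp
  · rw [if_neg h, if_neg (Ne.symm h)]

theorem trace_sum (J : II K) (l : ix K J → ℤ) (j : ix K J) :
    Algebra.trace ℚ K ((∑ i, (l i : ℚ) • bd K J i) * bs K J j) = l j := by
  classical
  rw [Finset.sum_mul, map_sum]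
  simp only [smul_mul_assoc, map_smul, trace_bd]
  simp

/-- the lattice points of the dual -/
theorem exists_equiv_dual {J J' : II K} {n₀ : ℕ} (hn₀ : 0 < n₀)
    (hJ : (J' : Ideal (𝓞 K)) * ((J : Ideal (𝓞 K)) * differentIdeal ℤ (𝓞 K)) =
      Ideal.span {(n₀ : 𝓞 K)}) : ∃ e : (ix K J → ℤ) ≃ (J' : Ideal (𝓞 K)),
    ∀ l, ((e l : 𝓞 K) : K) = (n₀ : K) * ∑ i, (l i : ℚ) • bd K J i := by
  have hn0K : (n₀ : K) ≠ 0 := Nat.cast_ne_zero.2 hn₀.ne'
  have hD : differentIdeal ℤ (𝓞 K) ≠ ⊥ := differentIdeal_ne_bot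
  have hJ0 : (J : Ideal (𝓞 K)) ≠ ⊥ := nonZeroDivisors.coe_ne_zero J
  have hJu' : (Ju K J : FractionalIdeal (𝓞 K)⁰ K) = ((J : Ideal (𝓞 K)) : FractionalIdeal (𝓞 K)⁰ K) :=
    FractionalIdeal.coe_mk0 _ _
  have hI' : FractionalIdeal.spanSingleton (𝓞 K)⁰ (n₀ : K) *
      FractionalIdeal.dual ℤ ℚ (Ju K J : FractionalIdeal (𝓞 K)⁰ K) =
        ((J' : Ideal (𝓞 K)) : FractionalIdeal (𝓞 K)⁰ K) := by
    have h1 : FractionalIdeal.spanSingleton (𝓞 K)⁰ (n₀ : K) =
        ((J' : Ideal (𝓞 K)) : FractionalIdeal (𝓞 K)⁰ K) *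
        (((J : Ideal (𝓞 K)) : FractionalIdeal (𝓞 K)⁰ K) *
          (FractionalIdeal.dual ℤ ℚ (1 : FractionalIdeal (𝓞 K)⁰ K))⁻¹) := by
      rw [← coeIdeal_differentIdeal ℤ ℚ K (𝓞 K), ← FractionalIdeal.coeIdeal_mul,
        ← FractionalIdeal.coeIdeal_mul, hJ, FractionalIdeal.coeIdeal_span_singleton]
      simp
    have h2 : FractionalIdeal.dual ℤ ℚ (1 : FractionalIdeal (𝓞 K)⁰ K) ≠ 0 :=
      FractionalIdeal.dual_ne_zero ℤ ℚ one_ne_zero
    have h3 : ((J : Ideal (𝓞 K)) : FractionalIdeal (𝓞 K)⁰ K) ≠ 0 :=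
      FractionalIdeal.coeIdeal_ne_zero.2 hJ0
    rw [FractionalIdeal.dual_eq_mul_inv, h1, hJu']
    field_simp
  have hmem : ∀ η : K, η ∈ FractionalIdeal.dual ℤ ℚ (Ju K J : FractionalIdeal (𝓞 K)⁰ K) ↔
      ∃ l : ix K J → ℤ, ∑ i, (l i : ℚ) • bd K J i = η := by
    intro η
    rw [FractionalIdeal.mem_dual (Units.ne_zero (Ju K J))]
    constructor
    · intro h
      have h1 : ∀ j, ∃ z : ℤ, Algebra.trace ℚ K (η * bs K J j) = z := by
        intro j
        obtain ⟨z, hz⟩ := h (bs K J j) ((mem_Ju_iff K J _).2 ⟨fun i => by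
          classical exact if i = j then 1 else 0, by classical simp⟩)
        exact ⟨z, by rw [← Algebra.traceForm_apply, ← hz]; simp⟩
      choose l hl using h1
      refine ⟨l, ?_⟩
      have h2 : ∀ j, Algebra.trace ℚ K ((∑ i, (l i : ℚ) • bd K J i - η) * bs K J j) = 0 := by
        intro j
        rw [sub_mul, map_sub, trace_sum, hl, sub_self]
      have h3 : Algebra.traceForm ℚ K (∑ i, (l i : ℚ) • bd K J i - η) = 0 :=
        (bs K J).ext fun j => by
          rw [Algebra.traceForm_apply, h2]; rfl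
      have h4 := (traceForm_nondegenerate ℚ K).1 _ (fun y => LinearMap.congr_fun h3 y)
      exact sub_eq_zero.1 h4
    · rintro ⟨l, rfl⟩ a ha
      obtain ⟨k, rfl⟩ := (mem_Ju_iff K J _).1 ha
      refine ⟨∑ j, k j * l j, ?_⟩
      rw [Algebra.traceForm_apply, Finset.mul_sum, map_sum, map_sum]
      refine Finset.sum_congr rfl fun j _ => ?_
      rw [mul_smul_comm, map_smul, trace_sum]
      simp
  have hmem' : ∀ y : K, y ∈ ((J' : Ideal (𝓞 K)) : FractionalIdeal (𝓞 K)⁰ K) ↔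
      ∃ l : ix K J → ℤ, (n₀ : K) * ∑ i, (l i : ℚ) • bd K J i = y := by
    intro y
    rw [← hI', FractionalIdeal.mem_singleton_mul]
    constructor
    · rintro ⟨η, hη, rfl⟩
      obtain ⟨l, rfl⟩ := (hmem η).1 hη
      exact ⟨l, rfl⟩
    · rintro ⟨l, rfl⟩
      exact ⟨_, (hmem _).2 ⟨l, rfl⟩, rfl⟩
  have h1 : ∀ l : ix K J → ℤ, ∃ x : 𝓞 K, x ∈ (J' : Ideal (𝓞 K)) ∧
      algebraMap (𝓞 K) K x = (n₀ : K) * ∑ i, (l i : ℚ) • bd K J i := by
    intro l
    rw [← FractionalIdeal.mem_coeIdeal (𝓞 K)⁰, hmem']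
    exact ⟨l, rfl⟩
  choose f hf1 hf2 using h1
  refine ⟨Equiv.ofBijective (fun k => ⟨f k, hf1 k⟩) ⟨fun k l hkl => ?_, fun x => ?_⟩, fun k => hf2 k⟩
  · have h3 : f k = f l := congrArg Subtype.val hkl
    have h4 : ∑ i, (k i : ℚ) • bd K J i = ∑ i, (l i : ℚ) • bd K J i := by
      apply mul_left_cancel₀ hn0K
      rw [← hf2, ← hf2, h3]
    have h5 := (Fintype.linearIndependent_iff.1 (bd K J).linearIndependent)
      (fun i => (k i : ℚ) - l i) (by
        simp only [sub_smul, Finset.sum_sub_distrib, h4, sub_self])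
    funext i
    have := h5 i
    exact_mod_cast sub_eq_zero.1 this
  · obtain ⟨k, hk⟩ := (hmem' (algebraMap (𝓞 K) K (x : 𝓞 K))).1
      ((FractionalIdeal.mem_coeIdeal (𝓞 K)⁰).2 ⟨x, x.2, rfl⟩)
    refine ⟨k, ?_⟩
    apply Subtype.ext
    apply FaithfulSMul.algebraMap_injective (𝓞 K) K
    show algebraMap (𝓞 K) K (f _) = algebraMap (𝓞 K) K (x : 𝓞 K)
    rw [hf2, hk]


/-! ### The Euclidean side -/

/-- The vector of the Euclidean space attached to `y` under the trace pairing. -/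
noncomputable def Dt (t : logSpace K) : mixedSpace K →ₗ[ℝ] mixedSpace K where
  toFun y := (fun w => y.1 w * sc K (-t) w.1,
    fun w => 2 * (starRingEnd ℂ) (y.2 w) * (sc K (-t) w.1 : ℂ))
  map_add' x y := by
    refine Prod.ext ?_ ?_
    · funext w
      simp only [Prod.fst_add, Pi.add_apply]
      ring
    · funext w
      simp only [Prod.snd_add, Pi.add_apply, map_add]
      ring
  map_smul' c x := by
    refine Prod.ext ?_ ?_
    · funext w
      simp only [Prod.smul_fst, Pi.smul_apply, smul_eq_mul, RingHom.id_apply]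
      ring
    · funext w
      simp only [Prod.smul_snd, Pi.smul_apply, Complex.real_smul, RingHom.id_apply, map_mul,
        Complex.conj_ofReal]
      ring

theorem sc_mul_neg (t : logSpace K) (w : InfinitePlace K) : sc K (-t) w * sc K t w = 1 := by
  have h0 : sc K (0 : logSpace K) w = 1 := by
    unfold sc
    split_ifs <;> simp
  rw [← sc_add, neg_add_cancel, h0]

open scoped Classical in
theorem et_Dt (t : logSpace K) (y : mixedSpace K) : Pool.HDZ.et K t (Dt K t y) = y := by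
  refine Prod.ext ?_ ?_
  · funext w
    show y.1 w * sc K (-t) w.1 * sc K t w.1 = y.1 w
    rw [mul_assoc, sc_mul_neg, mul_one]
  · funext w
    show (starRingEnd ℂ) (2 * (starRingEnd ℂ) (y.2 w) * (sc K (-t) w.1 : ℂ)) * (sc K t w.1 : ℂ) / 2
      = y.2 w
    have h := congrArg (fun x : ℝ => (x : ℂ)) (sc_mul_neg K t w.1)
    simp only [Complex.ofReal_mul, Complex.ofReal_one] at h
    rw [map_mul, map_mul, Complex.conj_conj, Complex.conj_ofReal]
    have h2 : (starRingEnd ℂ) 2 = 2 := Complex.conj_ofReal 2 ▸ by norm_num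
    rw [h2]
    linear_combination y.2 w * h

open scoped Classical in
theorem inner_Dt (t : logSpace K) (a b : K) :
    ⟪(euclidean.toMixed K).symm (Dt K t (mixedEmbedding K a)),
      (euclidean.toMixed K).symm (sg K t * mixedEmbedding K b)⟫_ℝ =
      ((Algebra.trace ℚ K (a * b) : ℚ) : ℝ) := by
  rw [Pool.HDZ.inner_sg, ContinuousLinearEquiv.apply_symm_apply, et_Dt, Pool.HDZ.trace_eq_TP]

open scoped Classical in
theorem norm_Dt [IsTotallyComplex K] (t : logSpace K) (y : mixedSpace K) :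
    ‖(euclidean.toMixed K).symm (Dt K t y)‖ = 2 * en K (sg K (-t) * y) := by
  rw [← en_eq]
  unfold en
  have h1 : ∀ w : InfinitePlace K, normAtPlace w (Dt K t y) ^ 2 =
      2 ^ 2 * normAtPlace w (sg K (-t) * y) ^ 2 := by
    intro w
    have hw : IsComplex w := IsTotallyComplex.isComplex w
    rw [normAtPlace_sg_mul, normAtPlace_apply_of_isComplex hw, normAtPlace_apply_of_isComplex hw]
    have h2 : ‖(Dt K t y).2 ⟨w, hw⟩‖ = 2 * (sc K (-t) w * ‖y.2 ⟨w, hw⟩‖) := by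
      show ‖2 * (starRingEnd ℂ) (y.2 ⟨w, hw⟩) * (sc K (-t) w : ℂ)‖ = _
      rw [norm_mul, norm_mul, RCLike.norm_conj, Complex.norm_ofNat, Complex.norm_real,
        Real.norm_eq_abs, abs_of_pos (sc_pos K _ w)]
      ring
    rw [h2]
    ring
  simp only [h1]
  rw [← Finset.mul_sum, Real.sqrt_mul (by positivity), Real.sqrt_sq (by norm_num)]

/-- the scaled lattice map -/
noncomputable def Lam (t : logSpace K) : mixedSpace K ≃ₗ[ℝ] euclidean.mixedSpace K :=
  (Pool.HDZ.LatBasis.mulSg K t).trans (euclidean.toMixed K).symm.toLinearEquiv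

theorem Lam_apply (t : logSpace K) (x : mixedSpace K) :
    Lam K t x = (euclidean.toMixed K).symm (sg K t * x) := rfl

/-- the basis of the lattice -/
noncomputable def BB (J : II K) (t : logSpace K) {ρ : ℝ} (hρ : ρ ≠ 0) :
    Module.Basis (ix K J) ℝ (euclidean.mixedSpace K) :=
  (fractionalIdealLatticeBasis K (Ju K J)).map
    ((Lam K t).trans (LinearEquiv.smulOfNeZero ℝ _ ρ hρ))

theorem BB_apply (J : II K) (t : logSpace K) {ρ : ℝ} (hρ : ρ ≠ 0) (i : ix K J) :
    BB K J t hρ i = ρ • (euclidean.toMixed K).symm (sg K t * mixedEmbedding K (bs K J i)) := by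
  unfold BB
  rw [Module.Basis.map_apply, fractionalIdealLatticeBasis_apply]
  rfl

theorem me_sum (J : II K) (b : ix K J → K) (k : ix K J → ℤ) :
    mixedEmbedding K (∑ i, (k i : ℚ) • b i) = ∑ i, (k i : ℝ) • mixedEmbedding K (b i) := by
  rw [map_sum]
  refine Finset.sum_congr rfl fun i _ => ?_
  rw [Rat.smul_def, map_mul, Rat.cast_intCast, map_intCast, Int.cast_smul_eq_zsmul, zsmul_eq_mul]

theorem sum_BB (J : II K) (t : logSpace K) {ρ : ℝ} (hρ : ρ ≠ 0) (k : ix K J → ℤ) :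
    ∑ i, (k i : ℝ) • BB K J t hρ i =
      ρ • (euclidean.toMixed K).symm (sg K t * mixedEmbedding K (∑ i, (k i : ℚ) • bs K J i)) := by
  rw [me_sum, Finset.mul_sum, map_sum, Finset.smul_sum]
  refine Finset.sum_congr rfl fun i _ => ?_
  rw [BB_apply, mul_smul_comm, map_smul, smul_comm]

open scoped Classical in
theorem exists_dual_basis (J : II K) (t : logSpace K) {ρ : ℝ} (hρ : ρ ≠ 0) :
    ∃ B' : Module.Basis (ix K J) ℝ (euclidean.mixedSpace K),
      (∀ i, B' i = ρ⁻¹ • (euclidean.toMixed K).symm (Dt K t (mixedEmbedding K (bd K J i)))) ∧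
      ∀ i j, ⟪B' i, BB K J t hρ j⟫_ℝ = if i = j then 1 else 0 := by
  set v : ix K J → euclidean.mixedSpace K := fun i =>
    ρ⁻¹ • (euclidean.toMixed K).symm (Dt K t (mixedEmbedding K (bd K J i))) with hv
  have h1 : ∀ i j, ⟪v i, BB K J t hρ j⟫_ℝ = if i = j then 1 else 0 := by
    intro i j
    rw [hv, BB_apply, real_inner_smul_left, real_inner_smul_right, inner_Dt, trace_bd]
    split_ifs
    · push_cast
      field_simp
    · simp
  have hli : LinearIndependent ℝ v := by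
    rw [Fintype.linearIndependent_iff]
    intro g hg j
    have h2 := congrArg (fun x => ⟪x, BB K J t hρ j⟫_ℝ) hg
    simp only [sum_inner, real_inner_smul_left, h1, inner_zero_left] at h2
    simpa using h2
  have hcard : Fintype.card (ix K J) = Module.finrank ℝ (euclidean.mixedSpace K) :=
    (Module.finrank_eq_card_basis (BB K J t hρ)).symm
  have : Nonempty (ix K J) := (bs K J).index_nonempty
  refine ⟨basisOfLinearIndependentOfCardEqFinrank hli hcard, fun i => ?_, fun i j => ?_⟩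
  · rw [coe_basisOfLinearIndependentOfCardEqFinrank]
  · rw [coe_basisOfLinearIndependentOfCardEqFinrank, h1]

theorem sum_B' (J : II K) (t : logSpace K) {ρ : ℝ} (l : ix K J → ℤ) :
    ∑ i, (l i : ℝ) • (ρ⁻¹ • (euclidean.toMixed K).symm (Dt K t (mixedEmbedding K (bd K J i)))) =
      ρ⁻¹ • (euclidean.toMixed K).symm (Dt K t (mixedEmbedding K (∑ i, (l i : ℚ) • bd K J i))) := by
  rw [me_sum, map_sum, map_sum, Finset.smul_sum]
  refine Finset.sum_congr rfl fun i _ => ?_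
  rw [map_smul, map_smul, smul_comm]

open scoped Classical in
theorem volume_BB (J : II K) (t : logSpace K) {ρ : ℝ} (hρ : 0 < ρ) :
    (MeasureTheory.volume (ZSpan.fundamentalDomain (BB K J t hρ.ne'))).toReal =
      ρ ^ nn K * ((1 / 2) ^ nrComplexPlaces K * Real.sqrt |(discr K : ℝ)| * nm K J) := by
  set b := fractionalIdealLatticeBasis K (Ju K J) with hb
  have e1 : ZSpan.fundamentalDomain (BB K J t hρ.ne') =
      ρ • ZSpan.fundamentalDomain (b.map (Lam K t)) := by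
    unfold BB
    rw [← ZSpan.map_fundamentalDomain, ← ZSpan.map_fundamentalDomain, ← Set.image_smul,
      Set.image_image]
    rfl
  have e2 : MeasureTheory.volume (ZSpan.fundamentalDomain (b.map (Lam K t))) =
      MeasureTheory.volume (ZSpan.fundamentalDomain b) := by
    rw [← ZSpan.map_fundamentalDomain]
    have h1 : (Lam K t) '' (ZSpan.fundamentalDomain b) =
        (euclidean.toMixed K) ⁻¹' ((Pool.HDZ.LatBasis.mulSg K t) '' (ZSpan.fundamentalDomain b)) := by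
      ext v
      constructor
      · rintro ⟨x, hx, rfl⟩
        refine ⟨x, hx, ?_⟩
        show (Pool.HDZ.LatBasis.mulSg K t) x =
          (euclidean.toMixed K) ((euclidean.toMixed K).symm ((Pool.HDZ.LatBasis.mulSg K t) x))
        rw [ContinuousLinearEquiv.apply_symm_apply]
      · rintro ⟨x, hx, hv⟩
        refine ⟨x, hx, ?_⟩
        show (euclidean.toMixed K).symm ((Pool.HDZ.LatBasis.mulSg K t) x) = v
        rw [hv, ContinuousLinearEquiv.symm_apply_apply]
    have h3 : MeasureTheory.MeasurePreserving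
        (euclidean.toMixed K).toHomeomorph.toMeasurableEquiv := euclidean.volumePreserving_toMixed K
    rw [h1, ← Pool.HDZ.LatBasis.volume_image K t]
    exact h3.measure_preimage_equiv _
  rw [e1, MeasureTheory.Measure.addHaar_smul, e2,
    volume_fundamentalDomain_fractionalIdealLatticeBasis,
    volume_fundamentalDomain_latticeBasis, ENNReal.toReal_mul, ENNReal.toReal_mul,
    ENNReal.toReal_mul,
    ENNReal.toReal_pow, ENNReal.toReal_inv, ENNReal.toReal_ofNat, ENNReal.coe_toReal,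
    Real.coe_sqrt, coe_nnnorm, Int.norm_eq_abs,
    ENNReal.toReal_ofReal (Rat.cast_nonneg.mpr (FractionalIdeal.absNorm_nonneg (Ju K J).val)),
    ENNReal.toReal_ofReal (abs_nonneg _), euclidean.finrank, abs_of_nonneg (by positivity)]
  rw [FractionalIdeal.coe_mk0, FractionalIdeal.coeIdeal_absNorm, Rat.cast_natCast]
  unfold nm
  rw [← Int.cast_abs]
  ring

theorem shift_eq (J : II K) (t : logSpace K) {q : ℝ} (hq : q ≠ 0) (r : K) (k : ix K J → ℤ) (x : K)
    (hx : x = ∑ i, (k i : ℚ) • bs K J i) :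
    (∑ i, (k i : ℝ) • BB K J t hq i) + (euclidean.toMixed K).symm (sg K t * mixedEmbedding K r) =
      (euclidean.toMixed K).symm (sg K t * (mixedEmbedding K r + q • mixedEmbedding K x)) := by
  rw [sum_BB, ← hx, mul_add, map_add, mul_smul_comm, map_smul, add_comm]

end DualAux

open DualAux

variable [IsTotallyComplex K]

/-- The theta function of a shifted ideal lattice is summable. -/
theorem theta_summable (J : II K) {c : ℝ} (hc : 0 < c) (t : logSpace K) (r : K) (q : ℝ)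
    (hq : q ≠ 0) :
    Summable fun x : (J : Ideal (𝓞 K)) => Real.exp (-(c * en K (sg K t *
      (mixedEmbedding K r + q • mixedEmbedding K ((x : 𝓞 K) : K))) ^ 2)) := by
  classical
  obtain ⟨e, he⟩ := exists_equiv K J
  rw [← e.summable_iff]
  have h := gauss_summable (BB K J t hq) hc ((euclidean.toMixed K).symm (sg K t * mixedEmbedding K r))
  refine h.congr fun k => ?_
  rw [Function.comp_apply, en_eq, ← shift_eq K J t hq r k _ (he k)]

theorem theta_dual {J J' : II K} {n₀ : ℕ} (hn₀ : 0 < n₀)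
    (hJ : (J' : Ideal (𝓞 K)) * ((J : Ideal (𝓞 K)) * differentIdeal ℤ (𝓞 K)) =
      Ideal.span {(n₀ : 𝓞 K)}) {c : ℝ} (hc : 0 < c) {p : ℕ} (hp : 0 < p) (t : logSpace K)
    (r : 𝓞 K) :
    (∑' x : (J : Ideal (𝓞 K)), (Real.exp (-(2 * Real.pi * c *
        en K (sg K t * mixedEmbedding K ((r + (p : 𝓞 K) * x : 𝓞 K) : K)) ^ 2)) : ℂ)) =
      ((c ^ mm K * (p : ℝ) ^ nn K * nm K J * √|(discr K : ℝ)| : ℝ) : ℂ)⁻¹ *
        ∑' x' : (J' : Ideal (𝓞 K)), (Real.exp (-(2 * Real.pi / (c * (p : ℝ) ^ 2 * (n₀ : ℝ) ^ 2) *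
          en K (sg K (-t) * mixedEmbedding K ((x' : 𝓞 K) : K)) ^ 2)) : ℂ) *
          Complex.exp (2 * Real.pi * Complex.I *
            ((Algebra.trace ℤ (𝓞 K) (r * x') : ℤ) : ℂ) / ((n₀ : ℂ) * p)) := by
  classical
  obtain ⟨e, he⟩ := exists_equiv K J
  obtain ⟨e', he'⟩ := exists_equiv_dual K hn₀ hJ
  have hn₀' : (0:ℝ) < n₀ := by exact_mod_cast hn₀
  have hp' : (0:ℝ) < p := by exact_mod_cast hp
  have hs : 0 < √(2 * c) := Real.sqrt_pos.mpr (by positivity)
  have hs2 : √(2 * c) ^ 2 = 2 * c := Real.sq_sqrt (by positivity)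
  set ρ : ℝ := √(2 * c) * p with hρ
  have hρ0 : 0 < ρ := by positivity
  have hρ2 : ρ ^ 2 = 2 * c * p ^ 2 := by rw [hρ, mul_pow, hs2]
  set v : euclidean.mixedSpace K :=
    √(2 * c) • (euclidean.toMixed K).symm (sg K t * mixedEmbedding K (r : K)) with hv
  obtain ⟨B', hB', hBB⟩ := exists_dual_basis K J t hρ0.ne'
  have hmain := gauss_poisson (BB K J t hρ0.ne') B' hBB v
  -- left side
  have hL : ∀ k : ix K J → ℤ, (Real.pi * ‖(∑ i, (k i : ℝ) • BB K J t hρ0.ne' i) + v‖ ^ 2) =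
      2 * Real.pi * c *
        en K (sg K t * mixedEmbedding K ((r + (p : 𝓞 K) * (e k : 𝓞 K) : 𝓞 K) : K)) ^ 2 := by
    intro k
    have h1 : (∑ i, (k i : ℝ) • BB K J t hρ0.ne' i) + v = √(2 * c) •
        (euclidean.toMixed K).symm (sg K t *
          mixedEmbedding K ((r + (p : 𝓞 K) * (e k : 𝓞 K) : 𝓞 K) : K)) := by
      rw [sum_BB, ← he k, hv, hρ, mul_smul, ← smul_add, ← map_smul, ← map_add]
      congr 2
      rw [← mul_smul_comm, ← mul_add]
      congr 1
      have h0 : ((r + (p : 𝓞 K) * (e k : 𝓞 K) : 𝓞 K) : K) = (r : K) + (p : K) * ((e k : 𝓞 K) : K) := by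
        have := map_add (algebraMap (𝓞 K) K) r ((p : 𝓞 K) * (e k : 𝓞 K))
        rw [map_mul, map_natCast] at this
        exact this
      rw [h0, map_add, map_mul, add_comm, map_natCast, ← nsmul_eq_mul, Nat.cast_smul_eq_nsmul]
    rw [h1, _root_.norm_smul, ← en_eq, mul_pow, Real.norm_eq_abs, sq_abs, hs2]
    ring
  -- right side
  have hη : ∀ l : ix K J → ℤ, mixedEmbedding K (((e' l : 𝓞 K) : K)) =
      (n₀ : ℝ) • mixedEmbedding K (∑ i, (l i : ℚ) • bd K J i) := by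
    intro l
    rw [he' l, map_mul, map_natCast, ← nsmul_eq_mul, Nat.cast_smul_eq_nsmul]
  have hsumB' : ∀ l : ix K J → ℤ, ∑ i, (l i : ℝ) • B' i =
      ρ⁻¹ • (euclidean.toMixed K).symm (Dt K t (mixedEmbedding K (∑ i, (l i : ℚ) • bd K J i))) := by
    intro l
    rw [← sum_B']
    exact Finset.sum_congr rfl fun i _ => by rw [hB' i]
  have hR1 : ∀ l : ix K J → ℤ, Real.pi * ‖∑ i, (l i : ℝ) • B' i‖ ^ 2 =
      2 * Real.pi / (c * (p : ℝ) ^ 2 * (n₀ : ℝ) ^ 2) *
          en K (sg K (-t) * mixedEmbedding K ((e' l : 𝓞 K) : K)) ^ 2 := by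
    intro l
    rw [hsumB', _root_.norm_smul, norm_Dt, hη, mul_smul_comm]
    have h1 : ∀ y : mixedSpace K, en K ((n₀ : ℝ) • y) = n₀ * en K y := by
      intro y
      rw [en_eq, en_eq, map_smul, _root_.norm_smul, Real.norm_eq_abs, abs_of_pos hn₀']
    rw [h1, Real.norm_eq_abs, mul_pow, sq_abs, inv_pow, hρ2]
    field_simp
  have hR2 : ∀ l : ix K J → ℤ, ((⟪∑ i, (l i : ℝ) • B' i, v⟫_ℝ : ℝ) : ℂ) =
      ((Algebra.trace ℤ (𝓞 K) (r * (e' l : 𝓞 K)) : ℤ) : ℂ) / ((n₀ : ℂ) * p) := by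
    intro l
    rw [hsumB', hv, real_inner_smul_left, real_inner_smul_right, inner_Dt]
    have h1 : ((Algebra.trace ℤ (𝓞 K) (r * (e' l : 𝓞 K)) : ℤ) : ℚ) =
        n₀ * Algebra.trace ℚ K ((∑ i, (l i : ℚ) • bd K J i) * (r : K)) := by
      have h0 : ((r * (e' l : 𝓞 K) : 𝓞 K) : K) = (r : K) * ((e' l : 𝓞 K) : K) :=
        map_mul (algebraMap (𝓞 K) K) r (e' l : 𝓞 K)
      rw [Algebra.coe_trace_int, h0, he' l]
      have h2 : (r : K) * ((n₀ : K) * ∑ i, (l i : ℚ) • bd K J i) =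
          (n₀ : ℚ) • ((∑ i, (l i : ℚ) • bd K J i) * (r : K)) := by
        rw [Rat.smul_def]; push_cast; ring
      rw [h2, map_smul, smul_eq_mul]
    have h3 : ((Algebra.trace ℤ (𝓞 K) (r * (e' l : 𝓞 K)) : ℤ) : ℝ) =
        n₀ * ((Algebra.trace ℚ K ((∑ i, (l i : ℚ) • bd K J i) * (r : K)) : ℚ) : ℝ) := by
      have := congrArg (fun x : ℚ => (x : ℝ)) h1
      push_cast at this
      exact this
    have h4 : ρ⁻¹ * (√(2 * c) * ((Algebra.trace ℚ K ((∑ i, (l i : ℚ) • bd K J i) * (r : K)) : ℚ) : ℝ))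
        = ((Algebra.trace ℤ (𝓞 K) (r * (e' l : 𝓞 K)) : ℤ) : ℝ) / (n₀ * p) := by
      rw [h3, hρ]
      field_simp
    rw [h4]
    push_cast
    rfl
  have hV : (MeasureTheory.volume (ZSpan.fundamentalDomain (BB K J t hρ0.ne'))).toReal =
      c ^ mm K * (p : ℝ) ^ nn K * nm K J * √|(discr K : ℝ)| := by
    rw [volume_BB K J t hρ0]
    have h1 : nn K = 2 * mm K := IsTotallyComplex.finrank K
    rw [h1, pow_mul, pow_mul, hρ2]
    have h2 : (2 * c * (p:ℝ) ^ 2) ^ mm K = 2 ^ mm K * c ^ mm K * ((p:ℝ) ^ 2) ^ mm K := by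
      rw [mul_pow, mul_pow]
    rw [h2, one_div, inv_pow]
    field_simp
  rw [← e.tsum_eq, ← e'.tsum_eq, ← hV]
  simp only [hL, hR1, hR2] at hmain
  rw [hmain]
  congr 1
  refine tsum_congr fun l => ?_
  congr 2
  rw [mul_div_assoc]

end Pool.Agent.CMZ
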