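import Pool.Agent.CMZ.RayChf

/-!
# Module GS: Gauss sums

`k = 𝓞 K/p` is a finite field with `Q = p^n` elements; `χ_f = chf χ` defines a multiplicative character of `k`. Fix a nontrivial (= primitive) additive
character `Ψ` of `k`.
(1) For data `(J, J', n₀)` (`J' (J 𝔇) = (n₀)`, `p ∤ n₀`, so `J` is prime to `p`) and `x' ∈ J'`, `x ∈ J ↦ e(Tr(x x')/(n₀ p))` is trivial on `p J`
(`Tr(x x') ∈ n₀ ℤ` as `x x'/n₀ ∈ 𝔇⁻¹`), and `J/pJ = k` (`J ∩ p𝓞 = pJ`), so it is `Ψ(a x)` for a unique `a = a(J,n₀,x') ∈ k`.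
`a = 0` iff `x'/(n₀ p) ∈ J^∨ = J'/n₀` iff `x' ∈ p J'` iff `p ∣ x'` (`J'` is prime to `p`).
(2) `a(J,n₀,x') n₀/x'` (for `p ∤ x'`) is the same for all data: for data `1`, `2` and `r ∈ J₁ ∩ J₂`: `e(Tr(r n₁ x₂ x₁)/(n₁ p)) = Ψ(a₁ n₁ x₂ r)`, and the left
side is `e(Tr(r x₁ x₂)/p)`, symmetric; so `a₁ n₁ x₂ = a₂ n₂ x₁` as `J₁ ∩ J₂` maps onto `k`. Call it `a₀ ≠ 0`: `a = x' a₀/n₀`.
(3) So `∑_ρ χ_f(ρ) e(Tr(sec ρ x')/(n₀ p)) = ∑_ρ χ_f(ρ) Ψ(a ρ)`, for `p ∤ x'`: `= conj χ_f(a) τ(χ) = conj(χ_f(x')) χ_f(n₀) conj χ_f(a₀) τ(χ)`,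
`τ(χ) = ∑ χ_f(ρ) Ψ(ρ)`; for `p ∣ x'`: `0` for primitive `χ`. `|τ(χ)| = √Q` for primitive `χ` (`χ_f ≠ 1`; Mathlib `gaussSum`), `τ = -1` otherwise.
`Wf χ := Q^(-1/2) χ(𝔇) conj χ_f(a₀) τ(χ)`.
(4) last item: `∑_χ Wf χ χ(I) conj χ(J) = Q^(-1/2) ∑_{ρ ≠ 0} Ψ(ρ) ∑_χ χ(𝔇 I (ρ̃)) conj χ(J (ã₀))` (`ρ̃`, `ã₀ ∈ 𝓞 K` lifts), the inner sum is `NN` or `0` (`rc_orth`), and the
`ρ` with `𝔇 I (ρ̃) ~ J (ã₀)` are at most `UU` many (`ray_spn_iff`: two of them differ by a unit).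
-/

open scoped NumberField nonZeroDivisors
open NumberField NumberField.InfinitePlace NumberField.mixedEmbedding NumberField.Units
  NumberField.Units.dirichletUnitTheorem Pool.ZD

namespace Pool.Agent.CMZ

set_option linter.unusedSectionVars false

variable (K : Type) [Field K] [NumberField K]

/-- `e(t / p)` -/
noncomputable def ep (p : ℕ) (t : ℤ) : ℂ :=
  Complex.exp (2 * Real.pi * Complex.I * (t : ℂ) / (p : ℂ))

theorem ep_zero (p : ℕ) : ep p 0 = 1 := by simp [ep]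

theorem ep_add (p : ℕ) (s t : ℤ) : ep p (s + t) = ep p s * ep p t := by
  unfold ep
  rw [← Complex.exp_add]
  congr 1
  push_cast
  ring

theorem ep_eq_one {p : ℕ} (hp : p ≠ 0) (t : ℤ) : ep p t = 1 ↔ (p : ℤ) ∣ t := by
  unfold ep
  rw [Complex.exp_eq_one_iff]
  have hpc : (p : ℂ) ≠ 0 := by exact_mod_cast hp
  have hpi : (2 * Real.pi * Complex.I : ℂ) ≠ 0 := by
    simp [Real.pi_ne_zero]
  constructor
  · rintro ⟨n, hn⟩
    refine ⟨n, ?_⟩
    have h1 : (2 * Real.pi * Complex.I : ℂ) * (t / p) = (2 * Real.pi * Complex.I : ℂ) * n := by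
      rw [← mul_div_assoc, hn]; ring
    have h2 := mul_left_cancel₀ hpi h1
    rw [div_eq_iff hpc] at h2
    have h3 : (t : ℂ) = ((p * n : ℤ) : ℂ) := by rw [h2]; push_cast; ring
    exact_mod_cast h3
  · rintro ⟨n, rfl⟩
    refine ⟨n, ?_⟩
    push_cast
    field_simp

theorem ep_congr {p : ℕ} (hp : p ≠ 0) {s t : ℤ} (h : (p : ℤ) ∣ s - t) : ep p s = ep p t := by
  have h1 : s = (s - t) + t := by ring
  rw [h1, ep_add, (ep_eq_one hp _).2 h, one_mul]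

theorem norm_ep (p : ℕ) (t : ℤ) : ‖ep p t‖ = 1 := by
  unfold ep
  have : (2 * Real.pi * Complex.I * (t : ℂ) / (p : ℂ)) =
      ((2 * Real.pi * t / p : ℝ) : ℂ) * Complex.I := by push_cast; ring
  rw [this, Complex.norm_exp_ofReal_mul_I]

/-- the trace -/
noncomputable def tr (x : 𝓞 K) : ℤ := Algebra.trace ℤ (𝓞 K) x

variable {K} in
theorem tr_sub (x y : 𝓞 K) : tr K (x - y) = tr K x - tr K y := map_sub _ _ _

variable {K} in
theorem tr_add (x y : 𝓞 K) : tr K (x + y) = tr K x + tr K y := map_add _ _ _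

variable {K} in
theorem tr_nat_mul (a : ℕ) (x : 𝓞 K) : tr K ((a : 𝓞 K) * x) = a * tr K x := by
  have h : (a : 𝓞 K) * x = (a : ℤ) • x := by rw [zsmul_eq_mul]; push_cast; ring
  unfold tr
  rw [h, map_zsmul, smul_eq_mul]

variable {K} in
theorem tr_dvd {p : ℕ} {x : 𝓞 K} (h : (p : 𝓞 K) ∣ x) : (p : ℤ) ∣ tr K x := by
  obtain ⟨z, rfl⟩ := h
  rw [tr_nat_mul]
  exact Dvd.intro _ rfl

variable {K} in
theorem tr_congr {p : ℕ} {x y : 𝓞 K} (h : (p : 𝓞 K) ∣ x - y) : (p : ℤ) ∣ tr K x - tr K y := by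
  rw [← tr_sub]; exact tr_dvd h

theorem exists_tr {p : ℕ} (hd : |(discr K : ℝ)| < p) : ∃ x : 𝓞 K, ¬ (p : ℤ) ∣ tr K x := by
  classical
  by_contra hno
  push Not at hno
  have h1 : (p : ℤ) ∣ discr K := by
    rw [← ZMod.intCast_zmod_eq_zero_iff_dvd]
    have h2 : discr K = (Algebra.traceMatrix ℤ (RingOfIntegers.basis K)).det := rfl
    have h3 : ((discr K : ℤ) : ZMod p) =
        ((Algebra.traceMatrix ℤ (RingOfIntegers.basis K)).map (Int.castRingHom (ZMod p))).det := by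
      rw [h2, ← RingHom.mapMatrix_apply, ← RingHom.map_det]
      rfl
    rw [h3]
    have h4 : (Algebra.traceMatrix ℤ (RingOfIntegers.basis K)).map (Int.castRingHom (ZMod p)) =
        0 := by
      ext i j
      rw [Matrix.map_apply, Algebra.traceMatrix_apply, Algebra.traceForm_apply]
      change ((Algebra.trace ℤ (𝓞 K) _ : ℤ) : ZMod p) = 0
      rw [ZMod.intCast_zmod_eq_zero_iff_dvd]
      exact hno _
    rw [h4]
    have : Nonempty (Module.Free.ChooseBasisIndex ℤ (𝓞 K)) := by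
      rw [← Fintype.card_pos_iff, ← Module.finrank_eq_card_basis (RingOfIntegers.basis K),
        RingOfIntegers.rank]
      exact Module.finrank_pos
    exact Matrix.det_zero
  have h2 : (p : ℤ) ≤ |discr K| :=
    Int.le_of_dvd (abs_pos.2 (discr_ne_zero K)) ((dvd_abs _ _).2 h1)
  have h3 : (p : ℝ) ≤ |(discr K : ℝ)| := by exact_mod_cast h2
  linarith

variable {K} in
/-- The trace of `r x'` is divisible by `n₀`. -/
theorem dvd_tr_mul {J J' : Ideal (𝓞 K)} {n₀ : ℕ} (hn : 0 < n₀)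
    (h : J' * (J * differentIdeal ℤ (𝓞 K)) = Ideal.span {(n₀ : 𝓞 K)}) {r x' : 𝓞 K}
    (hr : r ∈ J) (hx : x' ∈ J') : (n₀ : ℤ) ∣ tr K (r * x') := by
  have hnK : (n₀ : K) ≠ 0 := Nat.cast_ne_zero.2 hn.ne'
  have h2 : FractionalIdeal.dual ℤ ℚ (1 : FractionalIdeal (𝓞 K)⁰ K) ≠ 0 :=
    FractionalIdeal.dual_ne_zero ℤ ℚ one_ne_zero
  have h1 : ((J' * J : Ideal (𝓞 K)) : FractionalIdeal (𝓞 K)⁰ K) =
      FractionalIdeal.spanSingleton (𝓞 K)⁰ (n₀ : K) *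
        FractionalIdeal.dual ℤ ℚ (1 : FractionalIdeal (𝓞 K)⁰ K) := by
    have h3 : ((J' * (J * differentIdeal ℤ (𝓞 K)) : Ideal (𝓞 K)) :
        FractionalIdeal (𝓞 K)⁰ K) = FractionalIdeal.spanSingleton (𝓞 K)⁰ (n₀ : K) := by
      rw [h, FractionalIdeal.coeIdeal_span_singleton]
      simp
    rw [← h3, ← mul_assoc, FractionalIdeal.coeIdeal_mul (J' * J),
      coeIdeal_differentIdeal ℤ ℚ K (𝓞 K), mul_assoc, inv_mul_cancel₀ h2, mul_one]
  have h4 : ((x' * r : 𝓞 K) : K) ∈ ((J' * J : Ideal (𝓞 K)) : FractionalIdeal (𝓞 K)⁰ K) := by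
    rw [FractionalIdeal.mem_coeIdeal]
    exact ⟨x' * r, Ideal.mul_mem_mul hx hr, rfl⟩
  rw [h1, FractionalIdeal.mem_singleton_mul] at h4
  obtain ⟨η, hη, h5⟩ := h4
  rw [FractionalIdeal.mem_dual (one_ne_zero : (1 : FractionalIdeal (𝓞 K)⁰ K) ≠ 0)] at hη
  have h6 := hη 1 (FractionalIdeal.one_mem_one _)
  rw [Algebra.traceForm_apply, mul_one] at h6
  obtain ⟨z, hz⟩ := h6
  refine ⟨z, ?_⟩
  have h7 : ((tr K (r * x') : ℤ) : ℚ) = ((n₀ * z : ℤ) : ℚ) := by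
    unfold tr
    rw [Algebra.coe_trace_int, mul_comm, h5]
    have h8 : (n₀ : K) * η = (n₀ : ℚ) • η := by
      rw [Algebra.smul_def]; simp
    rw [h8, map_smul, ← hz]
    push_cast
    simp
  exact_mod_cast h7

section Field

variable {K}
variable {k : Type} [Field k] [Fintype k] (π : 𝓞 K →+* k) (s : k → 𝓞 K)

/-- the Gauss sum -/
noncomputable def tau (p : ℕ) (s : k → 𝓞 K) (χ : II K → ℂ) : ℂ :=
  ∑ ρ : k, chf K χ (s ρ) * ep p (tr K (s ρ))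

variable {π s} {p : ℕ} (hs : ∀ ρ, π (s ρ) = ρ) (hker : ∀ x, π x = 0 ↔ (p : 𝓞 K) ∣ x)

include hs hker in
theorem dvd_s (x : 𝓞 K) : (p : 𝓞 K) ∣ s (π x) - x := by
  rw [← hker, map_sub, hs, sub_self]

/-- the additive character -/
noncomputable def Psi (hp : p ≠ 0) (hs : ∀ ρ, π (s ρ) = ρ)
    (hker : ∀ x, π x = 0 ↔ (p : 𝓞 K) ∣ x) : AddChar k ℂ where
  toFun ρ := ep p (tr K (s ρ))
  map_zero_eq_one' := by
    rw [ep_eq_one hp]
    exact tr_dvd ((hker _).1 (hs 0))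
  map_add_eq_mul' a b := by
    rw [← ep_add, ← tr_add]
    refine ep_congr hp (tr_congr ?_)
    rw [← hker, map_sub, map_add, hs, hs, hs, sub_self]

theorem Psi_apply (hp : p ≠ 0) (x : 𝓞 K) : Psi hp hs hker (π x) = ep p (tr K x) :=
  ep_congr hp (tr_congr (dvd_s hs hker x))

/-- the multiplicative character -/
noncomputable def chM (hp : Inert K p) {χ : II K → ℂ} (hχ : χ ∈ XX K p)
    (hs : ∀ ρ, π (s ρ) = ρ) (hker : ∀ x, π x = 0 ↔ (p : 𝓞 K) ∣ x) : MulChar k ℂ where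
  toFun ρ := chf K χ (s ρ)
  map_one' := by
    have h1 : (p : 𝓞 K) ∣ s 1 - ((1 : (𝓞 K)ˣ) : 𝓞 K) := by
      rw [← hker, map_sub, hs]; simp
    rw [chf_congr hp hχ h1, chf_unit hp hχ]
  map_mul' a b := by
    rw [← chf_mul hp hχ]
    refine chf_congr hp hχ ?_
    rw [← hker, map_sub, map_mul, hs, hs, hs, sub_self]
  map_nonunit' a ha := by
    have h0 : a = 0 := by
      by_contra h
      exact ha (isUnit_iff_ne_zero.2 h)
    subst h0
    exact (chf_zero_iff hp hχ _).2 ((hker _).1 (hs 0))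

theorem chM_apply (hp : Inert K p) {χ : II K → ℂ} (hχ : χ ∈ XX K p) (x : 𝓞 K) :
    chM hp hχ hs hker (π x) = chf K χ x :=
  chf_congr hp hχ (dvd_s hs hker x)

theorem tau_eq (hp : Inert K p) {χ : II K → ℂ} (hχ : χ ∈ XX K p) :
    tau p s χ = gaussSum (chM hp hχ hs hker) (Psi hp.ne_zero hs hker) := rfl

include hs hker in
theorem Psi_ne_one (hp : Inert K p) (hd : |(discr K : ℝ)| < p) :
    Psi hp.ne_zero hs hker ≠ 1 := by
  obtain ⟨x, hx⟩ := exists_tr K hd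
  intro h
  have h1 := Psi_apply hs hker hp.ne_zero x
  rw [h, AddChar.one_apply] at h1
  exact hx ((ep_eq_one hp.ne_zero _).1 h1.symm)

theorem chM_ne_one (hp : Inert K p) {χ : II K → ℂ} (hχ : χ ∈ XX K p) (hχ' : χ ∈ XP K p) :
    chM hp hχ hs hker ≠ 1 := by
  obtain ⟨-, x, hx0, hx1, hx2⟩ := (mem_XP hp).1 hχ'
  have hc : chf K χ x = χ (spn K x) := by
    unfold chf
    rw [if_neg hx0]
  intro h
  have h1 := chM_apply hs hker hp hχ x
  rw [h, hc] at h1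
  by_cases hu : π x = 0
  · have h2 := (chf_zero_iff hp hχ x).2 ((hker x).1 hu)
    rw [hc] at h2
    exact hx1 h2
  · rw [MulChar.one_apply (isUnit_iff_ne_zero.2 hu)] at h1
    exact hx2 h1.symm

include hs hker in
theorem norm_tau (hp : Inert K p) (hd : |(discr K : ℝ)| < p) {χ : II K → ℂ}
    (hχ : χ ∈ XP K p) : ‖tau p s χ‖ = √(Fintype.card k : ℝ) := by
  have hχ' := XP_subset K p hχ
  rw [tau_eq hs hker hp hχ']
  set G := gaussSum (chM hp hχ' hs hker) (Psi hp.ne_zero hs hker) with hG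
  have h1 := gaussSum_mul_gaussSum_eq_card (chM_ne_one hs hker hp hχ' hχ)
    (AddChar.IsPrimitive.of_ne_one (Psi_ne_one hs hker hp hd))
  rw [← star_gaussSum_eq, ← hG] at h1
  have h2 : (‖G‖ ^ 2 : ℝ) = Fintype.card k := by
    have h3 : G * star G = ((‖G‖ ^ 2 : ℝ) : ℂ) := by
      rw [← Complex.normSq_eq_norm_sq, ← Complex.mul_conj]
      rfl
    rw [h3] at h1
    exact_mod_cast h1
  rw [← h2, Real.sqrt_sq (norm_nonneg _)]

include hs hker in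
theorem norm_tau' (hp : Inert K p) (hd : |(discr K : ℝ)| < p) {χ : II K → ℂ}
    (hχ : χ ∈ XX K p) (hχ' : χ ∉ XP K p) : ‖tau p s χ‖ = 1 := by
  rw [tau_eq hs hker hp hχ]
  have h1 : chM hp hχ hs hker = 1 := by
    ext u
    rw [MulChar.one_apply_coe]
    have h2 : π (s (u : k)) = u := hs _
    have h3 := chM_apply hs hker hp hχ (s (u : k))
    rw [h2] at h3
    rw [h3]
    have h4 : s (u : k) ≠ 0 := by
      intro h
      rw [h, map_zero] at h2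
      exact u.ne_zero h2.symm
    by_contra hne
    refine hχ' ((mem_XP hp).2 ⟨(mem_XX hp).1 hχ, s (u : k), h4, ?_, ?_⟩)
    · intro h0
      have h5 : chf K χ (s (u : k)) = 0 := by unfold chf; rw [if_neg h4, h0]
      have h6 := (hker _).2 ((chf_zero_iff hp hχ _).1 h5)
      rw [h2] at h6
      exact u.ne_zero h6
    · intro h0
      refine hne ?_
      unfold chf
      rw [if_neg h4, h0]
  rw [h1, gaussSum_one_left (Psi_ne_one hs hker hp hd)]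
  simp

include hs hker in
theorem sum_shift (hp : Inert K p) {χ : II K → ℂ} (hχ : χ ∈ XP K p) (c : 𝓞 K) :
    ∑ ρ : k, chf K χ (s ρ) * ep p (tr K (c * s ρ)) = (starRingEnd ℂ) (chf K χ c) * tau p s χ := by
  have hχ' := XP_subset K p hχ
  have hterm : ∀ ρ : k, chf K χ (s ρ) * ep p (tr K (c * s ρ)) =
      chM hp hχ' hs hker ρ * Psi hp.ne_zero hs hker (π c * ρ) := by
    intro ρ
    have h1 : π c * ρ = π (c * s ρ) := by rw [map_mul, hs]
    rw [h1, Psi_apply hs hker hp.ne_zero]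
    rfl
  rw [Finset.sum_congr rfl fun ρ _ => hterm ρ]
  by_cases hc : π c = 0
  · have h2 : chf K χ c = 0 := (chf_zero_iff hp hχ' c).2 ((hker c).1 hc)
    rw [h2, map_zero, zero_mul]
    simp only [hc, zero_mul, AddChar.map_zero_eq_one, mul_one]
    exact MulChar.sum_eq_zero_of_ne_one (chM_ne_one hs hker hp hχ' hχ)
  · have h3 : ∑ ρ : k, chM hp hχ' hs hker ρ * Psi hp.ne_zero hs hker (π c * ρ) =
        gaussSum (chM hp hχ' hs hker) ((Psi hp.ne_zero hs hker).mulShift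
          (Units.mk0 (π c) hc : kˣ)) := by
      unfold gaussSum
      refine Finset.sum_congr rfl fun ρ _ => ?_
      rw [AddChar.mulShift_apply, Units.val_mk0]
    rw [h3, gaussSum_mulShift_eq, tau_eq hs hker hp hχ']
    congr 1
    rw [Units.val_mk0, ← chM_apply hs hker hp hχ' c, ← MulChar.star_apply']
    rfl

open Classical in
include hs hker in
theorem count_le (hp : Inert K p) {A J : II K} :
    (((Finset.univ : Finset k).filter fun ρ => ρ ≠ 0 ∧ Ray K p (A * spn K (s ρ)) J).card : ℝ) ≤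
      ((Set.range fun u : (𝓞 K)ˣ => π (u : 𝓞 K)).ncard : ℝ) := by
  set S := (Finset.univ : Finset k).filter fun ρ => ρ ≠ 0 ∧ Ray K p (A * spn K (s ρ)) J with hS
  rcases S.eq_empty_or_nonempty with h | ⟨ρ₀, hρ₀⟩
  · rw [h]
    simp
  have hρ₀' := (Finset.mem_filter.1 hρ₀).2
  have hnd : ∀ ρ : k, ρ ≠ 0 → ¬ (p : 𝓞 K) ∣ s ρ := by
    intro ρ hρ h
    rw [← hker, hs] at h
    exact hρ h
  have hfin : (Set.range fun u : (𝓞 K)ˣ => π (u : 𝓞 K)).Finite := Set.toFinite _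
  have hsub : (S : Set k) ⊆ (fun z => z * ρ₀) '' (Set.range fun u : (𝓞 K)ˣ => π (u : 𝓞 K)) := by
    intro ρ hρ
    have hρ' := (Finset.mem_filter.1 (Finset.mem_coe.1 hρ)).2
    have h1 : Ray K p (A * spn K (s ρ)) (A * spn K (s ρ₀)) :=
      ray_trans hρ'.2 (ray_symm hρ₀'.2)
    rw [ray_cancel, ray_spn_iff hp (hnd ρ hρ'.1) (hnd ρ₀ hρ₀'.1)] at h1
    obtain ⟨u, hu⟩ := h1
    refine ⟨π (u : 𝓞 K), ⟨u, rfl⟩, ?_⟩
    rw [← hker, map_sub, map_mul, hs, hs, sub_eq_zero] at hu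
    exact hu.symm
  have h2 : S.card = (S : Set k).ncard := (Set.ncard_coe_finset S).symm
  have h3 : (S : Set k).ncard ≤
      ((fun z => z * ρ₀) '' (Set.range fun u : (𝓞 K)ˣ => π (u : 𝓞 K))).ncard :=
    Set.ncard_le_ncard hsub (hfin.image _)
  have h4 := Set.ncard_image_le (f := fun z => z * ρ₀) hfin
  exact_mod_cast (h2.le.trans h3).trans h4

open Classical in
include hs hker in
theorem sum_tau (hp : Inert K p) {A J : II K} (hA : ¬ pI K p ∣ (A : Ideal (𝓞 K)))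
    (hJ : ¬ pI K p ∣ (J : Ideal (𝓞 K))) :
    ‖∑ χ ∈ XX K p, tau p s χ * χ A * (starRingEnd ℂ) (χ J)‖ ≤
      NN K p * ((Set.range fun u : (𝓞 K)ˣ => π (u : 𝓞 K)).ncard : ℝ) := by
  have hNN : 0 ≤ NN K p := (NN_pos K hp).le
  have hnd : ∀ ρ : k, ρ ≠ 0 → ¬ (p : 𝓞 K) ∣ s ρ := by
    intro ρ hρ h
    rw [← hker, hs] at h
    exact hρ h
  have h1 : ∑ χ ∈ XX K p, tau p s χ * χ A * (starRingEnd ℂ) (χ J) =
      ∑ ρ : k, ep p (tr K (s ρ)) *
        if ρ ≠ 0 ∧ Ray K p (A * spn K (s ρ)) J then (NN K p : ℂ) else 0 := by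
    have h2 : ∀ χ ∈ XX K p, tau p s χ * χ A * (starRingEnd ℂ) (χ J) =
        ∑ ρ : k, ep p (tr K (s ρ)) * (chf K χ (s ρ) * χ A * (starRingEnd ℂ) (χ J)) := by
      intro χ _
      unfold tau
      rw [Finset.sum_mul, Finset.sum_mul]
      refine Finset.sum_congr rfl fun ρ _ => ?_
      ring
    rw [Finset.sum_congr rfl h2, Finset.sum_comm]
    refine Finset.sum_congr rfl fun ρ _ => ?_
    rw [← Finset.mul_sum]
    congr 1
    by_cases hρ : ρ = 0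
    · rw [if_neg (fun h => h.1 hρ)]
      refine Finset.sum_eq_zero fun χ hχ => ?_
      have h3 : chf K χ (s ρ) = 0 := by
        rw [chf_zero_iff hp hχ, ← hker, hs, hρ]
      rw [h3]; ring
    · have h4 : s ρ ≠ 0 := by
        intro h
        exact hnd ρ hρ (h ▸ dvd_zero _)
      have h5 : ¬ pI K p ∣ ((A * spn K (s ρ) : II K) : Ideal (𝓞 K)) := by
        refine not_dvd_mul hp hA ?_
        rw [pI_dvd_spn h4]
        exact hnd ρ hρ
      have h6 : ∀ χ ∈ XX K p, chf K χ (s ρ) * χ A * (starRingEnd ℂ) (χ J) =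
          χ (A * spn K (s ρ)) * (starRingEnd ℂ) (χ J) := by
        intro χ hχ
        rw [((mem_XX hp).1 hχ).mul]
        unfold chf
        rw [if_neg h4]
        ring
      rw [Finset.sum_congr rfl h6, rc_orth hp h5 hJ]
      by_cases hR : Ray K p (A * spn K (s ρ)) J
      · rw [if_pos hR, if_pos ⟨hρ, hR⟩]
      · rw [if_neg hR, if_neg (fun h => hR h.2)]
  rw [h1]
  calc ‖∑ ρ : k, ep p (tr K (s ρ)) *
        if ρ ≠ 0 ∧ Ray K p (A * spn K (s ρ)) J then (NN K p : ℂ) else 0‖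
      ≤ ∑ ρ : k, ‖ep p (tr K (s ρ)) *
        if ρ ≠ 0 ∧ Ray K p (A * spn K (s ρ)) J then (NN K p : ℂ) else 0‖ := norm_sum_le _ _
    _ = ∑ ρ : k, if ρ ≠ 0 ∧ Ray K p (A * spn K (s ρ)) J then NN K p else 0 := by
        refine Finset.sum_congr rfl fun ρ _ => ?_
        rw [norm_mul, norm_ep, one_mul]
        split_ifs
        · rw [Complex.norm_real, Real.norm_of_nonneg hNN]
        · exact norm_zero
    _ = (((Finset.univ : Finset k).filter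
          fun ρ => ρ ≠ 0 ∧ Ray K p (A * spn K (s ρ)) J).card : ℝ) * NN K p := by
        rw [← Finset.sum_filter, Finset.sum_const, nsmul_eq_mul]
    _ ≤ ((Set.range fun u : (𝓞 K)ˣ => π (u : 𝓞 K)).ncard : ℝ) * NN K p :=
        mul_le_mul_of_nonneg_right (count_le hs hker hp) hNN
    _ = _ := mul_comm _ _

include hs hker in
theorem sum_data (hp : Inert K p) {χ : II K → ℂ} (hχ : χ ∈ XP K p) {J J' : Ideal (𝓞 K)}
    {n₀ : ℕ} (hn : 0 < n₀) (hpn : ¬ p ∣ n₀)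
    (h : J' * (J * differentIdeal ℤ (𝓞 K)) = Ideal.span {(n₀ : 𝓞 K)})
    {sec : k → 𝓞 K} (hsec : ∀ ρ, sec ρ ∈ J ∧ π (sec ρ) = ρ) {x' : 𝓞 K} (hx : x' ∈ J') :
    ∑ ρ, chf K χ (sec ρ) * Complex.exp (2 * Real.pi * Complex.I *
      ((Algebra.trace ℤ (𝓞 K) (sec ρ * x') : ℤ) : ℂ) / ((n₀ : ℂ) * p)) =
      tau p s χ * chf K χ (n₀ : 𝓞 K) * (starRingEnd ℂ) (chf K χ x') := by
  have hχ' := XP_subset K p hχ
  have hp0 : p ≠ 0 := hp.ne_zero
  -- an inverse of `n₀`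
  obtain ⟨m₀, c, hmc⟩ : ∃ m₀ : ℕ, ∃ c : ℤ, (m₀ : ℤ) * n₀ = 1 + p * c := by
    have hcop : Nat.Coprime n₀ p := (Nat.Coprime.symm ((Nat.Prime.coprime_iff_not_dvd hp.1).2 hpn))
    obtain ⟨m, -, hm⟩ := Nat.exists_mul_mod_eq_one_of_coprime hcop hp.1.one_lt
    refine ⟨m, (n₀ * m / p : ℕ), ?_⟩
    have h1 := Nat.div_add_mod (n₀ * m) p
    rw [hm] at h1
    have h2 : ((n₀ * m : ℕ) : ℤ) = p * (n₀ * m / p : ℕ) + 1 := by exact_mod_cast h1.symm
    push_cast at h2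
    push_cast
    linarith
  have hterm : ∀ ρ : k, chf K χ (sec ρ) * Complex.exp (2 * Real.pi * Complex.I *
      ((Algebra.trace ℤ (𝓞 K) (sec ρ * x') : ℤ) : ℂ) / ((n₀ : ℂ) * p)) =
      chf K χ (s ρ) * ep p (tr K ((m₀ : 𝓞 K) * x' * s ρ)) := by
    intro ρ
    have h1 : (p : 𝓞 K) ∣ sec ρ - s ρ := by
      rw [← hker, map_sub, hs, (hsec ρ).2, sub_self]
    rw [chf_congr hp hχ' h1]
    congr 1
    obtain ⟨T, hT⟩ := dvd_tr_mul hn h (hsec ρ).1 hx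
    have h2 : Complex.exp (2 * Real.pi * Complex.I *
      ((Algebra.trace ℤ (𝓞 K) (sec ρ * x') : ℤ) : ℂ) / ((n₀ : ℂ) * p)) = ep p T := by
      unfold ep
      congr 1
      have h3 : ((Algebra.trace ℤ (𝓞 K) (sec ρ * x') : ℤ) : ℂ) = (n₀ : ℂ) * T := by
        have : (Algebra.trace ℤ (𝓞 K) (sec ρ * x') : ℤ) = n₀ * T := hT
        rw [this]; push_cast; ring
      rw [h3]
      have h4 : (n₀ : ℂ) ≠ 0 := by exact_mod_cast hn.ne'
      have h5 : (p : ℂ) ≠ 0 := by exact_mod_cast hp0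
      field_simp
    rw [h2]
    refine ep_congr hp0 ?_
    have h6 : (p : ℤ) ∣ tr K ((m₀ : 𝓞 K) * (sec ρ * x')) - tr K ((m₀ : 𝓞 K) * x' * s ρ) := by
      refine tr_congr ?_
      have : (m₀ : 𝓞 K) * (sec ρ * x') - (m₀ : 𝓞 K) * x' * s ρ =
          ((m₀ : 𝓞 K) * x') * (sec ρ - s ρ) := by ring
      rw [this]
      exact h1.mul_left _
    rw [tr_nat_mul, hT] at h6
    have h7 : T - tr K ((m₀ : 𝓞 K) * x' * s ρ) =
        ((m₀ : ℤ) * (n₀ * T) - tr K ((m₀ : 𝓞 K) * x' * s ρ)) + p * (-(c * T)) := by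
      have : (m₀ : ℤ) * (n₀ * T) = (1 + p * c) * T := by rw [← hmc]; ring
      rw [this]; ring
    rw [h7]
    exact dvd_add h6 (Dvd.intro _ rfl)
  rw [Finset.sum_congr rfl fun ρ _ => hterm ρ, sum_shift hs hker hp hχ, chf_mul hp hχ', map_mul]
  -- `conj χ(m₀) = χ(n₀)`
  have h8 : chf K χ (m₀ : 𝓞 K) * chf K χ (n₀ : 𝓞 K) = 1 := by
    rw [← chf_mul hp hχ', ← chf_unit hp hχ' 1]
    refine chf_congr hp hχ' ⟨(c : 𝓞 K), ?_⟩
    have : ((m₀ : 𝓞 K) * (n₀ : 𝓞 K)) = 1 + p * c := by exact_mod_cast congrArg (Int.cast : ℤ → 𝓞 K) hmc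
    rw [this]; simp
  have h9 : ‖chf K χ (m₀ : 𝓞 K)‖ = 1 := by
    refine chf_norm hp hχ' fun hdv => ?_
    rw [(chf_zero_iff hp hχ' _).2 hdv, zero_mul] at h8
    exact zero_ne_one h8
  have h10 : (starRingEnd ℂ) (chf K χ (m₀ : 𝓞 K)) = chf K χ (n₀ : 𝓞 K) := by
    have h11 : (starRingEnd ℂ) (chf K χ (m₀ : 𝓞 K)) * chf K χ (m₀ : 𝓞 K) = 1 := by
      rw [mul_comm, Complex.mul_conj, Complex.normSq_eq_norm_sq, h9]; simp
    have h12 : chf K χ (m₀ : 𝓞 K) ≠ 0 := by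
      intro h0
      rw [h0, zero_mul] at h8
      exact zero_ne_one h8
    refine mul_right_cancel₀ h12 ?_
    rw [h11, mul_comm, h8]
  rw [h10]
  ring

end Field

theorem gauss {p : ℕ} (hp : Inert K p) (hd : |(discr K : ℝ)| < p)
    [Fintype (𝓞 K ⧸ pI K p)] : ∃ Wf : (II K → ℂ) → ℂ,
    (∀ χ ∈ XX K p, ‖Wf χ‖ ≤ 1) ∧
    (∀ χ ∈ XP K p, ‖Wf χ‖ = 1 ∧ ∀ (J J' : II K) (n₀ : ℕ), 0 < n₀ → ¬ p ∣ n₀ →
      (J' : Ideal (𝓞 K)) * ((J : Ideal (𝓞 K)) * differentIdeal ℤ (𝓞 K)) =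
        Ideal.span {(n₀ : 𝓞 K)} →
      ∀ sec : 𝓞 K ⧸ pI K p → 𝓞 K,
        (∀ ρ, sec ρ ∈ (J : Ideal (𝓞 K)) ∧ Ideal.Quotient.mk (pI K p) (sec ρ) = ρ) →
        ∀ x' ∈ (J' : Ideal (𝓞 K)),
          ∑ ρ, chf K χ (sec ρ) * Complex.exp (2 * Real.pi * Complex.I *
            ((Algebra.trace ℤ (𝓞 K) (sec ρ * x') : ℤ) : ℂ) / ((n₀ : ℂ) * p)) =
          (√((p : ℝ) ^ nn K) : ℂ) * Wf χ * (starRingEnd ℂ) (χ (dI K)) * chf K χ (n₀ : 𝓞 K) *
            (starRingEnd ℂ) (chf K χ x')) ∧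
    ∀ I J : II K, ¬ pI K p ∣ (I : Ideal (𝓞 K)) → ¬ pI K p ∣ (J : Ideal (𝓞 K)) →
      ‖∑ χ ∈ XX K p, Wf χ * χ I * (starRingEnd ℂ) (χ J)‖ ≤
        NN K p * UU K p / √((p : ℝ) ^ nn K) := by
  classical
  have hmax : (pI K p).IsMaximal := hp.2.isMaximal (pI_ne_bot hp)
  let _ : Field (𝓞 K ⧸ pI K p) := Ideal.Quotient.field (pI K p)
  let π : 𝓞 K →+* 𝓞 K ⧸ pI K p := Ideal.Quotient.mk (pI K p)
  have hsurj : Function.Surjective π := Ideal.Quotient.mk_surjective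
  let s : 𝓞 K ⧸ pI K p → 𝓞 K := Function.surjInv hsurj
  have hs : ∀ ρ, π (s ρ) = ρ := Function.surjInv_eq hsurj
  have hker : ∀ x, π x = 0 ↔ (p : 𝓞 K) ∣ x := by
    intro x
    change Ideal.Quotient.mk (pI K p) x = 0 ↔ _
    rw [Ideal.Quotient.eq_zero_iff_mem]
    unfold pI
    exact Ideal.mem_span_singleton
  have hcard : (Fintype.card (𝓞 K ⧸ pI K p) : ℝ) = (p : ℝ) ^ nn K := by
    have h1 : Fintype.card (𝓞 K ⧸ pI K p) = p ^ nn K := by
      rw [← absNorm_pI (K := K) p, Ideal.absNorm_apply, Submodule.cardQuot_apply,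
        Nat.card_eq_fintype_card]
    rw [h1]; push_cast; rfl
  have hp1 : (1 : ℝ) < p := by exact_mod_cast hp.1.one_lt
  have hQ : 0 < (p : ℝ) ^ nn K := by positivity
  have hQs : 0 < √((p : ℝ) ^ nn K) := Real.sqrt_pos.2 hQ
  have hn1 : 0 < nn K := Module.finrank_pos
  have hdI : ¬ pI K p ∣ ((dI K : II K) : Ideal (𝓞 K)) := by
    refine not_dvd_of_lt ?_
    rw [nm_dI]
    refine hd.trans_le ?_
    exact le_self_pow₀ hp1.le hn1.ne'
  refine ⟨fun χ => ((√((p : ℝ) ^ nn K) : ℝ) : ℂ)⁻¹ * χ (dI K) * tau p s χ, ?_, ?_, ?_⟩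
  · intro χ hχ
    rw [norm_mul, norm_mul, norm_inv, Complex.norm_real, Real.norm_of_nonneg hQs.le,
      rc_norm hp hχ hdI, mul_one]
    by_cases hP : χ ∈ XP K p
    · rw [norm_tau hs hker hp hd hP, hcard, inv_mul_cancel₀ hQs.ne']
    · rw [norm_tau' hs hker hp hd hχ hP, mul_one]
      refine inv_le_one_of_one_le₀ ?_
      rw [Real.one_le_sqrt]
      exact one_le_pow₀ hp1.le
  · intro χ hχ
    have hχ' := XP_subset K p hχ
    refine ⟨?_, ?_⟩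
    · rw [norm_mul, norm_mul, norm_inv, Complex.norm_real, Real.norm_of_nonneg hQs.le,
        rc_norm hp hχ' hdI, mul_one, norm_tau hs hker hp hd hχ, hcard, inv_mul_cancel₀ hQs.ne']
    · intro J J' n₀ hn hpn h sec hsec x' hx'
      have h1 := sum_data hs hker hp hχ hn hpn h hsec hx'
      rw [h1]
      have h2 : χ (dI K) * (starRingEnd ℂ) (χ (dI K)) = 1 := by
        rw [Complex.mul_conj, Complex.normSq_eq_norm_sq, rc_norm hp hχ' hdI]; simp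
      have h3 : ((√((p : ℝ) ^ nn K) : ℝ) : ℂ) ≠ 0 := by exact_mod_cast hQs.ne'
      calc tau p s χ * chf K χ (n₀ : 𝓞 K) * (starRingEnd ℂ) (chf K χ x') =
          (((√((p : ℝ) ^ nn K) : ℝ) : ℂ) * ((√((p : ℝ) ^ nn K) : ℝ) : ℂ)⁻¹) *
            (χ (dI K) * (starRingEnd ℂ) (χ (dI K))) *
            (tau p s χ * chf K χ (n₀ : 𝓞 K) * (starRingEnd ℂ) (chf K χ x')) := by
            rw [h2, mul_inv_cancel₀ h3]; ring
        _ = _ := by ring
  · intro I J hI hJ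
    have hA : ¬ pI K p ∣ ((dI K * I : II K) : Ideal (𝓞 K)) := not_dvd_mul hp hdI hI
    have h1 := sum_tau hs hker hp hA hJ
    have h2 : ∑ χ ∈ XX K p, ((√((p : ℝ) ^ nn K) : ℝ) : ℂ)⁻¹ * χ (dI K) * tau p s χ * χ I *
        (starRingEnd ℂ) (χ J) = ((√((p : ℝ) ^ nn K) : ℝ) : ℂ)⁻¹ *
          ∑ χ ∈ XX K p, tau p s χ * χ (dI K * I) * (starRingEnd ℂ) (χ J) := by
      rw [Finset.mul_sum]
      refine Finset.sum_congr rfl fun χ hχ => ?_
      rw [((mem_XX hp).1 hχ).mul]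
      ring
    rw [h2, norm_mul, norm_inv, Complex.norm_real, Real.norm_of_nonneg hQs.le, div_eq_inv_mul]
    exact mul_le_mul_of_nonneg_left h1 (inv_nonneg.2 hQs.le)

end Pool.Agent.CMZ
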