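import Pool.Agent.CMZ.RayRel

/-!
# Module RC: ray class characters (`p` inert)

PROOFS. The monoid of the ideals not divisible by `(p)` (`not_dvd_mul`) modulo `Ray` is a finite abelian group `G` (`ray_*`, `ray_inv`, `ray_fin`).
Ray class characters are the homomorphisms `G → ℂˣ` extended by zero (an `IsRC` function is constant on ray classes: `spn x * I = spn y * J`). `rc_orth`:
orthogonality in the dual group (`CommGroup.exists_apply_ne_one_of_hasEnoughRootsOfUnity`, `#Ĝ = #G`; or via `AddChar`, compare `Pool/Agent/ZD/Parseval.lean`).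
`rc_card`: `NN = #G`; the principal ideals prime to `p`: `(x) ~ (x')` iff `x ≡ u x' (mod p)` (`ray_spn_iff`), so the `p^n - 1` nonzero residues fall into classes of
at most `UU` elements (`absNorm_pI`, `Ideal.absNorm` = cardinality of the quotient).
-/

open scoped NumberField nonZeroDivisors
open NumberField NumberField.InfinitePlace NumberField.mixedEmbedding NumberField.Units
  NumberField.Units.dirichletUnitTheorem Pool.ZD

namespace Pool.Agent.CMZ

set_option linter.unusedSectionVars false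

variable (K : Type) [Field K] [NumberField K]

/-! ### The ray class group -/

variable {K} in
theorem pI_ne_top {p : ℕ} (hp : Inert K p) : pI K p ≠ ⊤ := hp.2.ne_top

variable {K} in
theorem not_dvd_one' {p : ℕ} (hp : Inert K p) : ¬ pI K p ∣ ((1 : II K) : Ideal (𝓞 K)) := by
  intro h
  exact (prime_pI hp).not_isUnit (isUnit_of_dvd_one (by simpa using h))

variable {K} in
theorem not_dvd_of_congr_one {p : ℕ} (hp : Inert K p) {x : 𝓞 K} (h : (p : 𝓞 K) ∣ x - 1) :
    ¬ (p : 𝓞 K) ∣ x := by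
  intro h1
  have h2 : (p : 𝓞 K) ∣ 1 := by
    have h3 := dvd_sub h1 h
    simpa using h3
  apply hp.2.ne_top
  unfold pI
  rw [Ideal.span_singleton_eq_top]
  exact isUnit_of_dvd_one h2

/-- The monoid of the ideals prime to `p`. -/
def MP {p : ℕ} (hp : Inert K p) : Submonoid (II K) where
  carrier := {I | ¬ pI K p ∣ (I : Ideal (𝓞 K))}
  mul_mem' := fun hI hJ => not_dvd_mul hp hI hJ
  one_mem' := not_dvd_one' hp

variable {K} in
theorem mem_MP {p : ℕ} (hp : Inert K p) {I : II K} :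
    I ∈ MP K hp ↔ ¬ pI K p ∣ (I : Ideal (𝓞 K)) := Iff.rfl

/-- The ray class relation as a congruence. -/
def rcon {p : ℕ} (hp : Inert K p) : Con (MP K hp) where
  r := fun I J => Ray K p (I : II K) (J : II K)
  iseqv := ⟨fun I => ray_refl K p I, fun h => ray_symm h, fun h h' => ray_trans h h'⟩
  mul' := fun h h' => ray_mul h h'

variable {K} in
theorem rg_isUnit {p : ℕ} (hp : Inert K p) (a : (rcon K hp).Quotient) : IsUnit a := by
  induction a using Con.induction_on with
  | H x =>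
    obtain ⟨J, hJ, hr⟩ := ray_inv hp x.2
    have h1 : (x : (rcon K hp).Quotient) * ((⟨J, hJ⟩ : MP K hp) : (rcon K hp).Quotient) = 1 := by
      rw [← Con.coe_mul, ← Con.coe_one, Con.eq]
      exact hr
    exact IsUnit.of_mul_eq_one _ h1

/-- The ray class group. -/
def RG {p : ℕ} (hp : Inert K p) : Type := (rcon K hp).Quotient

/-- The group structure. -/
noncomputable instance rgGroup {p : ℕ} (hp : Inert K p) : CommGroup (RG K hp) :=
  commGroupOfIsUnit (M := (rcon K hp).Quotient) (rg_isUnit hp)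

variable {K} in
/-- The class of an ideal. -/
def cl {p : ℕ} (hp : Inert K p) (I : II K) (hI : ¬ pI K p ∣ (I : Ideal (𝓞 K))) : RG K hp :=
  ((⟨I, hI⟩ : MP K hp) : (rcon K hp).Quotient)

variable {K} in
theorem cl_eq_iff {p : ℕ} (hp : Inert K p) {I J : II K} {hI : ¬ pI K p ∣ (I : Ideal (𝓞 K))}
    {hJ : ¬ pI K p ∣ (J : Ideal (𝓞 K))} : cl hp I hI = cl hp J hJ ↔ Ray K p I J := by
  unfold cl RG
  rw [Con.eq]
  rfl

variable {K} in
theorem cl_mul {p : ℕ} (hp : Inert K p) {I J : II K} (hI : ¬ pI K p ∣ (I : Ideal (𝓞 K)))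
    (hJ : ¬ pI K p ∣ (J : Ideal (𝓞 K))) :
    cl hp (I * J) (not_dvd_mul hp hI hJ) = cl hp I hI * cl hp J hJ := rfl

variable {K} in
theorem cl_one {p : ℕ} (hp : Inert K p) : cl hp 1 (not_dvd_one' hp) = 1 := rfl

variable {K} in
theorem cl_surj {p : ℕ} (hp : Inert K p) (a : RG K hp) :
    ∃ (I : II K) (hI : ¬ pI K p ∣ (I : Ideal (𝓞 K))), cl hp I hI = a := by
  unfold RG at a
  induction a using Con.induction_on with
  | H x => exact ⟨x.1, x.2, rfl⟩

instance rg_finite {p : ℕ} (hp : Inert K p) : Finite (RG K hp) := by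
  classical
  obtain ⟨S, hS, hS'⟩ := ray_fin hp
  have h1 : Function.Surjective (fun J : S => cl hp J.1 (hS J.1 J.2)) := by
    intro a
    obtain ⟨I, hI, rfl⟩ := cl_surj hp a
    obtain ⟨J, hJ, hr⟩ := hS' I hI
    exact ⟨⟨J, hJ⟩, (cl_eq_iff hp).2 (ray_symm hr)⟩
  exact Finite.of_surjective _ h1

open Classical in
variable {K} in
/-- The extension by zero of a function on the ray class group. -/
noncomputable def ext0 {p : ℕ} (hp : Inert K p) (f : RG K hp → ℂ) (I : II K) : ℂ :=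
  if h : ¬ pI K p ∣ (I : Ideal (𝓞 K)) then f (cl hp I h) else 0

variable {K} in
theorem ext0_of {p : ℕ} (hp : Inert K p) (f : RG K hp → ℂ) {I : II K}
    (h : ¬ pI K p ∣ (I : Ideal (𝓞 K))) : ext0 hp f I = f (cl hp I h) := by
  unfold ext0
  rw [dif_pos h]

variable {K} in
theorem ext0_zero {p : ℕ} (hp : Inert K p) (f : RG K hp → ℂ) {I : II K}
    (h : pI K p ∣ (I : Ideal (𝓞 K))) : ext0 hp f I = 0 := by
  unfold ext0
  rw [dif_neg (not_not.2 h)]

variable {K} in
theorem ext0_inj {p : ℕ} (hp : Inert K p) {f g : RG K hp → ℂ} (h : ext0 hp f = ext0 hp g) :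
    f = g := by
  funext a
  obtain ⟨I, hI, rfl⟩ := cl_surj hp a
  rw [← ext0_of hp f hI, ← ext0_of hp g hI, h]

/-! ### General characters -/

variable {K} in
theorem isRC_ray {p : ℕ} {χ : II K → ℂ} (hχ : IsRC K p χ) {I J : II K}
    (h : Ray K p I J) : χ I = χ J := by
  obtain ⟨x, y, hx, hy, hx1, hy1, he⟩ := h
  have h1 := congrArg χ he
  rw [hχ.mul, hχ.mul, hχ.ray x hx hx1, hχ.ray y hy hy1, one_mul, one_mul] at h1
  exact h1

variable {K} in
theorem ray_spn_one {p : ℕ} {x : 𝓞 K} (hx : x ≠ 0) (h : (p : 𝓞 K) ∣ x - 1) :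
    Ray K p (spn K x) 1 :=
  ⟨1, x, one_ne_zero, hx, by simp, h, by rw [spn_one]; simp [mul_comm]⟩

variable {K} in
/-- The ray class characters are the characters of the ray class group. -/
theorem isRC_ext0 {p : ℕ} (hp : Inert K p) (ψ : AddChar (Additive (RG K hp)) ℂ) :
    IsRC K p (ext0 hp fun a => ψ (Additive.ofMul a)) where
  one := by
    rw [ext0_of hp _ (not_dvd_one' hp), cl_one]
    exact ψ.map_zero_eq_one
  mul := by
    intro I J
    by_cases hI : pI K p ∣ (I : Ideal (𝓞 K))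
    · rw [ext0_zero hp _ hI, zero_mul, ext0_zero]
      rw [Submonoid.coe_mul]
      exact Dvd.dvd.mul_right hI _
    by_cases hJ : pI K p ∣ (J : Ideal (𝓞 K))
    · rw [ext0_zero hp _ hJ, mul_zero, ext0_zero]
      rw [Submonoid.coe_mul]
      exact Dvd.dvd.mul_left hJ _
    rw [ext0_of hp _ hI, ext0_of hp _ hJ, ext0_of hp _ (not_dvd_mul hp hI hJ), cl_mul]
    exact ψ.map_add_eq_mul _ _
  zero_iff := by
    intro I
    constructor
    · intro h
      by_contra hI
      rw [ext0_of hp _ hI] at h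
      exact (ψ.val_isUnit _).ne_zero h
    · intro h
      exact ext0_zero hp _ h
  ray := by
    intro x hx h1
    have hI : ¬ pI K p ∣ (spn K x : Ideal (𝓞 K)) := by
      rw [pI_dvd_spn hx]
      exact not_dvd_of_congr_one hp h1
    rw [ext0_of hp _ hI]
    have h2 : cl hp (spn K x) hI = cl hp 1 (not_dvd_one' hp) :=
      (cl_eq_iff hp).2 (ray_spn_one hx h1)
    rw [h2, cl_one]
    exact ψ.map_zero_eq_one

variable {K} in
theorem isRC_iff {p : ℕ} (hp : Inert K p) {χ : II K → ℂ} : IsRC K p χ ↔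
    ∃ ψ : AddChar (Additive (RG K hp)) ℂ, ext0 hp (fun a => ψ (Additive.ofMul a)) = χ := by
  constructor
  · intro hχ
    let f : MP K hp →* ℂ :=
      { toFun := fun I => χ (I : II K)
        map_one' := hχ.one
        map_mul' := fun I J => hχ.mul I J }
    have hf : rcon K hp ≤ Con.ker f := by
      intro I J h
      exact isRC_ray hχ h
    let g : RG K hp →* ℂ := Con.lift (rcon K hp) f hf
    refine ⟨
      { toFun := fun a => g (Additive.toMul a)
        map_zero_eq_one' := map_one g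
        map_add_eq_mul' := fun a b => map_mul g _ _ }, ?_⟩
    funext I
    by_cases hI : pI K p ∣ (I : Ideal (𝓞 K))
    · rw [ext0_zero hp _ hI, (hχ.zero_iff I).2 hI]
    · rw [ext0_of hp _ hI]
      rfl
  · rintro ⟨ψ, rfl⟩
    exact isRC_ext0 hp ψ

variable {K} in
theorem isRC_set {p : ℕ} (hp : Inert K p) : {χ : II K → ℂ | IsRC K p χ} =
    Set.range fun ψ : AddChar (Additive (RG K hp)) ℂ =>
      ext0 hp fun a => ψ (Additive.ofMul a) := by
  ext χ
  exact isRC_iff hp

theorem rc_finite {p : ℕ} (hp : Inert K p) : {χ : II K → ℂ | IsRC K p χ}.Finite := by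
  rw [isRC_set hp]
  exact Set.finite_range _

variable {K} in
theorem mem_XX {p : ℕ} (hp : Inert K p) {χ : II K → ℂ} : χ ∈ XX K p ↔ IsRC K p χ := by
  unfold XX
  rw [dif_pos (rc_finite K hp), Set.Finite.mem_toFinset]
  rfl

open Classical in
variable {K} in
theorem mem_XP {p : ℕ} (hp : Inert K p) {χ : II K → ℂ} : χ ∈ XP K p ↔
    IsRC K p χ ∧ ∃ x : 𝓞 K, x ≠ 0 ∧ χ (spn K x) ≠ 0 ∧ χ (spn K x) ≠ 1 := by
  unfold XP
  rw [Finset.mem_filter, mem_XX hp]

theorem XP_subset (p : ℕ) : XP K p ⊆ XX K p := by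
  classical
  unfold XP
  exact Finset.filter_subset _ _

/-- Sum over all = sum over primitive + sum over imprimitive. -/
theorem rc_split (p : ℕ) (f : (II K → ℂ) → ℂ) :
    ∑ χ ∈ XX K p, f χ = ∑ χ ∈ XP K p, f χ + ∑ χ ∈ XI K p, f χ := by
  classical
  unfold XP XI
  exact (Finset.sum_filter_add_sum_filter_not _ _ _).symm

variable {K} in
theorem rc_ray {p : ℕ} (hp : Inert K p) {χ : II K → ℂ} (hχ : χ ∈ XX K p) {I J : II K}
    (h : Ray K p I J) : χ I = χ J := isRC_ray ((mem_XX hp).1 hχ) h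

variable {K} in
theorem rc_norm {p : ℕ} (hp : Inert K p) {χ : II K → ℂ} (hχ : χ ∈ XX K p) {I : II K}
    (hI : ¬ pI K p ∣ (I : Ideal (𝓞 K))) : ‖χ I‖ = 1 := by
  obtain ⟨ψ, rfl⟩ := (isRC_iff hp).1 ((mem_XX hp).1 hχ)
  rw [ext0_of hp _ hI]
  exact AddChar.norm_apply _ _

variable {K} in
theorem rc_norm_le {p : ℕ} (hp : Inert K p) {χ : II K → ℂ} (hχ : χ ∈ XX K p) (I : II K) :
    ‖χ I‖ ≤ 1 := by
  by_cases hI : pI K p ∣ (I : Ideal (𝓞 K))
  · rw [(((mem_XX hp).1 hχ).zero_iff I).2 hI, norm_zero]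
    exact zero_le_one
  · exact (rc_norm hp hχ hI).le

variable {K} in
/-- Sums over the ray class characters. -/
theorem sum_XX {p : ℕ} (hp : Inert K p) [Fintype (RG K hp)]
    (F : (II K → ℂ) → ℂ) :
    ∑ χ ∈ XX K p, F χ = ∑ ψ : AddChar (Additive (RG K hp)) ℂ,
      F (ext0 hp fun a => ψ (Additive.ofMul a)) := by
  classical
  have h1 : XX K p = Finset.univ.image fun ψ : AddChar (Additive (RG K hp)) ℂ =>
      ext0 hp fun a => ψ (Additive.ofMul a) := by
    ext χ
    rw [mem_XX hp, isRC_iff hp]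
    simp
  rw [h1, Finset.sum_image]
  intro ψ _ ψ' _ h
  have h2 := ext0_inj hp h
  ext a
  exact congrFun h2 (Additive.toMul a)

open Classical in
variable {K} in
theorem card_XX {p : ℕ} (hp : Inert K p) : (XX K p).card = Nat.card (RG K hp) := by
  have : Fintype (RG K hp) := Fintype.ofFinite _
  have h1 := sum_XX hp (fun _ => (1 : ℂ))
  simp only [Finset.sum_const, nsmul_eq_mul, mul_one] at h1
  have h2 : (XX K p).card =
      Finset.card (Finset.univ : Finset (AddChar (Additive (RG K hp)) ℂ)) := by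
    exact_mod_cast h1
  rw [h2, Finset.card_univ, AddChar.card_eq, Nat.card_eq_fintype_card]
  exact Fintype.card_congr Additive.toMul

open Classical in
variable {K} in
theorem rc_orth {p : ℕ} (hp : Inert K p) {I J : II K} (hI : ¬ pI K p ∣ (I : Ideal (𝓞 K)))
    (hJ : ¬ pI K p ∣ (J : Ideal (𝓞 K))) :
    ∑ χ ∈ XX K p, χ I * (starRingEnd ℂ) (χ J) = if Ray K p I J then (NN K p : ℂ) else 0 := by
  have : Fintype (RG K hp) := Fintype.ofFinite _
  rw [sum_XX hp]
  have h1 : ∀ ψ : AddChar (Additive (RG K hp)) ℂ,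
      ext0 hp (fun a => ψ (Additive.ofMul a)) I *
        (starRingEnd ℂ) (ext0 hp (fun a => ψ (Additive.ofMul a)) J) =
      ψ (Additive.ofMul (cl hp I hI) - Additive.ofMul (cl hp J hJ)) := by
    intro ψ
    rw [ext0_of hp _ hI, ext0_of hp _ hJ, ← AddChar.map_neg_eq_conj, ← AddChar.map_add_eq_mul,
      sub_eq_add_neg]
  rw [Finset.sum_congr rfl fun ψ _ => h1 ψ, AddChar.sum_apply_eq_ite]
  unfold NN
  rw [card_XX hp, Nat.card_eq_fintype_card]
  have h2 : (Additive.ofMul (cl hp I hI) - Additive.ofMul (cl hp J hJ) = 0) ↔ Ray K p I J := by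
    rw [sub_eq_zero, Additive.ofMul.apply_eq_iff_eq, cl_eq_iff]
  simp only [h2]
  split_ifs <;> simp

theorem NN_pos {p : ℕ} (hp : Inert K p) : 0 < NN K p := by
  unfold NN
  rw [card_XX hp]
  exact_mod_cast Nat.card_pos

variable {K} in
theorem mk_eq_iff {p : ℕ} {x y : 𝓞 K} :
    Ideal.Quotient.mk (pI K p) x = Ideal.Quotient.mk (pI K p) y ↔ (p : 𝓞 K) ∣ x - y := by
  rw [Ideal.Quotient.eq]
  unfold pI
  rw [Ideal.mem_span_singleton]

variable {K} in
theorem finite_quot {p : ℕ} (hp : Inert K p) : Finite (𝓞 K ⧸ pI K p) :=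
  Ring.HasFiniteQuotients.finiteQuotient (pI_ne_bot hp)

variable {K} in
theorem card_quot (p : ℕ) : Nat.card (𝓞 K ⧸ pI K p) = p ^ nn K := by
  rw [← absNorm_pI, Ideal.absNorm_apply, Submodule.cardQuot_apply]

theorem rc_card {p : ℕ} (hp : Inert K p) : (p : ℝ) ^ nn K - 1 ≤ NN K p * UU K p := by
  classical
  have := finite_quot hp
  have : Fintype (𝓞 K ⧸ pI K p) := Fintype.ofFinite _
  have : Fintype (RG K hp) := Fintype.ofFinite _
  have hout : ∀ a : 𝓞 K ⧸ pI K p, Ideal.Quotient.mk (pI K p) (Quotient.out a) = a :=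
    fun a => Quotient.out_eq a
  have hnd : ∀ a : 𝓞 K ⧸ pI K p, a ≠ 0 → ¬ (p : 𝓞 K) ∣ Quotient.out a := by
    intro a ha h
    apply ha
    rw [← hout a, ← map_zero (Ideal.Quotient.mk (pI K p)), mk_eq_iff, sub_zero]
    exact h
  have hne : ∀ a : 𝓞 K ⧸ pI K p, a ≠ 0 → (Quotient.out a : 𝓞 K) ≠ 0 := by
    intro a ha h
    exact hnd a ha (h ▸ dvd_zero _)
  let f : (𝓞 K ⧸ pI K p) → RG K hp := fun a =>
    if h : ¬ pI K p ∣ (spn K (Quotient.out a : 𝓞 K) : Ideal (𝓞 K)) then cl hp _ h else 1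
  have hf : ∀ a b : 𝓞 K ⧸ pI K p, a ≠ 0 → b ≠ 0 → f a = f b →
      ∃ u : (𝓞 K)ˣ, a = Ideal.Quotient.mk (pI K p) (u : 𝓞 K) * b := by
    intro a b ha hb h
    have ha1 : ¬ pI K p ∣ (spn K (Quotient.out a : 𝓞 K) : Ideal (𝓞 K)) := by
      rw [pI_dvd_spn (hne a ha)]; exact hnd a ha
    have hb1 : ¬ pI K p ∣ (spn K (Quotient.out b : 𝓞 K) : Ideal (𝓞 K)) := by
      rw [pI_dvd_spn (hne b hb)]; exact hnd b hb
    have h1 : cl hp _ ha1 = cl hp _ hb1 := by
      have h2 : f a = cl hp _ ha1 := dif_pos ha1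
      have h3 : f b = cl hp _ hb1 := dif_pos hb1
      rw [← h2, ← h3, h]
    rw [cl_eq_iff, ray_spn_iff hp (hnd a ha) (hnd b hb)] at h1
    obtain ⟨u, hu⟩ := h1
    refine ⟨u, ?_⟩
    rw [← mk_eq_iff, map_mul, hout, hout] at hu
    exact hu
  set s : Finset (𝓞 K ⧸ pI K p) := Finset.univ.filter fun a => a ≠ 0 with hs
  have hscard : (s.card : ℝ) = (p : ℝ) ^ nn K - 1 := by
    have h1 : s.card = Fintype.card (𝓞 K ⧸ pI K p) - 1 := by
      rw [hs, Finset.filter_ne', Finset.card_erase_of_mem (Finset.mem_univ _), Finset.card_univ]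
    have h2 : Fintype.card (𝓞 K ⧸ pI K p) = p ^ nn K := by
      rw [← Nat.card_eq_fintype_card, card_quot]
    have h3 : 1 ≤ p ^ nn K := Nat.one_le_pow _ _ hp.1.pos
    rw [h1, h2, Nat.cast_sub h3]
    push_cast
    ring
  have hfib : ∀ b ∈ s.image f, (s.filter fun x => f x = b).card ≤ UU K p := by
    intro b hb
    obtain ⟨x₀, hx₀, rfl⟩ := Finset.mem_image.1 hb
    have hx₀' : x₀ ≠ 0 := (Finset.mem_filter.1 hx₀).2
    have hsub : ((s.filter fun x => f x = f x₀ : Finset _) : Set (𝓞 K ⧸ pI K p)) ⊆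
        (fun y => y * x₀) ''
          (Set.range fun u : (𝓞 K)ˣ => Ideal.Quotient.mk (pI K p) (u : 𝓞 K)) := by
      intro x hx
      rw [Finset.mem_coe, Finset.mem_filter] at hx
      obtain ⟨hx1, hx2⟩ := hx
      obtain ⟨u, hu⟩ := hf x x₀ (Finset.mem_filter.1 hx1).2 hx₀' hx2
      exact ⟨_, ⟨u, rfl⟩, hu.symm⟩
    have h1 := Set.ncard_le_ncard hsub (Set.toFinite _)
    rw [Set.ncard_coe_finset] at h1
    refine h1.trans ?_
    exact Set.ncard_image_le (Set.toFinite _)
  have h1 := Finset.card_le_mul_card_image (f := f) s (UU K p) hfib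
  have h2 : (s.image f).card ≤ Fintype.card (RG K hp) := by
    rw [← Finset.card_univ]
    exact Finset.card_le_card (Finset.subset_univ _)
  have h3 : s.card ≤ (XX K p).card * UU K p := by
    rw [card_XX hp, Nat.card_eq_fintype_card, mul_comm]
    exact h1.trans (Nat.mul_le_mul_left _ h2)
  rw [← hscard]
  unfold NN
  exact_mod_cast h3

end Pool.Agent.CMZ
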