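import Pool.Agent.CMZ.Kappa
import Pool.Agent.CMZ.Sums
import Pool.Agent.CMZ.RayClass

/-!
# Module KS: sums and integrals of the kernel over ideals

PROOFS. `kap u ≤ C min(u^(-1/2), u^(-2))` (`kap_bound`), `ker_sum`. `gsum_le`: `‖∑' χ(I) kap(N I e^v/√D)‖ ≤ C √D e^(-v)`, so `‖gg v‖ ≤ C √D e^(-v/2)` for all real `v`.
`kap_int`: for `a > 0`: `∫_{v > -V} e^(v/2) kap(a e^v) dv ≤ ∫_ℝ = C a^(-1/2)` (`kap_mellin'`, `s = 1/2`). Fast decay: `kap u ≤ C u^(-b)` for every `b > 0`: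
`∑_I kap(N I y) ≤ C y^(-b)` for `b > 1`. Continuity of `gg`: locally uniform convergence.
-/

open scoped NumberField nonZeroDivisors
open NumberField NumberField.InfinitePlace NumberField.mixedEmbedding NumberField.Units
  NumberField.Units.dirichletUnitTheorem Pool.ZD

namespace Pool.Agent.CMZ

set_option linter.unusedSectionVars false

variable (K : Type) [Field K] [NumberField K]

variable [IsTotallyComplex K]

theorem kap_min : ∃ C : ℝ, 0 < C ∧ ∀ y : ℝ, 0 < y →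
    kap K y ≤ C * min (y ^ (-(1 / 2) : ℝ)) (y ^ (-2 : ℝ)) := by
  obtain ⟨C₁, hC₁, h₁⟩ := kap_bound K (a := 1 / 2) (by norm_num)
  obtain ⟨C₂, hC₂, h₂⟩ := kap_bound K (a := 2) (by norm_num)
  refine ⟨C₁ + C₂, by positivity, fun y hy => ?_⟩
  have e₁ : 0 < y ^ (-(1 / 2) : ℝ) := Real.rpow_pos_of_pos hy _
  have e₂ : 0 < y ^ (-2 : ℝ) := Real.rpow_pos_of_pos hy _
  rw [mul_min_of_nonneg _ _ (by positivity : (0 : ℝ) ≤ C₁ + C₂)]
  refine le_min ((h₁ y hy).trans ?_) ((h₂ y hy).trans ?_)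
  · exact mul_le_mul_of_nonneg_right (by linarith) e₁.le
  · exact mul_le_mul_of_nonneg_right (by linarith) e₂.le

/-- The sums are dominated by `C ∑ (N I) ^ (-b) y ^ (-b)`. -/
theorem kap_dom {b : ℝ} (hb : 0 < b) : ∃ C : ℝ, 0 < C ∧ ∀ y : ℝ, 0 < y → ∀ I : II K,
    kap K (nm K I * y) ≤ C * y ^ (-b) * nm K I ^ (-b) := by
  obtain ⟨C, hC, h⟩ := kap_bound K (a := b) hb
  refine ⟨C, hC, fun y hy I => (h _ (mul_pos (nm_pos I) hy)).trans (le_of_eq ?_)⟩
  rw [Real.mul_rpow (nm_pos I).le hy.le]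
  ring

theorem kap_summable {y : ℝ} (hy : 0 < y) : Summable fun I : II K => kap K (nm K I * y) := by
  obtain ⟨C, hC, h⟩ := kap_dom K (b := 2) (by norm_num)
  exact Summable.of_nonneg_of_le (fun I => kap_nonneg K _) (fun I => h y hy I)
    ((summable_rpow K 2 (by norm_num)).mul_left _)

theorem kap_sum_le (hn : 2 ≤ nn K) : ∃ C : ℝ, 0 < C ∧ ∀ y : ℝ, 0 < y →
    ∑' I : II K, kap K (nm K I * y) ≤ C / y := by
  obtain ⟨C₁, hC₁, h₁⟩ := kap_min K
  obtain ⟨C₂, hC₂, h₂⟩ := ker_sum K hn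
  refine ⟨C₁ * C₂, by positivity, fun y hy => ?_⟩
  obtain ⟨hs, hle⟩ := h₂ y hy
  calc ∑' I : II K, kap K (nm K I * y)
      ≤ ∑' I : II K, C₁ * min ((nm K I * y) ^ (-(1 / 2) : ℝ)) ((nm K I * y) ^ (-2 : ℝ)) :=
        (kap_summable K hy).tsum_le_tsum (fun I => h₁ _ (mul_pos (nm_pos I) hy)) (hs.mul_left _)
    _ = C₁ * ∑' I : II K, min ((nm K I * y) ^ (-(1 / 2) : ℝ)) ((nm K I * y) ^ (-2 : ℝ)) :=
        tsum_mul_left
    _ ≤ C₁ * (C₂ / y) := mul_le_mul_of_nonneg_left hle hC₁.le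
    _ = C₁ * C₂ / y := by ring

theorem kap_sum_pow {b : ℝ} (hb : 1 < b) : ∃ C : ℝ, 0 < C ∧ ∀ y : ℝ, 0 < y →
    ∑' I : II K, kap K (nm K I * y) ≤ C * y ^ (-b) := by
  obtain ⟨C, hC, h⟩ := kap_dom K (b := b) (by linarith)
  have hs := summable_rpow K b hb
  have hpos : 0 ≤ ∑' I : II K, nm K I ^ (-b) :=
    tsum_nonneg fun I => (Real.rpow_pos_of_pos (nm_pos I) _).le
  refine ⟨C * (∑' I : II K, nm K I ^ (-b) + 1), by positivity, fun y hy => ?_⟩
  have hy' : 0 < y ^ (-b) := Real.rpow_pos_of_pos hy _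
  calc ∑' I : II K, kap K (nm K I * y)
      ≤ ∑' I : II K, C * y ^ (-b) * nm K I ^ (-b) :=
        (kap_summable K hy).tsum_le_tsum (fun I => h y hy I) (hs.mul_left _)
    _ = C * y ^ (-b) * ∑' I : II K, nm K I ^ (-b) := tsum_mul_left
    _ ≤ C * y ^ (-b) * (∑' I : II K, nm K I ^ (-b) + 1) :=
        mul_le_mul_of_nonneg_left (by linarith) (by positivity)
    _ = C * (∑' I : II K, nm K I ^ (-b) + 1) * y ^ (-b) := by ring

/-- `D > 0`. -/
theorem DD_pos {p : ℕ} (hp : 0 < p) : 0 < DD K p := by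
  have h1 : (discr K : ℝ) ≠ 0 := by exact_mod_cast discr_ne_zero K
  have h2 : (0 : ℝ) < p := by exact_mod_cast hp
  unfold DD
  positivity

/-- `√D = √|d| p^m`. -/
theorem sqrt_DD (p : ℕ) : √(DD K p) = √|(discr K : ℝ)| * (p : ℝ) ^ mm K := by
  have h1 : nn K = 2 * mm K := by
    have h := card_add_two_mul_card_eq_rank K
    rw [IsTotallyComplex.nrRealPlaces_eq_zero, zero_add] at h
    exact h.symm
  unfold DD
  rw [Real.sqrt_mul (abs_nonneg _), h1, mul_comm 2 (mm K), pow_mul, Real.sqrt_sq (by positivity)]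

/-- The terms of `gg`. -/
theorem gg_term_le {p : ℕ} (hp : Inert K p) {χ : II K → ℂ} (hχ : χ ∈ XX K p) (v : ℝ) (I : II K) :
    ‖χ I * (kap K (nm K I * Real.exp v / √(DD K p)) : ℂ)‖ ≤
      kap K (nm K I * (Real.exp v / √(DD K p))) := by
  rw [norm_mul, Complex.norm_real, Real.norm_of_nonneg (kap_nonneg K _), ← mul_div_assoc]
  exact mul_le_of_le_one_left (kap_nonneg K _) (rc_norm_le hp hχ I)

theorem gg_norm_le {p : ℕ} (hp : Inert K p) {χ : II K → ℂ} (hχ : χ ∈ XX K p) (v : ℝ) :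
    ‖gg K p χ v‖ ≤ Real.exp (v / 2) * ∑' I : II K, kap K (nm K I * (Real.exp v / √(DD K p))) := by
  have hD : 0 < √(DD K p) := Real.sqrt_pos.2 (DD_pos K hp.1.pos)
  have hy : 0 < Real.exp v / √(DD K p) := div_pos (Real.exp_pos v) hD
  unfold gg
  rw [norm_mul, Complex.norm_real, Real.norm_of_nonneg (Real.exp_pos _).le]
  refine mul_le_mul_of_nonneg_left ?_ (Real.exp_pos _).le
  exact tsum_of_norm_bounded (kap_summable K hy).hasSum (gg_term_le K hp hχ v)

theorem gg_bound (hn : 2 ≤ nn K) : ∃ C : ℝ, 0 < C ∧ ∀ p : ℕ, Inert K p → ∀ χ ∈ XX K p, ∀ v : ℝ,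
    ‖gg K p χ v‖ ≤ C * (p : ℝ) ^ mm K * Real.exp (-v / 2) := by
  obtain ⟨C, hC, h⟩ := kap_sum_le K hn
  have hd : 0 < √|(discr K : ℝ)| := by
    have h1 : (discr K : ℝ) ≠ 0 := by exact_mod_cast discr_ne_zero K
    positivity
  refine ⟨C * √|(discr K : ℝ)|, by positivity, fun p hp χ hχ v => ?_⟩
  have hD : 0 < √(DD K p) := Real.sqrt_pos.2 (DD_pos K hp.1.pos)
  have hy : 0 < Real.exp v / √(DD K p) := div_pos (Real.exp_pos v) hD
  have e1 : Real.exp (v / 2) / Real.exp v = Real.exp (-v / 2) := by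
    rw [← Real.exp_sub]
    congr 1
    ring
  calc ‖gg K p χ v‖ ≤ Real.exp (v / 2) * ∑' I : II K, kap K (nm K I * (Real.exp v / √(DD K p))) :=
        gg_norm_le K hp hχ v
    _ ≤ Real.exp (v / 2) * (C / (Real.exp v / √(DD K p))) :=
        mul_le_mul_of_nonneg_left (h _ hy) (Real.exp_pos _).le
    _ = C * √(DD K p) * (Real.exp (v / 2) / Real.exp v) := by
        have := (Real.exp_pos v).ne'
        field_simp
    _ = C * √|(discr K : ℝ)| * (p : ℝ) ^ mm K * Real.exp (-v / 2) := by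
        rw [e1, sqrt_DD]
        ring

theorem gg_continuous {p : ℕ} (hp : Inert K p) {χ : II K → ℂ} (hχ : χ ∈ XX K p) :
    Continuous (gg K p χ) := by
  have hD : 0 < √(DD K p) := Real.sqrt_pos.2 (DD_pos K hp.1.pos)
  have hcont : ∀ V : ℝ, ContinuousOn
      (fun v : ℝ => ∑' I : II K, χ I * (kap K (nm K I * Real.exp v / √(DD K p)) : ℂ))
      (Set.Ioi V) := by
    intro V
    have hy : 0 < Real.exp V / √(DD K p) := div_pos (Real.exp_pos V) hD
    refine continuousOn_tsum (u := fun I : II K => kap K (nm K I * (Real.exp V / √(DD K p))))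
      (fun I => ?_) (kap_summable K hy) (fun I v hv => ?_)
    · refine Continuous.continuousOn (continuous_const.mul (Complex.continuous_ofReal.comp ?_))
      have hc : Continuous fun v : ℝ => nm K I * Real.exp v / √(DD K p) := by fun_prop
      exact (kap_continuous K).comp_continuous hc fun v =>
        div_pos (mul_pos (nm_pos I) (Real.exp_pos v)) hD
    · refine (gg_term_le K hp hχ v I).trans ?_
      have hv' : 0 < Real.exp v / √(DD K p) := div_pos (Real.exp_pos v) hD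
      refine kap_antitone K (mul_pos (nm_pos I) hy) (mul_pos (nm_pos I) hv') ?_
      refine mul_le_mul_of_nonneg_left ?_ (nm_pos I).le
      exact div_le_div_of_nonneg_right (Real.exp_le_exp.2 (le_of_lt hv)) hD.le
  rw [continuous_iff_continuousAt]
  intro v
  unfold gg
  refine ContinuousAt.mul ?_ ((hcont (v - 1)).continuousAt (Ioi_mem_nhds (by linarith)))
  exact (Complex.continuous_ofReal.comp (Real.continuous_exp.comp
    (continuous_id.div_const 2))).continuousAt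

/-- Decay faster than any exponential for `v → ∞`. -/
theorem gg_decay_pos {p : ℕ} (hp : Inert K p) {χ : II K → ℂ} (hχ : χ ∈ XX K p) (b : ℝ) :
    ∃ C : ℝ, 0 < C ∧ ∀ v : ℝ, 0 ≤ v → ‖gg K p χ v‖ ≤ C * Real.exp (-(b * v)) := by
  have hD : 0 < √(DD K p) := Real.sqrt_pos.2 (DD_pos K hp.1.pos)
  obtain ⟨C, hC, h⟩ := kap_sum_pow K (b := |b| + 2) (by linarith [abs_nonneg b])
  have hD' : 0 < √(DD K p) ^ (|b| + 2) := Real.rpow_pos_of_pos hD _
  refine ⟨C * √(DD K p) ^ (|b| + 2), by positivity, fun v hv => ?_⟩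
  have hy : 0 < Real.exp v / √(DD K p) := div_pos (Real.exp_pos v) hD
  have e1 : (Real.exp v / √(DD K p)) ^ (-(|b| + 2)) =
      √(DD K p) ^ (|b| + 2) * Real.exp (-((|b| + 2) * v)) := by
    rw [Real.div_rpow (Real.exp_pos v).le hD.le, ← Real.exp_mul, Real.rpow_neg hD.le,
      div_inv_eq_mul, mul_comm]
    congr 2
    ring
  calc ‖gg K p χ v‖ ≤ Real.exp (v / 2) * ∑' I : II K, kap K (nm K I * (Real.exp v / √(DD K p))) :=
        gg_norm_le K hp hχ v
    _ ≤ Real.exp (v / 2) * (C * (Real.exp v / √(DD K p)) ^ (-(|b| + 2))) :=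
        mul_le_mul_of_nonneg_left (h _ hy) (Real.exp_pos _).le
    _ = C * √(DD K p) ^ (|b| + 2) * (Real.exp (v / 2) * Real.exp (-((|b| + 2) * v))) := by
        rw [e1]
        ring
    _ ≤ C * √(DD K p) ^ (|b| + 2) * Real.exp (-(b * v)) := by
        refine mul_le_mul_of_nonneg_left ?_ (by positivity)
        rw [← Real.exp_add, Real.exp_le_exp]
        nlinarith [abs_nonneg b, le_abs_self b, mul_nonneg (sub_nonneg.2 (le_abs_self b)) hv]

end Pool.Agent.CMZ
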