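import Pool.Agent.CMZ.Unf
import Pool.Agent.CMZ.Dual
import Pool.Agent.CMZ.GaussS
import Pool.Agent.CMZ.KSum

/-!
# Module FE: the functional equation on the real axis

PROOF. `D = |d| Q`, `Q = p^n`, `y > 0`, `χ ∈ XP`. For an ideal class `A` choose `J` with `[J] = A⁻¹` and `p ∤ N J` (an ideal of a class
prime to the inert prime `p`: e.g. finitely many representatives would do for large `p`; in general multiply by a suitable element, or
`Ideal`-theoretic CRT), `n₀ = N(J 𝔇)` (prime to `p`; `|d| < p`), `J' (J 𝔇) = (n₀)` (`Ideal.absNorm_mem`, `J 𝔇 ∣ (n₀)`), `N J' N J |d| = n₀^n`.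
`unf` with `c = χ`, `e x = chf χ x conj χ(J)`: `w ∑_{I ∈ A} χ(I) kap(N I y) = 2^m conj χ(J) ∫_{FD} ∑_{x ∈ J, x ≠ 0} chf(x) exp(-2π a en(sg_t x)²)`,
`a = (y/N J)^(1/m)`. The term `x = 0` may be added (`chf 0 = 0`). Split `x = sec ρ + p x₁`, `x₁ ∈ J` (`chf_congr`; `sec ρ ∈ J` exists as `J + (p) = 1`), apply
`theta_dual` with `r = sec ρ`, exchange the finite sum over `ρ` with the sum over `x'` and use `gauss`: the sum is
`(a^m Q N J √|d|)⁻¹ √Q Wf conj χ(𝔇) chf(n₀) ∑_{x' ∈ J'} conj(chf x') exp(-(2π/(a p² n₀²)) en(sg_{-t} x')²)`. By `unf_neg` for `J'` (`c = conj χ`,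
`e x' = conj(chf x') χ(J')`, `A' = [J']⁻¹ = [J 𝔇] = A⁻¹ [𝔇]`, `y'` with `(y'/N J')^(1/m) = 1/(a p² n₀²)`, i.e. `y' = N J'/(a^m Q n₀^n) = 1/(y D)`):
`∑_{I ∈ A} χ(I) kap(N I y) = (y √D)⁻¹ Wf ∑_{I ∈ A'} conj χ(I) kap(N I/(y D))`, because `conj χ(J) conj χ(J') chf(n₀) conj χ(𝔇) = 1` and
`(a^m Q N J √|d|)⁻¹ √Q = (y √D)⁻¹`. Sum over the classes `A` (`A ↦ A⁻¹ [𝔇]` is a bijection), put `y = e^v/√D`, multiply by `e^(v/2)`.
-/

open scoped NumberField nonZeroDivisors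
open NumberField NumberField.InfinitePlace NumberField.mixedEmbedding NumberField.Units
  NumberField.Units.dirichletUnitTheorem Pool.ZD

namespace Pool.Agent.CMZ

set_option linter.unusedSectionVars false

variable (K : Type) [Field K] [NumberField K]

namespace FuncEqAux

variable {K} in
/-- A nonzero element of an ideal is a multiple of it. -/
theorem exists_cofactor (I : Ideal (𝓞 K)) {a : 𝓞 K} (ha : a ∈ I) (ha0 : a ≠ 0) :
    ∃ J : II K, (J : Ideal (𝓞 K)) * I = Ideal.span {a} := by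
  have h1 : I ∣ Ideal.span {a} := by
    rw [Ideal.dvd_span_singleton]
    exact ha
  obtain ⟨C, hC⟩ := h1
  have hC0 : C ≠ 0 := by
    rintro rfl
    rw [mul_zero, Ideal.zero_eq_bot, Ideal.span_singleton_eq_bot] at hC
    exact ha0 hC
  exact ⟨⟨C, mem_nonZeroDivisors_of_ne_zero hC0⟩, by rw [hC, mul_comm]⟩

variable {K} in
theorem pI_sup {p : ℕ} (hp : Inert K p) {J : II K} (hJ : ¬ pI K p ∣ (J : Ideal (𝓞 K))) :
    (J : Ideal (𝓞 K)) ⊔ pI K p = ⊤ := by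
  have hmax : (pI K p).IsMaximal := Ideal.IsPrime.isMaximal hp.2 (pI_ne_bot hp)
  by_contra h
  have h1 : pI K p = (J : Ideal (𝓞 K)) ⊔ pI K p := hmax.eq_of_le h le_sup_right
  apply hJ
  rw [Ideal.dvd_iff_le, h1]
  exact le_sup_left

variable {K} in
/-- A section with values in `J`. -/
theorem exists_sec {p : ℕ} (hp : Inert K p) {J : II K} (hJ : ¬ pI K p ∣ (J : Ideal (𝓞 K))) :
    ∃ sec : 𝓞 K ⧸ pI K p → 𝓞 K, ∀ ρ, sec ρ ∈ (J : Ideal (𝓞 K)) ∧
      Ideal.Quotient.mk (pI K p) (sec ρ) = ρ := by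
  have h1 : (1 : 𝓞 K) ∈ (J : Ideal (𝓞 K)) ⊔ pI K p := by
    rw [pI_sup hp hJ]; trivial
  obtain ⟨j, hj, q, hq, hjq⟩ := Submodule.mem_sup.1 h1
  have h2 : ∀ ρ : 𝓞 K ⧸ pI K p, ∃ r : 𝓞 K, r ∈ (J : Ideal (𝓞 K)) ∧
      Ideal.Quotient.mk (pI K p) r = ρ := by
    intro ρ
    obtain ⟨r, rfl⟩ := Ideal.Quotient.mk_surjective ρ
    refine ⟨r * j, Ideal.mul_mem_left _ _ hj, ?_⟩
    rw [Ideal.Quotient.eq]
    have : r * j - r = -(r * q) := by
      have : j = 1 - q := by rw [← hjq]; ring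
      rw [this]; ring
    rw [this]
    exact (pI K p).neg_mem ((pI K p).mul_mem_left _ hq)
  choose sec hsec using h2
  exact ⟨sec, hsec⟩

variable {K} in
/-- `p z ∈ J` implies `z ∈ J`. -/
theorem mem_of_mul_mem {p : ℕ} (hp : Inert K p) {J : II K}
    (hJ : ¬ pI K p ∣ (J : Ideal (𝓞 K))) {z : 𝓞 K} (hz : (p : 𝓞 K) * z ∈ (J : Ideal (𝓞 K))) :
    z ∈ (J : Ideal (𝓞 K)) := by
  have h1 : (1 : 𝓞 K) ∈ (J : Ideal (𝓞 K)) ⊔ pI K p := by
    rw [pI_sup hp hJ]; trivial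
  obtain ⟨j, hj, q, hq, hjq⟩ := Submodule.mem_sup.1 h1
  obtain ⟨s, rfl⟩ := Ideal.mem_span_singleton'.1 hq
  have : z = z * j + s * ((p : 𝓞 K) * z) := by
    calc z = z * (j + s * (p : 𝓞 K)) := by rw [hjq, mul_one]
      _ = _ := by ring
  rw [this]
  exact Ideal.add_mem _ (Ideal.mul_mem_left _ _ hj) (Ideal.mul_mem_left _ _ hz)

variable {K} in
/-- The norm of an ideal prime to the inert prime `p` is prime to `p`. -/
theorem not_dvd_absNorm {p : ℕ} (hp : Inert K p) {J : II K}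
    (hJ : ¬ pI K p ∣ (J : Ideal (𝓞 K))) : ¬ p ∣ Ideal.absNorm (J : Ideal (𝓞 K)) := by
  intro hdvd
  have hp' : Fact p.Prime := ⟨hp.1⟩
  have hJ0 : (J : Ideal (𝓞 K)) ≠ ⊥ := nonZeroDivisors.coe_ne_zero J
  have : Finite (𝓞 K ⧸ (J : Ideal (𝓞 K))) := Ideal.finiteQuotientOfFreeOfNeBot _ hJ0
  have : Fintype (𝓞 K ⧸ (J : Ideal (𝓞 K))) := Fintype.ofFinite _
  have hcard : Ideal.absNorm (J : Ideal (𝓞 K)) = Fintype.card (𝓞 K ⧸ (J : Ideal (𝓞 K))) := by
    rw [Ideal.absNorm_apply, Submodule.cardQuot_apply, Nat.card_eq_fintype_card]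
  rw [hcard] at hdvd
  obtain ⟨g, hg⟩ := exists_prime_addOrderOf_dvd_card (G := 𝓞 K ⧸ (J : Ideal (𝓞 K))) p hdvd
  obtain ⟨z, rfl⟩ := Ideal.Quotient.mk_surjective g
  have h1 : p • (Ideal.Quotient.mk (J : Ideal (𝓞 K)) z) = 0 := by
    rw [← hg]; exact addOrderOf_nsmul_eq_zero _
  have h2 : Ideal.Quotient.mk (J : Ideal (𝓞 K)) ((p : 𝓞 K) * z) = 0 := by
    rw [← h1, nsmul_eq_mul, map_mul, map_natCast]
  have h3 := mem_of_mul_mem hp hJ (Ideal.Quotient.eq_zero_iff_mem.1 h2)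
  have h4 : Ideal.Quotient.mk (J : Ideal (𝓞 K)) z = 0 := Ideal.Quotient.eq_zero_iff_mem.2 h3
  rw [h4, addOrderOf_zero] at hg
  exact hp.1.one_lt.ne hg

/-- Sums over the nonzero elements. -/
theorem tsum_nz (J : II K) (f : 𝓞 K → ℂ) (hf : f 0 = 0) :
    ∑' x : NZ K J, f x = ∑' x : (J : Ideal (𝓞 K)), f x := by
  let g : NZ K J → (J : Ideal (𝓞 K)) := fun x => ⟨x.1, x.2.1⟩
  have hg : Function.Injective g := by
    intro a b h
    exact Subtype.ext (congrArg (fun z : (J : Ideal (𝓞 K)) => (z : 𝓞 K)) h)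
  have h1 := hg.tsum_eq (f := fun x : (J : Ideal (𝓞 K)) => f x) (by
    intro x hx
    have hx0 : (x : 𝓞 K) ≠ 0 := by
      intro h
      apply hx
      change f x = 0
      rw [h, hf]
    exact ⟨⟨x.1, x.2, hx0⟩, rfl⟩)
  rw [← h1]

end FuncEqAux

open FuncEqAux

variable [IsTotallyComplex K]

/-- Every ideal class contains an ideal prime to the inert prime `p`. -/
theorem exists_prime_to {p : ℕ} (hp : Inert K p) (A : ClassGroup (𝓞 K)) :
    ∃ J : II K, ClassGroup.mk0 J = A ∧ ¬ pI K p ∣ (J : Ideal (𝓞 K)) := by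
  obtain ⟨I, hI⟩ := ClassGroup.mk0_surjective A⁻¹
  have hI0 : (I : Ideal (𝓞 K)) ≠ 0 := nonZeroDivisors.coe_ne_zero I
  have hlt : pI K p * (I : Ideal (𝓞 K)) < I := by
    refine lt_of_le_of_ne Ideal.mul_le_right ?_
    intro h
    have h1 : pI K p = 1 := by
      have : pI K p * (I : Ideal (𝓞 K)) = 1 * I := by rw [h, one_mul]
      exact mul_right_cancel₀ hI0 this
    exact hp.2.ne_top (by rw [h1, Ideal.one_eq_top])
  obtain ⟨a, haI, haP⟩ := SetLike.exists_of_lt hlt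
  have ha0 : a ≠ 0 := by
    rintro rfl
    exact haP (Submodule.zero_mem _)
  obtain ⟨J, hJ⟩ := exists_cofactor (I : Ideal (𝓞 K)) haI ha0
  refine ⟨J, ?_, ?_⟩
  · have h1 : ClassGroup.mk0 (J * I) = 1 := by
      rw [ClassGroup.mk0_eq_one_iff]
      rw [Submonoid.coe_mul, hJ]
      exact ⟨⟨a, rfl⟩⟩
    rw [map_mul, hI] at h1
    exact (eq_of_mul_inv_eq_one h1)
  · rintro ⟨C, hC⟩
    apply haP
    have : Ideal.span {a} ≤ pI K p * (I : Ideal (𝓞 K)) := by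
      rw [← hJ, hC, mul_assoc, mul_comm C, ← mul_assoc]
      exact Ideal.mul_le_left
    exact this (Ideal.mem_span_singleton_self a)

namespace FuncEqAux

variable {K} in
theorem unimod {z : ℂ} (hz : ‖z‖ = 1) : z * (starRingEnd ℂ) z = 1 := by
  rw [Complex.mul_conj, Complex.normSq_eq_norm_sq, hz]; norm_num

/-- The exponential weights are summable. -/
theorem exp_summable (J : II K) {c : ℝ} (hc : 0 < c) (t : logSpace K) :
    Summable fun x : (J : Ideal (𝓞 K)) =>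
      Real.exp (-(c * en K (sg K t * mixedEmbedding K ((x : 𝓞 K) : K)) ^ 2)) := by
  have h := theta_summable K J hc t 0 1 one_ne_zero
  simpa using h

/-- Splitting an ideal into residue classes mod `p`. -/
noncomputable def splitEquiv {p : ℕ} (hp : Inert K p) {J : II K}
    (hJ : ¬ pI K p ∣ (J : Ideal (𝓞 K))) (sec : 𝓞 K ⧸ pI K p → 𝓞 K)
    (hsec : ∀ ρ, sec ρ ∈ (J : Ideal (𝓞 K)) ∧ Ideal.Quotient.mk (pI K p) (sec ρ) = ρ) :
    (𝓞 K ⧸ pI K p) × (J : Ideal (𝓞 K)) ≃ (J : Ideal (𝓞 K)) :=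
  Equiv.ofBijective (fun q => ⟨sec q.1 + (p : 𝓞 K) * q.2,
    Ideal.add_mem _ (hsec q.1).1 (Ideal.mul_mem_left _ _ q.2.2)⟩) (by
    have hmk : ∀ (ρ : 𝓞 K ⧸ pI K p) (x : 𝓞 K),
        Ideal.Quotient.mk (pI K p) (sec ρ + (p : 𝓞 K) * x) = ρ := by
      intro ρ x
      rw [map_add, (hsec ρ).2, Ideal.Quotient.eq_zero_iff_mem.2, add_zero]
      exact Ideal.mul_mem_right _ _ (Ideal.mem_span_singleton_self _)
    have hp0 : (p : 𝓞 K) ≠ 0 := by exact_mod_cast hp.ne_zero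
    constructor
    · rintro ⟨ρ, x⟩ ⟨ρ', x'⟩ h
      have h1 : sec ρ + (p : 𝓞 K) * x = sec ρ' + (p : 𝓞 K) * x' := congrArg Subtype.val h
      have h2 : ρ = ρ' := by
        rw [← hmk ρ x, h1, hmk]
      subst h2
      have h3 : (x : 𝓞 K) = x' := mul_left_cancel₀ hp0 (add_left_cancel h1)
      rw [Subtype.ext h3]
    · rintro ⟨x, hx⟩
      have h1 : x - sec (Ideal.Quotient.mk (pI K p) x) ∈ pI K p := by
        rw [← Ideal.Quotient.eq, (hsec _).2]
      obtain ⟨z, hz⟩ := Ideal.mem_span_singleton'.1 h1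
      have h2 : (p : 𝓞 K) * z ∈ (J : Ideal (𝓞 K)) := by
        rw [mul_comm, hz]
        exact Ideal.sub_mem _ hx (hsec _).1
      refine ⟨(Ideal.Quotient.mk (pI K p) x, ⟨z, mem_of_mul_mem hp hJ h2⟩), Subtype.ext ?_⟩
      change sec _ + (p : 𝓞 K) * z = x
      rw [mul_comm, hz]; ring)

/-- The transformation of the weighted theta sum of an ideal. -/
theorem theta_trans {p : ℕ} (hp : Inert K p) [Fintype (𝓞 K ⧸ pI K p)] {χ : II K → ℂ}
    (hχ : χ ∈ XX K p) {W : ℂ} {J J' : II K} {n₀ : ℕ} (hn₀ : 0 < n₀)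
    (hJ : ¬ pI K p ∣ (J : Ideal (𝓞 K)))
    (hJJ : (J' : Ideal (𝓞 K)) * ((J : Ideal (𝓞 K)) * differentIdeal ℤ (𝓞 K)) =
      Ideal.span {(n₀ : 𝓞 K)})
    (hW : ∀ sec : 𝓞 K ⧸ pI K p → 𝓞 K,
        (∀ ρ, sec ρ ∈ (J : Ideal (𝓞 K)) ∧ Ideal.Quotient.mk (pI K p) (sec ρ) = ρ) →
        ∀ x' ∈ (J' : Ideal (𝓞 K)),
          ∑ ρ, chf K χ (sec ρ) * Complex.exp (2 * Real.pi * Complex.I *
            ((Algebra.trace ℤ (𝓞 K) (sec ρ * x') : ℤ) : ℂ) / ((n₀ : ℂ) * p)) =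
          W * (starRingEnd ℂ) (chf K χ x')) {c : ℝ} (hc : 0 < c) (t : logSpace K) :
    ∑' x : NZ K J, chf K χ x * (Real.exp (-(2 * Real.pi * c *
        en K (sg K t * mixedEmbedding K ((x : 𝓞 K) : K)) ^ 2)) : ℂ) =
      ((c ^ mm K * (p : ℝ) ^ nn K * nm K J * √|(discr K : ℝ)| : ℝ) : ℂ)⁻¹ * W *
        ∑' x' : NZ K J', (starRingEnd ℂ) (chf K χ x') *
          (Real.exp (-(2 * Real.pi * (1 / (c * (p : ℝ) ^ 2 * (n₀ : ℝ) ^ 2)) *
            en K (sg K (-t) * mixedEmbedding K ((x' : 𝓞 K) : K)) ^ 2)) : ℂ) := by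
  classical
  have hp0 : 0 < p := hp.1.pos
  have hc' : 0 < 2 * Real.pi * c := by positivity
  have hchf0 : chf K χ 0 = 0 := by simp [chf]
  have hn : ∀ x : 𝓞 K, ‖chf K χ x‖ ≤ 1 := by
    intro x
    unfold chf
    split_ifs
    · simp
    · exact rc_norm_le hp hχ _
  obtain ⟨sec, hsec⟩ := exists_sec hp hJ
  set E : 𝓞 K → ℂ := fun x => (Real.exp (-(2 * Real.pi * c *
        en K (sg K t * mixedEmbedding K ((x : 𝓞 K) : K)) ^ 2)) : ℂ) with hE
  have hsumE : Summable fun x : (J : Ideal (𝓞 K)) => ‖E x‖ := by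
    refine (exp_summable K J hc' t).congr fun x => ?_
    rw [hE]
    simp only
    rw [Complex.norm_real, Real.norm_of_nonneg (Real.exp_pos _).le]
  have hsum1 : Summable fun x : (J : Ideal (𝓞 K)) => chf K χ x * E x := by
    refine Summable.of_norm_bounded hsumE fun x => ?_
    rw [norm_mul]
    exact mul_le_of_le_one_left (norm_nonneg _) (hn _)
  rw [tsum_nz K J (fun x => chf K χ x * E x) (by simp only [hchf0, zero_mul])]
  set e := splitEquiv K hp hJ sec hsec with he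
  rw [← e.tsum_eq (fun x : (J : Ideal (𝓞 K)) => chf K χ x * E x)]
  have hsum2 : Summable fun q : (𝓞 K ⧸ pI K p) × (J : Ideal (𝓞 K)) =>
      chf K χ (e q) * E (e q) := (e.summable_iff (f := fun x : (J : Ideal (𝓞 K)) =>
        chf K χ x * E x)).2 hsum1
  rw [hsum2.tsum_prod, tsum_fintype]
  -- the sum over one residue class
  set E' : 𝓞 K → ℂ := fun x => (Real.exp (-(2 * Real.pi / (c * (p : ℝ) ^ 2 * (n₀ : ℝ) ^ 2) *
    en K (sg K (-t) * mixedEmbedding K ((x : 𝓞 K) : K)) ^ 2)) : ℂ) with hE'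
  set κ : ℂ := ((c ^ mm K * (p : ℝ) ^ nn K * nm K J * √|(discr K : ℝ)| : ℝ) : ℂ)⁻¹ with hκ
  set ee : 𝓞 K ⧸ pI K p → 𝓞 K → ℂ := fun ρ x' => Complex.exp (2 * Real.pi * Complex.I *
    ((Algebra.trace ℤ (𝓞 K) (sec ρ * x') : ℤ) : ℂ) / ((n₀ : ℂ) * p)) with hee
  have h1 : ∀ ρ : 𝓞 K ⧸ pI K p, ∑' x : (J : Ideal (𝓞 K)), chf K χ (e (ρ, x)) * E (e (ρ, x)) =
      κ * ∑' x' : (J' : Ideal (𝓞 K)), chf K χ (sec ρ) * (E' x' * ee ρ x') := by
    intro ρ
    have h2 : ∀ x : (J : Ideal (𝓞 K)), chf K χ (e (ρ, x)) * E (e (ρ, x)) =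
        chf K χ (sec ρ) * (Real.exp (-(2 * Real.pi * c *
        en K (sg K t * mixedEmbedding K ((sec ρ + (p : 𝓞 K) * x : 𝓞 K) : K)) ^ 2)) : ℂ) := by
      intro x
      have h3 : ((e (ρ, x) : (J : Ideal (𝓞 K))) : 𝓞 K) = sec ρ + (p : 𝓞 K) * x := rfl
      rw [h3]
      congr 1
      apply chf_congr hp hχ
      exact ⟨(x : 𝓞 K), by ring⟩
    rw [tsum_congr h2, tsum_mul_left, theta_dual K hn₀ hJJ hc hp0 t (sec ρ), tsum_mul_left]
    ring
  rw [Finset.sum_congr rfl fun ρ _ => h1 ρ, ← Finset.mul_sum]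
  have hee1 : ∀ ρ x', ‖ee ρ x'‖ = 1 := by
    intro ρ x'
    rw [hee]
    simp only
    have : (2 * Real.pi * Complex.I *
      ((Algebra.trace ℤ (𝓞 K) (sec ρ * x') : ℤ) : ℂ) / ((n₀ : ℂ) * p)) =
      ((2 * Real.pi * ((Algebra.trace ℤ (𝓞 K) (sec ρ * x') : ℤ) : ℝ) / ((n₀ : ℝ) * p) : ℝ) : ℂ) *
        Complex.I := by
      push_cast; ring
    rw [this]
    exact Complex.norm_exp_ofReal_mul_I _
  have hc2 : 0 < 2 * Real.pi / (c * (p : ℝ) ^ 2 * (n₀ : ℝ) ^ 2) := by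
    have : (0 : ℝ) < p := by exact_mod_cast hp0
    have : (0 : ℝ) < n₀ := by exact_mod_cast hn₀
    positivity
  have hsumE' : Summable fun x : (J' : Ideal (𝓞 K)) => ‖E' x‖ := by
    refine (exp_summable K J' hc2 (-t)).congr fun x => ?_
    rw [hE']
    simp only
    rw [Complex.norm_real, Real.norm_of_nonneg (Real.exp_pos _).le]
  have hsum3 : ∀ ρ ∈ (Finset.univ : Finset (𝓞 K ⧸ pI K p)), Summable fun x' : (J' : Ideal (𝓞 K)) =>
      chf K χ (sec ρ) * (E' x' * ee ρ x') := by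
    intro ρ _
    refine Summable.of_norm_bounded hsumE' fun x => ?_
    rw [norm_mul, norm_mul, hee1, mul_one]
    exact mul_le_of_le_one_left (norm_nonneg _) (hn _)
  rw [← Summable.tsum_finsetSum hsum3]
  have h4 : ∀ x' : (J' : Ideal (𝓞 K)), ∑ ρ, chf K χ (sec ρ) * (E' x' * ee ρ x') =
      W * ((starRingEnd ℂ) (chf K χ x') * E' x') := by
    intro x'
    have h5 := hW sec hsec x' x'.2
    calc ∑ ρ, chf K χ (sec ρ) * (E' x' * ee ρ x') = (∑ ρ, chf K χ (sec ρ) * ee ρ x') * E' x' := by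
          rw [Finset.sum_mul]
          exact Finset.sum_congr rfl fun ρ _ => by ring
      _ = _ := by rw [h5]; ring
  rw [tsum_congr h4, tsum_mul_left, ← tsum_nz K J' (fun x => (starRingEnd ℂ) (chf K χ x) * E' x)
    (by simp only [hchf0, map_zero, zero_mul])]
  rw [mul_assoc]
  congr 2
  apply tsum_congr
  intro x'
  rw [hE']
  simp only
  congr 4
  rw [mul_one_div]

/-- The functional equation for the ideals of one class. -/
theorem class_eq {p : ℕ} (hp : Inert K p) (hd : |(discr K : ℝ)| < p)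
    [Fintype (𝓞 K ⧸ pI K p)] {χ : II K → ℂ} (hχ : χ ∈ XX K p) {W : ℂ}
    (hW : ∀ (J J' : II K) (n₀ : ℕ), 0 < n₀ → ¬ p ∣ n₀ →
      (J' : Ideal (𝓞 K)) * ((J : Ideal (𝓞 K)) * differentIdeal ℤ (𝓞 K)) =
        Ideal.span {(n₀ : 𝓞 K)} →
      ∀ sec : 𝓞 K ⧸ pI K p → 𝓞 K,
        (∀ ρ, sec ρ ∈ (J : Ideal (𝓞 K)) ∧ Ideal.Quotient.mk (pI K p) (sec ρ) = ρ) →
        ∀ x' ∈ (J' : Ideal (𝓞 K)),
          ∑ ρ, chf K χ (sec ρ) * Complex.exp (2 * Real.pi * Complex.I *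
            ((Algebra.trace ℤ (𝓞 K) (sec ρ * x') : ℤ) : ℂ) / ((n₀ : ℂ) * p)) =
          (√((p : ℝ) ^ nn K) : ℂ) * W * (starRingEnd ℂ) (χ (dI K)) * chf K χ (n₀ : 𝓞 K) *
            (starRingEnd ℂ) (chf K χ x'))
    (A : ClassGroup (𝓞 K)) {y : ℝ} (hy : 0 < y) :
    ∑' I : Cls K A, χ I * (kap K (nm K I * y) : ℂ) =
      ((y * √(DD K p) : ℝ) : ℂ)⁻¹ * W *
        ∑' I : Cls K (A⁻¹ * ClassGroup.mk0 (dI K)),
          (starRingEnd ℂ) (χ I) * (kap K (nm K I * (y * DD K p)⁻¹) : ℂ) := by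
  classical
  have hp0 : 0 < p := hp.1.pos
  have hpR : (0 : ℝ) < p := by exact_mod_cast hp0
  have hrc : IsRC K p χ := (mem_XX hp).1 hχ
  have hm : 1 ≤ mm K := one_le_mm K
  have hmR : (mm K : ℝ) ≠ 0 := by exact_mod_cast (by omega : mm K ≠ 0)
  obtain ⟨J, hJA, hJp⟩ := exists_prime_to K hp A⁻¹
  -- the different
  have hdpos : 0 < |(discr K : ℝ)| := by
    rw [abs_pos]; exact_mod_cast discr_ne_zero K
  have hdp : ¬ pI K p ∣ ((dI K : II K) : Ideal (𝓞 K)) := by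
    apply not_dvd_of_lt
    rw [nm_dI]
    refine lt_of_lt_of_le hd ?_
    have h1 : (1 : ℝ) ≤ p := by exact_mod_cast hp.1.one_lt.le
    exact le_self_pow₀ h1 (by have := nn_eq K; omega)
  -- the integer `n₀`
  set n₀ : ℕ := Ideal.absNorm ((J * dI K : II K) : Ideal (𝓞 K)) with hn₀def
  have hJd : ¬ pI K p ∣ ((J * dI K : II K) : Ideal (𝓞 K)) := not_dvd_mul hp hJp hdp
  have hn₀ : 0 < n₀ := by
    rw [hn₀def, Nat.pos_iff_ne_zero, Ne, Ideal.absNorm_eq_zero_iff]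
    exact nonZeroDivisors.coe_ne_zero _
  have hn₀p : ¬ p ∣ n₀ := not_dvd_absNorm hp hJd
  have hn₀0 : ((n₀ : ℕ) : 𝓞 K) ≠ 0 := by exact_mod_cast hn₀.ne'
  obtain ⟨J', hJ'⟩ := exists_cofactor ((J * dI K : II K) : Ideal (𝓞 K))
    (Ideal.absNorm_mem _) hn₀0
  have hJJ : (J' : Ideal (𝓞 K)) * ((J : Ideal (𝓞 K)) * differentIdeal ℤ (𝓞 K)) =
      Ideal.span {(n₀ : 𝓞 K)} := hJ'
  have hJJ2 : J' * (J * dI K) = spn K (n₀ : 𝓞 K) := by
    apply Subtype.ext
    rw [coe_spn hn₀0]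
    exact hJJ
  -- norms
  have hnorm : nm K J' * (nm K J * |(discr K : ℝ)|) = (n₀ : ℝ) ^ nn K := by
    rw [← nm_dI K, ← nmul, ← nmul, hJJ2]
    unfold nm
    rw [coe_spn hn₀0, Ideal.absNorm_span_singleton]
    have h1 : Algebra.norm ℤ ((n₀ : ℕ) : 𝓞 K) = (n₀ : ℤ) ^ nn K := by
      have h2 := Algebra.norm_algebraMap_of_basis (RingOfIntegers.basis K) (n₀ : ℤ)
      rw [← Module.finrank_eq_card_basis (RingOfIntegers.basis K), RingOfIntegers.rank] at h2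
      rw [← h2]
      simp
    rw [h1]
    simp
  -- values of the character
  have hchfn : ‖chf K χ (n₀ : 𝓞 K)‖ = 1 := by
    apply chf_norm hp hχ
    rintro h
    apply hn₀p
    have h1 := norm_modEq (x := (n₀ : 𝓞 K)) (y := 0) (by simpa using h)
    rw [Algebra.norm_zero, sub_zero] at h1
    have h2 : Algebra.norm ℤ ((n₀ : ℕ) : 𝓞 K) = (n₀ : ℤ) ^ nn K := by
      have h2 := Algebra.norm_algebraMap_of_basis (RingOfIntegers.basis K) (n₀ : ℤ)
      rw [← Module.finrank_eq_card_basis (RingOfIntegers.basis K), RingOfIntegers.rank] at h2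
      rw [← h2]
      simp
    rw [h2] at h1
    have h3 : p ∣ n₀ ^ nn K := by exact_mod_cast h1
    exact hp.1.dvd_of_dvd_pow h3
  have hchf_spn : ∀ x : 𝓞 K, x ≠ 0 → chf K χ x = χ (spn K x) := by
    intro x hx
    unfold chf
    rw [if_neg hx]
  have hχJ : ‖χ J‖ = 1 := rc_norm hp hχ hJp
  have hχd : ‖χ (dI K)‖ = 1 := rc_norm hp hχ hdp
  have hprod : χ J' * (χ J * χ (dI K)) = chf K χ (n₀ : 𝓞 K) := by
    rw [← hrc.mul, ← hrc.mul, hJJ2, hchf_spn _ hn₀0]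
  have hχJ' : ‖χ J'‖ = 1 := by
    have h := congrArg norm hprod
    rw [norm_mul, norm_mul, hχJ, hχd, hchfn] at h
    linarith
  -- the parameters
  have hnmJ : 0 < nm K J := nm_pos J
  have hnmJ' : 0 < nm K J' := nm_pos J'
  set c : ℝ := (y / nm K J) ^ (1 / (mm K : ℝ)) with hcdef
  have hc : 0 < c := by positivity
  have hcm : c ^ mm K = y / nm K J := by
    rw [hcdef, ← Real.rpow_natCast, ← Real.rpow_mul (by positivity), one_div,
      inv_mul_cancel₀ hmR, Real.rpow_one]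
  have hn₀R : (0 : ℝ) < n₀ := by exact_mod_cast hn₀
  set c' : ℝ := 1 / (c * (p : ℝ) ^ 2 * (n₀ : ℝ) ^ 2) with hc'def
  have hc' : 0 < c' := by positivity
  have hnn : nn K = 2 * mm K := nn_eq K
  have hD : DD K p = |(discr K : ℝ)| * (p : ℝ) ^ nn K := rfl
  have hDpos : 0 < DD K p := by rw [hD]; positivity
  -- `y' = nm J' * c' ^ m`
  have hy' : (y * DD K p)⁻¹ = nm K J' * c' ^ mm K := by
    rw [hc'def, one_div, inv_pow, mul_pow, mul_pow, hcm, ← pow_mul, ← pow_mul, ← hnn, ← hnorm, hD]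
    field_simp
  have hy'pos : 0 < (y * DD K p)⁻¹ := by positivity
  have hc'eq : ((y * DD K p)⁻¹ / nm K J') ^ (1 / (mm K : ℝ)) = c' := by
    rw [hy', mul_div_cancel_left₀ _ hnmJ'.ne', ← Real.rpow_natCast, ← Real.rpow_mul hc'.le,
      mul_one_div, div_self hmR, Real.rpow_one]
  -- unfolding on the left
  have hU1 := unf K J A hJA χ (fun I => rc_norm_le hp hχ I)
    (fun x => chf K χ x * (starRingEnd ℂ) (χ J)) (by
      intro x I hx hIJ
      rw [hchf_spn x hx, ← hIJ, hrc.mul, mul_assoc, unimod hχJ, mul_one]) hy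
  -- unfolding on the right
  have hJ'A : ClassGroup.mk0 J' = (A⁻¹ * ClassGroup.mk0 (dI K))⁻¹ := by
    have h1 : ClassGroup.mk0 (J' * (J * dI K)) = 1 := by
      rw [hJJ2, ClassGroup.mk0_eq_one_iff, coe_spn hn₀0]
      exact ⟨⟨_, rfl⟩⟩
    rw [map_mul, map_mul, hJA] at h1
    exact eq_inv_of_mul_eq_one_left h1
  have hU2 := unf_neg K J' (A⁻¹ * ClassGroup.mk0 (dI K)) hJ'A
    (fun I => (starRingEnd ℂ) (χ I)) (fun I => by
      rw [RCLike.norm_conj]; exact rc_norm_le hp hχ I)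
    (fun x => (starRingEnd ℂ) (chf K χ x) * χ J') (by
      intro x I hx hIJ
      rw [hchf_spn x hx, ← hIJ, hrc.mul, map_mul, mul_assoc, mul_comm ((starRingEnd ℂ) (χ J')),
        unimod hχJ', mul_one]) hy'pos
  -- the transformation under the integral
  set κ : ℂ := ((c ^ mm K * (p : ℝ) ^ nn K * nm K J * √|(discr K : ℝ)| : ℝ) : ℂ)⁻¹ with hκ
  set W' : ℂ := (√((p : ℝ) ^ nn K) : ℂ) * W * (starRingEnd ℂ) (χ (dI K)) * chf K χ (n₀ : 𝓞 K)
    with hW'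
  have hT : ∀ t : logSpace K,
      ∑' x : NZ K J, (fun x : 𝓞 K => chf K χ x * (starRingEnd ℂ) (χ J)) x *
        (Real.exp (-(2 * Real.pi * (y / nm K J) ^ (1 / (mm K : ℝ)) *
          en K (sg K t * mixedEmbedding K ((x : 𝓞 K) : K)) ^ 2)) : ℂ) =
      ((starRingEnd ℂ) (χ J) * (starRingEnd ℂ) (χ J') * κ * W') *
        ∑' x : NZ K J', (fun x : 𝓞 K => (starRingEnd ℂ) (chf K χ x) * χ J') x *
          (Real.exp (-(2 * Real.pi * ((y * DD K p)⁻¹ / nm K J') ^ (1 / (mm K : ℝ)) *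
            en K (sg K (-t) * mixedEmbedding K ((x : 𝓞 K) : K)) ^ 2)) : ℂ) := by
    intro t
    rw [hc'eq, ← hcdef]
    have h1 := theta_trans K hp hχ (W := W') hn₀ hJp hJJ
      (hW J J' n₀ hn₀ hn₀p hJJ) hc t
    have h2 : ∀ x : NZ K J, (fun x : 𝓞 K => chf K χ x * (starRingEnd ℂ) (χ J)) x *
        (Real.exp (-(2 * Real.pi * c *
          en K (sg K t * mixedEmbedding K ((x : 𝓞 K) : K)) ^ 2)) : ℂ) =
        (starRingEnd ℂ) (χ J) * (chf K χ x * (Real.exp (-(2 * Real.pi * c *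
          en K (sg K t * mixedEmbedding K ((x : 𝓞 K) : K)) ^ 2)) : ℂ)) := by
      intro x
      simp only
      ring
    have h3 : ∀ x : NZ K J', (fun x : 𝓞 K => (starRingEnd ℂ) (chf K χ x) * χ J') x *
          (Real.exp (-(2 * Real.pi * c' *
            en K (sg K (-t) * mixedEmbedding K ((x : 𝓞 K) : K)) ^ 2)) : ℂ) =
        χ J' * ((starRingEnd ℂ) (chf K χ x) * (Real.exp (-(2 * Real.pi * c' *
            en K (sg K (-t) * mixedEmbedding K ((x : 𝓞 K) : K)) ^ 2)) : ℂ)) := by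
      intro x
      simp only
      ring
    rw [tsum_congr h2, tsum_congr h3, tsum_mul_left, tsum_mul_left, h1]
    have h4 : (starRingEnd ℂ) (χ J') * χ J' = 1 := by rw [mul_comm]; exact unimod hχJ'
    linear_combination (-(starRingEnd ℂ) (χ J) * κ * W' * ∑' x : NZ K J', (starRingEnd ℂ) (chf K χ x) * (Real.exp (-(2 * Real.pi * c' *
            en K (sg K (-t) * mixedEmbedding K ((x : 𝓞 K) : K)) ^ 2)) : ℂ)) * h4
  have hUL : (torsionOrder K : ℂ) * ∑' I : Cls K A, χ I * (kap K (nm K I * y) : ℂ) =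
      ((starRingEnd ℂ) (χ J) * (starRingEnd ℂ) (χ J') * κ * W') *
        ((torsionOrder K : ℂ) * ∑' I : Cls K (A⁻¹ * ClassGroup.mk0 (dI K)),
          (starRingEnd ℂ) (χ I) * (kap K (nm K I * (y * DD K p)⁻¹) : ℂ)) := by
    rw [hU1, hU2]
    rw [MeasureTheory.integral_congr_ae (Filter.Eventually.of_forall hT),
      MeasureTheory.integral_const_mul]
    ring
  have hw : (torsionOrder K : ℂ) ≠ 0 := by
    exact_mod_cast torsionOrder_ne_zero K
  have hfin : (starRingEnd ℂ) (χ J) * (starRingEnd ℂ) (χ J') * κ * W' =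
      ((y * √(DD K p) : ℝ) : ℂ)⁻¹ * W := by
    have h1 : (starRingEnd ℂ) (χ J) * (starRingEnd ℂ) (χ J') * (starRingEnd ℂ) (χ (dI K)) =
        (starRingEnd ℂ) (chf K χ (n₀ : 𝓞 K)) := by
      rw [← hprod, map_mul, map_mul]; ring
    have h2 : chf K χ (n₀ : 𝓞 K) * (starRingEnd ℂ) (chf K χ (n₀ : 𝓞 K)) = 1 := unimod hchfn
    have h3 : κ * (√((p : ℝ) ^ nn K) : ℂ) = ((y * √(DD K p) : ℝ) : ℂ)⁻¹ := by
      rw [hκ, ← Complex.ofReal_inv, ← Complex.ofReal_inv, ← Complex.ofReal_mul]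
      congr 1
      rw [hcm, hD, Real.sqrt_mul hdpos.le]
      have h4 : √((p : ℝ) ^ nn K) * √((p : ℝ) ^ nn K) = (p : ℝ) ^ nn K :=
        Real.mul_self_sqrt (by positivity)
      have h5 : 0 < √((p : ℝ) ^ nn K) := Real.sqrt_pos.2 (by positivity)
      have h6 : 0 < √|(discr K : ℝ)| := Real.sqrt_pos.2 hdpos
      have h7 : y / nm K J * (p : ℝ) ^ nn K * nm K J * √|(discr K : ℝ)| =
          (y * (√|(discr K : ℝ)| * √((p : ℝ) ^ nn K))) * √((p : ℝ) ^ nn K) := by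
        calc y / nm K J * (p : ℝ) ^ nn K * nm K J * √|(discr K : ℝ)|
            = y * (p : ℝ) ^ nn K * √|(discr K : ℝ)| := by field_simp
          _ = y * (√((p : ℝ) ^ nn K) * √((p : ℝ) ^ nn K)) * √|(discr K : ℝ)| := by rw [h4]
          _ = _ := by ring
      rw [h7, mul_inv, mul_assoc, inv_mul_cancel₀ h5.ne', mul_one]
    calc (starRingEnd ℂ) (χ J) * (starRingEnd ℂ) (χ J') * κ * W'
        = (κ * (√((p : ℝ) ^ nn K) : ℂ)) * W * (chf K χ (n₀ : 𝓞 K) *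
            ((starRingEnd ℂ) (χ J) * (starRingEnd ℂ) (χ J') * (starRingEnd ℂ) (χ (dI K)))) := by
          rw [hW']; ring
      _ = _ := by rw [h1, h2, h3, mul_one]
  rw [hfin] at hUL
  apply mul_left_cancel₀ hw
  rw [hUL]
  ring

/-- Sums over all ideals are sums over the classes. -/
theorem tsum_cls (f : II K → ℂ) (hf : Summable f) :
    ∑' I : II K, f I = ∑ A : ClassGroup (𝓞 K), ∑' I : Cls K A, f I := by
  classical
  let e : (Σ A : ClassGroup (𝓞 K), Cls K A) ≃ II K := Equiv.sigmaFiberEquiv _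
  rw [← e.tsum_eq f]
  have h1 : Summable fun q : (Σ A : ClassGroup (𝓞 K), Cls K A) => f (e q) :=
    (e.summable_iff (f := f)).2 hf
  rw [h1.tsum_sigma, tsum_fintype]
  rfl

end FuncEqAux

theorem exists_W {p : ℕ} (hp : Inert K p) (hd : |(discr K : ℝ)| < p) : ∃ Wf : (II K → ℂ) → ℂ,
    (∀ χ ∈ XX K p, ‖Wf χ‖ ≤ 1) ∧
    (∀ χ ∈ XP K p, ‖Wf χ‖ = 1 ∧ ∀ v : ℝ,
      gg K p χ v = Wf χ * (starRingEnd ℂ) (gg K p χ (-v))) ∧
    ∀ I J : II K, ¬ pI K p ∣ (I : Ideal (𝓞 K)) → ¬ pI K p ∣ (J : Ideal (𝓞 K)) →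
      ‖∑ χ ∈ XX K p, Wf χ * χ I * (starRingEnd ℂ) (χ J)‖ ≤
        NN K p * UU K p / (p : ℝ) ^ mm K := by
  classical
  have hfin : Finite (𝓞 K ⧸ pI K p) := Ideal.finiteQuotientOfFreeOfNeBot _ (pI_ne_bot hp)
  have : Fintype (𝓞 K ⧸ pI K p) := Fintype.ofFinite _
  obtain ⟨Wf, h1, h2, h3⟩ := gauss K hp hd
  have hpR : (0 : ℝ) < p := by exact_mod_cast hp.1.pos
  refine ⟨Wf, h1, ?_, ?_⟩
  · intro χ hχP
    have hχ : χ ∈ XX K p := XP_subset K p hχP
    obtain ⟨hW1, hW2⟩ := h2 χ hχP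
    refine ⟨hW1, fun v => ?_⟩
    have hDpos : 0 < DD K p := DD_pos K hp.1.pos
    have hsD : 0 < √(DD K p) := Real.sqrt_pos.2 hDpos
    have hsD2 : √(DD K p) * √(DD K p) = DD K p := Real.mul_self_sqrt hDpos.le
    set y : ℝ := Real.exp v / √(DD K p) with hydef
    have hy : 0 < y := by positivity
    have hy' : (y * DD K p)⁻¹ = Real.exp (-v) / √(DD K p) := by
      have h : y * DD K p = Real.exp v * √(DD K p) := by
        calc y * DD K p = y * (√(DD K p) * √(DD K p)) := by rw [hsD2]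
          _ = Real.exp v * √(DD K p) := by rw [hydef]; field_simp
      rw [h, mul_inv, Real.exp_neg, div_eq_mul_inv]
    have hys : y * √(DD K p) = Real.exp v := by
      rw [hydef]; field_simp
    have hcls := fun A : ClassGroup (𝓞 K) => class_eq K hp hd hχ hW2 A hy
    have hsum : ∀ {z : ℝ}, 0 < z → Summable fun I : II K => χ I * (kap K (nm K I * z) : ℂ) := by
      intro z hz
      refine Summable.of_norm_bounded (kap_summable K hz) fun I => ?_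
      rw [norm_mul, Complex.norm_real, Real.norm_of_nonneg (kap_nonneg K _)]
      exact mul_le_of_le_one_left (kap_nonneg K _) (rc_norm_le hp hχ I)
    have hsum' : ∀ {z : ℝ}, 0 < z → Summable fun I : II K =>
        (starRingEnd ℂ) (χ I) * (kap K (nm K I * z) : ℂ) := by
      intro z hz
      refine Summable.of_norm_bounded (kap_summable K hz) fun I => ?_
      rw [norm_mul, Complex.norm_real, Real.norm_of_nonneg (kap_nonneg K _), RCLike.norm_conj]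
      exact mul_le_of_le_one_left (kap_nonneg K _) (rc_norm_le hp hχ I)
    have hmain : ∑' I : II K, χ I * (kap K (nm K I * y) : ℂ) =
        ((y * √(DD K p) : ℝ) : ℂ)⁻¹ * Wf χ *
          ∑' I : II K, (starRingEnd ℂ) (χ I) * (kap K (nm K I * (y * DD K p)⁻¹) : ℂ) := by
      rw [tsum_cls K _ (hsum hy), tsum_cls K _ (hsum' (by positivity)),
        Finset.sum_congr rfl fun A _ => hcls A, ← Finset.mul_sum]
      congr 1
      let e : ClassGroup (𝓞 K) ≃ ClassGroup (𝓞 K) :=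
        (Equiv.inv _).trans (Equiv.mulRight (ClassGroup.mk0 (dI K)))
      exact e.sum_comp (fun A => ∑' I : Cls K A,
        (starRingEnd ℂ) (χ I) * (kap K (nm K I * (y * DD K p)⁻¹) : ℂ))
    have hgv : gg K p χ v = (Real.exp (v / 2) : ℂ) *
        ∑' I : II K, χ I * (kap K (nm K I * y) : ℂ) := by
      unfold gg
      congr 1
      apply tsum_congr
      intro I
      rw [hydef, mul_div_assoc]
    have hgv' : (starRingEnd ℂ) (gg K p χ (-v)) = (Real.exp (-v / 2) : ℂ) *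
        ∑' I : II K, (starRingEnd ℂ) (χ I) * (kap K (nm K I * (y * DD K p)⁻¹) : ℂ) := by
      unfold gg
      rw [map_mul, Complex.conj_ofReal, Complex.conj_tsum]
      congr 1
      apply tsum_congr
      intro I
      rw [map_mul, Complex.conj_ofReal, hy', mul_div_assoc]
    rw [hgv, hmain, hgv', hys]
    have hE : (Real.exp (v / 2) : ℂ) * ((Real.exp v : ℝ) : ℂ)⁻¹ = (Real.exp (-v / 2) : ℂ) := by
      rw [← Complex.ofReal_inv, ← Complex.ofReal_mul, ← Real.exp_neg, ← Real.exp_add]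
      congr 2
      ring
    rw [← hE]
    ring
  · intro I J hI hJ
    have h4 : √((p : ℝ) ^ nn K) = (p : ℝ) ^ mm K := by
      rw [nn_eq K, mul_comm 2, pow_mul]
      exact Real.sqrt_sq (by positivity)
    rw [← h4]
    exact h3 I J hI hJ

end Pool.Agent.CMZ
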