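import Pool.Agent.CMZ.Basic

/-!
# Module KA: the kernel

`kap K y = 2^m ∫_{t} exp(-2π y^(1/m) ∑_w sc t w ^ 2)`, `sc t w ^ 2 = e^(t_w)` for `w ≠ w₀`, `e^(-∑ t)` for `w = w₀` (`sc_pow_of_ne`, `sc_pow_w₀`, all `mult w = 2`).
PROOFS. Integrability: `∑_w sc t w ^ 2 ≥ c ∑ |t_w|`-type bound (the maximum of `t_w`, `-∑ t` is `≥ max|t_w|/m`, so the sum is `≥ e^(max|t_w|/m)`).
Antitone and nonnegative: clear. Continuity: dominated convergence.
`kap_mellin`: change of variables `(t, v) ∈ logSpace × ℝ ↦ u ∈ ℝ^{places}`, `u_w = t_w + v/m` (`w ≠ w₀`), `u_{w₀} = -∑ t + v/m`; a linear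
isomorphism of determinant `±1` (inverse: `v = ∑ u`, `t_w = u_w - v/m`), `y^(1/m) sc² = e^(u_w)` for `y = e^v`, `e^(s v) = ∏ e^(s u_w)`; the integral is
`2^m ∏_w ∫ exp(-2π e^u) e^(s u) du = 2^m ((2π)^(-s) Γ(s))^m`. (Or induction / Fubini in any order.)
`kap_bound`: `kap` is antitone, so for real `a > 0`: `kap(y) y^a/a = kap(y) ∫_{u ≤ log y} e^(a u) du ≤ ∫ kap(e^u) e^(a u) du < ∞`.
-/

open scoped NumberField nonZeroDivisors
open NumberField NumberField.InfinitePlace NumberField.mixedEmbedding NumberField.Units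
  NumberField.Units.dirichletUnitTheorem Pool.ZD

namespace Pool.Agent.CMZ

set_option linter.unusedSectionVars false

namespace KapAux

open MeasureTheory Set

noncomputable section

/-- the one dimensional function -/
def gf (c : ℝ) (s : ℂ) (u : ℝ) : ℂ := Complex.exp (-(c * Real.exp u : ℝ)) * Complex.exp (s * u)

theorem exp_image_univ : Real.exp '' univ = Ioi 0 := by
  rw [image_univ, Real.range_exp]

theorem gf_eq (c : ℝ) (s : ℂ) (u : ℝ) :
    |Real.exp u| • (((Real.exp u : ℝ) : ℂ) ^ (s - 1) * Complex.exp (-(c : ℂ) * (Real.exp u : ℝ))) =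
      gf c s u := by
  have h : ((Real.exp u : ℝ) : ℂ) ^ (s - 1) = Complex.exp ((s - 1) * u) := by
    rw [Complex.cpow_def_of_ne_zero (by exact_mod_cast (Real.exp_pos u).ne'),
      ← Complex.ofReal_log (Real.exp_pos u).le, Real.log_exp, mul_comm]
  rw [h, abs_of_pos (Real.exp_pos u), Complex.real_smul]
  unfold gf
  rw [Complex.ofReal_exp, ← Complex.exp_add, ← Complex.exp_add, ← Complex.exp_add]
  congr 1
  push_cast
  ring

theorem aux1 {c : ℝ} (hc : 0 < c) {s : ℂ} (hs : 0 < s.re) :
    IntegrableOn (fun t : ℝ => (t : ℂ) ^ (s - 1) * Complex.exp (-(c : ℂ) * t)) (Ioi 0) := by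
  have h2 := integrableOn_rpow_mul_exp_neg_mul_rpow (p := 1) (s := s.re - 1) (b := c)
    (by linarith) one_pos hc
  refine Integrable.mono' h2 ?_ ?_
  · refine ContinuousOn.aestronglyMeasurable ?_ measurableSet_Ioi
    refine ContinuousOn.mul ?_ ?_
    · intro t ht
      refine ContinuousAt.continuousWithinAt ?_
      exact (continuousAt_cpow_const (Or.inl (by simpa using ht))).comp
        Complex.continuous_ofReal.continuousAt
    · exact (Complex.continuous_exp.comp
        (continuous_const.mul Complex.continuous_ofReal)).continuousOn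
  · refine (ae_restrict_iff' measurableSet_Ioi).2 (Filter.Eventually.of_forall fun t ht => ?_)
    rw [norm_mul, Complex.norm_cpow_eq_rpow_re_of_pos ht, Complex.norm_exp]
    simp

theorem aux2 {c : ℝ} (hc : 0 < c) {s : ℂ} :
    (1 / (c : ℂ)) ^ s = (c : ℂ) ^ (-s) := by
  rw [one_div, Complex.inv_cpow _ _ (by
    rw [Complex.arg_ofReal_of_nonneg hc.le]; exact Real.pi_pos.ne), Complex.cpow_neg]

theorem gf_integrable {c : ℝ} (hc : 0 < c) {s : ℂ} (hs : 0 < s.re) : Integrable (gf c s) := by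
  have h := integrableOn_image_iff_integrableOn_abs_deriv_smul (s := univ)
    (f := Real.exp) (f' := Real.exp) MeasurableSet.univ
    (fun x _ => (Real.hasDerivAt_exp x).hasDerivWithinAt) Real.exp_injective.injOn
    (fun t : ℝ => (t : ℂ) ^ (s - 1) * Complex.exp (-(c : ℂ) * t))
  rw [exp_image_univ] at h
  have h3 := h.1 (aux1 hc hs)
  rw [integrableOn_univ] at h3
  exact h3.congr (Filter.Eventually.of_forall fun u => gf_eq c s u)

theorem gf_integral {c : ℝ} (hc : 0 < c) {s : ℂ} (hs : 0 < s.re) :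
    ∫ u, gf c s u = (c : ℂ) ^ (-s) * Complex.Gamma s := by
  have h := integral_image_eq_integral_abs_deriv_smul (s := univ)
    (f := Real.exp) (f' := Real.exp) MeasurableSet.univ
    (fun x _ => (Real.hasDerivAt_exp x).hasDerivWithinAt) Real.exp_injective.injOn
    (fun t : ℝ => (t : ℂ) ^ (s - 1) * Complex.exp (-(c : ℂ) * t))
  rw [exp_image_univ, setIntegral_univ] at h
  have h1 := Complex.integral_cpow_mul_exp_neg_mul_Ioi (a := s) (r := c) hs (by simpa using hc)
  rw [aux2 hc] at h1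
  rw [← h1]
  rw [integral_congr_ae (Filter.Eventually.of_forall fun u => (gf_eq c s u).symm), ← h]
  refine setIntegral_congr_fun measurableSet_Ioi fun t _ => ?_
  simp only [neg_mul]

variable {ι : Type} [Fintype ι]

/-- the exponent -/
def SS (t : ι → ℝ) : ℝ := (∑ i, Real.exp (t i)) + Real.exp (-∑ i, t i)

theorem SS_pos (t : ι → ℝ) : 0 < SS t := by
  unfold SS
  have : 0 ≤ ∑ i, Real.exp (t i) := Finset.sum_nonneg fun i _ => (Real.exp_pos _).le
  have := Real.exp_pos (-∑ i, t i)
  linarith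

theorem SS_continuous : Continuous (SS : (ι → ℝ) → ℝ) := by
  unfold SS
  fun_prop

/-- the product function -/
def ff (c : ℝ) (s : ℂ) (p : (ι → ℝ) × ℝ) : ℂ := (∏ i, gf c s (p.1 i)) * gf c s p.2

theorem ff_integrable {c : ℝ} (hc : 0 < c) {s : ℂ} (hs : 0 < s.re) :
    Integrable (ff (ι := ι) c s) (volume.prod volume) := by
  have h1 : Integrable (fun x : ι → ℝ => ∏ i, gf c s (x i)) :=
    Integrable.fintype_prod (f := fun _ => gf c s) (fun _ => gf_integrable hc hs)
  exact h1.mul_prod (gf_integrable hc hs)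

theorem ff_integral {c : ℝ} (hc : 0 < c) {s : ℂ} (hs : 0 < s.re) :
    ∫ p, ff (ι := ι) c s p ∂(volume.prod volume) =
      ((c : ℂ) ^ (-s) * Complex.Gamma s) ^ (Fintype.card ι + 1) := by
  unfold ff
  rw [integral_prod_mul (fun x : ι → ℝ => ∏ i, gf c s (x i)) (gf c s),
    integral_fintype_prod_volume_eq_pow, gf_integral hc hs, pow_succ]

variable (ι) in
/-- first shear -/
def P1 (q : ℝ × (ι → ℝ)) : ℝ × (ι → ℝ) :=
  (q.1, fun i => q.2 i + q.1 / ((Fintype.card ι + 1 : ℕ) : ℝ))

variable (ι) in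
/-- second shear -/
def P2 (p : (ι → ℝ) × ℝ) : (ι → ℝ) × ℝ := (p.1, p.2 - ∑ i, p.1 i)

theorem P1_mp : MeasurePreserving (P1 ι) (volume.prod volume) (volume.prod volume) := by
  refine MeasurePreserving.skew_product (f := id) (g := fun (v : ℝ) (t : ι → ℝ) =>
    fun i => t i + v / ((Fintype.card ι + 1 : ℕ) : ℝ)) (MeasurePreserving.id _) ?_ ?_
  · refine Continuous.measurable ?_
    fun_prop
  · refine Filter.Eventually.of_forall fun v => ?_
    have h := map_add_right_eq_self (volume : Measure (ι → ℝ))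
      (fun _ => v / ((Fintype.card ι + 1 : ℕ) : ℝ))
    exact h

theorem P2_mp : MeasurePreserving (P2 ι) (volume.prod volume) (volume.prod volume) := by
  refine MeasurePreserving.skew_product (f := id) (g := fun (t : ι → ℝ) (v : ℝ) =>
    v - ∑ i, t i) (MeasurePreserving.id _) ?_ ?_
  · refine Continuous.measurable ?_
    fun_prop
  · refine Filter.Eventually.of_forall fun t => ?_
    have h := map_add_right_eq_self (volume : Measure ℝ) (-∑ i, t i)
    simpa only [sub_eq_add_neg] using h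

variable (ι) in
/-- the change of variables -/
def PP (q : ℝ × (ι → ℝ)) : (ι → ℝ) × ℝ := P2 ι (P1 ι q).swap

theorem PP_mp : MeasurePreserving (PP ι) (volume.prod volume) (volume.prod volume) :=
  P2_mp.comp (Measure.measurePreserving_swap.comp P1_mp)

theorem ff_PP (c : ℝ) (s : ℂ) (q : ℝ × (ι → ℝ)) :
    ff c s (PP ι q) = Complex.exp (-(c * Real.exp (q.1 / ((Fintype.card ι + 1 : ℕ) : ℝ)) * SS q.2 : ℝ)) *
      Complex.exp (s * q.1) := by
  have hm : ((Fintype.card ι + 1 : ℕ) : ℝ) ≠ 0 := by positivity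
  set m : ℝ := ((Fintype.card ι + 1 : ℕ) : ℝ) with hmdef
  have hP : PP ι q = (fun i => q.2 i + q.1 / m, -∑ i, q.2 i + q.1 / m) := by
    unfold PP P2 P1
    refine Prod.ext rfl ?_
    simp only [Prod.swap_prod_mk]
    rw [Finset.sum_add_distrib, Finset.sum_const, Finset.card_univ, nsmul_eq_mul]
    have : (Fintype.card ι : ℝ) = m - 1 := by rw [hmdef]; push_cast; ring
    rw [this]
    field_simp
    ring
  rw [hP]
  unfold ff gf
  simp only
  rw [Finset.prod_mul_distrib, ← Complex.exp_sum, ← Complex.exp_sum,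
    ← Complex.exp_add, ← Complex.exp_add, ← Complex.exp_add, ← Complex.exp_add]
  congr 1
  unfold SS
  have e1 : ∑ i, -(((c * Real.exp (q.2 i + q.1 / m) : ℝ)) : ℂ) =
      ((-(c * Real.exp (q.1 / m) * ∑ i, Real.exp (q.2 i)) : ℝ) : ℂ) := by
    push_cast
    rw [Finset.sum_neg_distrib, Finset.mul_sum]
    congr 1
    refine Finset.sum_congr rfl fun i _ => ?_
    rw [Complex.exp_add]
    ring
  have e2 : (∑ i, s * ((q.2 i + q.1 / m : ℝ) : ℂ)) = s * ((∑ i, q.2 i + (m - 1) * (q.1 / m) : ℝ) : ℂ) := by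
    rw [← Finset.mul_sum]
    congr 1
    rw [← Complex.ofReal_sum]
    congr 1
    rw [Finset.sum_add_distrib, Finset.sum_const, Finset.card_univ, nsmul_eq_mul]
    have : (Fintype.card ι : ℝ) = m - 1 := by rw [hmdef]; push_cast; ring
    rw [this]
  rw [e1, e2, Real.exp_add]
  have hmC : (m : ℂ) ≠ 0 := by exact_mod_cast hm
  push_cast
  field_simp
  ring

theorem HH_integrable {c : ℝ} (hc : 0 < c) {s : ℂ} (hs : 0 < s.re) :
    Integrable (fun q : ℝ × (ι → ℝ) =>
      Complex.exp (-(c * Real.exp (q.1 / ((Fintype.card ι + 1 : ℕ) : ℝ)) * SS q.2 : ℝ)) *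
      Complex.exp (s * q.1)) (volume.prod volume) := by
  have h := (PP_mp (ι := ι)).integrable_comp_of_integrable (ff_integrable hc hs)
  exact h.congr (Filter.Eventually.of_forall fun q => ff_PP c s q)

theorem HH_integral {c : ℝ} (hc : 0 < c) {s : ℂ} (hs : 0 < s.re) :
    ∫ q : ℝ × (ι → ℝ),
      Complex.exp (-(c * Real.exp (q.1 / ((Fintype.card ι + 1 : ℕ) : ℝ)) * SS q.2 : ℝ)) *
      Complex.exp (s * q.1) ∂(volume.prod volume) =
      ((c : ℂ) ^ (-s) * Complex.Gamma s) ^ (Fintype.card ι + 1) := by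
  rw [← ff_integral (ι := ι) hc hs, ← (PP_mp (ι := ι)).map_eq, integral_map
    (PP_mp (ι := ι)).aemeasurable (by rw [(PP_mp (ι := ι)).map_eq];
                                      exact (ff_integrable hc hs).aestronglyMeasurable)]
  refine integral_congr_ae (Filter.Eventually.of_forall fun q => (ff_PP c s q).symm)


/-- the abstract kernel -/
def JJ (ι : Type) [Fintype ι] (c : ℝ) : ℝ := ∫ t : ι → ℝ, Real.exp (-(c * SS t))

theorem JJ_int {c : ℝ} (hc : 0 < c) :
    Integrable (fun t : ι → ℝ => Real.exp (-(c * SS t))) := by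
  have h := (HH_integrable (ι := ι) one_pos (s := 1) (by simp)).prod_right_ae
  set m : ℝ := ((Fintype.card ι + 1 : ℕ) : ℝ) with hmdef
  have hm : 0 < m := by positivity
  have h2 : ∃ v ∈ Iio (m * Real.log c), Integrable (fun y : ι → ℝ =>
      Complex.exp (-(1 * Real.exp (v / m) * SS y : ℝ)) * Complex.exp (1 * v)) := by
    have h3 : (volume : Measure ℝ) (Iio (m * Real.log c)) ≠ 0 := by simp
    have h4 := frequently_ae_mem_iff.2 h3
    exact (h4.and_eventually h).exists
  obtain ⟨v, hv, hi⟩ := h2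
  have hv' : Real.exp (v / m) ≤ c := by
    rw [← Real.le_log_iff_exp_le hc, div_le_iff₀ hm, mul_comm]
    exact (mem_Iio.1 hv).le
  have h5 := hi.norm.mul_const (Real.exp (-v))
  refine h5.mono' ?_ ?_
  · refine Continuous.aestronglyMeasurable ?_
    have := SS_continuous (ι := ι)
    fun_prop
  · refine Filter.Eventually.of_forall fun t => ?_
    rw [norm_mul, Complex.norm_exp, Complex.norm_exp, Real.norm_of_nonneg (Real.exp_pos _).le,
      ← Real.exp_add, ← Real.exp_add, Real.exp_le_exp]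
    have h6 := SS_pos t
    have e1 : (1 * (v : ℂ)).re = v := by simp
    have e2 : (-((1 * Real.exp (v / m) * SS t : ℝ) : ℂ)).re = -(Real.exp (v / m) * SS t) := by
      rw [← Complex.ofReal_neg, Complex.ofReal_re, one_mul]
    rw [e1, e2]
    nlinarith

theorem JJ_nonneg (c : ℝ) : 0 ≤ JJ ι c :=
  integral_nonneg fun _ => (Real.exp_pos _).le

theorem JJ_anti {c d : ℝ} (hc : 0 < c) (hcd : c ≤ d) : JJ ι d ≤ JJ ι c := by
  refine integral_mono (JJ_int (lt_of_lt_of_le hc hcd)) (JJ_int hc) fun t => ?_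
  have := SS_pos t
  simp only [Real.exp_le_exp]
  nlinarith

theorem JJ_cont {c : ℝ} (hc : 0 < c) : ContinuousAt (JJ ι) c := by
  unfold JJ
  refine continuousAt_of_dominated (bound := fun t => Real.exp (-(c / 2 * SS t))) ?_ ?_
    (JJ_int (half_pos hc)) ?_
  · refine Filter.Eventually.of_forall fun x => Continuous.aestronglyMeasurable ?_
    have := SS_continuous (ι := ι)
    fun_prop
  · filter_upwards [Ioi_mem_nhds (half_lt_self hc)] with x hx
    refine Filter.Eventually.of_forall fun t => ?_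
    rw [Real.norm_of_nonneg (Real.exp_pos _).le, Real.exp_le_exp]
    have := SS_pos t
    have hx' : c / 2 < x := hx
    nlinarith
  · refine Filter.Eventually.of_forall fun t => ?_
    fun_prop

theorem JJ_inner (c : ℝ) (s : ℂ) (v : ℝ) : ∫ t : ι → ℝ,
      Complex.exp (-(c * Real.exp (v / ((Fintype.card ι + 1 : ℕ) : ℝ)) * SS t : ℝ)) *
      Complex.exp (s * v) = (JJ ι (c * Real.exp (v / ((Fintype.card ι + 1 : ℕ) : ℝ))) : ℂ) *
        Complex.exp (s * v) := by
  rw [integral_mul_const]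
  congr 1
  unfold JJ
  rw [← integral_complex_ofReal]
  refine integral_congr_ae (Filter.Eventually.of_forall fun t => ?_)
  simp only [← Complex.ofReal_neg, ← Complex.ofReal_exp]

theorem JJ_mellin_int {c : ℝ} (hc : 0 < c) {s : ℂ} (hs : 0 < s.re) : Integrable fun v : ℝ =>
    (JJ ι (c * Real.exp (v / ((Fintype.card ι + 1 : ℕ) : ℝ))) : ℂ) * Complex.exp (s * v) := by
  have h := (HH_integrable (ι := ι) hc hs).integral_prod_left
  exact h.congr (Filter.Eventually.of_forall fun v => JJ_inner c s v)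

theorem JJ_mellin {c : ℝ} (hc : 0 < c) {s : ℂ} (hs : 0 < s.re) : ∫ v : ℝ,
    (JJ ι (c * Real.exp (v / ((Fintype.card ι + 1 : ℕ) : ℝ))) : ℂ) * Complex.exp (s * v) =
      ((c : ℂ) ^ (-s) * Complex.Gamma s) ^ (Fintype.card ι + 1) := by
  rw [← HH_integral (ι := ι) hc hs, integral_prod _ (HH_integrable (ι := ι) hc hs)]
  exact integral_congr_ae (Filter.Eventually.of_forall fun v => (JJ_inner c s v).symm)

end

end KapAux

variable (K : Type) [Field K] [NumberField K]

variable [IsTotallyComplex K]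

open scoped Classical in
theorem mm_eq : mm K = Fintype.card {w : InfinitePlace K // w ≠ w₀} + 1 := by
  have h1 := card_eq_nrRealPlaces_add_nrComplexPlaces K
  rw [IsTotallyComplex.nrRealPlaces_eq_zero K, zero_add] at h1
  have h2 : 0 < Fintype.card (InfinitePlace K) := Fintype.card_pos
  rw [Fintype.card_subtype_compl, Fintype.card_subtype_eq]
  change nrComplexPlaces K = _
  omega

open scoped Classical in
theorem sum_sc_sq (t : logSpace K) : ∑ w : InfinitePlace K, sc K t w ^ 2 = KapAux.SS t := by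
  rw [Fintype.sum_eq_add_sum_subtype_ne (fun w : InfinitePlace K => sc K t w ^ 2) w₀]
  unfold KapAux.SS
  rw [add_comm]
  congr 1
  · refine Finset.sum_congr rfl fun v _ => ?_
    rw [← sc_pow_of_ne K t v, IsTotallyComplex.mult_eq]
  · rw [← sc_pow_w₀ K t, IsTotallyComplex.mult_eq]

open scoped Classical in
theorem kap_eq_JJ (y : ℝ) : kap K y = 2 ^ mm K *
    KapAux.JJ {w : InfinitePlace K // w ≠ w₀} (2 * Real.pi * y ^ (1 / (mm K : ℝ))) := by
  unfold kap KapAux.JJ
  simp only [sum_sc_sq]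

theorem kap_nonneg (y : ℝ) : 0 ≤ kap K y := by
  classical
  rw [kap_eq_JJ]
  exact mul_nonneg (by positivity) (KapAux.JJ_nonneg _)

theorem kap_antitone : AntitoneOn (kap K) (Set.Ioi 0) := by
  classical
  intro x hx y _ hxy
  have hx' : 0 < x := hx
  rw [kap_eq_JJ, kap_eq_JJ]
  refine mul_le_mul_of_nonneg_left (KapAux.JJ_anti ?_ ?_) (by positivity)
  · have := Real.pi_pos
    positivity
  · refine mul_le_mul_of_nonneg_left ?_ (by positivity)
    exact Real.rpow_le_rpow hx'.le hxy (by positivity)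

theorem kap_continuous : ContinuousOn (kap K) (Set.Ioi 0) := by
  classical
  intro y hy
  have hy' : 0 < y := hy
  refine ContinuousAt.continuousWithinAt ?_
  have h : kap K = fun y => 2 ^ mm K *
    KapAux.JJ {w : InfinitePlace K // w ≠ w₀} (2 * Real.pi * y ^ (1 / (mm K : ℝ))) :=
    funext fun y => kap_eq_JJ K y
  rw [h]
  refine ContinuousAt.mul continuousAt_const ?_
  have h2 : ContinuousAt (fun y : ℝ => 2 * Real.pi * y ^ (1 / (mm K : ℝ))) y :=
    continuousAt_const.mul (Real.continuousAt_rpow_const _ _ (Or.inl hy'.ne'))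
  refine ContinuousAt.comp (g := KapAux.JJ {w : InfinitePlace K // w ≠ w₀}) ?_ h2
  refine KapAux.JJ_cont ?_
  have := Real.pi_pos
  positivity

open scoped Classical in
theorem kap_integrable {c : ℝ} (hc : 0 < c) : MeasureTheory.Integrable fun t : logSpace K =>
    Real.exp (-(c * ∑ w : InfinitePlace K, sc K t w ^ 2)) := by
  simp only [sum_sc_sq]
  exact KapAux.JJ_int hc

open scoped Classical in
theorem kap_exp (v : ℝ) : kap K (Real.exp v) = 2 ^ mm K *
    KapAux.JJ {w : InfinitePlace K // w ≠ w₀} (2 * Real.pi * Real.exp (v / mm K)) := by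
  rw [kap_eq_JJ, ← Real.exp_mul]
  congr 4
  ring

theorem kap_mellin_integrable {s : ℂ} (hs : 0 < s.re) : MeasureTheory.Integrable fun v : ℝ =>
    (kap K (Real.exp v) : ℂ) * Complex.exp (s * v) := by
  classical
  have h := (KapAux.JJ_mellin_int (ι := {w : InfinitePlace K // w ≠ w₀})
    (c := 2 * Real.pi) (by positivity) hs).const_mul (2 ^ mm K : ℂ)
  refine h.congr (Filter.Eventually.of_forall fun v => ?_)
  simp only [kap_exp, ← mm_eq]
  push_cast
  ring

theorem kap_mellin {s : ℂ} (hs : 0 < s.re) :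
    ∫ v : ℝ, (kap K (Real.exp v) : ℂ) * Complex.exp (s * v) =
      (2 * ((2 * Real.pi : ℝ) : ℂ) ^ (-s) * Complex.Gamma s) ^ mm K := by
  classical
  have h := KapAux.JJ_mellin (ι := {w : InfinitePlace K // w ≠ w₀})
    (c := 2 * Real.pi) (by positivity) hs
  rw [← mm_eq] at h
  rw [mul_assoc, mul_pow, ← h, ← MeasureTheory.integral_const_mul]
  refine MeasureTheory.integral_congr_ae (Filter.Eventually.of_forall fun v => ?_)
  simp only [kap_exp]
  push_cast
  ring

/-- The shifted version. -/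
theorem kap_mellin' {s : ℂ} (hs : 0 < s.re) {a : ℝ} (ha : 0 < a) :
    ∫ v : ℝ, (kap K (a * Real.exp v) : ℂ) * Complex.exp (s * v) =
      (a : ℂ) ^ (-s) * (2 * ((2 * Real.pi : ℝ) : ℂ) ^ (-s) * Complex.Gamma s) ^ mm K := by
  rw [← kap_mellin K hs, ← MeasureTheory.integral_add_right_eq_self
    (fun v : ℝ => (kap K (Real.exp v) : ℂ) * Complex.exp (s * v)) (Real.log a),
    ← MeasureTheory.integral_const_mul]
  refine MeasureTheory.integral_congr_ae (Filter.Eventually.of_forall fun v => ?_)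
  have e1 : Real.exp (v + Real.log a) = a * Real.exp v := by
    rw [Real.exp_add, Real.exp_log ha, mul_comm]
  have ha0 : (a : ℂ) ≠ 0 := by exact_mod_cast ha.ne'
  have e2 : Complex.exp (s * ((v + Real.log a : ℝ) : ℂ)) = Complex.exp (s * v) * (a : ℂ) ^ s := by
    rw [Complex.cpow_def_of_ne_zero ha0, ← Complex.exp_add, ← Complex.ofReal_log ha.le]
    congr 1
    push_cast
    ring
  have e3 : (a : ℂ) ^ (-s) * (a : ℂ) ^ s = 1 := by
    rw [← Complex.cpow_add _ _ ha0, neg_add_cancel, Complex.cpow_zero]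
  simp only [e1, e2]
  rw [show (a : ℂ) ^ (-s) * ((kap K (a * Real.exp v) : ℂ) * (Complex.exp (s * v) * (a : ℂ) ^ s)) =
    ((a : ℂ) ^ (-s) * (a : ℂ) ^ s) * ((kap K (a * Real.exp v) : ℂ) * Complex.exp (s * v)) by ring,
    e3, one_mul]

theorem kap_bound {a : ℝ} (ha : 0 < a) : ∃ C : ℝ, 0 < C ∧ ∀ y : ℝ, 0 < y →
    kap K y ≤ C * y ^ (-a) := by
  have h0 := (kap_mellin_integrable K (s := (a : ℂ)) (by simpa using ha)).norm
  have h1 : MeasureTheory.Integrable fun v : ℝ => kap K (Real.exp v) * Real.exp (a * v) := by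
    refine h0.congr (Filter.Eventually.of_forall fun v => ?_)
    simp only [norm_mul, Complex.norm_real, Complex.norm_exp]
    rw [Real.norm_of_nonneg (kap_nonneg K _)]
    congr 2
    simp
  set F : ℝ → ℝ := fun v => kap K (Real.exp v) * Real.exp (a * v) with hF
  have hF0 : ∀ v, 0 ≤ F v := fun v => mul_nonneg (kap_nonneg K _) (Real.exp_pos _).le
  have hI : 0 ≤ ∫ v, F v := MeasureTheory.integral_nonneg hF0
  refine ⟨((∫ v, F v) + 1) * Real.exp a, by positivity, fun y hy => ?_⟩
  have h2 : kap K y * Real.exp (a * (Real.log y - 1)) ≤ ∫ v in Set.Icc (Real.log y - 1) (Real.log y), F v := by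
    have h3 : kap K y * Real.exp (a * (Real.log y - 1)) *
        MeasureTheory.volume.real (Set.Icc (Real.log y - 1) (Real.log y)) ≤
        ∫ v in Set.Icc (Real.log y - 1) (Real.log y), F v := by
      refine MeasureTheory.setIntegral_ge_of_const_le_real measurableSet_Icc (by simp) ?_ h1.integrableOn
      intro v hv
      refine mul_le_mul ?_ ?_ (Real.exp_pos _).le (kap_nonneg K _)
      · refine kap_antitone K (Real.exp_pos v) hy ?_
        rw [← Real.exp_log hy, Real.exp_le_exp]
        exact hv.2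
      · rw [Real.exp_le_exp]
        exact mul_le_mul_of_nonneg_left hv.1 ha.le
    simpa using h3
  have h4 : ∫ v in Set.Icc (Real.log y - 1) (Real.log y), F v ≤ ∫ v, F v :=
    MeasureTheory.setIntegral_le_integral h1 (Filter.Eventually.of_forall hF0)
  have h5 : Real.exp (a * (Real.log y - 1)) = y ^ a * Real.exp (-a) := by
    rw [Real.rpow_def_of_pos hy, ← Real.exp_add]
    congr 1
    ring
  have h6 : 0 < y ^ a := Real.rpow_pos_of_pos hy a
  rw [Real.rpow_neg hy.le]
  rw [h5] at h2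
  have h7 : kap K y * (y ^ a * Real.exp (-a)) ≤ (∫ v, F v) + 1 := by linarith
  have h8 : Real.exp (-a) * Real.exp a = 1 := by
    rw [← Real.exp_add, neg_add_cancel, Real.exp_zero]
  have h9 := mul_le_mul_of_nonneg_right h7 (mul_pos (Real.exp_pos a) (inv_pos.2 h6)).le
  calc kap K y = kap K y * (y ^ a * Real.exp (-a)) * (Real.exp a * (y ^ a)⁻¹) := by
        have : kap K y * (y ^ a * Real.exp (-a)) * (Real.exp a * (y ^ a)⁻¹) =
          kap K y * (y ^ a * (y ^ a)⁻¹) * (Real.exp (-a) * Real.exp a) := by ring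
        rw [this, h8, mul_inv_cancel₀ h6.ne', mul_one, mul_one]
    _ ≤ _ := h9
    _ = _ := by ring

end Pool.Agent.CMZ
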