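import Pool.Agent.CMZ.KSum

/-!
# Module LF: the L-function

`hW`: the functional equation `g(v) = W conj g(-v)`, `|W| = 1` (module FE supplies it for `χ ∈ XP`).
-/

open scoped NumberField nonZeroDivisors
open NumberField NumberField.InfinitePlace NumberField.mixedEmbedding NumberField.Units
  NumberField.Units.dirichletUnitTheorem Pool.ZD

namespace Pool.Agent.CMZ

set_option linter.unusedSectionVars false

namespace LFaux

open MeasureTheory Filter Topology Asymptotics Complex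

/-- Exponential substitution in the Mellin transform. -/
theorem mellin_exp (f : ℝ → ℂ) (s : ℂ) :
    mellin f s = ∫ u : ℝ, cexp (s * u) * f (Real.exp u) := by
  have himg : Real.exp '' Set.univ = Set.Ioi 0 := by rw [Set.image_univ, Real.range_exp]
  rw [mellin, ← himg, integral_image_eq_integral_abs_deriv_smul MeasurableSet.univ
    (fun x _ => (Real.hasDerivAt_exp x).hasDerivWithinAt) Real.exp_injective.injOn,
    Measure.restrict_univ]
  refine integral_congr_ae (Eventually.of_forall fun u => ?_)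
  simp only [abs_of_pos (Real.exp_pos u), real_smul, smul_eq_mul]
  rw [← mul_assoc]
  congr 1
  have h1 : ((Real.exp u : ℝ) : ℂ) ≠ 0 := by exact_mod_cast (Real.exp_pos u).ne'
  rw [cpow_sub _ _ h1, cpow_one, mul_div_cancel₀ _ h1, cpow_def_of_ne_zero h1,
    ← ofReal_log (Real.exp_pos u).le, Real.log_exp]
  congr 1
  ring

/-- A two-sided Laplace transform of a function with superexponential decay is entire. -/
theorem laplace_differentiable {g : ℝ → ℂ} (hg : Continuous g)
    (hd : ∀ b : ℝ, ∃ C : ℝ, 0 < C ∧ ∀ v : ℝ, ‖g v‖ ≤ C * Real.exp (-(b * |v|))) :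
    Differentiable ℂ fun s : ℂ => ∫ v : ℝ, g v * cexp (s * v) := by
  have h0 : (fun s : ℂ => ∫ v : ℝ, g v * cexp (s * v)) =
      mellin (fun y : ℝ => g (Real.log y)) := by
    funext s
    rw [mellin_exp]
    refine integral_congr_ae (Eventually.of_forall fun u => ?_)
    simp only [Real.log_exp]
    ring
  rw [h0]
  intro s
  obtain ⟨C, hC, h⟩ := hd (|s.re| + 1)
  have hs1 : s.re < |s.re| + 1 := by linarith [le_abs_self s.re]
  have hs2 : -(|s.re| + 1) < s.re := by linarith [neg_abs_le s.re]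
  refine mellin_differentiableAt_of_isBigO_rpow (a := |s.re| + 1) (b := -(|s.re| + 1))
    ?_ ?_ hs1 ?_ hs2
  · refine ContinuousOn.locallyIntegrableOn ?_ measurableSet_Ioi
    exact hg.comp_continuousOn (Real.continuousOn_log.mono fun x hx => (Set.mem_Ioi.1 hx).ne')
  · refine IsBigO.of_bound C ?_
    filter_upwards [eventually_ge_atTop 1] with r hr
    have hr0 : 0 < r := by linarith
    refine (h (Real.log r)).trans (mul_le_mul_of_nonneg_left ?_ hC.le)
    rw [Real.norm_of_nonneg (Real.rpow_nonneg hr0.le _), Real.rpow_def_of_pos hr0]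
    apply Real.exp_le_exp.mpr
    rw [abs_of_nonneg (Real.log_nonneg hr)]
    linarith
  · refine IsBigO.of_bound C ?_
    filter_upwards [Ioc_mem_nhdsGT (zero_lt_one : (0 : ℝ) < 1)] with r hr
    refine (h (Real.log r)).trans (mul_le_mul_of_nonneg_left ?_ hC.le)
    rw [Real.norm_of_nonneg (Real.rpow_nonneg hr.1.le _), Real.rpow_def_of_pos hr.1]
    apply Real.exp_le_exp.mpr
    rw [abs_of_nonpos (Real.log_nonpos hr.1.le hr.2)]
    linarith

/-- The zeros of a nonzero entire function on a bounded vertical segment are finite in number. -/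
theorem zeros_line {F : ℂ → ℂ} (hF : Differentiable ℂ F) {s₁ : ℂ} (h1 : F s₁ ≠ 0) (a b : ℝ) :
    {t : ℝ | a < t ∧ t < b ∧ F (1 / 2 + t * I) = 0}.Finite := by
  by_contra hinf
  have hinf' : {t : ℝ | a < t ∧ t < b ∧ F (1 / 2 + t * I) = 0}.Infinite := hinf
  obtain ⟨x, -, hx⟩ := hinf'.exists_accPt_of_subset_isCompact (isCompact_Icc (a := a) (b := b))
    (fun t ht => ⟨ht.1.le, ht.2.1.le⟩)
  set f : ℂ → ℂ := fun z => F (1 / 2 + z * I) with hf
  have hfd : Differentiable ℂ f := hF.comp (by fun_prop)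
  have hfa : AnalyticOnNhd ℂ f Set.univ :=
    (hfd.differentiableOn).analyticOnNhd isOpen_univ
  have h2 : ∃ᶠ z in 𝓝[≠] (x : ℂ), f z = 0 := by
    rw [accPt_iff_frequently_nhdsNE] at hx
    have hmap : Tendsto (fun t : ℝ => (t : ℂ)) (𝓝[≠] x) (𝓝[≠] (x : ℂ)) := by
      refine tendsto_nhdsWithin_iff.2 ⟨?_, ?_⟩
      · exact (Complex.continuous_ofReal.tendsto x).mono_left nhdsWithin_le_nhds
      · filter_upwards [self_mem_nhdsWithin] with t ht
        simpa using ht
    refine hmap.frequently (hx.mono fun t ht => ?_)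
    exact ht.2.2
  have h3 := hfa.eqOn_zero_of_preconnected_of_frequently_eq_zero isPreconnected_univ
    (Set.mem_univ _) h2
  have h4 : f ((s₁ - 1 / 2) / I) = 0 := h3 (Set.mem_univ _)
  apply h1
  rw [hf] at h4
  simp only at h4
  rw [div_mul_cancel₀ _ I_ne_zero] at h4
  rw [← h4]
  congr 1
  ring

end LFaux

variable (K : Type) [Field K] [NumberField K]

theorem LFaux.countable_II : Countable (II K) := by
  have h := (Pool.ZD.summable_nm K 2 (by norm_num)).countable_support
  rw [← Set.countable_univ_iff]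
  refine h.mono fun I _ => ?_
  rw [Function.mem_support]
  exact (Real.rpow_pos_of_pos (nm_pos I) _).ne'

variable [IsTotallyComplex K]

variable {p : ℕ} (hp : Inert K p) {χ : II K → ℂ} (hχ : χ ∈ XX K p)
  {W : ℂ} (hW1 : ‖W‖ = 1) (hW : ∀ v : ℝ, gg K p χ v = W * (starRingEnd ℂ) (gg K p χ (-v)))

include hp hχ hW1 hW

theorem gg_decay (b : ℝ) : ∃ C : ℝ, 0 < C ∧ ∀ v : ℝ,
    ‖gg K p χ v‖ ≤ C * Real.exp (-(b * |v|)) := by
  obtain ⟨C, hC, h⟩ := gg_decay_pos K hp hχ b
  refine ⟨C, hC, fun v => ?_⟩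
  rcases le_total 0 v with hv | hv
  · rw [abs_of_nonneg hv]
    exact h v hv
  · rw [abs_of_nonpos hv, hW v, norm_mul, hW1, one_mul, RCLike.norm_conj]
    exact h (-v) (by linarith)

theorem LamS_differentiable : Differentiable ℂ (LamS K p χ) := by
  have h1 := LFaux.laplace_differentiable (gg_continuous K hp hχ)
    (gg_decay K hp hχ hW1 hW)
  exact h1.comp (f := fun s : ℂ => s - 1 / 2) (by fun_prop)

theorem Lfun_differentiable : Differentiable ℂ (Lfun K p χ) := by
  have hD : (DD K p : ℂ) ≠ 0 := by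
    exact_mod_cast (DD_pos K hp.1.pos).ne'
  have h2 : (((2 * Real.pi : ℝ) : ℂ)) ≠ 0 := by
    exact_mod_cast (by positivity : (2 * Real.pi : ℝ) ≠ 0)
  unfold Lfun
  refine Differentiable.mul (Differentiable.mul (Differentiable.mul
    (LamS_differentiable K hp hχ hW1 hW) ?_) ?_) ?_
  · intro s
    exact DifferentiableAt.const_cpow (by fun_prop) (Or.inl hD)
  · refine Differentiable.pow ?_ _
    refine Differentiable.div_const ?_ _
    intro s
    exact DifferentiableAt.const_cpow (by fun_prop) (Or.inl h2)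
  · exact Differentiable.pow Complex.differentiable_one_div_Gamma _

omit hχ hW1 hW in
/-- The integrals of the terms. -/
theorem LFaux.term_integrable {s : ℂ} (hs : 0 < s.re) {a : ℝ} (ha : 0 < a) :
    MeasureTheory.Integrable fun v : ℝ =>
      (kap K (a * Real.exp v) : ℂ) * Complex.exp (s * v) := by
  have h1 := (kap_mellin_integrable K hs).comp_add_right (Real.log a)
  have h2 := h1.mul_const (Complex.exp (-(s * Real.log a)))
  refine h2.congr (Filter.Eventually.of_forall fun v => ?_)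
  simp only
  rw [Real.exp_add, Real.exp_log ha, mul_comm (Real.exp v) a, mul_assoc, ← Complex.exp_add]
  congr 2
  push_cast
  ring

omit hW1 hW in
theorem LFaux.LamS_eq {s : ℂ} (hs : 1 < s.re) :
    LamS K p χ s = ∑' I : II K, χ I * (((nm K I / √(DD K p) : ℝ) : ℂ) ^ (-s) *
      (2 * ((2 * Real.pi : ℝ) : ℂ) ^ (-s) * Complex.Gamma s) ^ mm K) := by
  have := LFaux.countable_II K
  have hD : 0 < √(DD K p) := Real.sqrt_pos.2 (DD_pos K hp.1.pos)
  have hs0 : 0 < s.re := by linarith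
  have ha : ∀ I : II K, 0 < nm K I / √(DD K p) := fun I => div_pos (nm_pos I) hD
  have hint : ∀ I : II K, MeasureTheory.Integrable fun v : ℝ =>
      χ I * ((kap K (nm K I / √(DD K p) * Real.exp v) : ℂ) * Complex.exp (s * v)) :=
    fun I => (LFaux.term_integrable K hp hs0 (ha I)).const_mul _
  have hre : 0 < ((s.re : ℝ) : ℂ).re := by rw [Complex.ofReal_re]; exact hs0
  have hnorm : ∀ I : II K, ∀ v : ℝ,
      ‖χ I * ((kap K (nm K I / √(DD K p) * Real.exp v) : ℂ) * Complex.exp (s * v))‖ =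
        ‖χ I‖ * (kap K (nm K I / √(DD K p) * Real.exp v) * Real.exp (s.re * v)) := by
    intro I v
    rw [norm_mul, norm_mul, Complex.norm_real, Real.norm_of_nonneg (kap_nonneg K _),
      Complex.norm_exp]
    congr 3
    simp
  have hval : ∀ a : ℝ, 0 < a → ∫ v : ℝ, kap K (a * Real.exp v) * Real.exp (s.re * v) =
      a ^ (-s.re) * (2 * (2 * Real.pi) ^ (-s.re) * Real.Gamma s.re) ^ mm K := by
    intro a ha
    have h := kap_mellin' K hre ha
    have h2 : (∫ v : ℝ, (kap K (a * Real.exp v) : ℂ) * Complex.exp ((s.re : ℂ) * v)) =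
        ((∫ v : ℝ, kap K (a * Real.exp v) * Real.exp (s.re * v) : ℝ) : ℂ) := by
      rw [← integral_complex_ofReal]
      refine MeasureTheory.integral_congr_ae (Filter.Eventually.of_forall fun v => ?_)
      push_cast
      rfl
    rw [h2] at h
    have h3 : (a : ℂ) ^ (-((s.re : ℝ) : ℂ)) * (2 * ((2 * Real.pi : ℝ) : ℂ) ^ (-((s.re : ℝ) : ℂ)) *
        Complex.Gamma (s.re : ℝ)) ^ mm K =
        ((a ^ (-s.re) * (2 * (2 * Real.pi) ^ (-s.re) * Real.Gamma s.re) ^ mm K : ℝ) : ℂ) := by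
      rw [Complex.ofReal_mul (a ^ (-s.re)), Complex.ofReal_pow,
        Complex.ofReal_mul (2 * (2 * Real.pi) ^ (-s.re)),
        Complex.ofReal_mul 2 ((2 * Real.pi) ^ (-s.re)),
        Complex.ofReal_cpow ha.le, Complex.ofReal_cpow (by positivity : (0 : ℝ) ≤ 2 * Real.pi),
        Complex.Gamma_ofReal, Complex.ofReal_neg, Complex.ofReal_ofNat]
    rw [h3] at h
    exact_mod_cast h
  have hsum : Summable fun I : II K => ∫ v : ℝ,
      ‖χ I * ((kap K (nm K I / √(DD K p) * Real.exp v) : ℂ) * Complex.exp (s * v))‖ := by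
    have h1 : Summable fun I : II K => nm K I ^ (-s.re) *
        (√(DD K p) ^ s.re * (2 * (2 * Real.pi) ^ (-s.re) * Real.Gamma s.re) ^ mm K) :=
      (summable_rpow K s.re hs).mul_right _
    refine Summable.of_nonneg_of_le
      (fun I => MeasureTheory.integral_nonneg fun v => norm_nonneg _) (fun I => ?_) h1
    simp_rw [hnorm I]
    rw [MeasureTheory.integral_const_mul, hval _ (ha I)]
    have h4 : (nm K I / √(DD K p)) ^ (-s.re) = nm K I ^ (-s.re) * √(DD K p) ^ s.re := by
      rw [Real.div_rpow (nm_pos I).le hD.le, Real.rpow_neg hD.le, div_inv_eq_mul]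
    have hG : 0 < Real.Gamma s.re := Real.Gamma_pos_of_pos hs0
    rw [h4, mul_assoc (nm K I ^ (-s.re))]
    have h5 : 0 ≤ nm K I ^ (-s.re) * (√(DD K p) ^ s.re *
        (2 * (2 * Real.pi) ^ (-s.re) * Real.Gamma s.re) ^ mm K) := by
      have := nm_pos I
      positivity
    exact mul_le_of_le_one_left h5 (rc_norm_le hp hχ I)
  have hmain := MeasureTheory.integral_tsum_of_summable_integral_norm hint hsum
  have hLam : LamS K p χ s = ∫ v : ℝ, ∑' I : II K,
      χ I * ((kap K (nm K I / √(DD K p) * Real.exp v) : ℂ) * Complex.exp (s * v)) := by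
    unfold LamS gg
    refine MeasureTheory.integral_congr_ae (Filter.Eventually.of_forall fun v => ?_)
    simp only
    rw [← tsum_mul_left, ← tsum_mul_right]
    refine tsum_congr fun I => ?_
    have h6 : Complex.exp (s * v) = (Real.exp (v / 2) : ℂ) * Complex.exp ((s - 1 / 2) * v) := by
      rw [Complex.ofReal_exp, ← Complex.exp_add]
      congr 1
      push_cast
      ring
    have h7 : nm K I * Real.exp v / √(DD K p) = nm K I / √(DD K p) * Real.exp v := by ring
    rw [h6, h7]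
    ring
  rw [hLam, ← hmain]
  refine tsum_congr fun I => ?_
  rw [MeasureTheory.integral_const_mul, kap_mellin' K hs0 (ha I)]

theorem Lfun_eq {s : ℂ} (hs : 1 < s.re) :
    Lfun K p χ s = ∑' I : II K, χ I * (nm K I : ℂ) ^ (-s) := by
  have hs0 : 0 < s.re := by linarith
  have hD0 : 0 < DD K p := DD_pos K hp.1.pos
  have hD : 0 < √(DD K p) := Real.sqrt_pos.2 hD0
  have hG : Complex.Gamma s ≠ 0 := Complex.Gamma_ne_zero_of_re_pos hs0
  have hpi : (((2 * Real.pi : ℝ) : ℂ)) ≠ 0 := by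
    exact_mod_cast (by positivity : (2 * Real.pi : ℝ) ≠ 0)
  unfold Lfun
  rw [LFaux.LamS_eq K hp hχ hs, ← tsum_mul_right, ← tsum_mul_right, ← tsum_mul_right]
  refine tsum_congr fun I => ?_
  have h1 : ((nm K I / √(DD K p) : ℝ) : ℂ) ^ (-s) =
      (nm K I : ℂ) ^ (-s) / ((√(DD K p) : ℝ) : ℂ) ^ (-s) := by
    rw [Complex.ofReal_div, Complex.div_cpow_ofReal_nonneg (nm_pos I).le hD.le]
  have h2 : ((√(DD K p) : ℝ) : ℂ) ^ (-s) = (DD K p : ℂ) ^ (-s / 2) := by
    have h5 : (DD K p : ℂ) = ((√(DD K p) : ℝ) : ℂ) ^ 2 := by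
      rw [← Complex.ofReal_pow, Real.sq_sqrt hD0.le]
    rw [h5, ← Complex.cpow_nat_mul']
    · congr 1
      push_cast
      ring
    · rw [Complex.arg_ofReal_of_nonneg hD.le]
      simpa using Real.pi_pos
    · rw [Complex.arg_ofReal_of_nonneg hD.le]
      simpa using Real.pi_pos.le
  have h3 : (DD K p : ℂ) ^ (-s / 2) ≠ 0 := by
    rw [Ne, Complex.cpow_eq_zero_iff]
    rintro ⟨h, -⟩
    exact hD0.ne' (by exact_mod_cast h)
  have h4 : (((2 * Real.pi : ℝ) : ℂ)) ^ s ≠ 0 := by
    rw [Ne, Complex.cpow_eq_zero_iff]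
    rintro ⟨h, -⟩
    exact hpi h
  rw [h1, h2, Complex.cpow_neg (((2 * Real.pi : ℝ) : ℂ)), mul_pow, mul_pow, div_pow, inv_pow,
    inv_pow]
  have h6 := pow_ne_zero (mm K) h4
  have h7 := pow_ne_zero (mm K) hG
  have h8 : (2 : ℂ) ^ mm K ≠ 0 := pow_ne_zero _ two_ne_zero
  generalize (DD K p : ℂ) ^ (-s / 2) = X at *
  generalize ((((2 * Real.pi : ℝ) : ℂ)) ^ s) ^ mm K = Y at *
  generalize (Complex.Gamma s) ^ mm K = Z at *
  field_simp

theorem Lam_zero (t : ℝ) : Lam K p χ t = 0 ↔ Lfun K p χ (1 / 2 + t * Complex.I) = 0 := by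
  have hD0 : 0 < DD K p := DD_pos K hp.1.pos
  have hre : (0 : ℝ) < (1 / 2 + t * Complex.I : ℂ).re := by simp
  have hG : (Complex.Gamma (1 / 2 + t * Complex.I))⁻¹ ≠ 0 :=
    inv_ne_zero (Complex.Gamma_ne_zero_of_re_pos hre)
  have hpi : (((2 * Real.pi : ℝ) : ℂ)) ≠ 0 := by
    exact_mod_cast (by positivity : (2 * Real.pi : ℝ) ≠ 0)
  have h3 : (DD K p : ℂ) ^ (-(1 / 2 + t * Complex.I) / 2) ≠ 0 := by
    rw [Ne, Complex.cpow_eq_zero_iff]
    rintro ⟨h, -⟩
    exact hD0.ne' (by exact_mod_cast h)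
  have h4 : (((2 * Real.pi : ℝ) : ℂ)) ^ (1 / 2 + t * Complex.I) / 2 ≠ 0 := by
    refine div_ne_zero ?_ two_ne_zero
    rw [Ne, Complex.cpow_eq_zero_iff]
    rintro ⟨h, -⟩
    exact hpi h
  unfold Lam Lfun
  constructor
  · intro h
    rw [h]
    ring
  · intro h
    have h5 := pow_ne_zero (mm K) hG
    have h6 := pow_ne_zero (mm K) h4
    rcases mul_eq_zero.1 h with h | h
    · rcases mul_eq_zero.1 h with h | h
      · rcases mul_eq_zero.1 h with h | h
        · exact h
        · exact absurd h h3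
      · exact absurd h h6
    · exact absurd h h5

theorem Lam_continuous : Continuous (Lam K p χ) := by
  unfold Lam
  exact (LamS_differentiable K hp hχ hW1 hW).continuous.comp (by fun_prop)

theorem Lam_real : ∃ ω : ℂ, ‖ω‖ = 1 ∧ ∀ t : ℝ, (ω * Lam K p χ t).im = 0 := by
  obtain ⟨ω, hω⟩ := IsAlgClosed.exists_pow_nat_eq ((starRingEnd ℂ) W) (n := 2) (by norm_num)
  have hω1 : ‖ω‖ = 1 := by
    have h1 : ‖ω‖ ^ 2 = 1 := by rw [← norm_pow, hω, RCLike.norm_conj, hW1]
    have h0 := norm_nonneg ω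
    nlinarith
  refine ⟨ω, hω1, fun t => ?_⟩
  have hWW : (starRingEnd ℂ) W * W = 1 := by
    rw [mul_comm, Complex.mul_conj, Complex.normSq_eq_norm_sq, hW1]
    norm_num
  have hωω : (starRingEnd ℂ) ω * ω = 1 := by
    rw [mul_comm, Complex.mul_conj, Complex.normSq_eq_norm_sq, hω1]
    norm_num
  have hconj : (starRingEnd ℂ) (Lam K p χ t) = (starRingEnd ℂ) W * Lam K p χ t := by
    have h1 : Lam K p χ t = ∫ v : ℝ, gg K p χ v * Complex.exp (t * Complex.I * v) := by
      unfold Lam LamS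
      refine MeasureTheory.integral_congr_ae (Filter.Eventually.of_forall fun v => ?_)
      simp only
      congr 2
      ring
    rw [h1, ← integral_conj, ← MeasureTheory.integral_const_mul,
      ← MeasureTheory.integral_neg_eq_self]
    refine MeasureTheory.integral_congr_ae (Filter.Eventually.of_forall fun v => ?_)
    simp only
    rw [map_mul, ← Complex.exp_conj]
    have h2 : (starRingEnd ℂ) (t * Complex.I * ((-v : ℝ) : ℂ)) = t * Complex.I * v := by
      rw [map_mul, map_mul, Complex.conj_I, Complex.conj_ofReal, Complex.conj_ofReal]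
      push_cast
      ring
    rw [h2]
    have h3 : (starRingEnd ℂ) (gg K p χ (-v)) = (starRingEnd ℂ) W * gg K p χ v := by
      rw [hW v, ← mul_assoc, hWW, one_mul]
    rw [h3, mul_assoc]
  rw [← Complex.conj_eq_iff_im, map_mul, hconj, ← hω]
  calc (starRingEnd ℂ) ω * (ω ^ 2 * Lam K p χ t)
      = ((starRingEnd ℂ) ω * ω) * (ω * Lam K p χ t) := by ring
    _ = ω * Lam K p χ t := by rw [hωω, one_mul]

theorem LFaux.Lfun_ne : ∃ s : ℂ, Lfun K p χ s ≠ 0 := by
  classical
  have := LFaux.countable_II K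
  have hsum2 := summable_rpow K 2 (by norm_num)
  set S : ℝ := ∑' I : II K, nm K I ^ (-(2 : ℝ)) with hS
  have hS0 : 0 ≤ S := tsum_nonneg fun I => Real.rpow_nonneg (nm_pos I).le _
  obtain ⟨k, hk⟩ : ∃ k : ℕ, S < 2 ^ k := pow_unbounded_of_one_lt S (by norm_num)
  have hs : 1 < ((k : ℂ) + 2).re := by
    simp only [Complex.add_re, Complex.natCast_re, Complex.re_ofNat]
    have : (0 : ℝ) ≤ k := Nat.cast_nonneg k
    linarith
  refine ⟨(k : ℂ) + 2, fun h => ?_⟩
  rw [Lfun_eq K hp hχ hW1 hW hs] at h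
  have hterm : ∀ I : II K, ‖χ I * (nm K I : ℂ) ^ (-((k : ℂ) + 2))‖ ≤
      nm K I ^ (-((k : ℝ) + 2)) := by
    intro I
    rw [norm_mul]
    have h1 : ‖(nm K I : ℂ) ^ (-((k : ℂ) + 2))‖ = nm K I ^ (-((k : ℝ) + 2)) := by
      rw [Complex.norm_cpow_eq_rpow_re_of_pos (nm_pos I)]
      congr 1
    rw [h1]
    exact mul_le_of_le_one_left (Real.rpow_nonneg (nm_pos I).le _) (rc_norm_le hp hχ I)
  have hsumk : Summable fun I : II K => nm K I ^ (-((k : ℝ) + 2)) :=
    summable_rpow K ((k : ℝ) + 2) (by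
      have : (0 : ℝ) ≤ k := Nat.cast_nonneg k
      linarith)
  have hsumc : Summable fun I : II K => χ I * (nm K I : ℂ) ^ (-((k : ℂ) + 2)) :=
    Summable.of_norm_bounded hsumk hterm
  have h2 := hsumc.tsum_eq_add_tsum_ite (1 : II K)
  rw [h] at h2
  have hχ1 : χ 1 = 1 := ((mem_XX hp).1 hχ).one
  have h3 : χ 1 * (nm K 1 : ℂ) ^ (-((k : ℂ) + 2)) = 1 := by
    rw [hχ1, none, Complex.ofReal_one, Complex.one_cpow, one_mul]
  rw [h3] at h2
  have h4 : ‖∑' I : II K, (if I = 1 then 0 else χ I * (nm K I : ℂ) ^ (-((k : ℂ) + 2)))‖ ≤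
      ∑' I : II K, nm K I ^ (-(2 : ℝ)) * (2 ^ k)⁻¹ := by
    refine tsum_of_norm_bounded (hsum2.mul_right _).hasSum fun I => ?_
    split_ifs with hI
    · rw [norm_zero]
      exact mul_nonneg (Real.rpow_nonneg (nm_pos I).le _) (by positivity)
    · refine (hterm I).trans ?_
      have h5 : (2 : ℝ) ≤ nm K I := by
        have h6 : nm K I ≠ 1 := fun h => hI (nm_eq_one.1 h)
        have h7 : (1 : ℝ) ≤ nm K I := nm_one_le I
        unfold nm at h6 h7 ⊢
        have h8 : 1 ≤ Ideal.absNorm (I : Ideal (𝓞 K)) := by exact_mod_cast h7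
        have h9 : Ideal.absNorm (I : Ideal (𝓞 K)) ≠ 1 := by
          intro h0
          apply h6
          rw [h0]
          norm_num
        have : 2 ≤ Ideal.absNorm (I : Ideal (𝓞 K)) := by omega
        exact_mod_cast this
      rw [neg_add, add_comm, Real.rpow_add (nm_pos I), Real.rpow_neg (nm_pos I).le (k : ℝ),
        Real.rpow_natCast]
      gcongr
  rw [tsum_mul_right, ← hS] at h4
  have h5 : S * (2 ^ k)⁻¹ < 1 := by
    rw [← div_eq_mul_inv, div_lt_one (by positivity)]
    exact hk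
  have h6 : (∑' I : II K, (if I = 1 then 0 else χ I * (nm K I : ℂ) ^ (-((k : ℂ) + 2)))) = -1 := by
    linear_combination -h2
  rw [h6, norm_neg, norm_one] at h4
  linarith

theorem zeros_finite (a b : ℝ) :
    {t : ℝ | a < t ∧ t < b ∧ Lfun K p χ (1 / 2 + t * Complex.I) = 0}.Finite := by
  obtain ⟨s₁, hs₁⟩ := LFaux.Lfun_ne K hp hχ hW1 hW
  exact LFaux.zeros_line (Lfun_differentiable K hp hχ hW1 hW) hs₁ a b

end Pool.Agent.CMZ
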