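import Pool.Agent.CMZ.Basic

/-!
# Module RR: the ray class relation

PROOFS. `Ray` is an equivalence relation compatible with products and cancellable (multiply the relations; `x x' ≡ 1 (mod p)`; `p` need not be prime
for these; if `x x' = 0`... all elements are nonzero). `exists_inv`: `𝓞 K/p` is a field (finite domain). `ray_spn_iff`: from `x₁ x = u y₁ y` (`spn_eq_iff`), `x₁ ≡ y₁ ≡ 1`:
`x ≡ u y`; conversely if `x ≡ u y (mod p)` choose `z` with `x z ≡ 1` (so `u y z ≡ 1`): `(u y z) · (x) = (x z) · (y)` as ideals (`z ≠ 0`). `ray_fin`: the classes of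
the ideals prime to `p` are finite in number: fix an ideal class and `B` in the inverse class; `I B = (x)`; if `I B = (x)`, `I' B = (x')`, `x ≡ x' (mod p)`, and
`p ∤ x`, `x z ≡ 1`, then `(x' z) I = (x z) I'`: so `Ray I I'`. But `B` may be divisible by `p`: then use `I B = (x)` with `B` replaced by
an ideal prime to `p` (e.g. `B = I₀^(h-1)` for one ideal `I₀` prime to `p` in that class, if there is one; else the class contributes nothing).
`ray_inv`: `I^h = (x)`, `p ∤ x`, `x z ≡ 1`: `J = I^(h-1) (z)`.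
-/

open scoped NumberField nonZeroDivisors
open NumberField NumberField.InfinitePlace NumberField.mixedEmbedding NumberField.Units
  NumberField.Units.dirichletUnitTheorem Pool.ZD

namespace Pool.Agent.CMZ

set_option linter.unusedSectionVars false

variable (K : Type) [Field K] [NumberField K]

namespace RayRelAux

variable {K}

theorem mul_one_mod {p : ℕ} {x y : 𝓞 K} (hx : (p : 𝓞 K) ∣ x - 1) (hy : (p : 𝓞 K) ∣ y - 1) :
    (p : 𝓞 K) ∣ x * y - 1 := by
  have e : x * y - 1 = (x - 1) * y + (y - 1) := by ring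
  rw [e]
  exact dvd_add (hx.mul_right y) hy

theorem exists_spn {I : II K} (h : ClassGroup.mk0 I = 1) : ∃ x : 𝓞 K, x ≠ 0 ∧ I = spn K x := by
  rw [ClassGroup.mk0_eq_one_iff] at h
  obtain ⟨x, hx⟩ := h.principal
  have hx' : (I : Ideal (𝓞 K)) = Ideal.span {x} := hx
  have hx0 : x ≠ 0 := by
    rintro rfl
    apply nonZeroDivisors.coe_ne_zero I
    rw [hx']; simp
  exact ⟨x, hx0, Subtype.ext (by rw [coe_spn hx0, hx'])⟩

theorem mk0_spn {x : 𝓞 K} (hx : x ≠ 0) : ClassGroup.mk0 (spn K x) = 1 := by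
  rw [ClassGroup.mk0_eq_one_iff, coe_spn hx]
  exact ⟨⟨x, rfl⟩⟩

theorem ne_zero_of {p : ℕ} {x : 𝓞 K} (h : ¬ (p : 𝓞 K) ∣ x) : x ≠ 0 := by
  rintro rfl
  exact h (dvd_zero _)

theorem not_dvd_one {p : ℕ} (hp : Inert K p) : ¬ (p : 𝓞 K) ∣ 1 := by
  intro h
  have h1 := (pI_dvd_spn (K := K) (p := p) one_ne_zero).2 h
  rw [spn_one, OneMemClass.coe_one] at h1
  exact (prime_pI hp).not_isUnit (isUnit_of_dvd_one h1)

theorem not_pI_dvd_one {p : ℕ} (hp : Inert K p) : ¬ pI K p ∣ ((1 : II K) : Ideal (𝓞 K)) := by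
  intro h1
  rw [OneMemClass.coe_one] at h1
  exact (prime_pI hp).not_isUnit (isUnit_of_dvd_one h1)

end RayRelAux

open RayRelAux

theorem ray_refl (p : ℕ) (I : II K) : Ray K p I I :=
  ⟨1, 1, one_ne_zero, one_ne_zero, by simp, by simp, rfl⟩

variable {K} in
theorem ray_symm {p : ℕ} {I J : II K} (h : Ray K p I J) : Ray K p J I := by
  obtain ⟨x, y, hx, hy, hx1, hy1, h⟩ := h
  exact ⟨y, x, hy, hx, hy1, hx1, h.symm⟩

variable {K} in
theorem ray_trans {p : ℕ} {I J L : II K} (h : Ray K p I J) (h' : Ray K p J L) : Ray K p I L := by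
  obtain ⟨x, y, hx, hy, hx1, hy1, h⟩ := h
  obtain ⟨x', y', hx', hy', hx1', hy1', h'⟩ := h'
  refine ⟨x * x', y * y', mul_ne_zero hx hx', mul_ne_zero hy hy', mul_one_mod hx1 hx1',
    mul_one_mod hy1 hy1', ?_⟩
  rw [spn_mul hx hx', spn_mul hy hy']
  calc spn K x * spn K x' * I = spn K x' * (spn K x * I) := by
        rw [mul_comm (spn K x), mul_assoc]
    _ = spn K y * (spn K x' * J) := by rw [h, mul_left_comm]
    _ = spn K y * spn K y' * L := by rw [h', mul_assoc]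

variable {K} in
theorem ray_mul {p : ℕ} {I J I' J' : II K} (h : Ray K p I J) (h' : Ray K p I' J') :
    Ray K p (I * I') (J * J') := by
  obtain ⟨x, y, hx, hy, hx1, hy1, h⟩ := h
  obtain ⟨x', y', hx', hy', hx1', hy1', h'⟩ := h'
  refine ⟨x * x', y * y', mul_ne_zero hx hx', mul_ne_zero hy hy', mul_one_mod hx1 hx1',
    mul_one_mod hy1 hy1', ?_⟩
  rw [spn_mul hx hx', spn_mul hy hy', mul_mul_mul_comm, h, h', mul_mul_mul_comm]

variable {K} in
theorem ray_cancel {p : ℕ} {I J C : II K} : Ray K p (C * I) (C * J) ↔ Ray K p I J := by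
  constructor
  · rintro ⟨x, y, hx, hy, hx1, hy1, h⟩
    refine ⟨x, y, hx, hy, hx1, hy1, ?_⟩
    rw [mul_left_comm, mul_left_comm (spn K y)] at h
    exact ii_cancel h
  · rintro ⟨x, y, hx, hy, hx1, hy1, h⟩
    refine ⟨x, y, hx, hy, hx1, hy1, ?_⟩
    rw [mul_left_comm, h, mul_left_comm]

variable {K} in
/-- Inverses mod `p`. -/
theorem exists_inv {p : ℕ} (hp : Inert K p) {x : 𝓞 K} (hx : ¬ (p : 𝓞 K) ∣ x) :
    ∃ y : 𝓞 K, y ≠ 0 ∧ ¬ (p : 𝓞 K) ∣ y ∧ (p : 𝓞 K) ∣ x * y - 1 := by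
  have hmem : ∀ z : 𝓞 K, z ∈ pI K p ↔ (p : 𝓞 K) ∣ z := fun z => Ideal.mem_span_singleton
  have hmax : (pI K p).IsMaximal := hp.2.isMaximal (pI_ne_bot hp)
  obtain ⟨y, i, hi, h⟩ := hmax.exists_inv (x := x) (fun h => hx ((hmem x).1 h))
  rw [hmem] at hi
  have h1 : (p : 𝓞 K) ∣ x * y - 1 := by
    have e : x * y - 1 = -i := by rw [← h]; ring
    rw [e]
    exact (dvd_neg).2 hi
  have h2 : ¬ (p : 𝓞 K) ∣ y := by
    intro hy
    apply not_dvd_one hp
    have e : (1 : 𝓞 K) = x * y - (x * y - 1) := by ring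
    rw [e]
    exact dvd_sub (hy.mul_left x) h1
  exact ⟨y, ne_zero_of h2, h2, h1⟩

variable {K} in
theorem ray_spn_iff {p : ℕ} (hp : Inert K p) {x y : 𝓞 K} (hx : ¬ (p : 𝓞 K) ∣ x)
    (hy : ¬ (p : 𝓞 K) ∣ y) :
    Ray K p (spn K x) (spn K y) ↔ ∃ u : (𝓞 K)ˣ, (p : 𝓞 K) ∣ x - u * y := by
  have hx0 := ne_zero_of hx
  have hy0 := ne_zero_of hy
  constructor
  · rintro ⟨x₁, y₁, hx₁, hy₁, hx1, hy1, h⟩
    rw [← spn_mul hx₁ hx0, ← spn_mul hy₁ hy0] at h
    obtain ⟨u, hu⟩ := (spn_eq_iff (mul_ne_zero hy₁ hy0) (mul_ne_zero hx₁ hx0)).1 h.symm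
    refine ⟨u, ?_⟩
    have e : x - u * y = (u * y) * (y₁ - 1) - x * (x₁ - 1) + (x₁ * x - u * (y₁ * y)) := by ring
    rw [e, hu, sub_self, add_zero]
    exact dvd_sub (hy1.mul_left _) (hx1.mul_left _)
  · rintro ⟨u, hu⟩
    obtain ⟨z, hz0, hz, hxz⟩ := exists_inv hp hx
    refine ⟨u * y * z, x * z, mul_ne_zero (mul_ne_zero (Units.ne_zero u) hy0) hz0,
      mul_ne_zero hx0 hz0, ?_, hxz, ?_⟩
    · have e : (u : 𝓞 K) * y * z - 1 = (x * z - 1) - (x - u * y) * z := by ring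
      rw [e]
      exact dvd_sub hxz (hu.mul_right z)
    · rw [spn_mul (mul_ne_zero (Units.ne_zero u) hy0) hz0, spn_mul (Units.ne_zero u) hy0,
        spn_unit, spn_mul hx0 hz0, one_mul]
      rw [mul_assoc, mul_comm (spn K y), mul_comm (spn K z)]

variable {K} in
/-- Inverse ray classes. -/
theorem ray_inv {p : ℕ} (hp : Inert K p) {I : II K} (hI : ¬ pI K p ∣ (I : Ideal (𝓞 K))) :
    ∃ J : II K, ¬ pI K p ∣ (J : Ideal (𝓞 K)) ∧ Ray K p (I * J) 1 := by
  classical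
  set h := Fintype.card (ClassGroup (𝓞 K)) with hh
  have hpos : 0 < h := Fintype.card_pos
  have h1 : ClassGroup.mk0 (I ^ h) = 1 := by
    rw [map_pow, hh, pow_card_eq_one]
  obtain ⟨x, hx0, hx⟩ := exists_spn h1
  have hpow : ∀ n : ℕ, ¬ pI K p ∣ ((I ^ n : II K) : Ideal (𝓞 K)) := by
    intro n hn
    rw [SubmonoidClass.coe_pow] at hn
    exact hI ((prime_pI hp).dvd_of_dvd_pow hn)
  have hxp : ¬ (p : 𝓞 K) ∣ x := by
    intro hd
    apply hpow h
    rw [hx]
    exact (pI_dvd_spn hx0).2 hd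
  obtain ⟨z, hz0, hz, hxz⟩ := exists_inv hp hxp
  refine ⟨I ^ (h - 1) * spn K z, ?_, ?_⟩
  · exact not_dvd_mul hp (hpow _) (fun hd => hz ((pI_dvd_spn hz0).1 hd))
  · refine ⟨1, x * z, one_ne_zero, mul_ne_zero hx0 hz0, by simp, hxz, ?_⟩
    rw [spn_one, one_mul, mul_one, ← mul_assoc, ← pow_succ', Nat.sub_add_cancel hpos, hx,
      spn_mul hx0 hz0]

variable {K} in
/-- Finitely many ray classes. -/
theorem ray_fin {p : ℕ} (hp : Inert K p) : ∃ S : Finset (II K),
    (∀ J ∈ S, ¬ pI K p ∣ (J : Ideal (𝓞 K))) ∧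
    ∀ I : II K, ¬ pI K p ∣ (I : Ideal (𝓞 K)) → ∃ J ∈ S, Ray K p I J := by
  classical
  have hfin : Finite (𝓞 K ⧸ pI K p) := Ideal.finiteQuotientOfFreeOfNeBot _ (pI_ne_bot hp)
  letI : Fintype (𝓞 K ⧸ pI K p) := Fintype.ofFinite _
  have hmem : ∀ z : 𝓞 K, z ∈ pI K p ↔ (p : 𝓞 K) ∣ z := fun z => Ideal.mem_span_singleton
  -- representatives of the ideal classes
  let rep : ClassGroup (𝓞 K) → II K := fun c =>
    if h : ∃ I : II K, ClassGroup.mk0 I = c ∧ ¬ pI K p ∣ (I : Ideal (𝓞 K)) then h.choose else 1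
  have hrep1 : ∀ c, ¬ pI K p ∣ (rep c : Ideal (𝓞 K)) := by
    intro c
    by_cases h : ∃ I : II K, ClassGroup.mk0 I = c ∧ ¬ pI K p ∣ (I : Ideal (𝓞 K))
    · simp only [rep, dif_pos h]
      exact h.choose_spec.2
    · simp only [rep, dif_neg h]
      exact not_pI_dvd_one hp
  have hrep2 : ∀ I : II K, ¬ pI K p ∣ (I : Ideal (𝓞 K)) →
      ClassGroup.mk0 (rep (ClassGroup.mk0 I)) = ClassGroup.mk0 I := by
    intro I hI
    have h : ∃ I' : II K, ClassGroup.mk0 I' = ClassGroup.mk0 I ∧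
      ¬ pI K p ∣ (I' : Ideal (𝓞 K)) := ⟨I, rfl, hI⟩
    simp only [rep, dif_pos h]
    exact h.choose_spec.1
  -- representatives of the residue classes
  let lif : 𝓞 K ⧸ pI K p → 𝓞 K := fun r => Quotient.out r
  have hlif : ∀ r, Ideal.Quotient.mk (pI K p) (lif r) = r := fun r => Quotient.out_eq r
  let F : ClassGroup (𝓞 K) × (𝓞 K ⧸ pI K p) → II K := fun cr =>
    if (p : 𝓞 K) ∣ lif cr.2 then 1 else spn K (lif cr.2) * rep cr.1
  refine ⟨Finset.univ.image F, ?_, ?_⟩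
  · intro J hJ
    rw [Finset.mem_image] at hJ
    obtain ⟨cr, -, rfl⟩ := hJ
    by_cases h : (p : 𝓞 K) ∣ lif cr.2
    · simp only [F, if_pos h]
      exact not_pI_dvd_one hp
    · simp only [F, if_neg h]
      exact not_dvd_mul hp (fun hd => h ((pI_dvd_spn (ne_zero_of h)).1 hd)) (hrep1 _)
  · intro I hI
    set c := ClassGroup.mk0 I with hc
    obtain ⟨J, hJ, hJr⟩ := ray_inv hp (hrep1 c)
    -- `I * J` is principal
    have h1 : ClassGroup.mk0 (rep c * J) = 1 := by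
      obtain ⟨x, y, hx, hy, -, -, h⟩ := hJr
      have h2 := congrArg ClassGroup.mk0 h
      rw [map_mul, map_mul ClassGroup.mk0 (spn K y), mk0_spn hx, mk0_spn hy, one_mul, one_mul,
        map_one] at h2
      exact h2
    have h3 : ClassGroup.mk0 (I * J) = 1 := by
      rw [map_mul] at h1 ⊢
      rw [hrep2 I hI] at h1
      exact h1
    obtain ⟨w, hw0, hw⟩ := exists_spn h3
    have hwp : ¬ (p : 𝓞 K) ∣ w := by
      intro hd
      apply not_dvd_mul hp hI hJ
      rw [hw]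
      exact (pI_dvd_spn hw0).2 hd
    set r : 𝓞 K ⧸ pI K p := Ideal.Quotient.mk (pI K p) w with hr
    have hdiff : (p : 𝓞 K) ∣ w - lif r := by
      rw [← hmem, ← Ideal.Quotient.eq, hlif, hr]
    have hlp : ¬ (p : 𝓞 K) ∣ lif r := by
      intro hd
      apply hwp
      have e : w = (w - lif r) + lif r := by ring
      rw [e]
      exact dvd_add hdiff hd
    have hray1 : Ray K p (spn K w) (spn K (lif r)) := by
      rw [ray_spn_iff hp hwp hlp]
      exact ⟨1, by simpa using hdiff⟩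
    refine ⟨F (c, r), Finset.mem_image_of_mem _ (Finset.mem_univ _), ?_⟩
    have hF : F (c, r) = spn K (lif r) * rep c := by
      simp only [F, if_neg hlp]
    rw [hF]
    -- `I ~ I * (rep c * J) = (I * J) * rep c = spn w * rep c ~ spn (lif r) * rep c`
    have hA : Ray K p I (I * (rep c * J)) := by
      have := ray_mul (ray_refl K p I) (ray_symm hJr)
      rwa [mul_one] at this
    have hB : I * (rep c * J) = spn K w * rep c := by
      rw [← hw]
      rw [mul_comm (rep c), mul_assoc]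
    rw [hB] at hA
    exact ray_trans hA (ray_mul hray1 (ray_refl K p _))

end Pool.Agent.CMZ
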