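import Pool.Agent.CMZ.RayClass

/-!
# Module CH: the character of the residue field, class group characters

PROOFS. `chf_congr`: if `p ∤ x` choose `z` with `x z ≡ 1`, then `y z ≡ 1` and `χ((x)) χ((z)) = 1 = χ((y)) χ((z))`. `chf_mul`: `spn_mul`. `chf_unit`: `spn_unit`.
`chf_zero_iff`: `IsRC.zero_iff`, `pI_dvd_spn`. `rc_imprim`: a non primitive `χ ∈ XI` satisfies `χ((x)) = 1` for all `x` prime to `p`; so for `I`, `I'` prime to `p` in the same ideal class
`χ(I) = χ(I')`: (`(x) I = (x') I'` for some `x, x'` which can be taken prime to `p`: `I I'^(h-1) = (x)` and `I'^h = (x')` are prime to `p` and `(x') I = (x) I'`).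
So `χ` factors through a homomorphism on a subgroup (the classes containing ideals prime to `p`) of the class group; these homomorphisms are at most `h` many
(number of characters of a finite abelian group = its order).
-/

open scoped NumberField nonZeroDivisors
open NumberField NumberField.InfinitePlace NumberField.mixedEmbedding NumberField.Units
  NumberField.Units.dirichletUnitTheorem Pool.ZD

namespace Pool.Agent.CMZ

set_option linter.unusedSectionVars false

variable (K : Type) [Field K] [NumberField K]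

/-! ### Characters of the class group -/

variable {K} in
theorem mem_XI {p : ℕ} (hp : Inert K p) {χ : II K → ℂ} : χ ∈ XI K p ↔
    IsRC K p χ ∧ ∀ x : 𝓞 K, x ≠ 0 → χ (spn K x) ≠ 0 → χ (spn K x) = 1 := by
  classical
  unfold XI
  rw [Finset.mem_filter, mem_XX hp]
  push Not
  rfl

variable {K} in
theorem exists_spn {I : II K} (h : (I : Ideal (𝓞 K)).IsPrincipal) :
    ∃ x : 𝓞 K, x ≠ 0 ∧ spn K x = I := by
  obtain ⟨x, hx⟩ := h
  rw [Ideal.submodule_span_eq] at hx
  have hx0 : x ≠ 0 := by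
    rintro rfl
    apply nonZeroDivisors.coe_ne_zero I
    rw [hx]
    simp
  refine ⟨x, hx0, Subtype.ext ?_⟩
  rw [coe_spn hx0, hx]

variable {K} in
theorem not_dvd_pow {p : ℕ} (hp : Inert K p) {I : II K} (hI : ¬ pI K p ∣ (I : Ideal (𝓞 K)))
    (k : ℕ) : ¬ pI K p ∣ ((I ^ k : II K) : Ideal (𝓞 K)) := by
  rw [SubmonoidClass.coe_pow]
  intro h
  exact hI ((prime_pI hp).dvd_of_dvd_pow h)

variable {K} in
theorem isRC_pow {p : ℕ} {χ : II K → ℂ} (hχ : IsRC K p χ) (I : II K) (k : ℕ) :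
    χ (I ^ k) = χ I ^ k := by
  induction k with
  | zero => rw [pow_zero, pow_zero, hχ.one]
  | succ k ih => rw [pow_succ, pow_succ, hχ.mul, ih]

variable {K} in
/-- An imprimitive ray class character depends on the ideal class only. -/
theorem rc_class {p : ℕ} (hp : Inert K p) {χ : II K → ℂ} (hχ : χ ∈ XI K p) {I J : II K}
    (hI : ¬ pI K p ∣ (I : Ideal (𝓞 K))) (hJ : ¬ pI K p ∣ (J : Ideal (𝓞 K)))
    (h : ClassGroup.mk0 I = ClassGroup.mk0 J) : χ I = χ J := by
  obtain ⟨hr, h1⟩ := (mem_XI hp).1 hχ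
  have hprin : ∀ L : II K, ¬ pI K p ∣ (L : Ideal (𝓞 K)) → ClassGroup.mk0 L = 1 → χ L = 1 := by
    intro L hL hc
    rw [ClassGroup.mk0_eq_one_iff] at hc
    obtain ⟨x, hx, rfl⟩ := exists_spn hc
    apply h1 x hx
    rw [Ne, hr.zero_iff]
    exact hL
  have hc : Fintype.card (ClassGroup (𝓞 K)) ≠ 0 := Fintype.card_ne_zero
  obtain ⟨k, hk⟩ := Nat.exists_eq_succ_of_ne_zero hc
  have hpow : ClassGroup.mk0 J ^ (k + 1) = 1 := by
    rw [← Nat.succ_eq_add_one, ← hk]
    exact pow_card_eq_one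
  have h2 : χ (I * J ^ k) = 1 := by
    apply hprin _ (not_dvd_mul hp hI (not_dvd_pow hp hJ k))
    rw [map_mul, map_pow, h, ← pow_succ', hpow]
  have h3 : χ (J * J ^ k) = 1 := by
    apply hprin _ (not_dvd_mul hp hJ (not_dvd_pow hp hJ k))
    rw [map_mul, map_pow, ← pow_succ', hpow]
  have h4 : χ (J ^ k) ≠ 0 := by
    rw [Ne, hr.zero_iff]
    exact not_dvd_pow hp hJ k
  rw [hr.mul] at h2 h3
  exact mul_right_cancel₀ h4 (h2.trans h3.symm)

theorem rc_imprim {p : ℕ} (hp : Inert K p) : ((XI K p).card : ℝ) ≤ classNumber K := by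
  classical
  let φ : MP K hp →* ClassGroup (𝓞 K) := ClassGroup.mk0.comp (MP K hp).subtype
  let H : Submonoid (ClassGroup (𝓞 K)) := MonoidHom.mrange φ
  have hex : ∀ c : H, ∃ I : II K, ¬ pI K p ∣ (I : Ideal (𝓞 K)) ∧ ClassGroup.mk0 I = (c : ClassGroup (𝓞 K)) := by
    rintro ⟨c, I, hI⟩
    exact ⟨I.1, I.2, hI⟩
  choose r hr hrc using hex
  let F : XI K p → (H →* ℂ) := fun χ =>
    { toFun := fun c => χ.1 (r c)
      map_one' := by
        have h1 := rc_class hp χ.2 (hr 1) (not_dvd_one' hp) (by rw [hrc]; simp)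
        rw [h1]
        exact ((mem_XI hp).1 χ.2).1.one
      map_mul' := by
        intro c d
        have h1 := rc_class hp χ.2 (hr (c * d)) (not_dvd_mul hp (hr c) (hr d))
          (by rw [map_mul, hrc, hrc, hrc]; rfl)
        rw [h1]
        exact ((mem_XI hp).1 χ.2).1.mul _ _ }
  have hF : Function.Injective F := by
    intro χ χ' h
    apply Subtype.ext
    funext I
    by_cases hI : pI K p ∣ (I : Ideal (𝓞 K))
    · rw [(((mem_XI hp).1 χ.2).1.zero_iff I).2 hI, (((mem_XI hp).1 χ'.2).1.zero_iff I).2 hI]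
    · let c : H := ⟨ClassGroup.mk0 I, ⟨⟨I, hI⟩, rfl⟩⟩
      have h1 : χ.1 (r c) = χ'.1 (r c) := DFunLike.congr_fun h c
      rw [← rc_class hp χ.2 (hr c) hI (hrc c), ← rc_class hp χ'.2 (hr c) hI (hrc c), h1]
  have hli := (linearIndependent_monoidHom H ℂ).comp F hF
  have h1 := hli.fintype_card_le_finrank
  rw [Module.finrank_fintype_fun_eq_card, Fintype.card_coe] at h1
  have h2 : Fintype.card H ≤ classNumber K := by
    unfold classNumber
    exact Fintype.card_subtype_le _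
  exact_mod_cast h1.trans h2

/-! ### The character of the residue field -/

variable {K} in
theorem chf_of {χ : II K → ℂ} {x : 𝓞 K} (hx : x ≠ 0) : chf K χ x = χ (spn K x) := by
  unfold chf
  rw [if_neg hx]

variable {K} in
theorem chf_zero (χ : II K → ℂ) : chf K χ 0 = 0 := by
  unfold chf
  rw [if_pos rfl]

variable {K} in
theorem chf_mul {p : ℕ} (hp : Inert K p) {χ : II K → ℂ} (hχ : χ ∈ XX K p) (x y : 𝓞 K) :
    chf K χ (x * y) = chf K χ x * chf K χ y := by
  by_cases hx : x = 0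
  · rw [hx, zero_mul, chf_zero, zero_mul]
  by_cases hy : y = 0
  · rw [hy, mul_zero, chf_zero, mul_zero]
  rw [chf_of hx, chf_of hy, chf_of (mul_ne_zero hx hy), spn_mul hx hy]
  exact ((mem_XX hp).1 hχ).mul _ _

variable {K} in
theorem chf_unit {p : ℕ} (hp : Inert K p) {χ : II K → ℂ} (hχ : χ ∈ XX K p) (u : (𝓞 K)ˣ) :
    chf K χ (u : 𝓞 K) = 1 := by
  rw [chf_of (Units.ne_zero u), spn_unit]
  exact ((mem_XX hp).1 hχ).one

variable {K} in
theorem chf_zero_iff {p : ℕ} (hp : Inert K p) {χ : II K → ℂ} (hχ : χ ∈ XX K p) (x : 𝓞 K) :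
    chf K χ x = 0 ↔ (p : 𝓞 K) ∣ x := by
  by_cases hx : x = 0
  · rw [hx, chf_zero]
    simp
  · rw [chf_of hx, ((mem_XX hp).1 hχ).zero_iff, pI_dvd_spn hx]

variable {K} in
theorem chf_congr {p : ℕ} (hp : Inert K p) {χ : II K → ℂ} (hχ : χ ∈ XX K p) {x y : 𝓞 K}
    (h : (p : 𝓞 K) ∣ x - y) : chf K χ x = chf K χ y := by
  by_cases hx : (p : 𝓞 K) ∣ x
  · have hy : (p : 𝓞 K) ∣ y := by
      have h1 := dvd_sub hx h
      rwa [sub_sub_cancel] at h1
    rw [(chf_zero_iff hp hχ x).2 hx, (chf_zero_iff hp hχ y).2 hy]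
  · obtain ⟨z, hz, hz1, hxz⟩ := exists_inv hp hx
    have hyz : (p : 𝓞 K) ∣ y * z - 1 := by
      have h1 : y * z - 1 = (x * z - 1) - (x - y) * z := by ring
      rw [h1]
      exact dvd_sub hxz (Dvd.dvd.mul_right h z)
    have key : ∀ w : 𝓞 K, (p : 𝓞 K) ∣ w - 1 → chf K χ w = 1 := by
      intro w hw
      have hw0 : w ≠ 0 := by
        rintro rfl
        exact not_dvd_of_congr_one hp hw (dvd_zero _)
      rw [chf_of hw0]
      exact ((mem_XX hp).1 hχ).ray w hw0 hw
    have h1 := key _ hxz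
    have h2 := key _ hyz
    rw [chf_mul hp hχ] at h1 h2
    have h3 : chf K χ z ≠ 0 := by
      rw [Ne, chf_zero_iff hp hχ]
      exact hz1
    exact mul_right_cancel₀ h3 (h1.trans h2.symm)

variable {K} in
theorem chf_norm {p : ℕ} (hp : Inert K p) {χ : II K → ℂ} (hχ : χ ∈ XX K p) {x : 𝓞 K}
    (hx : ¬ (p : 𝓞 K) ∣ x) : ‖chf K χ x‖ = 1 := by
  have hx0 : x ≠ 0 := by
    rintro rfl
    exact hx (dvd_zero _)
  rw [chf_of hx0]
  apply rc_norm hp hχ
  rw [pI_dvd_spn hx0]
  exact hx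

end Pool.Agent.CMZ
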