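import Pool.Agent.CMZ.Defs

/-!
# Basic facts on the definitions
-/

open scoped NumberField nonZeroDivisors
open NumberField Pool.ZD

namespace Pool.Agent.CMZ

set_option linter.unusedSectionVars false

variable (K : Type) [Field K] [NumberField K]

variable {K} in
theorem mem_rg {x : ℝ} {I : II K} : I ∈ rg K x ↔ nm K I ≤ x := by
  simp [rg]

variable {K} in
theorem nm_one_le (I : II K) : 1 ≤ nm K I := one_le_nm K I

variable {K} in
theorem nm_pos (I : II K) : 0 < nm K I := lt_of_lt_of_le one_pos (nm_one_le I)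

variable {K} in
theorem nm_ne (I : II K) : nm K I ≠ 0 := (nm_pos I).ne'

variable {K} in
theorem nmul (I J : II K) : nm K (I * J) = nm K I * nm K J := nm_mul K I J

theorem none : nm K 1 = 1 := by simp [nm]

theorem one_mem_rg {x : ℝ} (hx : 1 ≤ x) : (1 : II K) ∈ rg K x := by
  rw [mem_rg, none]; exact hx

theorem rg_empty {x : ℝ} (hx : x < 1) : rg K x = ∅ := by
  rw [Finset.eq_empty_iff_forall_notMem]
  intro I hI
  rw [mem_rg] at hI
  linarith [nm_one_le I]

variable {K} in
theorem rg_mono {x y : ℝ} (h : x ≤ y) : rg K x ⊆ rg K y := by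
  intro I hI
  rw [mem_rg] at hI ⊢
  linarith

variable {K} in
theorem mem_dp {I : II K} {q : II K × II K} : q ∈ dp K I ↔ q.1 * q.2 = I := by
  simp only [dp, Finset.mem_filter, Finset.mem_product, mem_rg, and_iff_right_iff_imp]
  rintro rfl
  rw [nmul]
  constructor
  · nlinarith [nm_one_le q.1, nm_one_le q.2]
  · nlinarith [nm_one_le q.1, nm_one_le q.2]

variable {K} in
theorem nm_eq_one {I : II K} : nm K I = 1 ↔ I = 1 := by
  constructor
  · intro h
    have h1 : Ideal.absNorm (I : Ideal (𝓞 K)) = 1 := by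
      have : ((Ideal.absNorm (I : Ideal (𝓞 K)) : ℕ) : ℝ) = 1 := h
      exact_mod_cast this
    rw [Ideal.absNorm_eq_one_iff] at h1
    exact Subtype.ext (by rw [h1, OneMemClass.coe_one, Ideal.one_eq_top])
  · rintro rfl
    exact none K

variable {K} in
theorem nm_le_of_dvd {I J : II K} (h : I ∣ J) : nm K I ≤ nm K J := by
  obtain ⟨C, rfl⟩ := h
  rw [nmul]
  nlinarith [nm_one_le I, nm_one_le C]

variable {K} in
theorem dvd_iff {I J : II K} : I ∣ J ↔ (I : Ideal (𝓞 K)) ∣ (J : Ideal (𝓞 K)) := by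
  constructor
  · rintro ⟨C, rfl⟩
    exact ⟨C, rfl⟩
  · rintro ⟨C, hC⟩
    have hC0 : C ≠ 0 := by
      rintro rfl
      rw [mul_zero] at hC
      exact nonZeroDivisors.coe_ne_zero J hC
    exact ⟨⟨C, mem_nonZeroDivisors_of_ne_zero hC0⟩, Subtype.ext hC⟩

variable {K} in
theorem ii_cancel {I J C : II K} (h : C * I = C * J) : I = J := by
  have h1 : (C : Ideal (𝓞 K)) * (I : Ideal (𝓞 K)) = (C : Ideal (𝓞 K)) * (J : Ideal (𝓞 K)) :=
    congrArg Subtype.val h
  exact Subtype.ext (mul_left_cancel₀ (nonZeroDivisors.coe_ne_zero C) h1)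

variable {K} in
theorem coe_gi (I J : II K) : (gi K I J : Ideal (𝓞 K)) = (I : Ideal (𝓞 K)) ⊔ (J : Ideal (𝓞 K)) :=
  rfl

variable {K} in
theorem dvd_gi {I J C : II K} : C ∣ gi K I J ↔ C ∣ I ∧ C ∣ J := by
  rw [dvd_iff, dvd_iff, dvd_iff, coe_gi, Ideal.dvd_iff_le, Ideal.dvd_iff_le, Ideal.dvd_iff_le,
    sup_le_iff]

/-! ### Principal ideals -/

variable {K} in
theorem coe_spn {x : 𝓞 K} (hx : x ≠ 0) : (spn K x : Ideal (𝓞 K)) = Ideal.span {x} := by
  unfold spn
  rw [dif_neg hx]

theorem spn_one : spn K 1 = 1 := by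
  apply Subtype.ext
  rw [coe_spn one_ne_zero]
  simp

variable {K} in
theorem spn_mul {x y : 𝓞 K} (hx : x ≠ 0) (hy : y ≠ 0) : spn K (x * y) = spn K x * spn K y := by
  apply Subtype.ext
  rw [coe_spn (mul_ne_zero hx hy), Submonoid.coe_mul, coe_spn hx, coe_spn hy,
    Ideal.span_singleton_mul_span_singleton]

variable {K} in
theorem nm_spn {x : 𝓞 K} (hx : x ≠ 0) : nm K (spn K x) = |((Algebra.norm ℤ x : ℤ) : ℝ)| := by
  unfold nm
  rw [coe_spn hx, Ideal.absNorm_span_singleton, Nat.cast_natAbs, Int.cast_abs]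

theorem spn_unit (u : (𝓞 K)ˣ) : spn K (u : 𝓞 K) = 1 := by
  apply Subtype.ext
  rw [coe_spn (Units.ne_zero u)]
  simp

variable {K} in
theorem spn_eq_iff {x y : 𝓞 K} (hx : x ≠ 0) (hy : y ≠ 0) :
    spn K x = spn K y ↔ ∃ u : (𝓞 K)ˣ, y = u * x := by
  constructor
  · intro h
    have h1 : Ideal.span {x} = Ideal.span {y} := by
      rw [← coe_spn hx, ← coe_spn hy, h]
    rw [Ideal.span_singleton_eq_span_singleton] at h1
    obtain ⟨u, hu⟩ := h1
    exact ⟨u, by rw [← hu, mul_comm]⟩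
  · rintro ⟨u, rfl⟩
    rw [spn_mul (Units.ne_zero u) hx, spn_unit, one_mul]

/-! ### The inert prime -/

variable {K} in
theorem Inert.ne_zero {p : ℕ} (h : Inert K p) : p ≠ 0 := h.1.ne_zero

variable {K} in
theorem pI_ne_bot {p : ℕ} (h : Inert K p) : pI K p ≠ ⊥ := by
  unfold pI
  rw [Ne, Ideal.span_singleton_eq_bot]
  exact_mod_cast h.ne_zero

/-- The ideal of `p` as an element of `II K`. -/
noncomputable def pJ (p : ℕ) : II K := spn K (p : 𝓞 K)

variable {K} in
theorem coe_pJ {p : ℕ} (h : Inert K p) : (pJ K p : Ideal (𝓞 K)) = pI K p := by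
  unfold pJ
  rw [coe_spn (by exact_mod_cast h.ne_zero)]
  rfl

variable {K} in
theorem absNorm_pI (p : ℕ) : Ideal.absNorm (pI K p) = p ^ nn K := by
  unfold pI
  rw [Ideal.absNorm_span_singleton]
  have h1 : Algebra.norm ℤ ((p : ℕ) : 𝓞 K) = (p : ℤ) ^ nn K := by
    have h2 := Algebra.norm_algebraMap_of_basis (RingOfIntegers.basis K) (p : ℤ)
    rw [← Module.finrank_eq_card_basis (RingOfIntegers.basis K), RingOfIntegers.rank] at h2
    rw [← h2]
    simp
  rw [h1]
  simp

variable {K} in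
theorem prime_pI {p : ℕ} (h : Inert K p) : Prime (pI K p) :=
  Ideal.prime_of_isPrime (pI_ne_bot h) h.2

variable {K} in
theorem le_nm_of_dvd {p : ℕ} {I : II K} (hd : pI K p ∣ (I : Ideal (𝓞 K))) :
    (p : ℝ) ^ nn K ≤ nm K I := by
  obtain ⟨C, hC⟩ := hd
  have h1 : Ideal.absNorm (I : Ideal (𝓞 K)) = p ^ nn K * Ideal.absNorm C := by
    rw [hC, map_mul, absNorm_pI]
  have h2 : Ideal.absNorm (I : Ideal (𝓞 K)) ≠ 0 := by
    rw [Ne, Ideal.absNorm_eq_zero_iff]
    exact nonZeroDivisors.coe_ne_zero I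
  have h3 : 1 ≤ Ideal.absNorm C := by
    rw [Nat.one_le_iff_ne_zero]
    intro h0
    rw [h1, h0, mul_zero] at h2
    exact h2 rfl
  unfold nm
  rw [h1]
  push_cast
  have h4 : (1 : ℝ) ≤ (Ideal.absNorm C : ℝ) := by exact_mod_cast h3
  exact le_mul_of_one_le_right (by positivity) h4

variable {K} in
theorem not_dvd_of_lt {p : ℕ} {I : II K} (h : nm K I < (p : ℝ) ^ nn K) :
    ¬ pI K p ∣ (I : Ideal (𝓞 K)) := fun hd => absurd (le_nm_of_dvd hd) (not_le.2 h)

variable {K} in
theorem not_dvd_mul {p : ℕ} (hp : Inert K p) {I J : II K} (hI : ¬ pI K p ∣ (I : Ideal (𝓞 K)))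
    (hJ : ¬ pI K p ∣ (J : Ideal (𝓞 K))) : ¬ pI K p ∣ ((I * J : II K) : Ideal (𝓞 K)) := by
  rw [Submonoid.coe_mul]
  intro h
  rcases (prime_pI hp).dvd_or_dvd h with h | h
  · exact hI h
  · exact hJ h

variable {K} in
theorem pI_dvd_spn {p : ℕ} {x : 𝓞 K} (hx : x ≠ 0) :
    pI K p ∣ (spn K x : Ideal (𝓞 K)) ↔ (p : 𝓞 K) ∣ x := by
  rw [coe_spn hx]
  unfold pI
  rw [Ideal.dvd_iff_le, Ideal.span_singleton_le_span_singleton]

/-- `[K : ℚ] = 2 m` for a totally complex field. -/
theorem nn_eq [IsTotallyComplex K] : nn K = 2 * mm K := by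
  have h := NumberField.InfinitePlace.card_add_two_mul_card_eq_rank K
  rw [IsTotallyComplex.nrRealPlaces_eq_zero K, zero_add] at h
  exact h.symm

theorem one_le_mm [IsTotallyComplex K] : 1 ≤ mm K := by
  have h := nn_eq K
  have h2 : 0 < nn K := Module.finrank_pos
  omega

/-! ### The different -/

/-- The different of `K` as an element of `II K`. -/
noncomputable def dI : II K :=
  ⟨differentIdeal ℤ (𝓞 K), mem_nonZeroDivisors_of_ne_zero differentIdeal_ne_bot⟩

theorem nm_dI : nm K (dI K) = |(discr K : ℝ)| := by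
  have h := NumberField.absNorm_differentIdeal K (𝓞 K)
  change ((Ideal.absNorm (differentIdeal ℤ (𝓞 K)) : ℕ) : ℝ) = _
  rw [h, Nat.cast_natAbs, Int.cast_abs]

/-! ### Norms of elements -/

variable {K} in
/-- Congruent elements have congruent norms. -/
theorem norm_modEq {p : ℕ} {x y : 𝓞 K} (h : (p : 𝓞 K) ∣ x - y) :
    (p : ℤ) ∣ Algebra.norm ℤ x - Algebra.norm ℤ y := by
  classical
  obtain ⟨z, hz⟩ := h
  have hx : x = y + (p : ℤ) • z := by
    rw [eq_add_of_sub_eq hz, zsmul_eq_mul]; push_cast; ring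
  set b := RingOfIntegers.basis K
  rw [← ZMod.intCast_zmod_eq_zero_iff_dvd, Int.cast_sub, sub_eq_zero]
  have h1 : ∀ a : 𝓞 K, ((Algebra.norm ℤ a : ℤ) : ZMod p) =
      ((Algebra.leftMulMatrix b a).map (Int.castRingHom (ZMod p))).det := by
    intro a
    rw [Algebra.norm_eq_matrix_det b, ← RingHom.mapMatrix_apply, ← RingHom.map_det]
    rfl
  rw [h1, h1, hx]
  congr 1
  ext i j
  have h2 : Algebra.leftMulMatrix b (y + (p : ℤ) • z) i j =
      Algebra.leftMulMatrix b y i j + (p : ℤ) * Algebra.leftMulMatrix b z i j := by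
    rw [map_add, map_zsmul, Matrix.add_apply, Matrix.smul_apply, smul_eq_mul]
  rw [Matrix.map_apply, Matrix.map_apply, h2, map_add, map_mul]
  simp

/-- Norms of nonzero elements of a totally complex field are positive. -/
theorem norm_pos' [IsTotallyComplex K] {x : 𝓞 K} (hx : x ≠ 0) : 0 < Algebra.norm ℤ x := by
  classical
  have h0 : ((Algebra.norm ℚ (x : K) : ℚ) : ℂ) = ∏ φ : K →+* ℂ, φ x := by
    have h := Algebra.norm_eq_prod_embeddings ℚ ℂ (x : K)
    rw [eq_ratCast] at h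
    rw [h]
    exact (Fintype.prod_equiv (RingHom.equivRatAlgHom K ℂ) (fun f => f (x : K))
      (fun φ => φ (x : K)) fun _ => by simp [RingHom.equivRatAlgHom_apply]).symm
  have h1 : ∀ w : InfinitePlace K, ∏ φ : K →+* ℂ with InfinitePlace.mk φ = w, φ x =
      (((w (x : K)) ^ 2 : ℝ) : ℂ) := by
    intro w
    have hne : w.embedding ≠ ComplexEmbedding.conjugate w.embedding := by
      intro h
      have hc := (IsTotallyComplex.isComplex w)
      rw [InfinitePlace.isComplex_iff] at hc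
      exact hc h.symm
    have hset : (Finset.univ.filter fun φ : K →+* ℂ => InfinitePlace.mk φ = w) =
        {w.embedding, ComplexEmbedding.conjugate w.embedding} := by
      ext φ
      simp only [Finset.mem_filter, Finset.mem_univ, true_and, Finset.mem_insert,
        Finset.mem_singleton]
      conv_lhs => rw [← InfinitePlace.mk_embedding w]
      rw [InfinitePlace.mk_eq_iff]
      constructor
      · rintro (h | h)
        · exact Or.inl h
        · right
          rw [← h]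
          ext y; simp [ComplexEmbedding.conjugate]
      · rintro (h | h)
        · exact Or.inl h
        · right
          rw [h]
          ext y; simp [ComplexEmbedding.conjugate]
    rw [hset, Finset.prod_pair hne]
    have h2 : ComplexEmbedding.conjugate w.embedding (x : K) =
        (starRingEnd ℂ) (w.embedding (x : K)) := rfl
    rw [h2, Complex.mul_conj, Complex.normSq_eq_norm_sq, InfinitePlace.norm_embedding_eq]
  have h2 : ((Algebra.norm ℚ (x : K) : ℚ) : ℂ) =
      ((∏ w : InfinitePlace K, (w (x : K)) ^ 2 : ℝ) : ℂ) := by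
    rw [h0, ← Finset.prod_fiberwise Finset.univ InfinitePlace.mk (fun φ : K →+* ℂ => φ (x : K))]
    simp_rw [h1]
    rw [Complex.ofReal_prod]
  have h3 : ((Algebra.norm ℚ (x : K) : ℚ) : ℝ) = ∏ w : InfinitePlace K, (w (x : K)) ^ 2 := by
    exact_mod_cast h2
  have h4 : (0 : ℝ) < ∏ w : InfinitePlace K, (w (x : K)) ^ 2 := by
    refine Finset.prod_pos fun w _ => pow_pos ?_ 2
    rw [InfinitePlace.pos_iff]
    exact_mod_cast hx
  rw [← h3, ← Algebra.coe_norm_int] at h4
  exact_mod_cast h4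

end Pool.Agent.CMZ
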