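import Pool.Agent.CMZ.Basic
import Pool.Agent.ZD.HR

/-!
# Module IC: counting ideals with a power saving

PROOF. `Pool.ZD.key` (file `Pool/Agent/ZD/Key.lean`): for the fixed field `K` (`n = [K:ℚ] ≥ 2`), a class `A`, a nonnegative
`g` with `Nice G g` (Lipschitz constant `G`, support in `[1,4]`) and all `Z > 0`:
`|∑_{I ∈ A} g(N I / Z) - rho K (∫ g) Z| ≤ C_K G Z^(1 - 1/n)` (the last sum in `key` is finite and does not depend on `g`, `Z`).
Sum over the `h` classes (`ρ' = h * rho K`). With `g` a trapezoid function close to the indicator function of `(3/2, 3]` we get, for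
the number `D(u)` of ideals with norm in `(u/2, u]`, the estimate `D(u) = ρ' u/2 + O(u^(1-1/(2n)))` for `u ≥ 1`; sum over the dyadic intervals.
-/

open scoped NumberField nonZeroDivisors
open NumberField NumberField.InfinitePlace NumberField.mixedEmbedding NumberField.Units
  NumberField.Units.dirichletUnitTheorem Pool.ZD MeasureTheory

namespace Pool.Agent.CMZ

set_option linter.unusedSectionVars false

namespace CountAux

/-- The trapezoid function: `0` outside `(a,b)`, `1` on `[a+ε,b-ε]`. -/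
noncomputable def tz (a b ε : ℝ) (v : ℝ) : ℝ := max 0 (min 1 (min ((v - a) / ε) ((b - v) / ε)))

theorem tz_nonneg (a b ε v : ℝ) : 0 ≤ tz a b ε v := le_max_left _ _

theorem tz_le_one (a b ε v : ℝ) : tz a b ε v ≤ 1 := max_le zero_le_one (min_le_left _ _)

theorem tz_zero {a b ε v : ℝ} (hε : 0 < ε) (h : v ≤ a ∨ b ≤ v) : tz a b ε v = 0 := by
  unfold tz
  apply max_eq_left
  rcases h with h | h
  · exact (min_le_right _ _).trans ((min_le_left _ _).trans
      (div_nonpos_of_nonpos_of_nonneg (by linarith) hε.le))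
  · exact (min_le_right _ _).trans ((min_le_right _ _).trans
      (div_nonpos_of_nonpos_of_nonneg (by linarith) hε.le))

theorem tz_one {a b ε v : ℝ} (hε : 0 < ε) (h1 : a + ε ≤ v) (h2 : v ≤ b - ε) : tz a b ε v = 1 := by
  unfold tz
  have : min 1 (min ((v - a) / ε) ((b - v) / ε)) = 1 := by
    refine min_eq_left (le_min ?_ ?_)
    · rw [one_le_div hε]; linarith
    · rw [one_le_div hε]; linarith
  rw [this]
  exact max_eq_right zero_le_one

theorem tz_nice {a b ε : ℝ} (hε : 0 < ε) (ha : 1 ≤ a) (hb : b ≤ 4) : Nice (1 / ε) (tz a b ε) := by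
  refine ⟨by positivity, fun u v => ?_, fun u hu => ?_⟩
  · rw [Real.norm_eq_abs]
    unfold tz
    have h0 : 0 ≤ 1 / ε * |u - v| := by positivity
    refine (abs_max_sub_max_le_max _ _ _ _).trans (max_le (by simpa using h0) ?_)
    refine (abs_min_sub_min_le_max _ _ _ _).trans (max_le (by simpa using h0) ?_)
    refine (abs_min_sub_min_le_max _ _ _ _).trans (max_le ?_ ?_)
    · rw [← sub_div, abs_div, abs_of_pos hε, show u - a - (v - a) = u - v by ring]
      exact le_of_eq (by ring)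
    · rw [← sub_div, abs_div, abs_of_pos hε, show b - u - (b - v) = -(u - v) by ring, abs_neg]
      exact le_of_eq (by ring)
  · refine tz_zero hε ?_
    rcases hu with h | h
    · left; linarith
    · right; linarith

theorem tz_int {a b ε : ℝ} (hε : 0 < ε) (hab : a + 2 * ε ≤ b) (ha : 1 ≤ a) (hb : b ≤ 4) :
    (b - a - 2 * ε ≤ ∫ u, tz a b ε u) ∧ ∫ u, tz a b ε u ≤ b - a := by
  have hint : Integrable (tz a b ε) := Pool.ZD.Mean.nice_integrable (tz_nice hε ha hb)
  constructor
  · have h1 : ∫ u, (Set.Icc (a + ε) (b - ε)).indicator (fun _ => (1 : ℝ)) u ≤ ∫ u, tz a b ε u := by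
      apply MeasureTheory.integral_mono _ hint
      · intro u
        by_cases hu : u ∈ Set.Icc (a + ε) (b - ε)
        · rw [Set.indicator_of_mem hu, tz_one hε hu.1 hu.2]
        · rw [Set.indicator_of_notMem hu]; exact tz_nonneg _ _ _ _
      · exact (MeasureTheory.integrable_indicator_iff measurableSet_Icc).2
          (MeasureTheory.integrableOn_const (by simp))
    rw [MeasureTheory.integral_indicator measurableSet_Icc, MeasureTheory.setIntegral_const,
      Real.volume_real_Icc_of_le (by linarith), smul_eq_mul, mul_one] at h1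
    linarith
  · have h1 : ∫ u, tz a b ε u ≤ ∫ u, (Set.Icc a b).indicator (fun _ => (1 : ℝ)) u := by
      apply MeasureTheory.integral_mono hint
      · exact (MeasureTheory.integrable_indicator_iff measurableSet_Icc).2
          (MeasureTheory.integrableOn_const (by simp))
      · intro u
        by_cases hu : u ∈ Set.Icc a b
        · rw [Set.indicator_of_mem hu]; exact tz_le_one _ _ _ _
        · rw [Set.indicator_of_notMem hu, tz_zero hε]
          rw [Set.mem_Icc, not_and_or, not_le, not_le] at hu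
          rcases hu with hx | hx
          · left; linarith
          · right; linarith
    rw [MeasureTheory.integral_indicator measurableSet_Icc, MeasureTheory.setIntegral_const,
      Real.volume_real_Icc_of_le (by linarith), smul_eq_mul, mul_one] at h1
    exact h1

variable (K : Type) [Field K] [NumberField K]

theorem sum_cls {G : ℝ} {g : ℝ → ℝ} (hg : Nice G g) {Z : ℝ} (hZ : 0 < Z) :
    ∑ A : ClassGroup (𝓞 K), ∑' I : Cls K A, g (nm K I / Z) = ∑ I ∈ rg K (4 * Z), g (nm K I / Z) := by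
  classical
  have hsupp : ∀ I ∉ rg K (4 * Z), g (nm K I / Z) = 0 := by
    intro I hI
    rw [mem_rg, not_le] at hI
    refine hg.2.2 _ (Or.inr ?_)
    rw [le_div_iff₀ hZ]
    exact hI.le
  have hsum : Summable (fun I : II K => g (nm K I / Z)) := summable_of_ne_finset_zero hsupp
  let e := Equiv.sigmaFiberEquiv (fun I : (Ideal (𝓞 K))⁰ => ClassGroup.mk0 I)
  have hsum' : Summable (fun p : (Σ A : ClassGroup (𝓞 K), Cls K A) => g (nm K (e p) / Z)) :=
    (e.summable_iff).mpr hsum
  have h1 : ∑' I : II K, g (nm K I / Z) = ∑ I ∈ rg K (4 * Z), g (nm K I / Z) :=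
    tsum_eq_sum hsupp
  rw [← h1, ← e.tsum_eq, hsum'.tsum_sigma, tsum_fintype]
  rfl

/-- `key`, summed over the classes. -/
theorem key_sum (hn : 2 ≤ nn K) : ∃ C : ℝ, 0 < C ∧ ∀ (G : ℝ) (g : ℝ → ℝ), Nice G g →
    (∀ u, 0 ≤ g u) → ∀ Z : ℝ, 0 < Z →
      |∑ I ∈ rg K (4 * Z), g (nm K I / Z) - classNumber K * rho K * (∫ u, g u) * Z| ≤
        C * G * Z ^ (1 - 1 / (nn K : ℝ)) := by
  classical
  obtain ⟨C, hC, hkey⟩ := Pool.ZD.key (nn K) hn
  set R := regulator K / torsionOrder K with hR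
  set T : ClassGroup (𝓞 K) → ℝ := fun A =>
    ∑' I : {I : Cls K A // nm K I ≤ C * Real.sqrt |(discr K : ℝ)|},
      nm K I.1 ^ (-(2 - 2 / (nn K : ℝ))) with hT
  refine ⟨1 + ∑ A : ClassGroup (𝓞 K), √(C * R * T A), by positivity, ?_⟩
  intro G g hg hg0 Z hZ
  have hG := hg.1
  have h1 : ∀ A : ClassGroup (𝓞 K), |∑' I : Cls K A, g (nm K I / Z) - rho K * (∫ u, g u) * Z| ≤
      √(C * R * T A) * (G * Z ^ (1 - 1 / (nn K : ℝ))) := by
    intro A
    have h2 := hkey K rfl G g hg hg0 A Z hZ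
    rw [sq_abs] at h2
    have h3 := Real.abs_le_sqrt h2
    refine h3.trans (le_of_eq ?_)
    have h4 : C * G ^ 2 * (regulator K / torsionOrder K) * Z ^ (2 - 2 / (nn K : ℝ)) *
        ∑' I : {I : Cls K A // nm K I ≤ C * Real.sqrt |(discr K : ℝ)|},
          nm K I.1 ^ (-(2 - 2 / (nn K : ℝ))) =
        (G * Z ^ (1 - 1 / (nn K : ℝ))) ^ 2 * (C * R * T A) := by
      have h5 : Z ^ (2 - 2 / (nn K : ℝ)) = (Z ^ (1 - 1 / (nn K : ℝ))) ^ 2 := by
        rw [← Real.rpow_natCast, ← Real.rpow_mul hZ.le]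
        congr 1
        push_cast
        ring
      rw [h5, hT, hR]
      ring
    rw [h4, Real.sqrt_mul (sq_nonneg _), Real.sqrt_sq (by positivity), mul_comm]
  have h6 : ∑ I ∈ rg K (4 * Z), g (nm K I / Z) - classNumber K * rho K * (∫ u, g u) * Z =
      ∑ A : ClassGroup (𝓞 K), (∑' I : Cls K A, g (nm K I / Z) - rho K * (∫ u, g u) * Z) := by
    rw [Finset.sum_sub_distrib, sum_cls K hg hZ, Finset.sum_const, nsmul_eq_mul,
      Pool.ZD.HR.card_class]
    ring
  rw [h6]
  refine (Finset.abs_sum_le_sum_abs _ _).trans ((Finset.sum_le_sum fun A _ => h1 A).trans ?_)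
  rw [← Finset.sum_mul]
  have h7 : 0 ≤ G * Z ^ (1 - 1 / (nn K : ℝ)) := by positivity
  nlinarith

/-- The number of ideals with norm in `(u/2,u]`. -/
noncomputable def Dn (u : ℝ) : ℝ := ((rg K u).card : ℝ) - ((rg K (u / 2)).card : ℝ)

theorem Dn_eq {u : ℝ} (hu : 0 < u) :
    Dn K u = ∑ I ∈ rg K (4 * (u / 3)), if u / 2 < nm K I ∧ nm K I ≤ u then (1 : ℝ) else 0 := by
  classical
  rw [Finset.sum_ite, Finset.sum_const, Finset.sum_const_zero, add_zero, nsmul_eq_mul, mul_one]
  have h1 : (rg K (4 * (u / 3))).filter (fun I => u / 2 < nm K I ∧ nm K I ≤ u) =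
      rg K u \ rg K (u / 2) := by
    ext I
    rw [Finset.mem_filter, Finset.mem_sdiff, mem_rg, mem_rg, mem_rg, not_le]
    constructor
    · rintro ⟨_, h2, h3⟩
      exact ⟨h3, h2⟩
    · rintro ⟨h2, h3⟩
      exact ⟨by linarith, h3, h2⟩
  rw [h1, Finset.card_sdiff_of_subset (rg_mono (by linarith)), Nat.cast_sub
    (Finset.card_le_card (rg_mono (by linarith)))]
  rfl

theorem Dn_bound (hn : 2 ≤ nn K) : ∃ C : ℝ, 0 < C ∧ ∀ u : ℝ, 1 ≤ u →
    |Dn K u - classNumber K * rho K * (u / 2)| ≤ C * u ^ (1 - 1 / (2 * (nn K : ℝ))) := by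
  classical
  obtain ⟨C, hC, hkey⟩ := key_sum K hn
  set ρ := classNumber K * rho K with hρ
  have hrho : 0 ≤ rho K := by
    unfold rho
    have := regulator_pos K
    positivity
  have hρ0 : 0 ≤ ρ := mul_nonneg (Nat.cast_nonneg _) hrho
  refine ⟨ρ + 2 * C, by positivity, ?_⟩
  intro u hu
  have hu0 : 0 < u := by linarith
  have hn0 : (0 : ℝ) < nn K := by
    have : 0 < nn K := by omega
    exact_mod_cast this
  set δ : ℝ := 1 / (2 * (nn K : ℝ)) with hδ
  have hδ0 : 0 < δ := by positivity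
  set ε : ℝ := 1 / 2 * u ^ (-δ) with hε
  have hud : u ^ (-δ) ≤ 1 := Real.rpow_le_one_of_one_le_of_nonpos hu (by linarith)
  have hud0 : 0 < u ^ (-δ) := Real.rpow_pos_of_pos hu0 _
  have hε0 : 0 < ε := by positivity
  have hε1 : ε ≤ 1 / 2 := by rw [hε]; linarith
  set Z := u / 3 with hZ
  have hZ0 : 0 < Z := by positivity
  have hu3 : u = 3 * Z := by rw [hZ]; ring
  -- the error terms
  have hE1 : ρ * (2 * ε) * Z ≤ ρ * u ^ (1 - δ) := by
    have h1 : u ^ (1 - δ) = u * u ^ (-δ) := by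
      rw [sub_eq_add_neg, Real.rpow_add hu0, Real.rpow_one]
    rw [h1, hε, hZ]
    have h2 : 2 * (1 / 2 * u ^ (-δ)) * (u / 3) ≤ u * u ^ (-δ) := by
      nlinarith [mul_pos hu0 hud0]
    calc ρ * (2 * (1 / 2 * u ^ (-δ))) * (u / 3) = ρ * (2 * (1 / 2 * u ^ (-δ)) * (u / 3)) := by ring
      _ ≤ _ := mul_le_mul_of_nonneg_left h2 hρ0
  have hE2 : C * (1 / ε) * Z ^ (1 - 1 / (nn K : ℝ)) ≤ 2 * C * u ^ (1 - δ) := by
    have h1 : 1 / ε = 2 * u ^ δ := by
      rw [hε, Real.rpow_neg hu0.le]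
      field_simp
    have h0 : (0 : ℝ) ≤ 1 - 1 / (nn K : ℝ) := by
      rw [sub_nonneg, div_le_one hn0]
      have : 1 ≤ nn K := by omega
      exact_mod_cast this
    have h2 : Z ^ (1 - 1 / (nn K : ℝ)) ≤ u ^ (1 - 1 / (nn K : ℝ)) :=
      Real.rpow_le_rpow hZ0.le (by linarith) h0
    have h3 : u ^ δ * u ^ (1 - 1 / (nn K : ℝ)) = u ^ (1 - δ) := by
      rw [← Real.rpow_add hu0]
      congr 1
      rw [hδ]
      field_simp
      ring
    rw [h1]
    calc C * (2 * u ^ δ) * Z ^ (1 - 1 / (nn K : ℝ)) ≤ C * (2 * u ^ δ) * u ^ (1 - 1 / (nn K : ℝ)) := by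
          gcongr
      _ = 2 * C * (u ^ δ * u ^ (1 - 1 / (nn K : ℝ))) := by ring
      _ = _ := by rw [h3]
  rw [abs_le]
  constructor
  · -- lower bound
    have h1 := hkey (1 / ε) (tz (3 / 2) 3 ε) (tz_nice hε0 (by norm_num) (by norm_num))
      (tz_nonneg _ _ _) Z hZ0
    have h2 := (tz_int (a := 3 / 2) (b := 3) hε0 (by linarith) (by norm_num) (by norm_num)).1
    have h3 : ∑ I ∈ rg K (4 * Z), tz (3 / 2) 3 ε (nm K I / Z) ≤ Dn K u := by
      rw [Dn_eq K hu0]
      refine Finset.sum_le_sum fun I _ => ?_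
      split_ifs with h
      · exact tz_le_one _ _ _ _
      · refine le_of_eq (tz_zero hε0 ?_)
        rw [not_and_or, not_lt, not_le] at h
        rcases h with h | h
        · left
          rw [div_le_iff₀ hZ0]
          linarith
        · right
          rw [le_div_iff₀ hZ0]
          linarith
    rw [abs_le] at h1
    have h4 : ρ * (3 / 2 - 2 * ε) * Z ≤ ρ * (∫ u, tz (3 / 2) 3 ε u) * Z := by
      have : 3 / 2 - 2 * ε ≤ ∫ u, tz (3 / 2) 3 ε u := by linarith
      gcongr
    have h5 : ρ * (u / 2) = ρ * (3 / 2) * Z := by rw [hu3]; ring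
    have h6 : ρ * (3 / 2 - 2 * ε) * Z = ρ * (3 / 2) * Z - ρ * (2 * ε) * Z := by ring
    linarith [h1.1]
  · have h1 := hkey (1 / ε) (tz (3 / 2 - ε) (3 + ε) ε) (tz_nice hε0 (by linarith) (by linarith))
      (tz_nonneg _ _ _) Z hZ0
    have h2 := (tz_int (a := 3 / 2 - ε) (b := 3 + ε) hε0 (by linarith) (by linarith)
      (by linarith)).2
    have h3 : Dn K u ≤ ∑ I ∈ rg K (4 * Z), tz (3 / 2 - ε) (3 + ε) ε (nm K I / Z) := by
      rw [Dn_eq K hu0]
      refine Finset.sum_le_sum fun I _ => ?_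
      split_ifs with h
      · refine le_of_eq (tz_one hε0 ?_ ?_).symm
        · rw [le_div_iff₀ hZ0]
          linarith [h.1]
        · rw [div_le_iff₀ hZ0]
          linarith [h.2]
      · exact tz_nonneg _ _ _ _
    rw [abs_le] at h1
    have h4 : ρ * (∫ u, tz (3 / 2 - ε) (3 + ε) ε u) * Z ≤ ρ * (3 / 2 + 2 * ε) * Z := by
      have : ∫ u, tz (3 / 2 - ε) (3 + ε) ε u ≤ 3 / 2 + 2 * ε := by linarith
      gcongr
    have h5 : ρ * (u / 2) = ρ * (3 / 2) * Z := by rw [hu3]; ring
    have h6 : ρ * (3 / 2 + 2 * ε) * Z = ρ * (3 / 2) * Z + ρ * (2 * ε) * Z := by ring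
    linarith [h1.2]

end CountAux

open CountAux

variable (K : Type) [Field K] [NumberField K]

theorem ic (hn : 2 ≤ nn K) : ∃ ρ C : ℝ, 0 < ρ ∧ 0 < C ∧ ∀ u : ℝ, 0 < u →
    |((rg K u).card : ℝ) - ρ * u| ≤ C * u ^ (1 - 1 / (2 * (nn K : ℝ))) := by
  obtain ⟨C, hC, hD⟩ := Dn_bound K hn
  have hρ : 0 < classNumber K * rho K := by
    have h1 := regulator_pos K
    have h2 : (0 : ℝ) < classNumber K := by
      have : 0 < classNumber K := Fintype.card_pos
      exact_mod_cast this
    have h3 : (0 : ℝ) < torsionOrder K := by exact_mod_cast torsionOrder_pos K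
    have h4 : 0 < Real.sqrt |(discr K : ℝ)| :=
      Real.sqrt_pos.2 (lt_of_lt_of_le one_pos (Pool.ZD.HR.one_le_D K))
    unfold rho
    positivity
  set ρ := classNumber K * rho K with hρdef
  set δ : ℝ := 1 / (2 * (nn K : ℝ)) with hδ
  have hn2 : (2 : ℝ) ≤ nn K := by exact_mod_cast hn
  have hδ0 : 0 < δ := by positivity
  have hδ1 : δ ≤ 1 / 4 := by
    rw [hδ, div_le_div_iff₀ (by positivity) (by norm_num)]
    linarith
  refine ⟨ρ, ρ + 4 * C, hρ, by positivity, ?_⟩
  have hmain : ∀ j : ℕ, ∀ u : ℝ, 0 < u → u < 2 ^ j →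
      |((rg K u).card : ℝ) - ρ * u| ≤ (ρ + 4 * C) * u ^ (1 - δ) := by
    have hsmall : ∀ u : ℝ, 0 < u → u < 1 →
        |((rg K u).card : ℝ) - ρ * u| ≤ (ρ + 4 * C) * u ^ (1 - δ) := by
      intro u hu0 hu
      rw [rg_empty K hu, Finset.card_empty, Nat.cast_zero, zero_sub, abs_neg,
        abs_of_pos (mul_pos hρ hu0)]
      have h1 : u ≤ u ^ (1 - δ) := by
        conv_lhs => rw [← Real.rpow_one u]
        exact Real.rpow_le_rpow_of_exponent_ge hu0 hu.le (by linarith)
      have h2 : 0 ≤ u ^ (1 - δ) := hu0.le.trans h1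
      nlinarith
    intro j
    induction j with
    | zero =>
      intro u hu0 hu
      rw [pow_zero] at hu
      exact hsmall u hu0 hu
    | succ j ih =>
      intro u hu0 hu
      rcases lt_or_ge u 1 with h | h
      · exact hsmall u hu0 h
      · have h1 := hD u h
        have h2 := ih (u / 2) (by positivity) (by rw [pow_succ] at hu; linarith)
        have h3 : ((rg K u).card : ℝ) - ρ * u = (Dn K u - ρ * (u / 2)) +
            (((rg K (u / 2)).card : ℝ) - ρ * (u / 2)) := by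
          unfold Dn
          ring
        rw [h3]
        refine (abs_add_le _ _).trans ((add_le_add h1 h2).trans ?_)
        have h4 : (u / 2) ^ (1 - δ) ≤ 3 / 4 * u ^ (1 - δ) := by
          rw [div_eq_mul_inv, mul_comm u, Real.mul_rpow (by norm_num) hu0.le]
          refine mul_le_mul_of_nonneg_right ?_ (by positivity)
          have h5 : ((2 : ℝ)⁻¹) ^ (1 - δ) ≤ ((2 : ℝ)⁻¹) ^ (1 / 2 : ℝ) :=
            Real.rpow_le_rpow_of_exponent_ge (by norm_num) (by norm_num) (by linarith)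
          refine h5.trans ?_
          rw [← Real.sqrt_eq_rpow]
          rw [Real.sqrt_le_left (by norm_num)]
          norm_num
        have h6 : 0 ≤ u ^ (1 - δ) := by positivity
        calc C * u ^ (1 - δ) + (ρ + 4 * C) * (u / 2) ^ (1 - δ)
            ≤ C * u ^ (1 - δ) + (ρ + 4 * C) * (3 / 4 * u ^ (1 - δ)) := by gcongr
          _ ≤ _ := by nlinarith
  intro u hu
  obtain ⟨j, hj⟩ := pow_unbounded_of_one_lt u (by norm_num : (1 : ℝ) < 2)
  exact hmain j u hu hj

end Pool.Agent.CMZ
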