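import Pool.Agent.ZD.Scale
import Pool.Agent.ZD.Counts

/-!
# Critical zeros of ray class L-functions of CM fields: common definitions

`K` is a number field (totally complex, or CM, in most modules), `n = [K : ℚ] = 2 m`, `p` is a rational
prime that is inert in `K`; everything is asymptotic in `p` for fixed `K`.
-/

open scoped NumberField nonZeroDivisors
open NumberField NumberField.InfinitePlace NumberField.mixedEmbedding NumberField.Units
  NumberField.Units.dirichletUnitTheorem UniqueFactorizationMonoid Pool.ZD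

namespace Pool.Agent.CMZ

noncomputable section

variable (K : Type) [Field K] [NumberField K]

/-- The nonzero integral ideals. Their norm (a real number) is `nm K I` (`Pool.ZD.nm`). -/
abbrev II : Type := (Ideal (𝓞 K))⁰

/-- The degree of `K`. -/
abbrev nn : ℕ := Module.finrank ℚ K

/-- The number of complex places of `K`; it is half the degree for a totally complex field. -/
abbrev mm : ℕ := nrComplexPlaces K

/-- The finite set of the nonzero ideals of norm at most `x`. -/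
def rg (x : ℝ) : Finset (II K) := (finite_le K x).toFinset

/-! ### Multiplicative functions on ideals -/

open Classical in
/-- The pairs of ideals with product `I`. -/
def dp (I : II K) : Finset (II K × II K) :=
  ((rg K (nm K I)) ×ˢ (rg K (nm K I))).filter fun q => q.1 * q.2 = I

open Classical in
/-- The multiplicative function with value `f P k` at the prime power `P ^ k`. -/
def mf (f : Ideal (𝓞 K) → ℕ → ℝ) (I : II K) : ℝ :=
  ∏ P ∈ (normalizedFactors (I : Ideal (𝓞 K))).toFinset,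
    f P ((normalizedFactors (I : Ideal (𝓞 K))).count P)

/-- Coefficients of `ζ_K(s) ^ (1/2)`. -/
def aS (I : II K) : ℝ := mf K (fun _ k => (Nat.centralBinom k : ℝ) / 4 ^ k) I

/-- The Möbius function of ideals. -/
def mu (I : II K) : ℝ := mf K (fun _ k => if k = 0 then 1 else if k = 1 then -1 else 0) I

/-- Coefficients of `ζ_K(s) ^ (-1/2)`. -/
def al (I : II K) : ℝ := ∑ q ∈ dp K I, mu K q.1 * aS K q.2

/-- `∏_{P ∣ I} (1 - 1 / N P)⁻¹`. -/
def fr (I : II K) : ℝ := mf K (fun P _ => (1 - ((Ideal.absNorm P : ℕ) : ℝ)⁻¹)⁻¹) I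

/-- Selberg's mollifier coefficients of length `ξ`. -/
def bet (ξ : ℝ) (I : II K) : ℝ := al K I * (Real.log (ξ / nm K I) / Real.log ξ)

/-- The greatest common divisor of two ideals. -/
def gi (I J : II K) : II K :=
  ⟨(I : Ideal (𝓞 K)) ⊔ (J : Ideal (𝓞 K)), mem_nonZeroDivisors_of_ne_zero fun h =>
    nonZeroDivisors.coe_ne_zero I (le_bot_iff.1 ((le_sup_left).trans h.le))⟩

open Classical in
/-- The truncated sums of `al` over the ideals coprime to `ρ`. -/
def Xs (ρ : II K) (θ x : ℝ) : ℝ :=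
  ∑ n ∈ (rg K x).filter (fun n : II K => IsCoprime (n : Ideal (𝓞 K)) (ρ : Ideal (𝓞 K))),
    al K n / nm K n ^ (1 + θ) * Real.log (x / nm K n)

open Classical in
/-- `∑_{ρ ∣ n m} bet(n) bet(m) / (N n ^ (1+θ) N m)`. -/
def Ar (ξ θ : ℝ) (ρ : II K) : ℝ :=
  ∑ n ∈ rg K ξ, ∑ m ∈ rg K ξ,
    if ρ ∣ n * m then bet K ξ n * bet K ξ m / (nm K n ^ (1 + θ) * nm K m) else 0

/-- Selberg's form, twisted by the pair of ideals `A`, `B`. -/
def Sz (ξ θ : ℝ) (A B : II K) : ℝ :=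
  ∑ m ∈ rg K ξ, ∑ n ∈ rg K ξ, ∑ m' ∈ rg K ξ, ∑ n' ∈ rg K ξ,
    bet K ξ m * bet K ξ n * bet K ξ m' * bet K ξ n' *
      nm K (gi K (n * m' * B) (n' * m * A)) ^ (1 + θ) /
        (nm K m * nm K m' * (nm K n * nm K n' * nm K A) ^ (1 + θ))

/-! ### Ray classes and characters modulo `p` -/

/-- The ideal generated by `p`. -/
def pI (p : ℕ) : Ideal (𝓞 K) := Ideal.span {(p : 𝓞 K)}

/-- `p` is inert in `K`. -/
def Inert (p : ℕ) : Prop := p.Prime ∧ (pI K p).IsPrime

open Classical in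
/-- The principal ideal `(x)` (junk value `1` for `x = 0`). -/
def spn (x : 𝓞 K) : II K :=
  if h : x = 0 then 1 else ⟨Ideal.span {x}, mem_nonZeroDivisors_of_ne_zero (by
    rw [Ne, Ideal.zero_eq_bot, Ideal.span_singleton_eq_bot]; exact h)⟩

/-- `I` and `J` are in the same ray class mod `p`. -/
def Ray (p : ℕ) (I J : II K) : Prop :=
  ∃ x y : 𝓞 K, x ≠ 0 ∧ y ≠ 0 ∧ (p : 𝓞 K) ∣ x - 1 ∧ (p : 𝓞 K) ∣ y - 1 ∧
    spn K x * I = spn K y * J

/-- `I / J = (z)` with `z` in the maximal real subfield. -/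
def RatR [IsCMField K] (I J : II K) : Prop :=
  ∃ x y : 𝓞 K, x ≠ 0 ∧ y ≠ 0 ∧ IsCMField.complexConj K (x : K) = x ∧
    IsCMField.complexConj K (y : K) = y ∧ spn K x * I = spn K y * J

/-- Same ray class mod `p` via a real element. -/
def RayR [IsCMField K] (p : ℕ) (I J : II K) : Prop :=
  ∃ x y : 𝓞 K, x ≠ 0 ∧ y ≠ 0 ∧ (p : 𝓞 K) ∣ x - 1 ∧ (p : 𝓞 K) ∣ y - 1 ∧
    IsCMField.complexConj K (x : K) = x ∧ IsCMField.complexConj K (y : K) = y ∧
    spn K x * I = spn K y * J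

/-- Same ray class mod `p` via a real element, and equal norms. -/
def RayH [IsCMField K] (p : ℕ) (I J : II K) : Prop := nm K I = nm K J ∧ RayR K p I J

/-- The ideals extended from the maximal real subfield. -/
def ExtI (A : II K) : Prop :=
  ∃ a : Ideal (𝓞 (maximalRealSubfield K)),
    (A : Ideal (𝓞 K)) = a.map (algebraMap (𝓞 (maximalRealSubfield K)) (𝓞 K))

/-- The number of residue classes mod `p` of units. -/
def UU (p : ℕ) : ℕ :=
  (Set.range fun u : (𝓞 K)ˣ => Ideal.Quotient.mk (pI K p) (u : 𝓞 K)).ncard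

/-- The ray class characters mod `p` (`p` inert). -/
structure IsRC (p : ℕ) (χ : II K → ℂ) : Prop where
  one : χ 1 = 1
  mul : ∀ I J : II K, χ (I * J) = χ I * χ J
  zero_iff : ∀ I : II K, χ I = 0 ↔ pI K p ∣ (I : Ideal (𝓞 K))
  ray : ∀ x : 𝓞 K, x ≠ 0 → (p : 𝓞 K) ∣ x - 1 → χ (spn K x) = 1

open Classical in
/-- The finite set of the ray class characters mod `p`. -/
def XX (p : ℕ) : Finset (II K → ℂ) :=
  if h : {χ : II K → ℂ | IsRC K p χ}.Finite then h.toFinset else ∅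

open Classical in
/-- The primitive ones (`p` inert): those that are not class group characters. -/
def XP (p : ℕ) : Finset (II K → ℂ) :=
  (XX K p).filter fun χ => ∃ x : 𝓞 K, x ≠ 0 ∧ χ (spn K x) ≠ 0 ∧ χ (spn K x) ≠ 1

open Classical in
/-- The class group characters among them (the non primitive ones). -/
def XI (p : ℕ) : Finset (II K → ℂ) :=
  (XX K p).filter fun χ => ¬ ∃ x : 𝓞 K, x ≠ 0 ∧ χ (spn K x) ≠ 0 ∧ χ (spn K x) ≠ 1

/-- The number of ray class characters mod `p`. -/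
def NN (p : ℕ) : ℝ := (XX K p).card

open Classical in
/-- The character of `(𝓞 K ⧸ p)ˣ` attached to `χ`, extended by zero. -/
def chf (χ : II K → ℂ) (x : 𝓞 K) : ℂ := if x = 0 then 0 else χ (spn K x)

/-! ### Analytic objects -/

/-- `|d_K| p^n`, the conductor. -/
def DD (p : ℕ) : ℝ := |(discr K : ℝ)| * (p : ℝ) ^ nn K

open scoped Classical in
/-- The kernel: `m`-fold multiplicative convolution of `2 exp(-2πy)`. -/
def kap (y : ℝ) : ℝ :=
  2 ^ mm K * ∫ t : logSpace K, Real.exp (-(2 * Real.pi * y ^ (1 / (mm K : ℝ)) *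
    ∑ w : InfinitePlace K, sc K t w ^ 2))

/-- `g_χ(v) = e^(v/2) ∑ χ(I) κ(N I e^v / √D)`. -/
def gg (p : ℕ) (χ : II K → ℂ) (v : ℝ) : ℂ :=
  (Real.exp (v / 2) : ℂ) * ∑' I : II K, χ I * (kap K (nm K I * Real.exp v / √(DD K p)) : ℂ)

/-- The completed L-function `D^(s/2) Γ_ℂ(s)^m L(s,χ)`. -/
def LamS (p : ℕ) (χ : II K → ℂ) (s : ℂ) : ℂ :=
  ∫ v : ℝ, gg K p χ v * Complex.exp ((s - 1 / 2) * v)

/-- The completed L-function on the critical line. -/
def Lam (p : ℕ) (χ : II K → ℂ) (t : ℝ) : ℂ := LamS K p χ (1 / 2 + t * Complex.I)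

/-- The L-function. -/
def Lfun (p : ℕ) (χ : II K → ℂ) (s : ℂ) : ℂ :=
  LamS K p χ s * (DD K p : ℂ) ^ (-s / 2) * (((2 * Real.pi : ℝ) : ℂ) ^ s / 2) ^ mm K *
    ((Complex.Gamma s)⁻¹) ^ mm K

/-- The mollifier `φ(1/2 + it)`. -/
def phi (ξ : ℝ) (χ : II K → ℂ) (t : ℝ) : ℂ :=
  ∑ n ∈ rg K ξ, (bet K ξ n : ℂ) * χ n * (nm K n : ℂ) ^ (-(1 / 2 + t * Complex.I))

/-- Fourier transform of the mollified completed L-function. -/
def GG (ξ : ℝ) (p : ℕ) (χ : II K → ℂ) (v : ℝ) : ℂ :=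
  ∑ m ∈ rg K ξ, ∑ n ∈ rg K ξ, ((bet K ξ m * bet K ξ n / √(nm K m * nm K n) : ℝ) : ℂ) *
    χ n * (starRingEnd ℂ) (χ m) * gg K p χ (v + Real.log (nm K n / nm K m))

/-! ### The triples `(m, n, k)` -/

/-- Triples of ideals. -/
abbrev T3 : Type := II K × II K × II K

/-- the value `N(k n) / N m` -/
def rr (i : T3 K) : ℝ := nm K i.2.2 * nm K i.2.1 / nm K i.1

/-- the coefficient -/
def bb (ξ : ℝ) (i : T3 K) : ℝ := bet K ξ i.1 * bet K ξ i.2.1 / nm K i.1

/-- The triples `(m, n, k)` with `N m, N n ≤ ξ`, `N(k n) ≤ R N m`. -/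
def TT (ξ R : ℝ) : Finset (T3 K) :=
  (rg K ξ ×ˢ rg K ξ ×ˢ rg K (R * ξ)).filter fun i => nm K i.2.2 * nm K i.2.1 ≤ R * nm K i.1

/-- The truncated sum. -/
def G1 (ξ R : ℝ) (p : ℕ) (χ : II K → ℂ) (v : ℝ) : ℂ :=
  (Real.exp (v / 2) : ℂ) * ∑ i ∈ TT K ξ R, (bb K ξ i : ℂ) * χ (i.2.2 * i.2.1) *
    (starRingEnd ℂ) (χ i.1) * (kap K (rr K i * Real.exp v / √(DD K p)) : ℂ)

open Classical in
/-- The quadratic form of the (quasi-)diagonal terms. -/
def QQ [IsCMField K] (p : ℕ) (ξ R : ℝ) (h : ℝ → ℝ) : ℝ :=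
  ∑ i ∈ TT K ξ R, ∑ j ∈ TT K ξ R,
    if RayH K p (i.2.2 * i.2.1 * j.1) (j.2.2 * j.2.1 * i.1) then
      bb K ξ i * bb K ξ j * h (rr K i) else 0

/-- The length of the mollifier. -/
def xi (p : ℕ) : ℝ := (p : ℝ) ^ (1 / (200 * (nn K : ℝ)))

/-- The cut-off of the sums. -/
def RR (p : ℕ) : ℝ := (p : ℝ) ^ mm K * xi K p

end

end Pool.Agent.CMZ
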