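import Pool.Agent.CMZ.Basic

/-!
# Module MU: multiplicative functions on ideals

`mf K f I = ∏_{P ∣ I} f P (v_P(I))`, `dp K I` = the pairs of ideals with product `I` (`mem_dp`).
PROOFS. `normalizedFactors (I * J) = normalizedFactors I + normalizedFactors J`
(`UniqueFactorizationMonoid.normalizedFactors_mul`); for coprime ideals the supports are disjoint. `mf_conv`:
both sides are multiplicative on coprime ideals (`dp (I * J)` is in bijection with `dp I × dp J` for coprime `I`, `J`: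
a divisor of `I * J` is uniquely a product of a divisor of `I` and a divisor of `J`), and for `I = P ^ k` the pairs are
`(P ^ i, P ^ j)`, `i + j = k`; conclude with `UniqueFactorizationMonoid.induction_on_coprime` (or by induction on the number
of distinct prime factors). `cop_split`: `d = ∏_{P ∣ ρ} P ^ v_P(I)`.
-/

open scoped NumberField nonZeroDivisors
open NumberField NumberField.InfinitePlace NumberField.mixedEmbedding NumberField.Units
  NumberField.Units.dirichletUnitTheorem Pool.ZD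

namespace Pool.Agent.CMZ

set_option linter.unusedSectionVars false

variable (K : Type) [Field K] [NumberField K]

open UniqueFactorizationMonoid

namespace MultAux

variable {K}

theorem ne0 (I : II K) : (I : Ideal (𝓞 K)) ≠ 0 := nonZeroDivisors.coe_ne_zero I

theorem prime_of_mem {I : II K} {P : Ideal (𝓞 K)}
    (h : P ∈ normalizedFactors (I : Ideal (𝓞 K))) : Prime P := prime_of_normalized_factor P h

theorem mem_iff {I : II K} {P : Ideal (𝓞 K)} :
    P ∈ normalizedFactors (I : Ideal (𝓞 K)) ↔ Prime P ∧ P ∣ (I : Ideal (𝓞 K)) := by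
  constructor
  · intro h
    exact ⟨prime_of_mem h, dvd_of_mem_normalizedFactors h⟩
  · rintro ⟨h1, h2⟩
    obtain ⟨q, hq, hqa⟩ := exists_mem_normalizedFactors_of_dvd (ne0 I) h1.irreducible h2
    rw [associated_iff_eq.1 hqa]
    exact hq

theorem prod_eq (I : II K) : (normalizedFactors (I : Ideal (𝓞 K))).prod = (I : Ideal (𝓞 K)) :=
  associated_iff_eq.1 (prod_normalizedFactors (ne0 I))

end MultAux

open MultAux

theorem mf_one (f : Ideal (𝓞 K) → ℕ → ℝ) : mf K f 1 = 1 := by
  unfold mf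
  rw [OneMemClass.coe_one, normalizedFactors_one]
  simp

/-- Coprime means no common prime factor. -/
theorem cop_iff {I J : II K} : IsCoprime (I : Ideal (𝓞 K)) (J : Ideal (𝓞 K)) ↔
    ∀ P : Ideal (𝓞 K), Prime P → P ∣ (I : Ideal (𝓞 K)) → ¬ P ∣ (J : Ideal (𝓞 K)) := by
  constructor
  · intro h P hP h1 h2
    exact hP.not_isUnit (h.isUnit_of_dvd' h1 h2)
  · intro h
    rw [Ideal.isCoprime_iff_sup_eq]
    by_contra hne
    obtain ⟨P, hP, hle⟩ := Ideal.exists_le_maximal _ hne
    have hP0 : P ≠ ⊥ := by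
      rintro rfl
      exact ne0 I (le_bot_iff.1 (le_sup_left.trans hle))
    exact h P (Ideal.prime_of_isPrime hP0 hP.isPrime)
      (Ideal.dvd_iff_le.2 (le_sup_left.trans hle)) (Ideal.dvd_iff_le.2 (le_sup_right.trans hle))

theorem mf_mul (f : Ideal (𝓞 K) → ℕ → ℝ) {I J : II K}
    (h : IsCoprime (I : Ideal (𝓞 K)) (J : Ideal (𝓞 K))) :
    mf K f (I * J) = mf K f I * mf K f J := by
  classical
  rw [cop_iff] at h
  unfold mf
  rw [Submonoid.coe_mul, normalizedFactors_mul (ne0 I) (ne0 J), Multiset.toFinset_add,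
    Finset.prod_union]
  · congr 1
    · refine Finset.prod_congr rfl fun P hP => ?_
      rw [Multiset.mem_toFinset, mem_iff] at hP
      rw [Multiset.count_add, Multiset.count_eq_zero_of_notMem (s := normalizedFactors (J : Ideal (𝓞 K))),
        add_zero]
      rw [mem_iff]
      exact fun h2 => h P hP.1 hP.2 h2.2
    · refine Finset.prod_congr rfl fun P hP => ?_
      rw [Multiset.mem_toFinset, mem_iff] at hP
      rw [Multiset.count_add, Multiset.count_eq_zero_of_notMem (s := normalizedFactors (I : Ideal (𝓞 K))),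
        zero_add]
      rw [mem_iff]
      exact fun h2 => h P hP.1 h2.2 hP.2
  · rw [Finset.disjoint_left]
    intro P hP1 hP2
    rw [Multiset.mem_toFinset, mem_iff] at hP1 hP2
    exact h P hP1.1 hP1.2 hP2.2

theorem mf_pow (f : Ideal (𝓞 K) → ℕ → ℝ) {P : II K} (hP : Prime (P : Ideal (𝓞 K))) {k : ℕ}
    (hk : k ≠ 0) : mf K f (P ^ k) = f P k := by
  classical
  unfold mf
  rw [SubmonoidClass.coe_pow, normalizedFactors_pow, normalizedFactors_irreducible hP.irreducible,
    normalize_eq, Multiset.toFinset_nsmul _ _ hk, Multiset.toFinset_singleton,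
    Finset.prod_singleton, Multiset.count_nsmul, Multiset.count_singleton_self, mul_one]

theorem mf_congr {f g : Ideal (𝓞 K) → ℕ → ℝ}
    (h : ∀ P : Ideal (𝓞 K), Prime P → ∀ k, k ≠ 0 → f P k = g P k) (I : II K) :
    mf K f I = mf K g I := by
  classical
  unfold mf
  refine Finset.prod_congr rfl fun P hP => ?_
  rw [Multiset.mem_toFinset] at hP
  exact h P (prime_of_mem hP) _ (Multiset.count_ne_zero.2 hP)

theorem mf_nonneg {f : Ideal (𝓞 K) → ℕ → ℝ}
    (h : ∀ P : Ideal (𝓞 K), Prime P → ∀ k, k ≠ 0 → 0 ≤ f P k) (I : II K) : 0 ≤ mf K f I := by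
  classical
  unfold mf
  refine Finset.prod_nonneg fun P hP => ?_
  rw [Multiset.mem_toFinset] at hP
  exact h P (prime_of_mem hP) _ (Multiset.count_ne_zero.2 hP)

theorem abs_mf_le {f g : Ideal (𝓞 K) → ℕ → ℝ}
    (h : ∀ P : Ideal (𝓞 K), Prime P → ∀ k, k ≠ 0 → |f P k| ≤ g P k) (I : II K) :
    |mf K f I| ≤ mf K g I := by
  classical
  unfold mf
  rw [Finset.abs_prod]
  refine Finset.prod_le_prod (fun _ _ => abs_nonneg _) fun P hP => ?_
  rw [Multiset.mem_toFinset] at hP
  exact h P (prime_of_mem hP) _ (Multiset.count_ne_zero.2 hP)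

/-- Every ideal is a product of an ideal composed of primes dividing `ρ` and an ideal coprime to `ρ`. -/
theorem cop_split (ρ I : II K) : ∃ d ν : II K, I = d * ν ∧
    IsCoprime (ν : Ideal (𝓞 K)) (ρ : Ideal (𝓞 K)) ∧
    ∀ P : Ideal (𝓞 K), Prime P → P ∣ (d : Ideal (𝓞 K)) → P ∣ (ρ : Ideal (𝓞 K)) := by
  classical
  set s := normalizedFactors (I : Ideal (𝓞 K)) with hs
  set s1 := s.filter (fun P => P ∣ (ρ : Ideal (𝓞 K))) with hs1
  set s2 := s.filter (fun P => ¬ P ∣ (ρ : Ideal (𝓞 K))) with hs2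
  have hsum : s1 + s2 = s := Multiset.filter_add_not _ _
  have hprod : s1.prod * s2.prod = (I : Ideal (𝓞 K)) := by
    rw [← Multiset.prod_add, hsum, hs, prod_eq]
  have h1 : s1.prod ≠ 0 := by
    intro h
    rw [h, zero_mul] at hprod
    exact ne0 I hprod.symm
  have h2 : s2.prod ≠ 0 := by
    intro h
    rw [h, mul_zero] at hprod
    exact ne0 I hprod.symm
  have hdiv : ∀ t : Multiset (Ideal (𝓞 K)), t ≤ s → ∀ P : Ideal (𝓞 K), Prime P → P ∣ t.prod →
      P ∈ t := by
    intro t ht P hP hd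
    obtain ⟨Q, hQ, hPQ⟩ := hP.exists_mem_multiset_dvd hd
    have hQ' : Prime Q := prime_of_mem (I := I) (Multiset.mem_of_le ht hQ)
    have : P = Q := associated_iff_eq.1 (hP.associated_of_dvd hQ' hPQ)
    rw [this]; exact hQ
  refine ⟨⟨s1.prod, mem_nonZeroDivisors_of_ne_zero h1⟩, ⟨s2.prod, mem_nonZeroDivisors_of_ne_zero h2⟩,
    Subtype.ext hprod.symm, ?_, ?_⟩
  · rw [cop_iff]
    intro P hP hd hd2
    have := hdiv s2 (Multiset.filter_le _ _) P hP hd
    exact (Multiset.mem_filter.1 this).2 hd2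
  · intro P hP hd
    have := hdiv s1 (Multiset.filter_le _ _) P hP hd
    exact (Multiset.mem_filter.1 this).2

/-- The decomposition is unique. -/
theorem cop_split_unique {ρ d ν d' ν' : II K} (h : d * ν = d' * ν')
    (hν : IsCoprime (ν : Ideal (𝓞 K)) (ρ : Ideal (𝓞 K)))
    (hν' : IsCoprime (ν' : Ideal (𝓞 K)) (ρ : Ideal (𝓞 K)))
    (hd : ∀ P : Ideal (𝓞 K), Prime P → P ∣ (d : Ideal (𝓞 K)) → P ∣ (ρ : Ideal (𝓞 K)))
    (hd' : ∀ P : Ideal (𝓞 K), Prime P → P ∣ (d' : Ideal (𝓞 K)) → P ∣ (ρ : Ideal (𝓞 K))) :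
    d = d' ∧ ν = ν' := by
  have h0 : (d : Ideal (𝓞 K)) * ν = (d' : Ideal (𝓞 K)) * ν' := congrArg Subtype.val h
  have c1 : IsCoprime (d : Ideal (𝓞 K)) (ν' : Ideal (𝓞 K)) := by
    rw [cop_iff]
    intro P hP h1 h2
    exact (cop_iff K).1 hν' P hP h2 (hd P hP h1)
  have c2 : IsCoprime (d' : Ideal (𝓞 K)) (ν : Ideal (𝓞 K)) := by
    rw [cop_iff]
    intro P hP h1 h2
    exact (cop_iff K).1 hν P hP h2 (hd' P hP h1)
  have d1 : (d : Ideal (𝓞 K)) ∣ d' := c1.dvd_of_dvd_mul_right ⟨_, h0.symm⟩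
  have d2 : (d' : Ideal (𝓞 K)) ∣ d := c2.dvd_of_dvd_mul_right ⟨_, h0⟩
  have e : d = d' := Subtype.ext (dvd_antisymm' d2 d1)
  refine ⟨e, ?_⟩
  rw [← e] at h
  exact ii_cancel h

/-- Coprime numerators and denominators are unique. -/
theorem ratio_unique {A B A' B' : II K} (h : A * B' = A' * B)
    (h1 : IsCoprime (A : Ideal (𝓞 K)) (B : Ideal (𝓞 K)))
    (h2 : IsCoprime (A' : Ideal (𝓞 K)) (B' : Ideal (𝓞 K))) : A = A' ∧ B = B' := by
  have h0 : (A : Ideal (𝓞 K)) * B' = (A' : Ideal (𝓞 K)) * B := congrArg Subtype.val h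
  have d1 : (A : Ideal (𝓞 K)) ∣ A' := h1.dvd_of_dvd_mul_right ⟨_, h0.symm⟩
  have d2 : (A' : Ideal (𝓞 K)) ∣ A := h2.dvd_of_dvd_mul_right ⟨_, h0⟩
  have e : A = A' := Subtype.ext (dvd_antisymm' d2 d1)
  refine ⟨e, ?_⟩
  rw [← e] at h
  exact (ii_cancel h).symm

/-- Every pair of ideals is a common factor times a coprime pair. -/
theorem exists_ratio (I J : II K) : ∃ A B : II K, I = gi K I J * A ∧ J = gi K I J * B ∧
    IsCoprime (A : Ideal (𝓞 K)) (B : Ideal (𝓞 K)) := by
  obtain ⟨hI, hJ⟩ := dvd_gi.1 (dvd_refl (gi K I J))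
  obtain ⟨A, hA⟩ := hI
  obtain ⟨B, hB⟩ := hJ
  refine ⟨A, B, hA, hB, ?_⟩
  rw [Ideal.isCoprime_iff_sup_eq]
  have e1 : (I : Ideal (𝓞 K)) = (gi K I J : Ideal (𝓞 K)) * A := congrArg Subtype.val hA
  have e2 : (J : Ideal (𝓞 K)) = (gi K I J : Ideal (𝓞 K)) * B := congrArg Subtype.val hB
  have e3 : (gi K I J : Ideal (𝓞 K)) * ((A : Ideal (𝓞 K)) ⊔ B) = (gi K I J : Ideal (𝓞 K)) * 1 := by
    rw [Ideal.mul_sup, ← e1, ← e2, mul_one, coe_gi]
  have e4 := mul_left_cancel₀ (ne0 (gi K I J)) e3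
  rw [e4, Ideal.one_eq_top]

theorem mf_conv (f g : Ideal (𝓞 K) → ℕ → ℝ) (hf : ∀ P, f P 0 = 1) (hg : ∀ P, g P 0 = 1)
    (I : II K) : ∑ q ∈ dp K I, mf K f q.1 * mf K g q.2 =
      mf K (fun P k => ∑ ij ∈ Finset.HasAntidiagonal.antidiagonal k, f P ij.1 * g P ij.2) I := by
  classical
  set F : Ideal (𝓞 K) → ℕ → ℝ :=
    fun P k => ∑ ij ∈ Finset.HasAntidiagonal.antidiagonal k, f P ij.1 * g P ij.2 with hF
  -- prime powers
  have hpow : ∀ (P : II K), Prime (P : Ideal (𝓞 K)) → ∀ k : ℕ,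
      ∑ q ∈ dp K (P ^ k), mf K f q.1 * mf K g q.2 = mf K F (P ^ k) := by
    intro P hP k
    have hf' : ∀ i, mf K f (P ^ i) = f P i := by
      intro i
      rcases eq_or_ne i 0 with rfl | hi
      · rw [pow_zero, mf_one, hf]
      · exact mf_pow K f hP hi
    have hg' : ∀ i, mf K g (P ^ i) = g P i := by
      intro i
      rcases eq_or_ne i 0 with rfl | hi
      · rw [pow_zero, mf_one, hg]
      · exact mf_pow K g hP hi
    have hF' : mf K F (P ^ k) = F P k := by
      rcases eq_or_ne k 0 with rfl | hi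
      · rw [pow_zero, mf_one, hF]
        simp [hf, hg]
      · exact mf_pow K F hP hi
    rw [hF', hF]
    symm
    refine Finset.sum_bij (fun ij _ => (P ^ ij.1, P ^ ij.2)) ?_ ?_ ?_ ?_
    · intro ij hij
      rw [Finset.HasAntidiagonal.mem_antidiagonal] at hij
      rw [mem_dp]
      simp only
      rw [← pow_add, hij]
    · intro ij _ ij' _ h
      rw [Prod.mk.injEq] at h
      have hinj : ∀ a b : ℕ, P ^ a = P ^ b → a = b := by
        intro a b hab
        have h1 : (P : Ideal (𝓞 K)) ^ a = (P : Ideal (𝓞 K)) ^ b := by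
          have := congrArg Subtype.val hab
          simpa using this
        have h2 := congrArg (fun A => (normalizedFactors A).card) h1
        simp only [normalizedFactors_pow, normalizedFactors_irreducible hP.irreducible,
          Multiset.card_nsmul, Multiset.card_singleton, mul_one] at h2
        simpa using h2
      exact Prod.ext (hinj _ _ h.1) (hinj _ _ h.2)
    · rintro ⟨a, b⟩ hq
      rw [mem_dp] at hq
      simp only at hq
      have hq' : (a : Ideal (𝓞 K)) * b = (P : Ideal (𝓞 K)) ^ k := by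
        have := congrArg Subtype.val hq
        simpa using this
      obtain ⟨i, hi, ha⟩ := (dvd_prime_pow hP k).1 ⟨_, hq'.symm⟩
      have ha' : a = P ^ i := Subtype.ext (by
        rw [associated_iff_eq.1 ha, SubmonoidClass.coe_pow])
      refine ⟨(i, k - i), ?_, ?_⟩
      · rw [Finset.HasAntidiagonal.mem_antidiagonal]; omega
      · have hb : P ^ i * b = P ^ i * P ^ (k - i) := by
          rw [← ha', hq, ha', ← pow_add]
          congr 1; omega
        rw [ha', ii_cancel hb]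
    · rintro ⟨i, j⟩ _
      simp only
      rw [hf', hg']
  -- coprime products
  have hmul : ∀ I J : II K, IsCoprime (I : Ideal (𝓞 K)) (J : Ideal (𝓞 K)) →
      ∑ q ∈ dp K I, mf K f q.1 * mf K g q.2 = mf K F I →
      ∑ q ∈ dp K J, mf K f q.1 * mf K g q.2 = mf K F J →
      ∑ q ∈ dp K (I * J), mf K f q.1 * mf K g q.2 = mf K F (I * J) := by
    intro I J hIJ h1 h2
    rw [mf_mul K F hIJ, ← h1, ← h2, Finset.sum_mul_sum, ← Finset.sum_product']
    symm
    have key : ∀ A ∈ dp K I, ∀ B ∈ dp K J,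
        (IsCoprime (A.1 : Ideal (𝓞 K)) (B.1 : Ideal (𝓞 K)) ∧
          IsCoprime (A.2 : Ideal (𝓞 K)) (B.2 : Ideal (𝓞 K))) ∧
        (IsCoprime (B.1 : Ideal (𝓞 K)) (I : Ideal (𝓞 K)) ∧
          IsCoprime (B.2 : Ideal (𝓞 K)) (I : Ideal (𝓞 K))) ∧
        (A.1 : Ideal (𝓞 K)) ∣ I ∧ (A.2 : Ideal (𝓞 K)) ∣ I := by
      intro A hA B hB
      rw [mem_dp] at hA hB
      have a0 : (A.1 : Ideal (𝓞 K)) * A.2 = I := congrArg Subtype.val hA
      have b0 : (B.1 : Ideal (𝓞 K)) * B.2 = J := congrArg Subtype.val hB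
      have a1 : (A.1 : Ideal (𝓞 K)) ∣ I := ⟨_, a0.symm⟩
      have a2 : (A.2 : Ideal (𝓞 K)) ∣ I := ⟨A.1, by rw [← a0, mul_comm]⟩
      have b1 : (B.1 : Ideal (𝓞 K)) ∣ J := ⟨_, b0.symm⟩
      have b2 : (B.2 : Ideal (𝓞 K)) ∣ J := ⟨B.1, by rw [← b0, mul_comm]⟩
      refine ⟨⟨?_, ?_⟩, ⟨?_, ?_⟩, a1, a2⟩
      · exact (hIJ.of_isCoprime_of_dvd_left a1).of_isCoprime_of_dvd_right b1
      · exact (hIJ.of_isCoprime_of_dvd_left a2).of_isCoprime_of_dvd_right b2
      · exact (hIJ.of_isCoprime_of_dvd_right b1).symm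
      · exact (hIJ.of_isCoprime_of_dvd_right b2).symm
    refine Finset.sum_bij (fun (AB : (II K × II K) × (II K × II K)) _ =>
      (AB.1.1 * AB.2.1, AB.1.2 * AB.2.2)) ?_ ?_ ?_ ?_
    · rintro ⟨A, B⟩ hAB
      rw [Finset.mem_product] at hAB
      have hA := hAB.1
      have hB := hAB.2
      rw [mem_dp] at hA hB ⊢
      simp only at hA hB ⊢
      rw [← hA, ← hB, mul_mul_mul_comm]
    · rintro ⟨A, B⟩ hAB ⟨A', B'⟩ hAB' h
      rw [Finset.mem_product] at hAB hAB'
      rw [Prod.mk.injEq] at h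
      obtain ⟨-, hc, hd1, hd2⟩ := key A hAB.1 B hAB.2
      obtain ⟨-, hc', hd1', hd2'⟩ := key A' hAB'.1 B' hAB'.2
      obtain ⟨e1, e2⟩ := cop_split_unique K (ρ := I) h.1 hc.1 hc'.1
        (fun P _ hP => hP.trans hd1) (fun P _ hP => hP.trans hd1')
      obtain ⟨e3, e4⟩ := cop_split_unique K (ρ := I) h.2 hc.2 hc'.2
        (fun P _ hP => hP.trans hd2) (fun P _ hP => hP.trans hd2')
      exact Prod.ext (Prod.ext e1 e3) (Prod.ext e2 e4)
    · rintro ⟨a, b⟩ hq
      rw [mem_dp] at hq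
      simp only at hq
      obtain ⟨d, ν, ha, hν, hd⟩ := cop_split K I a
      obtain ⟨d', ν', hb, hν', hd'⟩ := cop_split K I b
      have h3 : (d * d') * (ν * ν') = I * J := by
        rw [← hq, ha, hb, mul_mul_mul_comm]
      obtain ⟨e1, e2⟩ := cop_split_unique K (ρ := I) h3
        (by rw [Submonoid.coe_mul]; exact hν.mul_left hν') hIJ.symm
        (by
          intro P hP hdvd
          rw [Submonoid.coe_mul] at hdvd
          rcases hP.dvd_or_dvd hdvd with h | h
          · exact hd P hP h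
          · exact hd' P hP h)
        (fun P _ hP => hP)
      refine ⟨((d, d'), (ν, ν')), ?_, ?_⟩
      · rw [Finset.mem_product, mem_dp, mem_dp]
        exact ⟨e1, e2⟩
      · simp only
        rw [ha, hb]
    · rintro ⟨A, B⟩ hAB
      rw [Finset.mem_product] at hAB
      obtain ⟨hc, -⟩ := key A hAB.1 B hAB.2
      simp only
      rw [mf_mul K f hc.1, mf_mul K g hc.2]
      ring
  -- conclusion
  have main : ∀ a : Ideal (𝓞 K), ∀ I : II K, (I : Ideal (𝓞 K)) = a →
      ∑ q ∈ dp K I, mf K f q.1 * mf K g q.2 = mf K F I := by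
    intro a
    refine induction_on_coprime (P := fun a => ∀ I : II K, (I : Ideal (𝓞 K)) = a →
      ∑ q ∈ dp K I, mf K f q.1 * mf K g q.2 = mf K F I) a ?_ ?_ ?_ ?_
    · intro I hI
      exact absurd hI (ne0 I)
    · intro x hx I hI
      have h1 : I = 1 := Subtype.ext (by
        rw [hI, OneMemClass.coe_one]
        exact isUnit_iff_eq_one.1 hx)
      by_cases hex : ∃ P : II K, Prime (P : Ideal (𝓞 K))
      · obtain ⟨P, hP⟩ := hex
        have := hpow P hP 0
        rw [pow_zero] at this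
        rw [h1]; exact this
      · rw [h1, mf_one]
        have hdp : dp K (1 : II K) = {(1, 1)} := by
          ext q
          rw [mem_dp, Finset.mem_singleton]
          constructor
          · intro h
            have h2 : (q.1 : Ideal (𝓞 K)) * q.2 = 1 := congrArg Subtype.val h
            have h3 : (q.1 : Ideal (𝓞 K)) = 1 := isUnit_iff_eq_one.1 (IsUnit.of_mul_eq_one _ h2)
            have h4 : q.1 = 1 := Subtype.ext h3
            rw [h4, one_mul] at h
            exact Prod.ext h4 h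
          · rintro rfl
            exact mul_one 1
        rw [hdp, Finset.sum_singleton, mf_one, mf_one, mul_one]
    · intro p i hp I hI
      have hI' : I = (⟨p, mem_nonZeroDivisors_of_ne_zero hp.ne_zero⟩ : II K) ^ i :=
        Subtype.ext (by rw [hI, SubmonoidClass.coe_pow])
      rw [hI']
      exact hpow _ hp i
    · intro x y hxy hx hy I hI
      have hx0 : x ≠ 0 := by
        rintro rfl
        rw [zero_mul] at hI
        exact ne0 I hI
      have hy0 : y ≠ 0 := by
        rintro rfl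
        rw [mul_zero] at hI
        exact ne0 I hI
      have hI' : I = (⟨x, mem_nonZeroDivisors_of_ne_zero hx0⟩ : II K) *
        ⟨y, mem_nonZeroDivisors_of_ne_zero hy0⟩ := Subtype.ext hI
      rw [hI']
      apply hmul
      · rw [cop_iff]
        intro P hP h1 h2
        exact hP.not_isUnit (hxy h1 h2)
      · exact hx _ rfl
      · exact hy _ rfl
  exact main _ I rfl

end Pool.Agent.CMZ
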