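import Pool.Agent.CMZ.Kappa
import Pool.Agent.ZD.Unfold
import Pool.Agent.ZD.ClassSum
import Pool.Agent.HDZ.UnfoldNeg

/-!
# Module UN: unfolding with weights

`c : II K → ℂ` bounded, `e : 𝓞 K → ℂ` with `e x = c I` whenever `I J = (x)`.
PROOF. One orbit: for `x ≠ 0`, `∑'_{u ∈ 𝓞 Kˣ} ∫_{t ∈ FD} exp(-b en(sg_t (u x))²) = w ∫_{t} exp(-b en(sg_t x)²)` (`w = torsionOrder K`; units map onto the unit
lattice with kernel the torsion, `FD` is a fundamental domain, `sc_logEmbedding`, `sc_add`; see the proof of `Pool.ZD.unfold` in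
`Pool/Agent/ZD/Unfold.lean`, and `Pool/Agent/HDZ/UnfoldNeg.lean` for `-t`), and
`∫_t exp(-b en(sg_t x)²) = ∫_t exp(-b ∑_w (sc t w)² |x|_w²) = ∫_t exp(-b N^(1/m) ∑_w (sc t w)²)`, `N = N(x) = ∏ |x|_w²`, by translation (`2^m ∫ = kap(b'...)`: with
`b = 2π a` it is `2^(-m) kap(a^m N)`). The nonzero elements of `J` are grouped by the ideal `I` with `I J = (x)` (`Cls A`, `A⁻¹ = [J]`): each group is
`{u x_I}`, and `e (u x_I) = c I`; everything converges absolutely, so sums and the integral over `FD` can be exchanged. With `a = (y/N J)^(1/m)`: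
`a^m N(x_I) = y N I`.
-/

open scoped NumberField nonZeroDivisors
open NumberField NumberField.InfinitePlace NumberField.mixedEmbedding NumberField.Units
  NumberField.Units.dirichletUnitTheorem Pool.ZD

namespace Pool.Agent.CMZ

set_option linter.unusedSectionVars false

variable (K : Type) [Field K] [NumberField K]

namespace UnfAux

open UnfoldAux ClassSum NumberField.mixedEmbedding.fundamentalCone MeasureTheory
open scoped ENNReal

/-! ### Weighted unfolding -/

theorem spn_um (J : II K) (q : idealSet K J × unitLattice K) :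
    spn K ((um K J q : NZ K J) : 𝓞 K) = spn K (pre K J q.1) := by
  change spn K ((uu K q.2 : 𝓞 K) * pre K J q.1) = _
  rw [spn_mul (Units.ne_zero _) (pre_ne K J q.1), spn_unit, one_mul]

theorem pre_eq (J : II K) (x : idealSet K J) :
    (preimageOfMemIntegerSet (idealSetEquiv K J x).1 : 𝓞 K) = pre K J x := by
  apply RingOfIntegers.coe_injective
  apply mixedEmbedding_injective K
  rw [emb_pre K J x]
  exact mixedEmbedding_preimageOfMemIntegerSet _

theorem eq1_spn (J : II K) (x : idealSet K J) : (eq1 K J x).1.1.1 = spn K (pre K J x) := by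
  apply Subtype.ext
  rw [coe_spn (pre_ne K J x), ← pre_eq K J x]
  rfl

open scoped Classical in
theorem unfoldW (J : II K) (A : ClassGroup (𝓞 K)) (hJ : ClassGroup.mk0 J = A⁻¹)
    (h : II K → ℝ≥0∞) (Gf : mixedSpace K → ℝ≥0∞)
    (hGn : ∀ x y : mixedSpace K, (∀ w, normAtPlace w x = normAtPlace w y) → Gf x = Gf y)
    (H : ℝ → ℝ≥0∞) (hH : ∀ x : mixedSpace K, mixedEmbedding.norm x ≠ 0 →
      ∫⁻ t : logSpace K, Gf (sg K t * x) = H (mixedEmbedding.norm x)) :
    ∑' x : NZ K J, h (spn K (x : 𝓞 K)) *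
      ∫⁻ t in FD K, Gf (sg K t * mixedEmbedding K ((x : 𝓞 K) : K)) =
      torsionOrder K * ∑' I : Cls K A, h ((I : II K) * J) * H (nm K I * nm K J) := by
  have hfd : IsAddFundamentalDomain (unitLattice K) (FD K) (volume : Measure (logSpace K)) :=
    ZLattice.isAddFundamentalDomain (basisUnitLattice K) volume
  have hinv : VAddInvariantMeasure (unitLattice K) (logSpace K) volume :=
    ⟨fun c s _ => measure_preimage_add volume (c : logSpace K) s⟩
  have h1 : ∀ x : fundamentalCone.idealSet K J,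
      H (mixedEmbedding.norm (x : mixedSpace K)) =
        ∑' ℓ : unitLattice K, ∫⁻ t in FD K,
          Gf (sg K t * mixedEmbedding K ((um K J (x, ℓ) : 𝓞 K) : K)) := by
    intro x
    rw [← hH _ (norm_ne K J x),
      hfd.lintegral_eq_tsum'' (fun t => Gf (sg K t * (x : mixedSpace K)))]
    apply tsum_congr
    intro ℓ
    apply lintegral_congr
    intro t
    apply hGn
    intro w
    have h2 : ℓ +ᵥ t = (ℓ : logSpace K) + t := rfl
    rw [h2, emb_um, normAtPlace_sg_mul, normAtPlace_sg_mul, sc_add, unitSMul_smul, map_mul,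
      normAtPlace_apply, ← log_uu K ℓ, sc_logEmbedding]
    ring
  have h2 : ∑' x : NZ K J, h (spn K (x : 𝓞 K)) *
      ∫⁻ t in FD K, Gf (sg K t * mixedEmbedding K ((x : 𝓞 K) : K)) =
      ∑' x : fundamentalCone.idealSet K J,
        h (spn K (pre K J x)) * H (mixedEmbedding.norm (x : mixedSpace K)) := by
    rw [← (Equiv.ofBijective (um K J) (um_bij K J)).tsum_eq, ENNReal.tsum_prod']
    apply tsum_congr
    intro x
    rw [h1 x, ← ENNReal.tsum_mul_left]
    apply tsum_congr
    intro ℓ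
    change h (spn K ((um K J (x, ℓ) : NZ K J) : 𝓞 K)) * _ = _
    rw [spn_um K J (x, ℓ)]
    rfl
  have h3 : ∑' x : fundamentalCone.idealSet K J,
        h (spn K (pre K J x)) * H (mixedEmbedding.norm (x : mixedSpace K)) =
      ∑' p : PD K J × torsion K, h p.1.1.1 * H (nm K p.1.1.1) := by
    rw [← (eq1 K J).tsum_eq (fun p => h p.1.1.1 * H (nm K p.1.1.1))]
    refine tsum_congr fun x => ?_
    rw [eq1_norm, eq1_spn]
  have h4 : ∑' I : Cls K A, h ((I : II K) * J) * H (nm K I * nm K J) =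
      ∑' I : PD K J, h I.1.1 * H (nm K I.1.1) := by
    rw [← (eq2 K J A hJ).tsum_eq (fun I => h I.1.1 * H (nm K I.1.1))]
    refine tsum_congr fun I => ?_
    have h5 : ((eq2 K J A hJ I).1.1 : II K) = J * I.1 := rfl
    rw [eq2_norm, h5, mul_comm J I.1]
  rw [h2, h3, h4, ENNReal.tsum_prod', ← ENNReal.tsum_mul_left]
  refine tsum_congr fun I => ?_
  have : Fintype (torsion K) := Fintype.ofFinite _
  change ∑' _ : torsion K, h I.1.1 * H (nm K I.1.1) = _
  rw [tsum_fintype, Finset.sum_const, Finset.card_univ, nsmul_eq_mul, torsionOrder,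
    Nat.card_eq_fintype_card]

/-- The weighted unfolded function. -/
noncomputable def FW (J : II K) (h : II K → ℝ≥0∞) (Gf : mixedSpace K → ℝ≥0∞)
    (t : logSpace K) : ℝ≥0∞ :=
  ∑' x : NZ K J, h (spn K (x : 𝓞 K)) * Gf (sg K t * mixedEmbedding K ((x : 𝓞 K) : K))

theorem FW_inv (J : II K) (h : II K → ℝ≥0∞) (Gf : mixedSpace K → ℝ≥0∞)
    (hGn : ∀ x y : mixedSpace K, (∀ w, normAtPlace w x = normAtPlace w y) → Gf x = Gf y)
    (ℓ : unitLattice K) (t : logSpace K) : FW K J h Gf (ℓ +ᵥ t) = FW K J h Gf t := by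
  unfold FW
  rw [← (HDZ.UnfoldNegAux.mulUnit K J (UnfoldAux.uu K ℓ)).tsum_eq
    (fun x : NZ K J => h (spn K (x : 𝓞 K)) * Gf (sg K t * mixedEmbedding K ((x : 𝓞 K) : K)))]
  apply tsum_congr
  intro x
  have h0 : (((HDZ.UnfoldNegAux.mulUnit K J (UnfoldAux.uu K ℓ) x : NZ K J) : 𝓞 K)) =
      (UnfoldAux.uu K ℓ : 𝓞 K) * (x : 𝓞 K) := rfl
  have h3 : mixedEmbedding K ((((HDZ.UnfoldNegAux.mulUnit K J (UnfoldAux.uu K ℓ) x : NZ K J) :
      𝓞 K)) : K) =
      mixedEmbedding K ((UnfoldAux.uu K ℓ : 𝓞 K) : K) * mixedEmbedding K ((x : 𝓞 K) : K) := by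
    rw [← map_mul]
    rfl
  have h4 : Gf (sg K (ℓ +ᵥ t) * mixedEmbedding K ((x : 𝓞 K) : K)) =
      Gf (sg K t * mixedEmbedding K
        ((((HDZ.UnfoldNegAux.mulUnit K J (UnfoldAux.uu K ℓ) x : NZ K J) : 𝓞 K)) : K)) := by
    apply hGn
    intro w
    have h2 : ℓ +ᵥ t = (ℓ : logSpace K) + t := rfl
    rw [h2, h3, normAtPlace_sg_mul, normAtPlace_sg_mul, sc_add, map_mul,
      ← UnfoldAux.log_uu K ℓ, sc_logEmbedding]
    simp only [normAtPlace_apply]
    ring
  rw [h4, h0, spn_mul (Units.ne_zero _) x.2.2, spn_unit, one_mul]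

theorem countable_NZ (J : II K) : Countable (NZ K J) := by
  have : Countable (𝓞 K) :=
    (NumberField.RingOfIntegers.basis K).equivFun.injective.countable
  infer_instance

open scoped Classical in
theorem unfoldW_neg (J : II K) (A : ClassGroup (𝓞 K)) (hJ : ClassGroup.mk0 J = A⁻¹)
    (h : II K → ℝ≥0∞) (Gf : mixedSpace K → ℝ≥0∞) (hG : Measurable Gf)
    (hGn : ∀ x y : mixedSpace K, (∀ w, normAtPlace w x = normAtPlace w y) → Gf x = Gf y)
    (H : ℝ → ℝ≥0∞) (hH : ∀ x : mixedSpace K, mixedEmbedding.norm x ≠ 0 →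
      ∫⁻ t : logSpace K, Gf (sg K t * x) = H (mixedEmbedding.norm x)) :
    ∑' x : NZ K J, h (spn K (x : 𝓞 K)) *
      ∫⁻ t in FD K, Gf (sg K (-t) * mixedEmbedding K ((x : 𝓞 K) : K)) =
      torsionOrder K * ∑' I : Cls K A, h ((I : II K) * J) * H (nm K I * nm K J) := by
  rw [← unfoldW K J A hJ h Gf hGn H hH]
  have hfd : IsAddFundamentalDomain (unitLattice K) (FD K) (volume : Measure (logSpace K)) :=
    ZLattice.isAddFundamentalDomain (basisUnitLattice K) volume
  have hinv : VAddInvariantMeasure (unitLattice K) (logSpace K) volume :=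
    ⟨fun c s _ => measure_preimage_add volume (c : logSpace K) s⟩
  have hneg : MeasurePreserving (Neg.neg : logSpace K → logSpace K) volume volume :=
    Measure.measurePreserving_neg volume
  have hfd' : IsAddFundamentalDomain (unitLattice K) (Neg.neg ⁻¹' (FD K))
      (volume : Measure (logSpace K)) := by
    apply hfd.preimage_of_equiv hneg.quasiMeasurePreserving (e := Neg.neg) neg_involutive.bijective
    intro g x
    change -((-(g : logSpace K)) + x) = (g : logSpace K) + -x
    rw [neg_add, neg_neg]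
  have hmsg : ∀ x : NZ K J, Measurable fun t : logSpace K =>
      Gf (sg K t * mixedEmbedding K ((x : 𝓞 K) : K)) := by
    intro x
    exact hG.comp ((continuous_sg K).mul continuous_const).measurable
  have hcount := countable_NZ K J
  have h1 : ∑' x : NZ K J, h (spn K (x : 𝓞 K)) *
      ∫⁻ t in FD K, Gf (sg K (-t) * mixedEmbedding K ((x : 𝓞 K) : K)) =
      ∫⁻ t in FD K, FW K J h Gf (-t) := by
    unfold FW
    rw [lintegral_tsum]
    · refine tsum_congr fun x => ?_
      exact (lintegral_const_mul _ ((hmsg x).comp measurable_neg)).symm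
    · intro x
      exact (((hmsg x).comp measurable_neg).const_mul _).aemeasurable
  have h2 : ∑' x : NZ K J, h (spn K (x : 𝓞 K)) *
      ∫⁻ t in FD K, Gf (sg K t * mixedEmbedding K ((x : 𝓞 K) : K)) =
      ∫⁻ t in FD K, FW K J h Gf t := by
    unfold FW
    rw [lintegral_tsum]
    · refine tsum_congr fun x => ?_
      rw [lintegral_const_mul _ (hmsg x)]
    · intro x
      exact ((hmsg x).const_mul _).aemeasurable
  rw [h1, h2]
  have h3 : ∫⁻ t in FD K, FW K J h Gf (-t) = ∫⁻ t in Neg.neg ⁻¹' (FD K), FW K J h Gf t := by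
    have h4 := hneg.setLIntegral_comp_preimage_emb (MeasurableEquiv.neg (logSpace K)).measurableEmbedding
      (FW K J h Gf) (Neg.neg ⁻¹' (FD K))
    rw [← h4]
    congr 2
    ext x
    simp
  rw [h3]
  exact hfd'.setLIntegral_eq hfd (FW K J h Gf) (fun g x => FW_inv K J h Gf hGn g x)

/-! ### The integral over the logarithmic space -/

open scoped Classical in
theorem sc_logMap (x : mixedSpace K) (hx : mixedEmbedding.norm x ≠ 0) (w : InfinitePlace K) :
    sc K (logMap x) w =
      normAtPlace w x * Real.exp (-(Real.log (mixedEmbedding.norm x) / (nn K : ℝ))) := by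
  set m : ℝ := (nn K : ℝ) with hm
  have hmpos : 0 < m := by
    rw [hm]
    exact_mod_cast Module.finrank_pos
  have hb0 : ∀ w, normAtPlace w x ≠ 0 := mixedEmbedding.norm_ne_zero_iff.1 hx
  have hbpos : ∀ w, 0 < normAtPlace w x := fun w =>
    lt_of_le_of_ne (normAtPlace_nonneg w x) (Ne.symm (hb0 w))
  have hmsum : ∑ w : InfinitePlace K, (mult w : ℝ) = m := by
    have h0 : nn K = ∑ w : InfinitePlace K, mult w := by
      change Module.finrank ℚ K = _
      rw [← sum_mult_eq]
    rw [hm, h0]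
    push_cast
    rfl
  set L : ℝ := Real.log (mixedEmbedding.norm x) with hL
  set θ : InfinitePlace K → ℝ := fun w => Real.log (normAtPlace w x) - L / m with hθ
  have hsum : ∑ w : InfinitePlace K, (mult w : ℝ) * θ w = 0 := by
    have h1 : ∑ w : InfinitePlace K, (mult w : ℝ) * Real.log (normAtPlace w x) = L := by
      rw [hL, mixedEmbedding.norm_apply, Real.log_prod (fun w _ => pow_ne_zero _ (hb0 w))]
      refine Finset.sum_congr rfl fun w _ => ?_
      rw [Real.log_pow]
    simp only [hθ, mul_sub]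
    rw [Finset.sum_sub_distrib, h1, ← Finset.sum_mul, hmsum]
    field_simp
    ring
  have hlog : ∀ v : {w : InfinitePlace K // w ≠ w₀}, logMap x v = (mult v.1 : ℝ) * θ v.1 := by
    intro v
    rw [logMap_apply]
    simp only [hθ]
    rw [div_eq_mul_inv]
  have hexp : Real.exp (θ w) = normAtPlace w x * Real.exp (-(L / m)) := by
    simp only [hθ]
    rw [sub_eq_add_neg, Real.exp_add, Real.exp_log (hbpos w)]
  rw [← hexp]
  unfold sc
  split_ifs with h
  · congr 1
    have h0 : (mult (w₀ : InfinitePlace K) : ℝ) ≠ 0 := mult_coe_ne_zero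
    have h1 : ∑ v : {w : InfinitePlace K // w ≠ w₀}, logMap x v =
        -((mult (w₀ : InfinitePlace K) : ℝ) * θ w₀) := by
      rw [Finset.sum_congr rfl (fun v _ => hlog v)]
      rw [Fintype.sum_eq_add_sum_subtype_ne (fun w : InfinitePlace K => (mult w : ℝ) * θ w) w₀]
        at hsum
      linarith
    rw [h1, h]
    field_simp
  · congr 1
    have h0 : (mult w : ℝ) ≠ 0 := mult_coe_ne_zero
    rw [hlog]
    simp only
    field_simp

variable [IsTotallyComplex K]

open scoped Classical in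
theorem en_sg_sq (t : logSpace K) (x : mixedSpace K) (hx : mixedEmbedding.norm x ≠ 0) :
    en K (sg K t * x) ^ 2 = mixedEmbedding.norm x ^ (1 / (mm K : ℝ)) *
      ∑ w : InfinitePlace K, sc K (t + logMap x) w ^ 2 := by
  have hpos : 0 < mixedEmbedding.norm x :=
    lt_of_le_of_ne (mixedEmbedding.norm_nonneg x) (Ne.symm hx)
  have hm : (0 : ℝ) < (mm K : ℝ) := by exact_mod_cast one_le_mm K
  have hn : (nn K : ℝ) = 2 * (mm K : ℝ) := by rw [nn_eq K]; push_cast; ring
  unfold en
  rw [Real.sq_sqrt (Finset.sum_nonneg fun w _ => sq_nonneg _), Finset.mul_sum]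
  refine Finset.sum_congr rfl fun w _ => ?_
  rw [normAtPlace_sg_mul, sc_add, sc_logMap K x hx, hn, mul_pow, mul_pow, mul_pow,
    ← Real.exp_nat_mul]
  have h1 : mixedEmbedding.norm x ^ (1 / (mm K : ℝ)) *
      Real.exp (((2 : ℕ) : ℝ) * -(Real.log (mixedEmbedding.norm x) / (2 * (mm K : ℝ)))) = 1 := by
    rw [Real.rpow_def_of_pos hpos, ← Real.exp_add, Real.exp_eq_one_iff]
    push_cast
    field_simp
    ring
  calc sc K t w ^ 2 * normAtPlace w x ^ 2 = (mixedEmbedding.norm x ^ (1 / (mm K : ℝ)) *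
      Real.exp (((2 : ℕ) : ℝ) * -(Real.log (mixedEmbedding.norm x) / (2 * (mm K : ℝ))))) *
        (sc K t w ^ 2 * normAtPlace w x ^ 2) := by rw [h1, one_mul]
    _ = _ := by ring

open scoped Classical in
theorem hH_aux {a : ℝ} (ha : 0 < a) (x : mixedSpace K) (hx : mixedEmbedding.norm x ≠ 0) :
    ∫⁻ t : logSpace K, ENNReal.ofReal (Real.exp (-(2 * Real.pi * a *
        en K (sg K t * x) ^ 2))) =
      ENNReal.ofReal ((2 ^ mm K)⁻¹ * kap K (a ^ mm K * mixedEmbedding.norm x)) := by
  have hpos : 0 < mixedEmbedding.norm x :=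
    lt_of_le_of_ne (mixedEmbedding.norm_nonneg x) (Ne.symm hx)
  have hm : mm K ≠ 0 := by have := one_le_mm K; omega
  set b : ℝ := 2 * Real.pi * (a ^ mm K * mixedEmbedding.norm x) ^ (1 / (mm K : ℝ)) with hb
  have hbpos : 0 < b := by
    rw [hb]
    have := Real.pi_pos
    positivity
  have h1 : ∀ t : logSpace K, 2 * Real.pi * a * en K (sg K t * x) ^ 2 =
      b * ∑ w : InfinitePlace K, sc K (t + logMap x) w ^ 2 := by
    intro t
    rw [en_sg_sq K t x hx, hb, Real.mul_rpow (by positivity) hpos.le, one_div,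
      Real.pow_rpow_inv_natCast ha.le hm]
    ring
  have h2 : (2 ^ mm K)⁻¹ * kap K (a ^ mm K * mixedEmbedding.norm x) =
      ∫ t : logSpace K, Real.exp (-(b * ∑ w : InfinitePlace K, sc K t w ^ 2)) := by
    unfold kap
    rw [← mul_assoc, inv_mul_cancel₀ (by positivity), one_mul]
  rw [h2, ofReal_integral_eq_lintegral_ofReal (kap_integrable K hbpos)
    (Filter.Eventually.of_forall fun t => (Real.exp_pos _).le)]
  simp only [h1]
  exact lintegral_add_right_eq_self
    (fun t : logSpace K => ENNReal.ofReal (Real.exp (-(b * ∑ w : InfinitePlace K, sc K t w ^ 2))))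
    (logMap x)

/-! ### The complex identity -/

theorem exists_cls (J : II K) (A : ClassGroup (𝓞 K)) (hJ : ClassGroup.mk0 J = A⁻¹)
    (x : NZ K J) : ∃ I : Cls K A, spn K (x : 𝓞 K) = (I : II K) * J := by
  have h1 : (J : Ideal (𝓞 K)) ∣ (spn K (x : 𝓞 K) : Ideal (𝓞 K)) := by
    rw [coe_spn x.2.2, Ideal.dvd_span_singleton]
    exact x.2.1
  obtain ⟨I, hI⟩ := nonZeroDivisors_dvd_iff_dvd_coe.mpr h1
  have h2 : ClassGroup.mk0 (spn K (x : 𝓞 K)) = 1 := by
    rw [ClassGroup.mk0_eq_one_iff, coe_spn x.2.2]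
    exact ⟨_, rfl⟩
  refine ⟨⟨I, ?_⟩, ?_⟩
  · rw [hI, map_mul, hJ, inv_mul_eq_one] at h2
    exact h2.symm
  · exact hI.trans (mul_comm _ _)

/-- The ideal attached to an element. -/
noncomputable def cl (J : II K) (A : ClassGroup (𝓞 K)) (hJ : ClassGroup.mk0 J = A⁻¹)
    (x : NZ K J) : Cls K A := (exists_cls K J A hJ x).choose

theorem cl_spec (J : II K) (A : ClassGroup (𝓞 K)) (hJ : ClassGroup.mk0 J = A⁻¹)
    (x : NZ K J) : spn K (x : 𝓞 K) = (cl K J A hJ x : II K) * J :=
  (exists_cls K J A hJ x).choose_spec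

theorem cl_eq_iff (J : II K) (A : ClassGroup (𝓞 K)) (hJ : ClassGroup.mk0 J = A⁻¹)
    (x : NZ K J) (I : Cls K A) : cl K J A hJ x = I ↔ spn K (x : 𝓞 K) = (I : II K) * J := by
  constructor
  · rintro rfl
    exact cl_spec K J A hJ x
  · intro h
    apply Subtype.ext
    apply ii_cancel (C := J)
    rw [mul_comm, ← cl_spec K J A hJ x, h, mul_comm]

omit [IsTotallyComplex K] in
open scoped Classical in
/-- Grouping an absolutely convergent sum by the fibres of a map. -/
theorem group_sum {X Y : Type} (f : X → Y) (p : X → ℝ≥0∞) (k : Y → ℝ) (hk : ∀ I, 0 ≤ k I)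
    (w : ℕ) (c : Y → ℂ) (hc : ∀ I, ‖c I‖ ≤ 1) (hp : ∑' x, p x ≠ ⊤)
    (hfib : ∀ I, ∑' x : X, (if f x = I then 1 else 0) * p x = w * ENNReal.ofReal (k I)) :
    ∑' x : X, c (f x) * ((p x).toReal : ℂ) = ∑' I : Y, c I * ((w * k I : ℝ) : ℂ) := by
  have hpt : ∀ x, p x ≠ ⊤ := fun x => ENNReal.ne_top_of_tsum_ne_top hp x
  have hps : Summable fun x => (p x).toReal := ENNReal.summable_toReal hp
  have hfib' : ∀ I : Y, ∑' x : {x : X // f x = I}, ((p x.1).toReal : ℂ) =
      ((w * k I : ℝ) : ℂ) := by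
    intro I
    rw [← Complex.ofReal_tsum]
    congr 1
    have h0 := ENNReal.tsum_toReal_eq (f := fun x : {x : X // f x = I} => p x.1)
      (fun x => hpt x.1)
    rw [← h0]
    have h3 : ∑' x : {x : X // f x = I}, p x.1 =
        ∑' x : X, (if f x = I then 1 else 0) * p x := by
      refine (tsum_subtype {x : X | f x = I} p).trans ?_
      refine tsum_congr fun x => ?_
      by_cases hx : f x = I
      · rw [Set.indicator_of_mem (show x ∈ {x : X | f x = I} from hx), if_pos hx, one_mul]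
      · rw [Set.indicator_of_notMem (show x ∉ {x : X | f x = I} from hx), if_neg hx, zero_mul]
    rw [h3, hfib I, ENNReal.toReal_mul, ENNReal.toReal_natCast, ENNReal.toReal_ofReal (hk I)]
  have hsum : Summable fun x : X => c (f x) * ((p x).toReal : ℂ) := by
    refine Summable.of_norm_bounded hps fun x => ?_
    rw [norm_mul, Complex.norm_real, Real.norm_of_nonneg ENNReal.toReal_nonneg]
    exact mul_le_of_le_one_left ENNReal.toReal_nonneg (hc _)
  rw [← (Equiv.sigmaFiberEquiv f).tsum_eq]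
  have h1 : Summable fun q : (Σ I : Y, {x : X // f x = I}) =>
      c (f ((Equiv.sigmaFiberEquiv f) q)) *
        ((p ((Equiv.sigmaFiberEquiv f) q)).toReal : ℂ) :=
    (Equiv.sigmaFiberEquiv f).summable_iff.2 hsum
  rw [h1.tsum_sigma]
  refine tsum_congr fun I => ?_
  rw [← hfib' I, ← tsum_mul_left]
  refine tsum_congr fun x => ?_
  change c (f x.1) * _ = _
  rw [x.2]
  rfl

open scoped Classical in
/-- The general form, for a sign `ν`. -/
theorem unf_gen (J : II K) (A : ClassGroup (𝓞 K)) (hJ : ClassGroup.mk0 J = A⁻¹) (c : II K → ℂ)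
    (hc : ∀ I, ‖c I‖ ≤ 1) (e : 𝓞 K → ℂ)
    (he : ∀ (x : 𝓞 K) (I : II K), x ≠ 0 → I * J = spn K x → e x = c I) {y : ℝ} (hy : 0 < y)
    (ν : logSpace K → logSpace K) (hν : Continuous ν)
    (hU : ∀ (h : II K → ℝ≥0∞) (Gf : mixedSpace K → ℝ≥0∞) (_ : Measurable Gf)
      (_ : ∀ x y : mixedSpace K, (∀ w, normAtPlace w x = normAtPlace w y) → Gf x = Gf y)
      (H : ℝ → ℝ≥0∞) (_ : ∀ x : mixedSpace K, mixedEmbedding.norm x ≠ 0 →
        ∫⁻ t : logSpace K, Gf (sg K t * x) = H (mixedEmbedding.norm x)),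
      ∑' x : NZ K J, h (spn K (x : 𝓞 K)) *
        ∫⁻ t in FD K, Gf (sg K (ν t) * mixedEmbedding K ((x : 𝓞 K) : K)) =
        torsionOrder K * ∑' I : Cls K A, h ((I : II K) * J) * H (nm K I * nm K J)) :
    (torsionOrder K : ℂ) * ∑' I : Cls K A, c I * (kap K (nm K I * y) : ℂ) =
      2 ^ mm K * ∫ t in FD K, ∑' x : NZ K J, e x * (Real.exp (-(2 * Real.pi *
        (y / nm K J) ^ (1 / (mm K : ℝ)) *
          en K (sg K (ν t) * mixedEmbedding K ((x : 𝓞 K) : K)) ^ 2)) : ℂ) := by
  have hJ0 : 0 < nm K J := nm_pos J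
  have hmm : mm K ≠ 0 := by have := one_le_mm K; omega
  set a : ℝ := (y / nm K J) ^ (1 / (mm K : ℝ)) with ha
  have ha0 : 0 < a := by rw [ha]; positivity
  have ham : a ^ mm K = y / nm K J := by
    rw [ha, one_div, Real.rpow_inv_natCast_pow (by positivity) hmm]
  have hcount := countable_NZ K J
  -- the real functions
  set F : NZ K J → logSpace K → ℝ := fun x t => Real.exp (-(2 * Real.pi * a *
    en K (sg K (ν t) * mixedEmbedding K ((x : 𝓞 K) : K)) ^ 2)) with hF
  have hFc : ∀ x, Continuous (F x) := by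
    intro x
    have h1 : Continuous fun t : logSpace K =>
        en K (sg K (ν t) * mixedEmbedding K ((x : 𝓞 K) : K)) :=
      (continuous_en K).comp (((continuous_sg K).comp hν).mul continuous_const)
    exact Real.continuous_exp.comp ((continuous_const.mul (h1.pow 2)).neg)
  have hF0 : ∀ x t, 0 ≤ F x t := fun x t => (Real.exp_pos _).le
  set pw : NZ K J → ℝ≥0∞ := fun x => ∫⁻ t in FD K, ENNReal.ofReal (F x t) with hpw
  set κ : Cls K A → ℝ := fun I => (2 ^ mm K)⁻¹ * kap K (nm K I * y) with hκ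
  have hκ0 : ∀ I, 0 ≤ κ I := fun I => by
    simp only [hκ]
    have := kap_nonneg K (nm K (I : II K) * y)
    positivity
  have hGm : Measurable fun z : mixedSpace K =>
      ENNReal.ofReal (Real.exp (-(2 * Real.pi * a * en K z ^ 2))) := by
    have h1 : Continuous fun z : mixedSpace K => Real.exp (-(2 * Real.pi * a * en K z ^ 2)) :=
      Real.continuous_exp.comp ((continuous_const.mul ((continuous_en K).pow 2)).neg)
    exact ENNReal.measurable_ofReal.comp h1.measurable
  have hUU : ∀ h : II K → ℝ≥0∞, ∑' x : NZ K J, h (spn K (x : 𝓞 K)) * pw x =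
      torsionOrder K * ∑' I : Cls K A, h ((I : II K) * J) * ENNReal.ofReal (κ I) := by
    intro h
    have h1 := hU h (fun z => ENNReal.ofReal (Real.exp (-(2 * Real.pi * a * en K z ^ 2))))
      hGm
      (fun z z' hz => by
        have : en K z = en K z' := by
          unfold en
          simp only [hz]
        rw [this])
      (fun N => ENNReal.ofReal ((2 ^ mm K)⁻¹ * kap K (a ^ mm K * N)))
      (fun z hz => hH_aux K ha0 z hz)
    refine h1.trans ?_
    congr 1
    refine tsum_congr fun I => ?_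
    congr 2
    simp only [hκ]
    congr 2
    rw [ham]
    field_simp
  -- finiteness
  have hκs : Summable κ := by
    obtain ⟨C, hC, hCb⟩ := kap_bound K (a := 2) (by norm_num)
    have h1 : Summable fun I : Cls K A => nm K (I : II K) ^ (-(2 : ℝ)) :=
      (summable_nm K 2 (by norm_num)).comp_injective Subtype.val_injective
    refine Summable.of_nonneg_of_le hκ0 (fun I => ?_)
      (h1.mul_left ((2 ^ mm K)⁻¹ * (C * y ^ (-(2 : ℝ)))))
    have h2 := hCb (nm K (I : II K) * y) (mul_pos (nm_pos _) hy)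
    have h3 : (nm K (I : II K) * y) ^ (-(2 : ℝ)) =
        nm K (I : II K) ^ (-(2 : ℝ)) * y ^ (-(2 : ℝ)) :=
      Real.mul_rpow (nm_pos _).le hy.le
    rw [h3] at h2
    simp only [hκ]
    have h4 : (0 : ℝ) < (2 ^ mm K)⁻¹ := by positivity
    calc (2 ^ mm K)⁻¹ * kap K (nm K (I : II K) * y)
        ≤ (2 ^ mm K)⁻¹ * (C * (nm K (I : II K) ^ (-(2 : ℝ)) * y ^ (-(2 : ℝ)))) := by
          gcongr
      _ = _ := by ring
  have hpws : ∑' x, pw x ≠ ⊤ := by
    have h1 := hUU (fun _ => 1)
    simp only [one_mul] at h1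
    rw [h1]
    refine ENNReal.mul_ne_top (ENNReal.natCast_ne_top _) ?_
    exact hκs.tsum_ofReal_ne_top
  have hpwt : ∀ x, pw x ≠ ⊤ := fun x => ENNReal.ne_top_of_tsum_ne_top hpws x
  have hFint : ∀ x, Integrable (F x) (volume.restrict (FD K)) := by
    intro x
    refine ⟨(hFc x).aestronglyMeasurable, ?_⟩
    rw [hasFiniteIntegral_iff_ofReal (Filter.Eventually.of_forall fun t => hF0 x t)]
    exact lt_top_iff_ne_top.2 (hpwt x)
  have hP : ∀ x, ∫ t in FD K, F x t = (pw x).toReal := by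
    intro x
    rw [integral_eq_lintegral_of_nonneg_ae (Filter.Eventually.of_forall fun t => hF0 x t)
      (hFc x).aestronglyMeasurable]
  have hps : Summable fun x => (pw x).toReal := ENNReal.summable_toReal hpws
  have hen : ∀ x : NZ K J, e x = c (cl K J A hJ x) := fun x =>
    he x _ x.2.2 (cl_spec K J A hJ x).symm
  have hen1 : ∀ x : NZ K J, ‖e x‖ ≤ 1 := fun x => by rw [hen x]; exact hc _
  -- exchange
  have hex : ∫ t in FD K, ∑' x : NZ K J, e x * (F x t : ℂ) =
      ∑' x : NZ K J, e x * ((pw x).toReal : ℂ) := by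
    have h1 : ∀ x : NZ K J, Integrable (fun t => e x * (F x t : ℂ)) (volume.restrict (FD K)) :=
      fun x => (hFint x).ofReal.const_mul _
    have h2 : Summable fun x : NZ K J => ∫ t in FD K, ‖e x * (F x t : ℂ)‖ := by
      refine Summable.of_nonneg_of_le (fun x => integral_nonneg fun t => norm_nonneg _)
        (fun x => ?_) hps
      rw [← hP x]
      refine integral_mono (h1 x).norm (hFint x) fun t => ?_
      simp only
      rw [norm_mul, Complex.norm_real, Real.norm_of_nonneg (hF0 x t)]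
      exact mul_le_of_le_one_left (hF0 x t) (hen1 x)
    rw [← (hasSum_integral_of_summable_integral_norm h1 h2).tsum_eq]
    refine tsum_congr fun x => ?_
    rw [integral_const_mul, integral_complex_ofReal, hP x]
  -- grouping
  have hgr : ∑' x : NZ K J, e x * ((pw x).toReal : ℂ) =
      ∑' I : Cls K A, c I * ((torsionOrder K * κ I : ℝ) : ℂ) := by
    have h1 := group_sum (cl K J A hJ) pw κ hκ0 (torsionOrder K) (fun I => c I)
      (fun I => hc I) hpws (fun I => by
        have h2 : ∑' I' : Cls K A, (if ((I' : II K) * J = (I : II K) * J) then (1 : ℝ≥0∞) else 0) *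
            ENNReal.ofReal (κ I') = ENNReal.ofReal (κ I) := by
          rw [tsum_eq_single I]
          · simp
          · intro I' hI'
            rw [if_neg, zero_mul]
            intro h
            apply hI'
            apply Subtype.ext
            apply ii_cancel (C := J)
            rw [mul_comm, h, mul_comm]
        rw [← h2, ← hUU (fun I' => if I' = (I : II K) * J then 1 else 0)]
        refine tsum_congr fun x => ?_
        simp only [cl_eq_iff])
    rw [← h1]
    exact tsum_congr fun x => by rw [hen x]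
  change _ = 2 ^ mm K * ∫ t in FD K, ∑' x : NZ K J, e x * (F x t : ℂ)
  rw [hex, hgr, ← tsum_mul_left, ← tsum_mul_left]
  refine tsum_congr fun I => ?_
  simp only [hκ]
  push_cast
  have h5 : (2 : ℂ) ^ mm K ≠ 0 := pow_ne_zero _ two_ne_zero
  field_simp

end UnfAux

open UnfAux

variable [IsTotallyComplex K]

open scoped Classical in
theorem unf (J : II K) (A : ClassGroup (𝓞 K)) (hJ : ClassGroup.mk0 J = A⁻¹) (c : II K → ℂ)
    (hc : ∀ I, ‖c I‖ ≤ 1) (e : 𝓞 K → ℂ)
    (he : ∀ (x : 𝓞 K) (I : II K), x ≠ 0 → I * J = spn K x → e x = c I) {y : ℝ} (hy : 0 < y) :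
    (torsionOrder K : ℂ) * ∑' I : Cls K A, c I * (kap K (nm K I * y) : ℂ) =
      2 ^ mm K * ∫ t in FD K, ∑' x : NZ K J, e x * (Real.exp (-(2 * Real.pi *
        (y / nm K J) ^ (1 / (mm K : ℝ)) * en K (sg K t * mixedEmbedding K ((x : 𝓞 K) : K)) ^ 2)) : ℂ) :=
  unf_gen K J A hJ c hc e he hy id continuous_id
    (fun h Gf _ hGn H hH => unfoldW K J A hJ h Gf hGn H hH)

open scoped Classical in
theorem unf_neg (J : II K) (A : ClassGroup (𝓞 K)) (hJ : ClassGroup.mk0 J = A⁻¹) (c : II K → ℂ)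
    (hc : ∀ I, ‖c I‖ ≤ 1) (e : 𝓞 K → ℂ)
    (he : ∀ (x : 𝓞 K) (I : II K), x ≠ 0 → I * J = spn K x → e x = c I) {y : ℝ} (hy : 0 < y) :
    (torsionOrder K : ℂ) * ∑' I : Cls K A, c I * (kap K (nm K I * y) : ℂ) =
      2 ^ mm K * ∫ t in FD K, ∑' x : NZ K J, e x * (Real.exp (-(2 * Real.pi *
        (y / nm K J) ^ (1 / (mm K : ℝ)) * en K (sg K (-t) * mixedEmbedding K ((x : 𝓞 K) : K)) ^ 2)) : ℂ) :=
  unf_gen K J A hJ c hc e he hy (fun t => -t) continuous_neg
    (fun h Gf hG hGn H hH => unfoldW_neg K J A hJ h Gf hG hGn H hH)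

end Pool.Agent.CMZ
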